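import Mathlib

/-!
# MP_38461c_gt (b): the notions in the statement

Complex manifolds are modelled on `Fin n → ℂ` with holomorphic transition maps
(`IsManifold 𝓘(ℂ, Fin n → ℂ) ω M`).  A Hermitian metric `ω = i ∑ g_{jk̄} dz_j ∧ dz̄_k` is given by
its matrices `g_{jk̄}` in the charts of the atlas.
-/

open scoped ContDiff Manifold ComplexConjugate ComplexOrder
open Complex MeasureTheory

namespace Pool.Agent.KG

/-- The Wirtinger derivative `∂f/∂z_j = (∂f/∂x_j - i ∂f/∂y_j)/2` at `p`. -/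
noncomputable def dz {n : ℕ} (j : Fin n) (f : (Fin n → ℂ) → ℂ) (p : Fin n → ℂ) : ℂ :=
  (fderiv ℝ f p (Pi.single j 1) - I * fderiv ℝ f p (Pi.single j I)) / 2

/-- The Wirtinger derivative `∂f/∂z̄_j = (∂f/∂x_j + i ∂f/∂y_j)/2` at `p`. -/
noncomputable def dzb {n : ℕ} (j : Fin n) (f : (Fin n → ℂ) → ℂ) (p : Fin n → ℂ) : ℂ :=
  (fderiv ℝ f p (Pi.single j 1) + I * fderiv ℝ f p (Pi.single j I)) / 2

/-- The pull-back of the (1,1)-form `i ∑ h_{lm̄} dw_l ∧ dw̄_m` under the holomorphic map `w`: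
`(w^*h)_{jk̄} = ∑_{l,m} (∂w_l/∂z_j) conj(∂w_m/∂z_k) h_{lm̄}`. -/
noncomputable def pull {n : ℕ} (w : (Fin n → ℂ) → Fin n → ℂ)
    (h : (Fin n → ℂ) → Matrix (Fin n) (Fin n) ℂ) (z : Fin n → ℂ) : Matrix (Fin n) (Fin n) ℂ :=
  fun j k => ∑ l, ∑ m, dz j (fun z' => w z' l) z * conj (dz k (fun z' => w z' m) z) * h (w z) l m

/-- A smooth Hermitian metric `ω = i ∑ g_{jk̄} dz_j ∧ dz̄_k` on a complex manifold `M` of
dimension `n`: for every chart `φ` of the atlas a smooth function `g φ` on the target of `φ` with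
values in the positive definite Hermitian matrices, transforming under a change of charts
`w = ψ ∘ φ⁻¹` by pull-back, `g^φ_{jk̄} = ∑_{l,m} (∂w_l/∂z_j) conj(∂w_m/∂z_k) g^ψ_{lm̄}`. -/
structure HermitianMetric (n : ℕ) (M : Type) [TopologicalSpace M]
    [ChartedSpace (Fin n → ℂ) M] where
  /-- the matrix `(g_{jk̄})` in the chart `φ`, as a function of the coordinates -/
  g : OpenPartialHomeomorph M (Fin n → ℂ) → (Fin n → ℂ) → Matrix (Fin n) (Fin n) ℂ
  smooth : ∀ φ ∈ atlas (Fin n → ℂ) M, ∀ j k, ContDiffOn ℝ ∞ (fun z => g φ z j k) φ.target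
  posDef : ∀ φ ∈ atlas (Fin n → ℂ) M, ∀ z ∈ φ.target, (g φ z).PosDef
  compat : ∀ φ ∈ atlas (Fin n → ℂ) M, ∀ ψ ∈ atlas (Fin n → ℂ) M, ∀ z ∈ φ.target,
    φ.symm z ∈ ψ.source → g φ z = pull (fun z' => ψ (φ.symm z')) (g ψ) z

/-- The Chern scalar curvature `s_C = tr_ω Ric^C(ω) = - ∑ g^{jk̄} ∂_j ∂_k̄ log det g` of the
Hermitian metric with matrix function `g` at the point with coordinates `z`; here
`g^{jk̄} = (g⁻¹)_{kj}`. -/
noncomputable def scal {n : ℕ} (g : (Fin n → ℂ) → Matrix (Fin n) (Fin n) ℂ) (z : Fin n → ℂ) : ℝ :=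
  (-∑ j, ∑ k, (g z)⁻¹ k j * dz j (dzb k (fun w => (Real.log (g w).det.re : ℂ))) z).re

namespace HermitianMetric

variable {n : ℕ} {M : Type} [TopologicalSpace M] [ChartedSpace (Fin n → ℂ) M]

/-- `dω = 0`, that is `∂_i g_{jk̄} = ∂_j g_{ik̄}` in all charts. -/
def IsKahler (G : HermitianMetric n M) : Prop :=
  ∀ φ ∈ atlas (Fin n → ℂ) M, ∀ z ∈ φ.target, ∀ i j k,
    dz i (fun w => G.g φ w j k) z = dz j (fun w => G.g φ w i k) z

/-- `∂∂̄ ω^{n-1} = 0`, that is `∑_{j,k} ∂_j ∂_k̄ (det(g) g^{jk̄}) = 0` in all charts; here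
`det(g) g^{jk̄}` is the entry `(k, j)` of the adjugate matrix. -/
def IsGauduchon (G : HermitianMetric n M) : Prop :=
  ∀ φ ∈ atlas (Fin n → ℂ) M, ∀ z ∈ φ.target,
    ∑ j, ∑ k, dz j (dzb k (fun w => (G.g φ w).adjugate k j)) z = 0

/-- The Chern scalar curvature of `G` as a function on `M` (computed in the preferred chart at
each point). -/
noncomputable def chernScalar (G : HermitianMetric n M) (x : M) : ℝ :=
  scal (G.g (chartAt (Fin n → ℂ) x)) (chartAt (Fin n → ℂ) x x)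

/-- `μ` is the measure given by the volume form `ω^n/n! = det(g) ∏ (i dz_j ∧ dz̄_j)`, that is
`2^n det(g)` times Lebesgue measure in every chart. -/
def IsVolume [MeasurableSpace M] (G : HermitianMetric n M) (μ : Measure M) : Prop :=
  ∀ φ ∈ atlas (Fin n → ℂ) M, ∀ A ⊆ φ.source, MeasurableSet A →
    μ A = ∫⁻ z in φ '' A, ENNReal.ofReal (2 ^ n * (G.g φ z).det.re)

end HermitianMetric

/-- `M` is a compact connected complex manifold of dimension `n`. -/
def IsCompactComplexManifold (n : ℕ) (M : Type) [TopologicalSpace M]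
    [ChartedSpace (Fin n → ℂ) M] : Prop :=
  CompactSpace M ∧ T2Space M ∧ ConnectedSpace M ∧ IsManifold 𝓘(ℂ, Fin n → ℂ) ω M

end Pool.Agent.KG
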