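import Mathlib
import Pool.Agent.KG.Defs
import Pool.Agent.Hhelper97.Gam.Cocompact

/-!
# MP_38461c_gt (b): interface of the analytic part

`M = Γ \ (H × P²)`, `Γ = Grp < SL(2,ℝ)`, `γ (z, [w₀:w₁:w₂]) = (γ z, [w₀:w₁:(cz+d) w₂])`.
Three etale charts `U → M`, `U = {Im p₀ > 0} ⊆ ℂ³`:
* chart 2: `(z, u₁, u₂) ↦ (z, [u₁ : u₂ : 1])`,
* chart 0: `(z, a, q) ↦ (z, [1 : a : q])`,
* chart 1: `(z, b, q) ↦ (z, [b : 1 : q])`.
-/

open scoped ContDiff Manifold ComplexConjugate ComplexOrder MatrixGroups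
open Complex MeasureTheory

namespace Pool.Agent.KG

open Pool.Agent.Hhelper97.Gam in
/-- the Fuchsian group -/
abbrev Gp : Subgroup SL(2, ℝ) := Grp

abbrev V := Fin 3 → ℂ
abbrev Mat := Matrix (Fin 3) (Fin 3) ℂ

/-- `ℍ × ℂ²` as an open subset of `ℂ³` -/
def U : Set V := {p | 0 < (p 0).im}

/-- `cz + d` -/
noncomputable def den (γ : SL(2, ℝ)) (z : ℂ) : ℂ := (γ 1 0 : ℝ) * z + (γ 1 1 : ℝ)

/-- `(az + b)/(cz + d)` -/
noncomputable def mob (γ : SL(2, ℝ)) (z : ℂ) : ℂ := ((γ 0 0 : ℝ) * z + (γ 0 1 : ℝ)) / den γ z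

/-- the action of `γ` in chart 2: `(z,u) ↦ (γz, u/(cz+d))` -/
noncomputable def act2 (γ : SL(2, ℝ)) (p : V) : V :=
  ![mob γ (p 0), p 1 / den γ (p 0), p 2 / den γ (p 0)]

/-- the action of `γ` in charts 0 and 1: `(z,a,q) ↦ (γz, a, (cz+d)q)` -/
noncomputable def act0 (γ : SL(2, ℝ)) (p : V) : V :=
  ![mob γ (p 0), p 1, den γ (p 0) * p 2]

/-- the action in chart `i` -/
noncomputable def act (i : Fin 3) (γ : SL(2, ℝ)) : V → V := if i = 2 then act2 γ else act0 γ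

/-- change of coordinates from chart 0 to chart 2: `(z,a,q) ↦ (z, 1/q, a/q)` -/
noncomputable def T0 (p : V) : V := ![p 0, 1 / p 2, p 1 / p 2]

/-- change of coordinates from chart 1 to chart 2: `(z,b,q) ↦ (z, b/q, 1/q)` -/
noncomputable def T1 (p : V) : V := ![p 0, p 1 / p 2, 1 / p 2]

/-! ### (1,1)-forms -/

/-- `C_{jk}(A,B)`, the polarised cofactor matrix: `∑_{jk} A_{jk} C_{jk}(B,C)` is the coefficient of
`A ∧ B ∧ C`, `cofm A A = 2 (adjugate A)ᵀ`. -/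
def cofm (A B : Mat) : Mat := fun j k =>
  A (j + 1) (k + 1) * B (j + 2) (k + 2) + A (j + 2) (k + 2) * B (j + 1) (k + 1)
    - A (j + 1) (k + 2) * B (j + 2) (k + 1) - A (j + 2) (k + 1) * B (j + 1) (k + 2)

/-- polarisation of `6 det` -/
def D3 (A B C : Mat) : ℂ := ∑ j, ∑ k, A j k * cofm B C j k

/-- a smooth real (1,1)-form on `M`, given by its matrices in the three charts -/
structure Form11 (W : Fin 3 → V → Mat) : Prop where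
  smooth : ∀ i j k, ContDiffOn ℝ ∞ (fun p => W i p j k) U
  herm : ∀ i, ∀ p ∈ U, (W i p).IsHermitian
  pull0 : ∀ p ∈ U, p 2 ≠ 0 → W 0 p = pull T0 (W 2) p
  pull1 : ∀ p ∈ U, p 2 ≠ 0 → W 1 p = pull T1 (W 2) p
  equiv : ∀ γ ∈ Gp, ∀ p ∈ U, W 2 p = pull (act2 γ) (W 2) p

/-- closedness, `∂_a W_{jk̄} = ∂_j W_{ak̄}` -/
def Closed (W : Fin 3 → V → Mat) : Prop :=
  ∀ i, ∀ p ∈ U, ∀ a j k, dz a (fun p => W i p j k) p = dz j (fun p => W i p a k) p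

/-- a smooth real function on `M`, given by its expressions in the three charts -/
structure Fun0 (h : Fin 3 → V → ℝ) : Prop where
  smooth : ∀ i, ContDiffOn ℝ ∞ (h i) U
  pull0 : ∀ p ∈ U, p 2 ≠ 0 → h 0 p = h 2 (T0 p)
  pull1 : ∀ p ∈ U, p 2 ≠ 0 → h 1 p = h 2 (T1 p)
  equiv : ∀ γ ∈ Gp, ∀ p ∈ U, h 2 p = h 2 (act2 γ p)

/-- the complex Hessian `h_{jk̄} = ∂_j ∂_k̄ h` -/
noncomputable def hess (h : V → ℝ) (p : V) : Mat := fun j k => dz j (dzb k (fun w => (h w : ℂ))) p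

/-- a smooth (0,1)-form `∑ α_k dz̄_k` in chart 2, equivariant -/
structure Form01 (α : Fin 3 → V → ℂ) : Prop where
  smooth : ∀ k, ContDiffOn ℝ 1 (α k) U
  equiv : ∀ γ ∈ Gp, ∀ p ∈ U, ∀ k,
    α k p = ∑ m, conj (dz k (fun p' => act2 γ p' m) p) * α m (act2 γ p)

/-- the components in chart 0 of a (0,1)-form -/
noncomputable def pull01 (T : V → V) (α : Fin 3 → V → ℂ) (k : Fin 3) (p : V) : ℂ :=
  ∑ m, conj (dz k (fun p' => T p' m) p) * α m (T p)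

/-- growth condition at `D₂ = {q = 0}` for a (0,1)-form, in chart 0 (`T = T0`) or 1 (`T = T1`) -/
structure TameAt (T : V → V) (α : Fin 3 → V → ℂ) : Prop where
  bdd : ∀ K : Set ℂ, IsCompact K → K ⊆ {z | 0 < z.im} → ∃ C : ℝ, ∀ p : V, p 0 ∈ K →
    ‖p 1‖ ≤ 1 → p 2 ≠ 0 → ‖p 2‖ ≤ 1 →
      ‖pull01 T α 0 p‖ ≤ C ∧ ‖pull01 T α 1 p‖ ≤ C ∧ ‖p 2‖ * ‖pull01 T α 2 p‖ ≤ C
  mean : ∀ z a : ℂ, 0 < z.im → ‖a‖ ≤ 1 → Filter.Tendsto (fun ρ : ℝ =>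
      ∫ θ in (0 : ℝ)..2 * Real.pi,
        conj (ρ * Complex.exp (θ * I)) * pull01 T α 2 ![z, a, ρ * Complex.exp (θ * I)])
      (nhdsWithin 0 (Set.Ioi 0)) (nhds 0)

def Tame (α : Fin 3 → V → ℂ) : Prop := TameAt T0 α ∧ TameAt T1 α

/-! ### the weight, the cut-off and integrals over `M` -/

/-- weight on `ℍ` with `∑_γ ψ(γz) = 1` -/
structure IsPsi (ψ : ℂ → ℝ) : Prop where
  smooth : ContDiff ℝ ∞ ψ
  cpt : HasCompactSupport ψ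
  supp : tsupport ψ ⊆ {z | 0 < z.im}
  nonneg : ∀ z, 0 ≤ ψ z
  fin : ∀ K : Set ℂ, IsCompact K → K ⊆ {z | 0 < z.im} →
    {γ : SL(2, ℝ) | γ ∈ Gp ∧ ∃ z ∈ K, ψ (mob γ z) ≠ 0}.Finite
  sum : ∀ z : ℂ, 0 < z.im → ∑ᶠ γ : Gp, ψ (mob γ z) = 1

/-- `σ = |u|²/y` in chart 2 -/
noncomputable def sig (p : V) : ℝ := (normSq (p 1) + normSq (p 2)) / (p 0).im

/-- `I(W₁,W₂,W₃) = ∫_M W₁ ∧ W₂ ∧ W₃` up to a constant -/
noncomputable def III (ψ : ℂ → ℝ) (W₁ W₂ W₃ : Fin 3 → V → Mat) : ℝ :=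
  ∫ p in U, ψ (p 0) * (D3 (W₁ 2 p) (W₂ 2 p) (W₃ 2 p)).re

/-- total Chern scalar curvature up to a factor `8` -/
noncomputable def total (ψ : ℂ → ℝ) (W : Fin 3 → V → Mat) : ℝ :=
  ∫ p in U, ψ (p 0) * (scal (W 2) p * (W 2 p).det.re)

/-- smooth cut-off: `1` on `(-∞,1]`, `0` on `[2,∞)` -/
structure IsCut (η : ℝ → ℝ) : Prop where
  smooth : ContDiff ℝ ∞ η
  one : ∀ t ≤ 1, η t = 1
  zero : ∀ t ≥ 2, η t = 0
  bdd : ∀ t, 0 ≤ η t ∧ η t ≤ 1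

/-! ### the standard forms -/

/-- `f = -i∂∂̄ log y` -/
noncomputable def fF : Fin 3 → V → Mat := fun _ p =>
  Matrix.single 0 0 ((1 / (4 * (p 0).im ^ 2) : ℝ) : ℂ)

/-- `S` in the three charts: `y + |u|²`, `1 + |a|² + y|q|²` -/
noncomputable def SS (δ : ℝ) (i : Fin 3) (p : V) : ℝ :=
  if i = 2 then δ * (p 0).im + normSq (p 1) + normSq (p 2)
  else 1 + normSq (p 1) + δ * (p 0).im * normSq (p 2)

/-- `Θ_δ = i∂∂̄ log(δ + σ) = i∂∂̄ log S_δ + f` -/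
noncomputable def ThD (δ : ℝ) : Fin 3 → V → Mat := fun i p =>
  hess (fun p => Real.log (SS δ i p)) p + fF i p

noncomputable abbrev Th : Fin 3 → V → Mat := ThD 1

/-- `π^*(W|_Z)` -/
noncomputable def zpart (W : Fin 3 → V → Mat) : Fin 3 → V → Mat := fun _ p =>
  Matrix.single 0 0 (W 2 ![p 0, 0, 0] 0 0)

/-- `W_{λλ̄}` along the line `u = λ(1,a)` -/
noncomputable def lineW (W : Fin 3 → V → Mat) (z a l : ℂ) : ℂ :=
  W 2 ![z, l, l * a] 1 1 + a * W 2 ![z, l, l * a] 2 1 + conj a * W 2 ![z, l, l * a] 1 2 +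
    a * conj a * W 2 ![z, l, l * a] 2 2

/-- the same along `u = λ(a,1)` -/
noncomputable def lineW' (W : Fin 3 → V → Mat) (z a l : ℂ) : ℂ :=
  W 2 ![z, l * a, l] 2 2 + a * W 2 ![z, l * a, l] 1 2 + conj a * W 2 ![z, l * a, l] 2 1 +
    a * conj a * W 2 ![z, l * a, l] 1 1

/-- the primitive `α` -/
noncomputable def prim (W : Fin 3 → V → Mat) (k : Fin 3) (p : V) : ℂ :=
  ∫ s in (0 : ℝ)..1, (p 1 * W 2 ![p 0, s * p 1, s * p 2] 1 k +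
    p 2 * W 2 ![p 0, s * p 1, s * p 2] 2 k) * (if k = 0 then 1 else (s : ℂ))

end Pool.Agent.KG
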