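import Mathlib
import Pool.Agent.KG.Interface

/-! # Module A1: algebra of `cofm` and `D3` (no analysis) -/

open scoped ComplexConjugate ComplexOrder Matrix
open Complex

namespace Pool.Agent.KG

lemma cofm_comm (A B : Mat) : cofm A B = cofm B A := by
  ext j k
  simp only [cofm]
  ring

lemma cofm_self (A : Mat) (j k : Fin 3) : cofm A A j k = 2 * A.adjugate k j := by
  rw [Matrix.adjugate_fin_three]
  fin_cases j <;> fin_cases k <;> simp [cofm] <;> ring

lemma cofm_add_left (A A' B : Mat) : cofm (A + A') B = cofm A B + cofm A' B := by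
  ext j k
  simp only [cofm, Matrix.add_apply]
  ring

lemma cofm_smul_left (c : ℂ) (A B : Mat) : cofm (c • A) B = c • cofm A B := by
  ext j k
  simp only [cofm, Matrix.smul_apply, smul_eq_mul]
  ring

lemma cofm_herm {A B : Mat} (hA : A.IsHermitian) (hB : B.IsHermitian) : (cofm A B).IsHermitian := by
  ext j k
  rw [Matrix.conjTranspose_apply]
  have h1 : ∀ i l, star (A i l) = A l i := fun i l => hA.apply l i
  have h2 : ∀ i l, star (B i l) = B l i := fun i l => hB.apply l i
  simp only [cofm, star_sub, star_add, star_mul', h1, h2]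
  ring

lemma D3_polar (A B C : Mat) : D3 A B C = (A + B + C).det - (A + B).det - (A + C).det -
    (B + C).det + A.det + B.det + C.det := by
  simp only [D3, cofm, Fin.sum_univ_three, Matrix.det_fin_three, Matrix.add_apply,
    show (0 : Fin 3) + 1 = 1 from rfl, show (0 : Fin 3) + 2 = 2 from rfl,
    show (1 : Fin 3) + 1 = 2 from rfl, show (1 : Fin 3) + 2 = 0 from rfl,
    show (2 : Fin 3) + 1 = 0 from rfl, show (2 : Fin 3) + 2 = 1 from rfl]
  ring

lemma D3_self (A : Mat) : D3 A A A = 6 * A.det := by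
  simp only [D3, cofm, Fin.sum_univ_three, Matrix.det_fin_three,
    show (0 : Fin 3) + 1 = 1 from rfl, show (0 : Fin 3) + 2 = 2 from rfl,
    show (1 : Fin 3) + 1 = 2 from rfl, show (1 : Fin 3) + 2 = 0 from rfl,
    show (2 : Fin 3) + 1 = 0 from rfl, show (2 : Fin 3) + 2 = 1 from rfl]
  ring

lemma D3_comm12 (A B C : Mat) : D3 A B C = D3 B A C := by
  rw [D3_polar, D3_polar, add_comm B A]
  ring

lemma D3_comm23 (A B C : Mat) : D3 A B C = D3 A C B := by
  simp only [D3, cofm_comm B C]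

lemma D3_add_left (A A' B C : Mat) : D3 (A + A') B C = D3 A B C + D3 A' B C := by
  simp only [D3, Matrix.add_apply, add_mul, Finset.sum_add_distrib]

lemma D3_smul_left (c : ℂ) (A B C : Mat) : D3 (c • A) B C = c * D3 A B C := by
  simp only [D3, Matrix.smul_apply, smul_eq_mul, mul_assoc, Finset.mul_sum]

lemma D3_real {A B C : Mat} (hA : A.IsHermitian) (hB : B.IsHermitian) (hC : C.IsHermitian) :
    (D3 A B C).im = 0 := by
  have h1 : conj (D3 A B C) = D3 A B C := by
    simp only [D3, map_sum, map_mul]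
    rw [Finset.sum_comm]
    refine Finset.sum_congr rfl fun j _ => Finset.sum_congr rfl fun k _ => ?_
    have h2 : conj (A k j) = A j k := hA.apply j k
    have h3 : conj (cofm B C k j) = cofm B C j k := (cofm_herm hB hC).apply j k
    rw [h2, h3]
  exact Complex.conj_eq_iff_im.1 h1

/-- transformation under pull-back -/
lemma D3_transform (J A B C : Mat) :
    D3 (J * A * Jᴴ) (J * B * Jᴴ) (J * C * Jᴴ) = normSq J.det * D3 A B C := by
  have h : ∀ X : Mat, (J * X * Jᴴ).det = normSq J.det * X.det := by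
    intro X
    rw [Matrix.det_mul, Matrix.det_mul, Matrix.det_conjTranspose, Complex.normSq_eq_conj_mul_self]
    simp only [Complex.star_def]
    ring
  rw [D3_polar, D3_polar]
  simp only [← Matrix.add_mul, ← Matrix.mul_add, h]
  ring

/-- the scalar `∑ ξ_j α_k C_{jk}(A,B)` transforms in the same way -/
lemma sum_cofm_transform (J A B : Mat) (ξ α : Fin 3 → ℂ) :
    ∑ j, ∑ k, (J *ᵥ ξ) j * (J.map conj *ᵥ α) k * cofm (J * A * Jᴴ) (J * B * Jᴴ) j k =
      normSq J.det * ∑ j, ∑ k, ξ j * α k * cofm A B j k := by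
  have h := D3_transform J (Matrix.vecMulVec ξ α) A B
  have h1 : J * Matrix.vecMulVec ξ α * Jᴴ = Matrix.vecMulVec (J *ᵥ ξ) (J.map conj *ᵥ α) := by
    rw [Matrix.mul_vecMulVec, Matrix.vecMulVec_mul]
    congr 1
    ext k
    simp only [Matrix.vecMul, Matrix.mulVec, dotProduct, Matrix.conjTranspose_apply,
      Matrix.map_apply]
    refine Finset.sum_congr rfl fun i _ => ?_
    rw [mul_comm]
    rfl
  rw [h1] at h
  simpa only [D3, Matrix.vecMulVec_apply] using h

lemma D3_rankOne (a b c : Fin 3 → ℂ) :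
    D3 (Matrix.vecMulVec a (star a)) (Matrix.vecMulVec b (star b))
      (Matrix.vecMulVec c (star c)) =
      normSq (a 0 * (b 1 * c 2 - b 2 * c 1) - a 1 * (b 0 * c 2 - b 2 * c 0) +
        a 2 * (b 0 * c 1 - b 1 * c 0)) := by
  rw [Complex.normSq_eq_conj_mul_self]
  simp only [D3, cofm, Fin.sum_univ_three, Matrix.vecMulVec_apply, Pi.star_apply,
    Complex.star_def, show (0 : Fin 3) + 1 = 1 from rfl, show (0 : Fin 3) + 2 = 2 from rfl,
    show (1 : Fin 3) + 1 = 2 from rfl, show (1 : Fin 3) + 2 = 0 from rfl,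
    show (2 : Fin 3) + 1 = 0 from rfl, show (2 : Fin 3) + 2 = 1 from rfl,
    map_sub, map_add, map_mul]
  ring

lemma D3_sum_left {n : ℕ} (R : Fin n → Mat) (B C : Mat) :
    D3 (∑ l, R l) B C = ∑ l, D3 (R l) B C := by
  induction n with
  | zero => simp [D3]
  | succ n ih => rw [Fin.sum_univ_castSucc, Fin.sum_univ_castSucc, D3_add_left, ih]

lemma D3_nonneg {A B C : Mat} (hA : A.PosSemidef) (hB : B.PosSemidef) (hC : C.PosSemidef) :
    0 ≤ (D3 A B C).re := by
  obtain ⟨m, a, rfl⟩ := Matrix.posSemidef_iff_eq_sum_vecMulVec.1 hA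
  obtain ⟨m', b, rfl⟩ := Matrix.posSemidef_iff_eq_sum_vecMulVec.1 hB
  obtain ⟨m'', c, rfl⟩ := Matrix.posSemidef_iff_eq_sum_vecMulVec.1 hC
  rw [D3_sum_left, Complex.re_sum]
  refine Finset.sum_nonneg fun l _ => ?_
  rw [D3_comm12, D3_sum_left, Complex.re_sum]
  refine Finset.sum_nonneg fun m _ => ?_
  rw [D3_comm12, D3_comm23, D3_comm12, D3_sum_left, Complex.re_sum]
  refine Finset.sum_nonneg fun n _ => ?_
  rw [D3_rankOne, Complex.ofReal_re]
  exact Complex.normSq_nonneg _

lemma D3_single_single (a b : ℂ) (C : Mat) :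
    D3 (Matrix.single 0 0 a) (Matrix.single 0 0 b) C = 0 := by
  simp [D3, cofm, Fin.sum_univ_three, Matrix.single_apply]

/-- a positive definite matrix is determined by its cofactor matrix: if `C` is positive definite,
`G = √det C • (C⁻¹)ᵀ` satisfies `adjugate G = Cᵀ` and `det G = √det C`. -/
lemma metric_of_cof {C : Mat} (hC : C.PosDef) :
    let G : Mat := ((Real.sqrt C.det.re : ℝ) : ℂ) • (C⁻¹)ᵀ
    G.PosDef ∧ (∀ j k, G.adjugate k j = C j k) ∧ G.det = ((Real.sqrt C.det.re : ℝ) : ℂ) := by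
  intro G
  have hdet : 0 < C.det := hC.det_pos
  have hre : 0 < C.det.re := (Complex.pos_iff.1 hdet).1
  have him : C.det.im = 0 := (Complex.pos_iff.1 hdet).2.symm
  have hC' : C.det = ((C.det.re : ℝ) : ℂ) := Complex.ext rfl (by simpa using him)
  have hne : C.det ≠ 0 := hdet.ne'
  have hunit : IsUnit C.det := isUnit_iff_ne_zero.2 hne
  set s : ℝ := Real.sqrt C.det.re with hs
  have hs0 : 0 < s := Real.sqrt_pos.2 hre
  have hss : (s : ℂ) * s = C.det := by
    rw [hC', ← Complex.ofReal_mul, hs, Real.mul_self_sqrt hre.le]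
  have hG : G = (s : ℂ) • (C⁻¹)ᵀ := rfl
  have hsne : (s : ℂ) ≠ 0 := by exact_mod_cast hs0.ne'
  have hdetinv : (C⁻¹).det * C.det = 1 := by
    rw [← Matrix.det_mul, Matrix.nonsing_inv_mul _ hunit, Matrix.det_one]
  have hGdet : G.det = s := by
    rw [hG, Matrix.det_smul, Matrix.det_transpose, Fintype.card_fin]
    have h1 : (C⁻¹).det = ((s : ℂ) * s)⁻¹ := by
      rw [hss]
      exact eq_inv_of_mul_eq_one_left hdetinv
    rw [h1]
    field_simp
  refine ⟨?_, ?_, hGdet⟩
  · rw [hG]
    have h1 : (C⁻¹)ᵀ.PosDef := hC.inv.transpose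
    have h2 : (0 : ℂ) < s := by exact_mod_cast hs0
    exact h1.smul h2
  · intro j k
    have h1 : G * Cᵀ = (s : ℂ) • (1 : Mat) := by
      rw [hG, Matrix.smul_mul, ← Matrix.transpose_mul, Matrix.mul_nonsing_inv _ hunit,
        Matrix.transpose_one]
    have h2 : G.adjugate * (G * Cᵀ) = (s : ℂ) • Cᵀ := by
      rw [← Matrix.mul_assoc, Matrix.adjugate_mul, hGdet, Matrix.smul_mul, Matrix.one_mul]
    rw [h1, Matrix.mul_smul, Matrix.mul_one] at h2
    have h3 := congrFun (congrFun h2 k) j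
    simp only [Matrix.smul_apply, smul_eq_mul, Matrix.transpose_apply] at h3
    exact mul_left_cancel₀ hsne h3

end Pool.Agent.KG
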