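import Mathlib
import Pool.Agent.KG.Defs

/-! # Module A2a: Wirtinger calculus, basic rules -/

open scoped ContDiff ComplexConjugate ComplexOrder Matrix Topology
open Complex MeasureTheory Filter

namespace Pool.Agent.KG

section basic
variable {n : ℕ} {f g : (Fin n → ℂ) → ℂ} {p : Fin n → ℂ} {j k l : Fin n}

lemma dz_congr (h : f =ᶠ[𝓝 p] g) : dz j f p = dz j g p := by
  unfold dz; rw [h.fderiv_eq]
lemma dzb_congr (h : f =ᶠ[𝓝 p] g) : dzb j f p = dzb j g p := by
  unfold dzb; rw [h.fderiv_eq]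

lemma dz_of_hasFDerivAt {L : (Fin n → ℂ) →L[ℝ] ℂ} (h : HasFDerivAt f L p) :
    dz j f p = (L (Pi.single j 1) - I * L (Pi.single j I)) / 2 := by
  unfold dz; rw [h.fderiv]
lemma dzb_of_hasFDerivAt {L : (Fin n → ℂ) →L[ℝ] ℂ} (h : HasFDerivAt f L p) :
    dzb j f p = (L (Pi.single j 1) + I * L (Pi.single j I)) / 2 := by
  unfold dzb; rw [h.fderiv]

lemma dz_const (c : ℂ) : dz j (fun _ => c) p = 0 := by
  rw [dz_of_hasFDerivAt (hasFDerivAt_const c p)]; simp
lemma dzb_const (c : ℂ) : dzb j (fun _ => c) p = 0 := by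
  rw [dzb_of_hasFDerivAt (hasFDerivAt_const c p)]; simp
lemma dz_add (hf : DifferentiableAt ℝ f p) (hg : DifferentiableAt ℝ g p) :
    dz j (fun w => f w + g w) p = dz j f p + dz j g p := by
  rw [dz_of_hasFDerivAt (hf.hasFDerivAt.fun_add hg.hasFDerivAt)]
  simp only [dz, add_apply]; ring
lemma dzb_add (hf : DifferentiableAt ℝ f p) (hg : DifferentiableAt ℝ g p) :
    dzb j (fun w => f w + g w) p = dzb j f p + dzb j g p := by
  rw [dzb_of_hasFDerivAt (hf.hasFDerivAt.fun_add hg.hasFDerivAt)]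
  simp only [dzb, add_apply]; ring
lemma dz_sub (hf : DifferentiableAt ℝ f p) (hg : DifferentiableAt ℝ g p) :
    dz j (fun w => f w - g w) p = dz j f p - dz j g p := by
  rw [dz_of_hasFDerivAt (hf.hasFDerivAt.fun_sub hg.hasFDerivAt)]
  simp only [dz, ContinuousLinearMap.sub_apply]; ring
lemma dzb_sub (hf : DifferentiableAt ℝ f p) (hg : DifferentiableAt ℝ g p) :
    dzb j (fun w => f w - g w) p = dzb j f p - dzb j g p := by
  rw [dzb_of_hasFDerivAt (hf.hasFDerivAt.fun_sub hg.hasFDerivAt)]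
  simp only [dzb, ContinuousLinearMap.sub_apply]; ring
lemma dz_neg : dz j (fun w => - f w) p = - dz j f p := by
  simp only [dz, fderiv_fun_neg, neg_apply]; ring
lemma dzb_neg : dzb j (fun w => - f w) p = - dzb j f p := by
  simp only [dzb, fderiv_fun_neg, neg_apply]; ring
lemma dz_mul (hf : DifferentiableAt ℝ f p) (hg : DifferentiableAt ℝ g p) :
    dz j (fun w => f w * g w) p = dz j f p * g p + f p * dz j g p := by
  rw [dz_of_hasFDerivAt (hf.hasFDerivAt.fun_mul hg.hasFDerivAt)]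
  simp only [dz, add_apply, ContinuousLinearMap.smul_apply, smul_eq_mul]; ring
lemma dzb_mul (hf : DifferentiableAt ℝ f p) (hg : DifferentiableAt ℝ g p) :
    dzb j (fun w => f w * g w) p = dzb j f p * g p + f p * dzb j g p := by
  rw [dzb_of_hasFDerivAt (hf.hasFDerivAt.fun_mul hg.hasFDerivAt)]
  simp only [dzb, add_apply, ContinuousLinearMap.smul_apply, smul_eq_mul]; ring
lemma dz_sum {ι : Type} {s : Finset ι} {F : ι → (Fin n → ℂ) → ℂ}
    (hF : ∀ i ∈ s, DifferentiableAt ℝ (F i) p) :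
    dz j (fun w => ∑ i ∈ s, F i w) p = ∑ i ∈ s, dz j (F i) p := by
  rw [dz_of_hasFDerivAt (HasFDerivAt.fun_sum fun i hi => (hF i hi).hasFDerivAt)]
  simp only [dz, ContinuousLinearMap.sum_apply, Finset.mul_sum, ← Finset.sum_sub_distrib,
    Finset.sum_div]
lemma dzb_sum {ι : Type} {s : Finset ι} {F : ι → (Fin n → ℂ) → ℂ}
    (hF : ∀ i ∈ s, DifferentiableAt ℝ (F i) p) :
    dzb j (fun w => ∑ i ∈ s, F i w) p = ∑ i ∈ s, dzb j (F i) p := by
  rw [dzb_of_hasFDerivAt (HasFDerivAt.fun_sum fun i hi => (hF i hi).hasFDerivAt)]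
  simp only [dzb, ContinuousLinearMap.sum_apply, Finset.mul_sum, ← Finset.sum_add_distrib,
    Finset.sum_div]

lemma hasFDerivAt_of_comp_hasDerivAt {φ : ℂ → ℂ} {φ' : ℂ} (hf : DifferentiableAt ℝ f p)
    (hφ : HasDerivAt φ φ' (f p)) :
    HasFDerivAt (fun w => φ (f w)) (φ' • fderiv ℝ f p) p := by
  have h1 : HasFDerivAt φ ((ContinuousLinearMap.toSpanSingleton ℂ φ').restrictScalars ℝ) (f p) :=
    hφ.hasFDerivAt.restrictScalars ℝ
  have h2 := h1.comp p hf.hasFDerivAt
  have h3 : (φ' • fderiv ℝ f p : (Fin n → ℂ) →L[ℝ] ℂ) =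
      ((ContinuousLinearMap.toSpanSingleton ℂ φ').restrictScalars ℝ).comp (fderiv ℝ f p) := by
    ext v
    simp [mul_comm]
  rw [h3]
  exact h2

lemma dz_holo_comp {φ : ℂ → ℂ} {φ' : ℂ} (hf : DifferentiableAt ℝ f p)
    (hφ : HasDerivAt φ φ' (f p)) : dz j (fun w => φ (f w)) p = φ' * dz j f p := by
  rw [dz_of_hasFDerivAt (hasFDerivAt_of_comp_hasDerivAt hf hφ)]
  simp only [dz, ContinuousLinearMap.smul_apply, smul_eq_mul]; ring
lemma dzb_holo_comp {φ : ℂ → ℂ} {φ' : ℂ} (hf : DifferentiableAt ℝ f p)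
    (hφ : HasDerivAt φ φ' (f p)) : dzb j (fun w => φ (f w)) p = φ' * dzb j f p := by
  rw [dzb_of_hasFDerivAt (hasFDerivAt_of_comp_hasDerivAt hf hφ)]
  simp only [dzb, ContinuousLinearMap.smul_apply, smul_eq_mul]; ring

lemma dz_inv (hf : DifferentiableAt ℝ f p) (h0 : f p ≠ 0) :
    dz j (fun w => (f w)⁻¹) p = - dz j f p / f p ^ 2 := by
  rw [dz_holo_comp hf (hasDerivAt_inv h0)]; ring
lemma dzb_inv (hf : DifferentiableAt ℝ f p) (h0 : f p ≠ 0) :
    dzb j (fun w => (f w)⁻¹) p = - dzb j f p / f p ^ 2 := by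
  rw [dzb_holo_comp hf (hasDerivAt_inv h0)]; ring
lemma dz_coord : dz j (fun w => w l) p = if j = l then 1 else 0 := by
  have h : HasFDerivAt (fun w : Fin n → ℂ => w l) (ContinuousLinearMap.proj (R := ℝ) l) p :=
    (ContinuousLinearMap.proj (R := ℝ) (φ := fun _ : Fin n => ℂ) l).hasFDerivAt
  rw [dz_of_hasFDerivAt h]
  by_cases hjl : j = l
  · subst hjl
    simp only [ContinuousLinearMap.proj_apply, Pi.single_eq_same, I_mul_I, if_true]
    norm_num
  · simp [ContinuousLinearMap.proj_apply, hjl, Ne.symm hjl]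
lemma dzb_coord : dzb j (fun w => w l) p = 0 := by
  have h : HasFDerivAt (fun w : Fin n → ℂ => w l) (ContinuousLinearMap.proj (R := ℝ) l) p :=
    (ContinuousLinearMap.proj (R := ℝ) (φ := fun _ : Fin n => ℂ) l).hasFDerivAt
  rw [dzb_of_hasFDerivAt h]
  by_cases hjl : j = l
  · subst hjl
    simp only [ContinuousLinearMap.proj_apply, Pi.single_eq_same, I_mul_I]
    norm_num
  · simp [ContinuousLinearMap.proj_apply, Ne.symm hjl]

lemma fderiv_conj' (f : (Fin n → ℂ) → ℂ) (p v : Fin n → ℂ) :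
    fderiv ℝ (fun w => conj (f w)) p v = conj (fderiv ℝ f p v) := by
  have h : (fun w => conj (f w)) = (conjCLE : ℂ → ℂ) ∘ f := by
    funext w; simp
  rw [h, ContinuousLinearEquiv.comp_fderiv]
  simp

lemma dz_conj : dz j (fun w => conj (f w)) p = conj (dzb j f p) := by
  simp only [dz, dzb, fderiv_conj', map_div₀, map_add, map_mul, conj_I]
  simp only [Complex.conj_ofNat]
  ring
lemma dzb_conj : dzb j (fun w => conj (f w)) p = conj (dz j f p) := by
  simp only [dz, dzb, fderiv_conj', map_div₀, map_sub, map_mul, conj_I]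
  simp only [Complex.conj_ofNat]
  ring
lemma dz_conj_coord : dz j (fun w => conj (w l)) p = 0 := by
  rw [dz_conj (f := fun w => w l), dzb_coord, map_zero]
lemma dzb_conj_coord : dzb j (fun w => conj (w l)) p = if j = l then 1 else 0 := by
  rw [dzb_conj (f := fun w => w l), dz_coord]; split_ifs <;> simp

lemma fderiv_ofReal {h : (Fin n → ℂ) → ℝ} (hh : DifferentiableAt ℝ h p) (v : Fin n → ℂ) :
    fderiv ℝ (fun w => (h w : ℂ)) p v = (fderiv ℝ h p v : ℝ) := by
  have h1 : HasFDerivAt (fun w => (h w : ℂ)) (Complex.ofRealCLM.comp (fderiv ℝ h p)) p :=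
    Complex.ofRealCLM.hasFDerivAt.comp p hh.hasFDerivAt
  rw [h1.fderiv]; simp

/-- composition with a real function of one variable -/
lemma dz_real_comp {h : (Fin n → ℂ) → ℝ} {φ : ℝ → ℝ} (hh : DifferentiableAt ℝ h p)
    (hφ : DifferentiableAt ℝ φ (h p)) :
    dz j (fun w => ((φ (h w) : ℝ) : ℂ)) p = deriv φ (h p) * dz j (fun w => (h w : ℂ)) p := by
  have h1 : HasFDerivAt (fun w => φ (h w)) (deriv φ (h p) • fderiv ℝ h p) p :=
    hφ.hasDerivAt.comp_hasFDerivAt p hh.hasFDerivAt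
  simp only [dz, fderiv_ofReal h1.differentiableAt, fderiv_ofReal hh, h1.fderiv]
  simp only [ContinuousLinearMap.smul_apply, smul_eq_mul]
  push_cast; ring
lemma dzb_real_comp {h : (Fin n → ℂ) → ℝ} {φ : ℝ → ℝ} (hh : DifferentiableAt ℝ h p)
    (hφ : DifferentiableAt ℝ φ (h p)) :
    dzb j (fun w => ((φ (h w) : ℝ) : ℂ)) p = deriv φ (h p) * dzb j (fun w => (h w : ℂ)) p := by
  have h1 : HasFDerivAt (fun w => φ (h w)) (deriv φ (h p) • fderiv ℝ h p) p :=
    hφ.hasDerivAt.comp_hasFDerivAt p hh.hasFDerivAt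
  simp only [dzb, fderiv_ofReal h1.differentiableAt, fderiv_ofReal hh, h1.fderiv]
  simp only [ContinuousLinearMap.smul_apply, smul_eq_mul]
  push_cast; ring

lemma differentiableAt_coord (l : Fin n) : DifferentiableAt ℝ (fun w : Fin n → ℂ => w l) p :=
  (ContinuousLinearMap.proj (R := ℝ) (φ := fun _ : Fin n => ℂ) l).differentiableAt
lemma differentiableAt_conj_coord (l : Fin n) :
    DifferentiableAt ℝ (fun w : Fin n → ℂ => conj (w l)) p :=
  (conjCLE : ℂ ≃L[ℝ] ℂ).differentiableAt.comp p (differentiableAt_coord l)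

lemma dz_im (l : Fin n) : dz j (fun w => ((w l).im : ℂ)) p = if j = l then -I / 2 else 0 := by
  have h : (fun w : Fin n → ℂ => ((w l).im : ℂ)) = fun w => (-I / 2) * (w l - conj (w l)) := by
    funext w
    rw [Complex.sub_conj]; push_cast; ring_nf; simp
  have h2 : DifferentiableAt ℝ (fun w : Fin n → ℂ => w l - conj (w l)) p :=
    (differentiableAt_coord l).sub (differentiableAt_conj_coord l)
  rw [h, dz_mul (differentiableAt_const _) h2,
    dz_sub (differentiableAt_coord l) (differentiableAt_conj_coord l), dz_const, dz_coord,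
    dz_conj_coord]
  split_ifs <;> simp
lemma dzb_im (l : Fin n) : dzb j (fun w => ((w l).im : ℂ)) p = if j = l then I / 2 else 0 := by
  have h : (fun w : Fin n → ℂ => ((w l).im : ℂ)) = fun w => (-I / 2) * (w l - conj (w l)) := by
    funext w
    rw [Complex.sub_conj]; push_cast; ring_nf; simp
  have h2 : DifferentiableAt ℝ (fun w : Fin n → ℂ => w l - conj (w l)) p :=
    (differentiableAt_coord l).sub (differentiableAt_conj_coord l)
  rw [h, dzb_mul (differentiableAt_const _) h2,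
    dzb_sub (differentiableAt_coord l) (differentiableAt_conj_coord l), dzb_const, dzb_coord,
    dzb_conj_coord]
  split_ifs <;> (simp; try ring)
lemma dz_normSq (l : Fin n) :
    dz j (fun w => (normSq (w l) : ℂ)) p = if j = l then conj (p l) else 0 := by
  have h : (fun w : Fin n → ℂ => (normSq (w l) : ℂ)) = fun w => w l * conj (w l) := by
    funext w; rw [Complex.mul_conj]
  rw [h, dz_mul (differentiableAt_coord l) (differentiableAt_conj_coord l), dz_coord,
    dz_conj_coord]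
  split_ifs <;> simp
lemma dzb_normSq (l : Fin n) :
    dzb j (fun w => (normSq (w l) : ℂ)) p = if j = l then p l else 0 := by
  have h : (fun w : Fin n → ℂ => (normSq (w l) : ℂ)) = fun w => w l * conj (w l) := by
    funext w; rw [Complex.mul_conj]
  rw [h, dzb_mul (differentiableAt_coord l) (differentiableAt_conj_coord l), dzb_coord,
    dzb_conj_coord]
  split_ifs <;> simp

/-- the full derivative -/
lemma fderiv_eq (hf : DifferentiableAt ℝ f p) (v : Fin n → ℂ) :
    fderiv ℝ f p v = ∑ j, (dz j f p * v j + dzb j f p * conj (v j)) := by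
  have hv : v = ∑ j, ((v j).re • (Pi.single j (1 : ℂ) : Fin n → ℂ) +
      (v j).im • (Pi.single j I : Fin n → ℂ)) := by
    funext i
    simp only [Finset.sum_apply, Pi.add_apply, Pi.smul_apply, Pi.single_apply]
    rw [Finset.sum_eq_single i]
    · simp only [if_true, real_smul, mul_one]
      exact (re_add_im (v i)).symm
    · intro b _ hb
      simp [hb.symm]
    · simp
  conv_lhs => rw [hv]
  rw [map_sum]
  refine Finset.sum_congr rfl fun j _ => ?_
  rw [map_add, map_smul, map_smul]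
  simp only [real_smul, dz, dzb]
  have e1 : conj (v j) = (v j).re - (v j).im * I := by
    apply Complex.ext <;> simp
  have e2 : v j = (v j).re + (v j).im * I := (re_add_im (v j)).symm
  rw [e1]
  conv_rhs => rw [e2]
  simp only [Complex.add_re, Complex.ofReal_re, Complex.mul_re, Complex.I_re, mul_zero,
    Complex.ofReal_im, Complex.I_im, mul_one, sub_self, add_zero, Complex.add_im, Complex.mul_im,
    zero_add]
  linear_combination ((v j).im * fderiv ℝ f p (Pi.single j I)) * Complex.I_sq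

lemma contDiffOn_fderiv_apply {s : Set (Fin n → ℂ)} (hs : IsOpen s) {a b : ℕ∞} (hab : a + 1 ≤ b)
    (hf : ContDiffOn ℝ b f s) (v : Fin n → ℂ) :
    ContDiffOn ℝ a (fun w => fderiv ℝ f w v) s := by
  have h1 : ContDiffOn ℝ a (fderiv ℝ f) s := hf.fderiv_of_isOpen hs (by exact_mod_cast hab)
  exact h1.clm_apply contDiffOn_const

lemma contDiffOn_dz {s : Set (Fin n → ℂ)} (hs : IsOpen s) {a b : ℕ∞} (hab : a + 1 ≤ b)
    (hf : ContDiffOn ℝ b f s) : ContDiffOn ℝ a (fun w => dz j f w) s :=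
  (((contDiffOn_fderiv_apply hs hab hf _).sub
    (contDiffOn_const.mul (contDiffOn_fderiv_apply hs hab hf _))).div_const _)
lemma contDiffOn_dzb {s : Set (Fin n → ℂ)} (hs : IsOpen s) {a b : ℕ∞} (hab : a + 1 ≤ b)
    (hf : ContDiffOn ℝ b f s) : ContDiffOn ℝ a (fun w => dzb j f w) s :=
  (((contDiffOn_fderiv_apply hs hab hf _).add
    (contDiffOn_const.mul (contDiffOn_fderiv_apply hs hab hf _))).div_const _)

lemma fderiv_fderiv_apply (hf : ContDiffAt ℝ 2 f p) (u v : Fin n → ℂ) :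
    fderiv ℝ (fun w => fderiv ℝ f w u) p v = fderiv ℝ (fderiv ℝ f) p v u := by
  have h1 : DifferentiableAt ℝ (fderiv ℝ f) p :=
    (hf.fderiv_right (m := 1) (by norm_num)).differentiableAt (by norm_num)
  rw [fderiv_clm_apply h1 (differentiableAt_const u)]
  simp

lemma fderiv_fderiv_symm (hf : ContDiffAt ℝ 2 f p) (u v : Fin n → ℂ) :
    fderiv ℝ (fderiv ℝ f) p v u = fderiv ℝ (fderiv ℝ f) p u v :=
  (hf.isSymmSndFDerivAt (by simp)).eq v u

lemma differentiableAt_fderiv_apply (hf : ContDiffAt ℝ 2 f p) (u : Fin n → ℂ) :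
    DifferentiableAt ℝ (fun w => fderiv ℝ f w u) p :=
  ((hf.fderiv_right (m := 1) (by norm_num)).differentiableAt (by norm_num)).clm_apply
    (differentiableAt_const u)

lemma fderiv_dz (hf : ContDiffAt ℝ 2 f p) (v : Fin n → ℂ) :
    fderiv ℝ (fun w => dz k f w) p v = (fderiv ℝ (fderiv ℝ f) p v (Pi.single k 1) -
      I * fderiv ℝ (fderiv ℝ f) p v (Pi.single k I)) / 2 := by
  have h1 := (differentiableAt_fderiv_apply hf (Pi.single k 1)).hasFDerivAt
  have h2 := (differentiableAt_fderiv_apply hf (Pi.single k I)).hasFDerivAt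
  have h3 := ((h1.fun_sub (h2.const_mul I)).mul_const ((2 : ℂ)⁻¹))
  have h4 : (fun w => dz k f w) = fun w => (fderiv ℝ f w (Pi.single k 1) -
      I * fderiv ℝ f w (Pi.single k I)) * (2 : ℂ)⁻¹ := by
    funext w; simp only [dz]; ring
  rw [h4, HasFDerivAt.fderiv h3]
  simp only [ContinuousLinearMap.smul_apply, ContinuousLinearMap.sub_apply, smul_eq_mul,
    fderiv_fderiv_apply hf]
  ring
lemma fderiv_dzb (hf : ContDiffAt ℝ 2 f p) (v : Fin n → ℂ) :
    fderiv ℝ (fun w => dzb k f w) p v = (fderiv ℝ (fderiv ℝ f) p v (Pi.single k 1) +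
      I * fderiv ℝ (fderiv ℝ f) p v (Pi.single k I)) / 2 := by
  have h1 := (differentiableAt_fderiv_apply hf (Pi.single k 1)).hasFDerivAt
  have h2 := (differentiableAt_fderiv_apply hf (Pi.single k I)).hasFDerivAt
  have h3 := ((h1.fun_add (h2.const_mul I)).mul_const ((2 : ℂ)⁻¹))
  have h4 : (fun w => dzb k f w) = fun w => (fderiv ℝ f w (Pi.single k 1) +
      I * fderiv ℝ f w (Pi.single k I)) * (2 : ℂ)⁻¹ := by
    funext w; simp only [dzb]; ring
  rw [h4, HasFDerivAt.fderiv h3]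
  simp only [ContinuousLinearMap.smul_apply, add_apply, smul_eq_mul,
    fderiv_fderiv_apply hf]
  ring

lemma dz_dz_comm (hf : ContDiffAt ℝ 2 f p) :
    dz j (fun w => dz k f w) p = dz k (fun w => dz j f w) p := by
  show (fderiv ℝ (fun w => dz k f w) p _ - I * fderiv ℝ (fun w => dz k f w) p _) / 2 =
    (fderiv ℝ (fun w => dz j f w) p _ - I * fderiv ℝ (fun w => dz j f w) p _) / 2
  simp only [fderiv_dz hf]
  rw [fderiv_fderiv_symm hf (Pi.single k 1) (Pi.single j 1),
    fderiv_fderiv_symm hf (Pi.single k I) (Pi.single j 1),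
    fderiv_fderiv_symm hf (Pi.single k 1) (Pi.single j I),
    fderiv_fderiv_symm hf (Pi.single k I) (Pi.single j I)]
  ring
lemma dzb_dzb_comm (hf : ContDiffAt ℝ 2 f p) :
    dzb j (fun w => dzb k f w) p = dzb k (fun w => dzb j f w) p := by
  show (fderiv ℝ (fun w => dzb k f w) p _ + I * fderiv ℝ (fun w => dzb k f w) p _) / 2 =
    (fderiv ℝ (fun w => dzb j f w) p _ + I * fderiv ℝ (fun w => dzb j f w) p _) / 2
  simp only [fderiv_dzb hf]
  rw [fderiv_fderiv_symm hf (Pi.single k 1) (Pi.single j 1),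
    fderiv_fderiv_symm hf (Pi.single k I) (Pi.single j 1),
    fderiv_fderiv_symm hf (Pi.single k 1) (Pi.single j I),
    fderiv_fderiv_symm hf (Pi.single k I) (Pi.single j I)]
  ring
lemma dz_dzb_comm (hf : ContDiffAt ℝ 2 f p) :
    dz j (fun w => dzb k f w) p = dzb k (fun w => dz j f w) p := by
  show (fderiv ℝ (fun w => dzb k f w) p _ - I * fderiv ℝ (fun w => dzb k f w) p _) / 2 =
    (fderiv ℝ (fun w => dz j f w) p _ + I * fderiv ℝ (fun w => dz j f w) p _) / 2
  simp only [fderiv_dzb hf, fderiv_dz hf]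
  rw [fderiv_fderiv_symm hf (Pi.single k 1) (Pi.single j 1),
    fderiv_fderiv_symm hf (Pi.single k I) (Pi.single j 1),
    fderiv_fderiv_symm hf (Pi.single k 1) (Pi.single j I),
    fderiv_fderiv_symm hf (Pi.single k I) (Pi.single j I)]
  ring

/-- holomorphic functions -/
lemma dz_of_holo (hf : DifferentiableAt ℂ f p) : dz j f p = fderiv ℂ f p (Pi.single j 1) := by
  have h : HasFDerivAt f ((fderiv ℂ f p).restrictScalars ℝ) p := hf.hasFDerivAt.restrictScalars ℝ
  rw [dz_of_hasFDerivAt h]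
  have e : (Pi.single j I : Fin n → ℂ) = I • Pi.single j (1 : ℂ) := by
    rw [← Pi.single_smul]; simp
  rw [ContinuousLinearMap.coe_restrictScalars', e, map_smul, smul_eq_mul, ← mul_assoc, I_mul_I]
  ring
lemma dzb_of_holo (hf : DifferentiableAt ℂ f p) : dzb j f p = 0 := by
  have h : HasFDerivAt f ((fderiv ℂ f p).restrictScalars ℝ) p := hf.hasFDerivAt.restrictScalars ℝ
  rw [dzb_of_hasFDerivAt h]
  have e : (Pi.single j I : Fin n → ℂ) = I • Pi.single j (1 : ℂ) := by
    rw [← Pi.single_smul]; simp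
  rw [ContinuousLinearMap.coe_restrictScalars', e, map_smul, smul_eq_mul, ← mul_assoc, I_mul_I]
  ring

end basic

end Pool.Agent.KG
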