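import Mathlib
import Pool.Agent.KG.Wirt1
import Pool.Agent.KG.Interface

/-! # Module A2b: Wirtinger calculus, holomorphic maps -/

open scoped ContDiff ComplexConjugate ComplexOrder Matrix Topology
open Complex MeasureTheory Filter

namespace Pool.Agent.KG

section chain
variable {n : ℕ} {f : (Fin n → ℂ) → ℂ} {T S : (Fin n → ℂ) → Fin n → ℂ} {p : Fin n → ℂ}
  {j k l : Fin n}

/-- complex Jacobian matrix, `J_{jl} = ∂T_l/∂z_j` -/
noncomputable def Jac (T : (Fin n → ℂ) → Fin n → ℂ) (p : Fin n → ℂ) : Matrix (Fin n) (Fin n) ℂ :=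
  fun j l => dz j (fun p' => T p' l) p

lemma comp_diff (hT : DifferentiableAt ℂ T p) (l : Fin n) :
    DifferentiableAt ℂ (fun w => T w l) p := differentiableAt_pi.1 hT l

lemma Jac_eq (hT : DifferentiableAt ℂ T p) (j l : Fin n) :
    Jac T p j l = fderiv ℂ T p (Pi.single j 1) l := by
  unfold Jac
  rw [dz_of_holo (comp_diff hT l), fderiv_apply hT l]; rfl

lemma single_I (j : Fin n) : (Pi.single j I : Fin n → ℂ) = I • Pi.single j (1 : ℂ) := by
  rw [← Pi.single_smul]; simp

lemma fderiv_single_I (hT : DifferentiableAt ℂ T p) (j l : Fin n) :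
    fderiv ℂ T p (Pi.single j I) l = I * Jac T p j l := by
  rw [single_I, map_smul, Pi.smul_apply, ← Jac_eq hT, smul_eq_mul]

lemma hasFDerivAt_comp' (hT : DifferentiableAt ℂ T p) (hf : DifferentiableAt ℝ f (T p)) :
    HasFDerivAt (fun w => f (T w))
      ((fderiv ℝ f (T p)).comp ((fderiv ℂ T p).restrictScalars ℝ)) p :=
  hf.hasFDerivAt.comp p (hT.hasFDerivAt.restrictScalars ℝ)

lemma dz_comp (hT : DifferentiableAt ℂ T p) (hf : DifferentiableAt ℝ f (T p)) :
    dz j (fun w => f (T w)) p = ∑ l, Jac T p j l * dz l f (T p) := by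
  rw [dz_of_hasFDerivAt (hasFDerivAt_comp' hT hf)]
  simp only [ContinuousLinearMap.comp_apply, ContinuousLinearMap.coe_restrictScalars']
  rw [fderiv_eq hf, fderiv_eq hf, Finset.mul_sum, ← Finset.sum_sub_distrib, Finset.sum_div]
  refine Finset.sum_congr rfl fun l _ => ?_
  rw [fderiv_single_I hT, ← Jac_eq hT, map_mul, conj_I]
  linear_combination (-(dz l f (T p) * Jac T p j l) / 2 +
    dzb l f (T p) * conj (Jac T p j l) / 2) * I_sq

lemma dzb_comp (hT : DifferentiableAt ℂ T p) (hf : DifferentiableAt ℝ f (T p)) :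
    dzb j (fun w => f (T w)) p = ∑ l, conj (Jac T p j l) * dzb l f (T p) := by
  rw [dzb_of_hasFDerivAt (hasFDerivAt_comp' hT hf)]
  simp only [ContinuousLinearMap.comp_apply, ContinuousLinearMap.coe_restrictScalars']
  rw [fderiv_eq hf, fderiv_eq hf, Finset.mul_sum, ← Finset.sum_add_distrib, Finset.sum_div]
  refine Finset.sum_congr rfl fun l _ => ?_
  rw [fderiv_single_I hT, ← Jac_eq hT, map_mul, conj_I]
  linear_combination ((dz l f (T p) * Jac T p j l) / 2 -
    dzb l f (T p) * conj (Jac T p j l) / 2) * I_sq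

lemma pull_eq (T : (Fin n → ℂ) → Fin n → ℂ) (h : (Fin n → ℂ) → Matrix (Fin n) (Fin n) ℂ)
    (p : Fin n → ℂ) : pull T h p = Jac T p * h (T p) * (Jac T p)ᴴ := by
  ext j k
  simp only [pull, Matrix.mul_apply, Matrix.conjTranspose_apply, Finset.sum_mul]
  rw [Finset.sum_comm]
  refine Finset.sum_congr rfl fun m _ => Finset.sum_congr rfl fun l _ => ?_
  simp only [Jac]
  show _ * conj _ * _ = _ * _ * conj _
  ring

lemma Jac_congr {T' : (Fin n → ℂ) → Fin n → ℂ} (hT : T =ᶠ[𝓝 p] T') : Jac T p = Jac T' p := by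
  ext j l
  exact dz_congr (hT.mono fun w hw => by simp only [hw])

lemma Jac_comp (hT : DifferentiableAt ℂ T p) (hS : DifferentiableAt ℂ S (T p)) :
    Jac (fun w => S (T w)) p = Jac T p * Jac S (T p) := by
  ext j l
  rw [Matrix.mul_apply]
  exact dz_comp (f := fun w => S w l) hT ((comp_diff hS l).restrictScalars ℝ)

lemma pull_comp (hT : DifferentiableAt ℂ T p) (hS : DifferentiableAt ℂ S (T p))
    (h : (Fin n → ℂ) → Matrix (Fin n) (Fin n) ℂ) :
    pull (fun w => S (T w)) h p = pull T (fun w => pull S h w) p := by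
  simp only [pull_eq, Jac_comp hT hS, Matrix.conjTranspose_mul, Matrix.mul_assoc]

lemma pull_congr {T' : (Fin n → ℂ) → Fin n → ℂ} (hT : T =ᶠ[𝓝 p] T')
    (h : (Fin n → ℂ) → Matrix (Fin n) (Fin n) ℂ) : pull T h p = pull T' h p := by
  rw [pull_eq, pull_eq, Jac_congr hT, hT.eq_of_nhds]

lemma Jac_id : Jac (fun w : Fin n → ℂ => w) p = 1 := by
  ext j l
  rw [Matrix.one_apply]
  exact dz_coord

lemma pull_id (h : (Fin n → ℂ) → Matrix (Fin n) (Fin n) ℂ) : pull (fun w => w) h p = h p := by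
  rw [pull_eq, Jac_id]; simp

lemma det_pull (h : (Fin n → ℂ) → Matrix (Fin n) (Fin n) ℂ) :
    (pull T h p).det = normSq (Jac T p).det * (h (T p)).det := by
  rw [pull_eq, Matrix.det_mul, Matrix.det_mul, Matrix.det_conjTranspose, ← Complex.mul_conj]
  show _ * _ * conj _ = _
  ring

lemma Jac_diff (hT : ContDiffAt ℂ 2 T p) (k m : Fin n) :
    DifferentiableAt ℂ (fun w => Jac T w k m) p := by
  have h1 : ∀ᶠ w in 𝓝 p, Jac T w k m = fderiv ℂ T w (Pi.single k 1) m := by
    filter_upwards [hT.eventually (by simp)] with w hw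
    exact Jac_eq (hw.differentiableAt (by norm_num)) k m
  have h2 : DifferentiableAt ℂ (fun w => fderiv ℂ T w (Pi.single k 1)) p :=
    ((hT.fderiv_right (m := 1) (by norm_num)).differentiableAt (by norm_num)).clm_apply
      (differentiableAt_const _)
  exact (differentiableAt_pi.1 h2 m).congr_of_eventuallyEq h1

lemma Jac_contDiffAt {N : ℕ∞} (hT : ContDiffAt ℂ ω T p) (k m : Fin n) :
    ContDiffAt ℂ N (fun w => Jac T w k m) p := by
  have h1 : ∀ᶠ w in 𝓝 p, Jac T w k m = fderiv ℂ T w (Pi.single k 1) m := by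
    filter_upwards [hT.eventually (by simp)] with w hw
    exact Jac_eq (hw.differentiableAt (by norm_num)) k m
  have h2 : ContDiffAt ℂ N (fun w => fderiv ℂ T w (Pi.single k 1)) p :=
    (hT.fderiv_right (m := N) (by simp)).clm_apply contDiffAt_const
  exact (contDiffAt_pi.1 h2 m).congr_of_eventuallyEq h1

lemma dz_Jac (hT : ContDiffAt ℂ 2 T p) (a j l : Fin n) :
    dz a (fun w => Jac T w j l) p = dz j (fun w => Jac T w a l) p := by
  have h : ContDiffAt ℝ 2 (fun w => T w l) p := (contDiffAt_pi.1 (hT.restrict_scalars ℝ) l)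
  exact dz_dz_comm h

lemma dz_conj_Jac (hT : ContDiffAt ℂ 2 T p) (a k m : Fin n) :
    dz a (fun w => conj (Jac T w k m)) p = 0 := by
  rw [dz_conj, dzb_of_holo (Jac_diff hT k m), map_zero]

/-- closedness is preserved by holomorphic pull-back -/
lemma closed_pull {s t : Set (Fin n → ℂ)} (hs : IsOpen s) (ht : IsOpen t)
    (hT : ContDiffOn ℂ 2 T s) (hst : Set.MapsTo T s t)
    {h : (Fin n → ℂ) → Matrix (Fin n) (Fin n) ℂ} (hsm : ∀ j k, ContDiffOn ℝ 1 (fun w => h w j k) t)
    (hcl : ∀ p ∈ t, ∀ a j k, dz a (fun p => h p j k) p = dz j (fun p => h p a k) p) :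
    ∀ p ∈ s, ∀ a j k, dz a (fun p => pull T h p j k) p = dz j (fun p => pull T h p a k) p := by
  intro p hp a j k
  have hTp : ContDiffAt ℂ 2 T p := hT.contDiffAt (hs.mem_nhds hp)
  have hTd : DifferentiableAt ℂ T p := hTp.differentiableAt (by norm_num)
  have hd : ∀ l m, DifferentiableAt ℝ (fun w => h w l m) (T p) := fun l m =>
    ((hsm l m).contDiffAt (ht.mem_nhds (hst hp))).differentiableAt (by norm_num)
  have hdc : ∀ l m, DifferentiableAt ℝ (fun w => h (T w) l m) p := fun l m =>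
    (hasFDerivAt_comp' hTd (hd l m)).differentiableAt
  have hJ : ∀ j l, DifferentiableAt ℝ (fun w => Jac T w j l) p := fun j l =>
    (Jac_diff hTp j l).restrictScalars ℝ
  have hJc : ∀ j l, DifferentiableAt ℝ (fun w => conj (Jac T w j l)) p := fun j l =>
    (conjCLE : ℂ ≃L[ℝ] ℂ).differentiableAt.comp p (hJ j l)
  have key : ∀ a j, dz a (fun p => pull T h p j k) p = ∑ l, ∑ m,
      (dz a (fun w => Jac T w j l) p * conj (Jac T p k m) * h (T p) l m +
        Jac T p j l * conj (Jac T p k m) * ∑ b, Jac T p a b * dz b (fun w => h w l m) (T p)) := by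
    intro a j
    have e : (fun p => pull T h p j k) = fun w => ∑ l, ∑ m,
        Jac T w j l * conj (Jac T w k m) * h (T w) l m := rfl
    rw [e, dz_sum fun l _ => DifferentiableAt.fun_sum fun m _ =>
      ((hJ j l).fun_mul (hJc k m)).fun_mul (hdc l m)]
    refine Finset.sum_congr rfl fun l _ => ?_
    rw [dz_sum fun m _ => ((hJ j l).fun_mul (hJc k m)).fun_mul (hdc l m)]
    refine Finset.sum_congr rfl fun m _ => ?_
    rw [dz_mul ((hJ j l).fun_mul (hJc k m)) (hdc l m), dz_mul (hJ j l) (hJc k m),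
      dz_conj_Jac hTp, dz_comp (f := fun w => h w l m) hTd (hd l m)]
    ring
  rw [key, key]
  simp only [Finset.sum_add_distrib]
  congr 1
  · refine Finset.sum_congr rfl fun l _ => Finset.sum_congr rfl fun m _ => ?_
    rw [dz_Jac hTp]
  · have e1 : ∀ a j, (∑ l, ∑ m, Jac T p j l * conj (Jac T p k m) *
        ∑ b, Jac T p a b * dz b (fun w => h w l m) (T p)) =
        ∑ m, ∑ l, ∑ b, conj (Jac T p k m) * (Jac T p j l * Jac T p a b *
          dz b (fun w => h w l m) (T p)) := by
      intro a j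
      rw [Finset.sum_comm]
      refine Finset.sum_congr rfl fun m _ => Finset.sum_congr rfl fun l _ => ?_
      rw [Finset.mul_sum]
      refine Finset.sum_congr rfl fun b _ => ?_
      ring
    rw [e1, e1]
    refine Finset.sum_congr rfl fun m _ => ?_
    rw [Finset.sum_comm]
    refine Finset.sum_congr rfl fun l _ => Finset.sum_congr rfl fun b _ => ?_
    rw [hcl (T p) (hst hp) l b m]
    ring

/-- complex Hessian in any dimension -/
noncomputable def hs (h : (Fin n → ℂ) → ℝ) (p : Fin n → ℂ) : Matrix (Fin n) (Fin n) ℂ :=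
  fun j k => dz j (dzb k (fun w => (h w : ℂ))) p

lemma hess_eq_hs (h : V → ℝ) (p : V) : hess h p = hs h p := rfl

lemma differentiableAt_dzb (hf : ContDiffAt ℝ 2 f p) (k : Fin n) :
    DifferentiableAt ℝ (fun w => dzb k f w) p :=
  ((differentiableAt_fderiv_apply hf _).fun_add
    ((differentiableAt_const _).fun_mul (differentiableAt_fderiv_apply hf _))).mul_const _
lemma differentiableAt_dz (hf : ContDiffAt ℝ 2 f p) (k : Fin n) :
    DifferentiableAt ℝ (fun w => dz k f w) p :=
  ((differentiableAt_fderiv_apply hf _).fun_sub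
    ((differentiableAt_const _).fun_mul (differentiableAt_fderiv_apply hf _))).mul_const _

lemma contDiffAt_dzb {a : ℕ∞} (hf : ContDiffAt ℝ (a + 1) f p) (k : Fin n) :
    ContDiffAt ℝ a (fun w => dzb k f w) p := by
  have h : ∀ v : Fin n → ℂ, ContDiffAt ℝ a (fun w => fderiv ℝ f w v) p := fun v =>
    (hf.fderiv_right (m := a) le_rfl).clm_apply contDiffAt_const
  exact ((h _).add (contDiffAt_const.mul (h _))).div_const _
lemma contDiffAt_dz {a : ℕ∞} (hf : ContDiffAt ℝ (a + 1) f p) (k : Fin n) :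
    ContDiffAt ℝ a (fun w => dz k f w) p := by
  have h : ∀ v : Fin n → ℂ, ContDiffAt ℝ a (fun w => fderiv ℝ f w v) p := fun v =>
    (hf.fderiv_right (m := a) le_rfl).clm_apply contDiffAt_const
  exact ((h _).sub (contDiffAt_const.mul (h _))).div_const _

lemma contDiffAt_ofReal {N : WithTop ℕ∞} {h : (Fin n → ℂ) → ℝ} (hh : ContDiffAt ℝ N h p) :
    ContDiffAt ℝ N (fun w => (h w : ℂ)) p :=
  (ofRealCLM.contDiff.contDiffAt).comp p hh

lemma hs_congr {g h : (Fin n → ℂ) → ℝ} (hgh : g =ᶠ[𝓝 p] h) : hs g p = hs h p := by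
  ext j k
  refine dz_congr ?_
  filter_upwards [hgh.eventually_nhds] with w hw
  exact dzb_congr (hw.mono fun x hx => by simp only [hx])

lemma hs_comp {h : (Fin n → ℂ) → ℝ} (hT : ContDiffAt ℂ 2 T p)
    (hh : ContDiffAt ℝ 2 h (T p)) : hs (fun w => h (T w)) p = pull T (hs h) p := by
  have hTd : DifferentiableAt ℂ T p := hT.differentiableAt (by norm_num)
  have hJ : ∀ j l, DifferentiableAt ℝ (fun w => Jac T w j l) p := fun j l =>
    (Jac_diff hT j l).restrictScalars ℝ
  have hJc : ∀ j l, DifferentiableAt ℝ (fun w => conj (Jac T w j l)) p := fun j l =>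
    (conjCLE : ℂ ≃L[ℝ] ℂ).differentiableAt.comp p (hJ j l)
  have hhc : ContDiffAt ℝ 2 (fun w => (h w : ℂ)) (T p) := contDiffAt_ofReal hh
  ext j k
  have ev : (dzb k (fun w => (h (T w) : ℂ))) =ᶠ[𝓝 p] fun w => ∑ m, conj (Jac T w k m) *
      dzb m (fun w => (h w : ℂ)) (T w) := by
    have h1 : ∀ᶠ w in 𝓝 p, ContDiffAt ℝ 2 (fun w => (h w : ℂ)) (T w) :=
      hTd.continuousAt.eventually (hhc.eventually (by simp))
    filter_upwards [hT.eventually (by simp), h1] with w hw hw'
    exact dzb_comp (f := fun w => (h w : ℂ)) (hw.differentiableAt (by norm_num))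
      (hw'.differentiableAt (by norm_num))
  have hd : ∀ m, DifferentiableAt ℝ (fun w => dzb m (fun w => (h w : ℂ)) (T w)) p := fun m =>
    (hasFDerivAt_comp' (f := fun w => dzb m (fun w => (h w : ℂ)) w) hTd
      (differentiableAt_dzb hhc m)).differentiableAt
  show dz j (dzb k (fun w => (h (T w) : ℂ))) p = _
  rw [dz_congr ev, dz_sum fun m _ => (hJc k m).fun_mul (hd m)]
  show _ = ∑ l, ∑ m, Jac T p j l * conj (Jac T p k m) *
    dz l (dzb m (fun w => (h w : ℂ))) (T p)
  rw [Finset.sum_comm]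
  refine Finset.sum_congr rfl fun m _ => ?_
  rw [dz_mul (hJc k m) (hd m), dz_conj_Jac hT,
    dz_comp (f := fun w => dzb m (fun w => (h w : ℂ)) w) hTd (differentiableAt_dzb hhc m),
    Finset.mul_sum, zero_mul, zero_add]
  refine Finset.sum_congr rfl fun l _ => ?_
  ring

lemma fderiv_holo_apply_diff {g : (Fin n → ℂ) → ℂ} (hg : ContDiffAt ℂ 2 g p) (k : Fin n) :
    DifferentiableAt ℂ (fun w => dz k g w) p := by
  have h1 : ∀ᶠ w in 𝓝 p, dz k g w = fderiv ℂ g w (Pi.single k 1) := by
    filter_upwards [hg.eventually (by simp)] with w hw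
    exact dz_of_holo (hw.differentiableAt (by norm_num))
  have h2 : DifferentiableAt ℂ (fun w => fderiv ℂ g w (Pi.single k 1)) p :=
    ((hg.fderiv_right (m := 1) (by norm_num)).differentiableAt (by norm_num)).clm_apply
      (differentiableAt_const _)
  exact h2.congr_of_eventuallyEq h1

lemma hs_log_normSq {g : (Fin n → ℂ) → ℂ} (hg : ContDiffAt ℂ 2 g p)
    (h0 : g p ≠ 0) : hs (fun w => Real.log (normSq (g w))) p = 0 := by
  ext j k
  have ev : (dzb k (fun w => ((Real.log (normSq (g w)) : ℝ) : ℂ))) =ᶠ[𝓝 p]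
      fun w => conj (dz k g w / g w) := by
    have hc : ∀ᶠ w in 𝓝 p, g w ≠ 0 := hg.continuousAt.eventually_ne h0
    filter_upwards [hg.eventually (by simp), hc] with w hw hw0
    have hgd : DifferentiableAt ℂ g w := hw.differentiableAt (by norm_num)
    have hgr : DifferentiableAt ℝ g w := hgd.restrictScalars ℝ
    have hgc : DifferentiableAt ℝ (fun w => conj (g w)) w :=
      (conjCLE : ℂ ≃L[ℝ] ℂ).differentiableAt.comp w hgr
    have hns : (fun w => ((normSq (g w) : ℝ) : ℂ)) = fun w => g w * conj (g w) := by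
      funext w; rw [Complex.mul_conj]
    have hnd : DifferentiableAt ℝ (fun w => normSq (g w)) w := by
      have : (fun w => normSq (g w)) = fun w => (g w).re * (g w).re + (g w).im * (g w).im := by
        funext w; rw [normSq_apply]
      rw [this]
      have hre : DifferentiableAt ℝ (fun w => (g w).re) w := reCLM.differentiableAt.comp w hgr
      have him : DifferentiableAt ℝ (fun w => (g w).im) w := imCLM.differentiableAt.comp w hgr
      exact (hre.mul hre).add (him.mul him)
    have hpos : normSq (g w) ≠ 0 := by rwa [Ne, normSq_eq_zero]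
    rw [dzb_real_comp hnd (Real.differentiableAt_log hpos), Real.deriv_log, hns,
      dzb_mul hgr hgc, dzb_of_holo hgd, dzb_conj, map_div₀]
    have hcg : conj (g w) ≠ 0 := by simpa using hw0
    push_cast
    rw [← Complex.mul_conj]
    field_simp
    ring
  show dz j (dzb k (fun w => ((Real.log (normSq (g w)) : ℝ) : ℂ))) p = 0
  rw [dz_congr ev, dz_conj, dzb_of_holo, map_zero]
  have h1 : DifferentiableAt ℂ (fun w => dz k g w * (g w)⁻¹) p :=
    (fderiv_holo_apply_diff hg k).fun_mul ((hg.differentiableAt (by norm_num)).inv h0)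
  simpa only [div_eq_mul_inv] using h1

lemma hs_add {g h : (Fin n → ℂ) → ℝ} (hg : ContDiffAt ℝ 2 g p) (hh : ContDiffAt ℝ 2 h p) :
    hs (fun w => g w + h w) p = hs g p + hs h p := by
  ext j k
  have ev : (dzb k (fun w => ((g w + h w : ℝ) : ℂ))) =ᶠ[𝓝 p] fun w =>
      dzb k (fun w => (g w : ℂ)) w + dzb k (fun w => (h w : ℂ)) w := by
    filter_upwards [(contDiffAt_ofReal hg).eventually (by simp),
      (contDiffAt_ofReal hh).eventually (by simp)] with w hw hw'
    rw [← dzb_add (hw.differentiableAt (by norm_num)) (hw'.differentiableAt (by norm_num))]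
    push_cast
    rfl
  show dz j (dzb k (fun w => ((g w + h w : ℝ) : ℂ))) p = _
  rw [dz_congr ev, dz_add (differentiableAt_dzb (contDiffAt_ofReal hg) k)
    (differentiableAt_dzb (contDiffAt_ofReal hh) k)]
  rfl

lemma hs_smul (c : ℝ) {h : (Fin n → ℂ) → ℝ} (hh : ContDiffAt ℝ 2 h p) :
    hs (fun w => c * h w) p = (c : ℂ) • hs h p := by
  ext j k
  have ev : (dzb k (fun w => ((c * h w : ℝ) : ℂ))) =ᶠ[𝓝 p] fun w =>
      (c : ℂ) * dzb k (fun w => (h w : ℂ)) w := by
    filter_upwards [(contDiffAt_ofReal hh).eventually (by simp)] with w hw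
    have := dzb_mul (j := k) (differentiableAt_const (c : ℂ)) (hw.differentiableAt (by norm_num))
    rw [dzb_const, zero_mul, zero_add] at this
    rw [← this]
    push_cast
    rfl
  show dz j (dzb k (fun w => ((c * h w : ℝ) : ℂ))) p = _
  rw [dz_congr ev, dz_mul (differentiableAt_const _)
    (differentiableAt_dzb (contDiffAt_ofReal hh) k), dz_const, zero_mul, zero_add]
  rfl

lemma hs_herm {h : (Fin n → ℂ) → ℝ} (hh : ContDiffAt ℝ 2 h p) : (hs h p).IsHermitian := by
  ext j k
  rw [Matrix.conjTranspose_apply]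
  show conj (dz k (dzb j (fun w => (h w : ℂ))) p) = dz j (dzb k (fun w => (h w : ℂ))) p
  rw [← dzb_conj]
  have e : (fun w => conj (dzb j (fun w => (h w : ℂ)) w)) = fun w => dz j (fun w => (h w : ℂ)) w := by
    funext w
    rw [← dz_conj]
    simp only [conj_ofReal]
  rw [e]
  exact (dz_dzb_comm (contDiffAt_ofReal hh)).symm

/-- `∂_a h_{jk̄} = ∂_j h_{ak̄}` -/
lemma hs_closed {h : (Fin n → ℂ) → ℝ} (hh : ContDiffAt ℝ 3 h p) (a j k : Fin n) :
    dz a (fun w => hs h w j k) p = dz j (fun w => hs h w a k) p := by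
  have h2 : ContDiffAt ℝ ((2 : ℕ∞) : WithTop ℕ∞) (fun w => dzb k (fun w => (h w : ℂ)) w) p :=
    contDiffAt_dzb (a := 2) (contDiffAt_ofReal (by exact_mod_cast hh)) k
  exact dz_dz_comm (f := fun w => dzb k (fun w => (h w : ℂ)) w) (by exact_mod_cast h2)

/-! the same for `hess` -/

/-- Hessian and holomorphic maps -/
lemma hess_comp {T : V → V} {h : V → ℝ} {p : V} (hT : ContDiffAt ℂ 2 T p)
    (hh : ContDiffAt ℝ 2 h (T p)) : hess (fun w => h (T w)) p = pull T (hess h) p :=
  hs_comp hT hh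
lemma hess_log_normSq {g : V → ℂ} {p : V} (hg : ContDiffAt ℂ 2 g p)
    (h0 : g p ≠ 0) : hess (fun w => Real.log (normSq (g w))) p = 0 := hs_log_normSq hg h0
lemma hess_add {g h : V → ℝ} {p : V} (hg : ContDiffAt ℝ 2 g p) (hh : ContDiffAt ℝ 2 h p) :
    hess (fun w => g w + h w) p = hess g p + hess h p := hs_add hg hh
lemma hess_smul (c : ℝ) {h : V → ℝ} {p : V} (hh : ContDiffAt ℝ 2 h p) :
    hess (fun w => c * h w) p = (c : ℂ) • hess h p := hs_smul c hh
lemma hess_congr {g h : V → ℝ} {p : V} (hgh : g =ᶠ[𝓝 p] h) : hess g p = hess h p := hs_congr hgh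
lemma hess_herm {h : V → ℝ} {p : V} (hh : ContDiffAt ℝ 2 h p) : (hess h p).IsHermitian :=
  hs_herm hh
/-- `∂_a h_{jk̄} = ∂_j h_{ak̄}` -/
lemma hess_closed {h : V → ℝ} {p : V} (hh : ContDiffAt ℝ 3 h p) (a j k : Fin 3) :
    dz a (fun w => hess h w j k) p = dz j (fun w => hess h w a k) p := hs_closed hh a j k

lemma contDiffAt_det {N : WithTop ℕ∞} {g : (Fin n → ℂ) → Matrix (Fin n) (Fin n) ℂ}
    (h : ∀ j k, ContDiffAt ℝ N (fun w => g w j k) p) : ContDiffAt ℝ N (fun w => (g w).det) p := by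
  simp only [Matrix.det_apply]
  exact ContDiffAt.sum fun σ _ => (contDiffAt_prod fun i _ => h _ _).const_smul _

lemma contDiffAt_det_complex {N : WithTop ℕ∞} {g : (Fin n → ℂ) → Matrix (Fin n) (Fin n) ℂ}
    (h : ∀ j k, ContDiffAt ℂ N (fun w => g w j k) p) : ContDiffAt ℂ N (fun w => (g w).det) p := by
  simp only [Matrix.det_apply]
  exact ContDiffAt.sum fun σ _ => (contDiffAt_prod fun i _ => h _ _).const_smul _

lemma scal_eq_trace (g : (Fin n → ℂ) → Matrix (Fin n) (Fin n) ℂ) (z : Fin n → ℂ) :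
    scal g z = (-((g z)⁻¹ * hs (fun w => Real.log (g w).det.re) z).trace).re := by
  simp only [scal, Matrix.trace, Matrix.diag_apply, Matrix.mul_apply, hs]
  rw [Finset.sum_comm]

lemma scal_congr {g g' : (Fin n → ℂ) → Matrix (Fin n) (Fin n) ℂ}
    (h : g =ᶠ[𝓝 p] g') : scal g p = scal g' p := by
  have h2 : (fun w => Real.log (g w).det.re) =ᶠ[𝓝 p] fun w => Real.log (g' w).det.re :=
    h.mono fun w hw => by simp only [hw]
  rw [scal_eq_trace, scal_eq_trace, h.eq_of_nhds, hs_congr h2]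

/-- invariance of the Chern scalar curvature -/
lemma scal_pull {g : (Fin n → ℂ) → Matrix (Fin n) (Fin n) ℂ} (hT : ContDiffAt ℂ ω T p)
    (hJ : (Jac T p).det ≠ 0) (hg : ∀ᶠ w in 𝓝 (T p), (g w).PosDef)
    (hsm : ∀ j k, ContDiffAt ℝ 2 (fun w => g w j k) (T p)) :
    scal (fun w => pull T g w) p = scal g (T p) := by
  have hT2 : ContDiffAt ℂ 2 T p := hT.of_le le_top
  have hTd : DifferentiableAt ℂ T p := hT2.differentiableAt (by norm_num)
  have hJd : ContDiffAt ℂ 2 (fun w => (Jac T w).det) p :=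
    contDiffAt_det_complex fun j k => by exact_mod_cast (Jac_contDiffAt (N := 2) hT j k)
  have hdr : ContDiffAt ℝ 2 (fun w => (g w).det.re) (T p) :=
    (reCLM.contDiff.contDiffAt).comp (T p) (contDiffAt_det hsm)
  have hposTp : 0 < (g (T p)).det.re := by
    have := hg.self_of_nhds.det_pos
    exact (Complex.lt_def.1 this).1
  have hlog : ContDiffAt ℝ 2 (fun w => Real.log (g w).det.re) (T p) := hdr.log hposTp.ne'
  have hlogT : ContDiffAt ℝ 2 (fun w => Real.log (g (T w)).det.re) p :=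
    ContDiffAt.comp p hlog (hT2.restrict_scalars ℝ)
  have hev : (fun w => Real.log (pull T g w).det.re) =ᶠ[𝓝 p] fun w =>
      Real.log (normSq (Jac T w).det) + Real.log (g (T w)).det.re := by
    filter_upwards [hTd.continuousAt.eventually hg, hJd.continuousAt.eventually_ne hJ] with w hw hJw
    have h1 : 0 < (g (T w)).det.re := (Complex.lt_def.1 hw.det_pos).1
    rw [det_pull, Complex.re_ofReal_mul, Real.log_mul _ h1.ne']
    rwa [Ne, normSq_eq_zero]
  have hJlog : ContDiffAt ℝ 2 (fun w => Real.log (normSq (Jac T w).det)) p := by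
    have h1 : ContDiffAt ℝ 2 (fun w => (Jac T w).det) p := hJd.restrict_scalars ℝ
    have h2 : ContDiffAt ℝ 2 (fun w => normSq (Jac T w).det) p := by
      have : (fun w => normSq (Jac T w).det) = fun w =>
        (Jac T w).det.re * (Jac T w).det.re + (Jac T w).det.im * (Jac T w).det.im := by
        funext w; rw [normSq_apply]
      rw [this]
      have hre : ContDiffAt ℝ 2 (fun w => (Jac T w).det.re) p :=
        (reCLM.contDiff.contDiffAt).comp p h1
      have him : ContDiffAt ℝ 2 (fun w => (Jac T w).det.im) p :=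
        (imCLM.contDiff.contDiffAt).comp p h1
      exact (hre.mul hre).add (him.mul him)
    exact h2.log (by rwa [Ne, normSq_eq_zero])
  rw [scal_eq_trace, scal_eq_trace, hs_congr hev, hs_add hJlog hlogT, hs_log_normSq hJd hJ,
    zero_add, hs_comp (h := fun w => Real.log (g w).det.re) hT2 hlog, pull_eq, pull_eq]
  congr 2
  set J := Jac T p with hJdef
  have hJu : IsUnit J.det := isUnit_iff_ne_zero.2 hJ
  have hJhu : IsUnit (Jᴴ).det := by
    rw [Matrix.det_conjTranspose]; simpa using hJ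
  rw [Matrix.mul_inv_rev, Matrix.mul_inv_rev]
  have e : (Jᴴ)⁻¹ * ((g (T p))⁻¹ * J⁻¹) *
      (J * hs (fun w => Real.log (g w).det.re) (T p) * Jᴴ) =
      (Jᴴ)⁻¹ * ((g (T p))⁻¹ * hs (fun w => Real.log (g w).det.re) (T p) * Jᴴ) := by
    simp only [Matrix.mul_assoc]
    rw [Matrix.nonsing_inv_mul_cancel_left _ _ hJu]
  rw [e, Matrix.trace_mul_comm, Matrix.mul_assoc, Matrix.mul_nonsing_inv _ hJhu, Matrix.mul_one]

/-- real Jacobian determinant of a holomorphic map -/
lemma abs_det_fderiv (hT : DifferentiableAt ℂ T p) :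
    |(fderiv ℝ T p).det| = normSq (Jac T p).det := by
  have h : fderiv ℝ T p = (fderiv ℂ T p).restrictScalars ℝ :=
    (hT.hasFDerivAt.restrictScalars ℝ).fderiv
  have h2 : (fderiv ℝ T p).det = Algebra.norm ℝ (LinearMap.det (fderiv ℂ T p : (Fin n → ℂ) →ₗ[ℂ] _)) := by
    rw [h, ← LinearMap.det_restrictScalars]; rfl
  have h3 : LinearMap.det (fderiv ℂ T p : (Fin n → ℂ) →ₗ[ℂ] (Fin n → ℂ)) = (Jac T p).det := by
    rw [← LinearMap.det_toMatrix', ← Matrix.det_transpose]
    congr 1
    ext j l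
    rw [Matrix.transpose_apply, LinearMap.toMatrix'_apply, Jac_eq hT]
    rfl
  rw [h2, Algebra.norm_complex_apply, h3, abs_of_nonneg (normSq_nonneg _)]

end chain

end Pool.Agent.KG
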