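import Mathlib
import Pool.Agent.KG.Wirt
import Pool.Agent.Hhelper97.Gam.Act
import Pool.Agent.Hhelper97.Gam.Cutoff

/-! # Module A3: the concrete maps `mob`, `act2`, `act0`, `T0`, `T1` -/

open scoped ContDiff ComplexConjugate ComplexOrder Matrix Topology MatrixGroups
open Complex MeasureTheory Filter

namespace Pool.Agent.KG

lemma isOpen_U : IsOpen U := isOpen_lt continuous_const (by fun_prop)

lemma den_eq_J (γ : SL(2, ℝ)) (z : ℂ) : den γ z = Hhelper97.Gam.J γ z := rfl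
lemma mob_eq_mob (γ : SL(2, ℝ)) (z : ℂ) : mob γ z = Hhelper97.Gam.mob γ z := rfl

lemma den_ne {γ : SL(2, ℝ)} {z : ℂ} (hz : 0 < z.im) : den γ z ≠ 0 :=
  Hhelper97.Gam.J_ne_zero γ hz
lemma im_mob (γ : SL(2, ℝ)) {z : ℂ} (hz : 0 < z.im) : (mob γ z).im = z.im / normSq (den γ z) :=
  Hhelper97.Gam.im_mob γ z
lemma mob_mul (γ γ' : SL(2, ℝ)) {z : ℂ} (hz : 0 < z.im) : mob (γ * γ') z = mob γ (mob γ' z) :=
  Hhelper97.Gam.mob_mul γ γ' hz
lemma den_mul (γ γ' : SL(2, ℝ)) {z : ℂ} (hz : 0 < z.im) :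
    den (γ * γ') z = den γ (mob γ' z) * den γ' z := Hhelper97.Gam.J_mul γ γ' hz
lemma mob_one (z : ℂ) : mob 1 z = z := Hhelper97.Gam.mob_one z
lemma den_one (z : ℂ) : den 1 z = 1 := Hhelper97.Gam.J_one z
lemma im_mob_pos (γ : SL(2, ℝ)) {z : ℂ} (hz : 0 < z.im) : 0 < (mob γ z).im :=
  Hhelper97.Gam.mob_im_pos γ hz
/-- relation with the action on the upper half plane -/
lemma coe_smul (γ : SL(2, ℝ)) (τ : UpperHalfPlane) : ((γ • τ : UpperHalfPlane) : ℂ) = mob γ τ :=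
  (Hhelper97.Gam.mob_coe γ τ).symm
/-- free action -/
lemma mob_free {γ : SL(2, ℝ)} (hγ : γ ∈ Gp) {z : ℂ} (hz : 0 < z.im) (h : mob γ z = z) : γ = 1 := by
  refine Hhelper97.Gam.free hγ ⟨z, hz⟩ (UpperHalfPlane.ext ?_)
  rw [coe_smul]
  exact h
/-- proper discontinuity -/
lemma mob_proper {K : Set ℂ} (hK : IsCompact K) (hK' : K ⊆ {z | 0 < z.im}) :
    {γ : SL(2, ℝ) | γ ∈ Gp ∧ ∃ z ∈ K, mob γ z ∈ K}.Finite := by
  have hemb : Topology.IsOpenEmbedding (fun τ : UpperHalfPlane => (τ : ℂ)) :=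
    UpperHalfPlane.isOpenEmbedding_coe
  have hK2 : IsCompact ((fun τ : UpperHalfPlane => (τ : ℂ)) ⁻¹' K) :=
    hemb.isInducing.isCompact_preimage' hK (fun x hx => ⟨⟨x, hK' hx⟩, rfl⟩)
  have hfin := ProperlyDiscontinuousSMul.finite_disjoint_inter_image (Γ := Gp) hK2 hK2
  refine (hfin.image (fun γ : Gp => (γ : SL(2, ℝ)))).subset ?_
  rintro γ ⟨hγ, z, hz, hz'⟩
  refine ⟨⟨γ, hγ⟩, ?_, rfl⟩
  have hmem : ((γ • (⟨z, hK' hz⟩ : UpperHalfPlane) : UpperHalfPlane) : ℂ) ∈ K := by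
    rw [coe_smul]
    exact hz'
  exact ⟨γ • (⟨z, hK' hz⟩ : UpperHalfPlane),
    Set.mem_image_of_mem _ (show (⟨z, hK' hz⟩ : UpperHalfPlane) ∈ _ from hz), hmem⟩
/-- cocompactness -/
lemma mob_cocompact : ∃ K : Set ℂ, IsCompact K ∧ K ⊆ {z | 0 < z.im} ∧
    ∀ z : ℂ, 0 < z.im → ∃ γ ∈ Gp, mob γ z ∈ K := by
  obtain ⟨K, hK, hK'⟩ := Hhelper97.Gam.cocompact
  refine ⟨(fun τ : UpperHalfPlane => (τ : ℂ)) '' K, hK.image UpperHalfPlane.continuous_coe, ?_, ?_⟩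
  · rintro _ ⟨τ, -, rfl⟩
    exact τ.im_pos
  · intro z hz
    obtain ⟨γ, hγ, h⟩ := hK' ⟨z, hz⟩
    exact ⟨γ, hγ, _, h, coe_smul γ ⟨z, hz⟩⟩
lemma mob_hasDerivAt (γ : SL(2, ℝ)) {z : ℂ} (hz : 0 < z.im) :
    HasDerivAt (mob γ) (1 / den γ z ^ 2) z := Hhelper97.Gam.hasDerivAt_mob γ hz
lemma den_hasDerivAt (γ : SL(2, ℝ)) (z : ℂ) :
    HasDerivAt (den γ) ((γ 1 0 : ℝ) : ℂ) z := Hhelper97.Gam.hasDerivAt_J γ z

@[simp] lemma act2_zero (γ : SL(2, ℝ)) (p : V) : act2 γ p 0 = mob γ (p 0) := rfl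
@[simp] lemma act2_one_apply (γ : SL(2, ℝ)) (p : V) : act2 γ p 1 = p 1 / den γ (p 0) := rfl
@[simp] lemma act2_two (γ : SL(2, ℝ)) (p : V) : act2 γ p 2 = p 2 / den γ (p 0) := rfl
@[simp] lemma act0_zero (γ : SL(2, ℝ)) (p : V) : act0 γ p 0 = mob γ (p 0) := rfl
@[simp] lemma act0_one_apply (γ : SL(2, ℝ)) (p : V) : act0 γ p 1 = p 1 := rfl
@[simp] lemma act0_two (γ : SL(2, ℝ)) (p : V) : act0 γ p 2 = den γ (p 0) * p 2 := rfl
@[simp] lemma T0_zero (p : V) : T0 p 0 = p 0 := rfl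
@[simp] lemma T0_one (p : V) : T0 p 1 = 1 / p 2 := rfl
@[simp] lemma T0_two (p : V) : T0 p 2 = p 1 / p 2 := rfl
@[simp] lemma T1_zero (p : V) : T1 p 0 = p 0 := rfl
@[simp] lemma T1_one (p : V) : T1 p 1 = p 1 / p 2 := rfl
@[simp] lemma T1_two (p : V) : T1 p 2 = 1 / p 2 := rfl

lemma V_ext {p q : V} (h0 : p 0 = q 0) (h1 : p 1 = q 1) (h2 : p 2 = q 2) : p = q := by
  ext i; fin_cases i
  · exact h0
  · exact h1
  · exact h2

lemma act2_mem (γ : SL(2, ℝ)) {p : V} (hp : p ∈ U) : act2 γ p ∈ U := im_mob_pos γ hp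
lemma act0_mem (γ : SL(2, ℝ)) {p : V} (hp : p ∈ U) : act0 γ p ∈ U := im_mob_pos γ hp
lemma act2_mul (γ γ' : SL(2, ℝ)) {p : V} (hp : p ∈ U) :
    act2 (γ * γ') p = act2 γ (act2 γ' p) := by
  have hp : 0 < (p 0).im := hp
  have h1 : den γ' (p 0) ≠ 0 := den_ne hp
  have h2 : den γ (mob γ' (p 0)) ≠ 0 := den_ne (im_mob_pos γ' hp)
  apply V_ext
  · simp [mob_mul γ γ' hp]
  · simp [den_mul γ γ' hp]; field_simp
  · simp [den_mul γ γ' hp]; field_simp
lemma act0_mul (γ γ' : SL(2, ℝ)) {p : V} (hp : p ∈ U) :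
    act0 (γ * γ') p = act0 γ (act0 γ' p) := by
  have hp : 0 < (p 0).im := hp
  apply V_ext
  · simp [mob_mul γ γ' hp]
  · simp
  · simp [den_mul γ γ' hp]; ring
lemma act2_one (p : V) : act2 1 p = p := by
  apply V_ext <;> simp [mob_one, den_one]
lemma act0_one (p : V) : act0 1 p = p := by
  apply V_ext <;> simp [mob_one, den_one]
lemma T0_mem {p : V} : T0 p ∈ U ↔ p ∈ U := Iff.rfl
lemma T1_mem {p : V} : T1 p ∈ U ↔ p ∈ U := Iff.rfl
lemma T0_act0 (γ : SL(2, ℝ)) {p : V} (hp : p ∈ U) (h2 : p 2 ≠ 0) :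
    T0 (act0 γ p) = act2 γ (T0 p) := by
  have h1 : den γ (p 0) ≠ 0 := den_ne hp
  apply V_ext
  · simp
  · simp; field_simp
  · simp; field_simp
lemma T1_act0 (γ : SL(2, ℝ)) {p : V} (hp : p ∈ U) (h2 : p 2 ≠ 0) :
    T1 (act0 γ p) = act2 γ (T1 p) := by
  have h1 : den γ (p 0) ≠ 0 := den_ne hp
  apply V_ext
  · simp
  · simp; field_simp
  · simp; field_simp
/-- the inverse of `T0` on `p 1 ≠ 0` (chart 2 coordinates) is `(z,u₁,u₂) ↦ (z,u₂/u₁,1/u₁)` -/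
lemma T0_surj {p : V} (h1 : p 1 ≠ 0) : T0 ![p 0, p 2 / p 1, 1 / p 1] = p := by
  apply V_ext
  · simp
  · simp
  · simp; field_simp
lemma T1_surj {p : V} (h2 : p 2 ≠ 0) : T1 ![p 0, p 1 / p 2, 1 / p 2] = p := by
  apply V_ext
  · simp
  · simp; field_simp
  · simp
lemma T0_inj {p q : V} (hp : p 2 ≠ 0) (hq : q 2 ≠ 0) (h : T0 p = T0 q) : p = q := by
  have h0 : p 0 = q 0 := congrFun h 0
  have h1 : 1 / p 2 = 1 / q 2 := congrFun h 1
  have h2 : p 1 / p 2 = q 1 / q 2 := congrFun h 2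
  have h3 : p 2 = q 2 := by
    field_simp at h1; exact h1.symm
  rw [h3] at h2
  have h4 : p 1 = q 1 := by
    field_simp at h2; exact h2
  exact V_ext h0 h4 h3
lemma T1_inj {p q : V} (hp : p 2 ≠ 0) (hq : q 2 ≠ 0) (h : T1 p = T1 q) : p = q := by
  have h0 : p 0 = q 0 := congrFun h 0
  have h1 : 1 / p 2 = 1 / q 2 := congrFun h 2
  have h2 : p 1 / p 2 = q 1 / q 2 := congrFun h 1
  have h3 : p 2 = q 2 := by
    field_simp at h1; exact h1.symm
  rw [h3] at h2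
  have h4 : p 1 = q 1 := by
    field_simp at h2; exact h2
  exact V_ext h0 h4 h3

/-! ### derivatives -/

/-- coordinate projection -/
noncomputable abbrev prj (i : Fin 3) : V →L[ℂ] ℂ :=
  ContinuousLinearMap.proj (R := ℂ) (φ := fun _ : Fin 3 => ℂ) i

lemma hasFDerivAt_coord (i : Fin 3) (p : V) : HasFDerivAt (fun q : V => q i) (prj i) p :=
  hasFDerivAt_apply i p

lemma hf_mob (γ : SL(2, ℝ)) {p : V} (hp : p ∈ U) :
    HasFDerivAt (fun q : V => mob γ (q 0)) ((1 / den γ (p 0) ^ 2) • prj 0) p := by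
  have h := (mob_hasDerivAt γ (z := p 0) hp).hasFDerivAt.comp p (hasFDerivAt_coord 0 p)
  refine h.congr_fderiv ?_
  ext v
  simp
  ring

lemma hf_den (γ : SL(2, ℝ)) (p : V) :
    HasFDerivAt (fun q : V => den γ (q 0)) (((γ 1 0 : ℝ) : ℂ) • prj 0) p := by
  have h := (den_hasDerivAt γ (p 0)).hasFDerivAt.comp p (hasFDerivAt_coord 0 p)
  refine h.congr_fderiv ?_
  ext v
  simp
  ring

lemma hf_div {f g : V → ℂ} {f' g' : V →L[ℂ] ℂ} {p : V} (hf : HasFDerivAt f f' p)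
    (hg : HasFDerivAt g g' p) (h0 : g p ≠ 0) :
    HasFDerivAt (fun q => f q / g q) ((1 / g p) • f' - (f p / g p ^ 2) • g') p := by
  have h1 : HasFDerivAt (fun q => (g q)⁻¹) (-(1 / g p ^ 2) • g') p := by
    have h := (hasDerivAt_inv h0).hasFDerivAt.comp p hg
    refine h.congr_fderiv ?_
    ext v
    simp
    ring
  have h2 := hf.mul h1
  refine (h2.congr_fderiv ?_)
  ext v
  simp
  field_simp
  ring

lemma hf_inv {g : V → ℂ} {g' : V →L[ℂ] ℂ} {p : V}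
    (hg : HasFDerivAt g g' p) (h0 : g p ≠ 0) :
    HasFDerivAt (fun q => 1 / g q) (-(1 / g p ^ 2) • g') p := by
  have h := hf_div (hasFDerivAt_const (1 : ℂ) p) hg h0
  refine h.congr_fderiv ?_
  ext v
  simp

lemma hf_mul {f g : V → ℂ} {f' g' : V →L[ℂ] ℂ} {p : V} (hf : HasFDerivAt f f' p)
    (hg : HasFDerivAt g g' p) :
    HasFDerivAt (fun q => f q * g q) (f p • g' + g p • f') p := hf.mul hg

lemma hf_pi {T : V → V} {L : Fin 3 → V →L[ℂ] ℂ} {p : V}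
    (h0 : HasFDerivAt (fun q => T q 0) (L 0) p) (h1 : HasFDerivAt (fun q => T q 1) (L 1) p)
    (h2 : HasFDerivAt (fun q => T q 2) (L 2) p) : DifferentiableAt ℂ T p := by
  rw [differentiableAt_pi]
  intro i
  fin_cases i
  · exact h0.differentiableAt
  · exact h1.differentiableAt
  · exact h2.differentiableAt

lemma dz_of_hf {f : V → ℂ} {L : V →L[ℂ] ℂ} {p : V} (h : HasFDerivAt f L p) (j : Fin 3) :
    dz j f p = L (Pi.single j 1) := by
  rw [dz_of_holo h.differentiableAt, h.fderiv]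

section components
variable (γ : SL(2, ℝ)) {p : V}

lemma hf_act2_1 (hp : p ∈ U) : HasFDerivAt (fun q => act2 γ q 1)
    ((1 / den γ (p 0)) • prj 1 - (p 1 / den γ (p 0) ^ 2) • (((γ 1 0 : ℝ) : ℂ) • prj 0)) p :=
  hf_div (hasFDerivAt_coord 1 p) (hf_den γ p) (den_ne hp)
lemma hf_act2_2 (hp : p ∈ U) : HasFDerivAt (fun q => act2 γ q 2)
    ((1 / den γ (p 0)) • prj 2 - (p 2 / den γ (p 0) ^ 2) • (((γ 1 0 : ℝ) : ℂ) • prj 0)) p :=
  hf_div (hasFDerivAt_coord 2 p) (hf_den γ p) (den_ne hp)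
lemma hf_act0_2 : HasFDerivAt (fun q => act0 γ q 2)
    (den γ (p 0) • prj 2 + p 2 • (((γ 1 0 : ℝ) : ℂ) • prj 0)) p :=
  hf_mul (hf_den γ p) (hasFDerivAt_coord 2 p)
lemma hf_T0_1 (h2 : p 2 ≠ 0) : HasFDerivAt (fun q => T0 q 1) (-(1 / p 2 ^ 2) • prj 2) p :=
  hf_inv (hasFDerivAt_coord 2 p) h2
lemma hf_T0_2 (h2 : p 2 ≠ 0) : HasFDerivAt (fun q => T0 q 2)
    ((1 / p 2) • prj 1 - (p 1 / p 2 ^ 2) • prj 2) p :=
  hf_div (hasFDerivAt_coord 1 p) (hasFDerivAt_coord 2 p) h2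
lemma hf_T1_1 (h2 : p 2 ≠ 0) : HasFDerivAt (fun q => T1 q 1)
    ((1 / p 2) • prj 1 - (p 1 / p 2 ^ 2) • prj 2) p := hf_T0_2 h2
lemma hf_T1_2 (h2 : p 2 ≠ 0) : HasFDerivAt (fun q => T1 q 2) (-(1 / p 2 ^ 2) • prj 2) p :=
  hf_T0_1 h2

end components

lemma act2_holo (γ : SL(2, ℝ)) {p : V} (hp : p ∈ U) : DifferentiableAt ℂ (act2 γ) p := by
  rw [differentiableAt_pi]
  intro i
  fin_cases i
  · exact (hf_mob γ hp).differentiableAt
  · exact (hf_act2_1 γ hp).differentiableAt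
  · exact (hf_act2_2 γ hp).differentiableAt
lemma act0_holo (γ : SL(2, ℝ)) {p : V} (hp : p ∈ U) : DifferentiableAt ℂ (act0 γ) p := by
  rw [differentiableAt_pi]
  intro i
  fin_cases i
  · exact (hf_mob γ hp).differentiableAt
  · exact (hasFDerivAt_coord 1 p).differentiableAt
  · exact (hf_act0_2 γ).differentiableAt
lemma T0_holo {p : V} (h2 : p 2 ≠ 0) : DifferentiableAt ℂ T0 p := by
  rw [differentiableAt_pi]
  intro i
  fin_cases i
  · exact (hasFDerivAt_coord 0 p).differentiableAt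
  · exact (hf_T0_1 h2).differentiableAt
  · exact (hf_T0_2 h2).differentiableAt
lemma T1_holo {p : V} (h2 : p 2 ≠ 0) : DifferentiableAt ℂ T1 p := by
  rw [differentiableAt_pi]
  intro i
  fin_cases i
  · exact (hasFDerivAt_coord 0 p).differentiableAt
  · exact (hf_T1_1 h2).differentiableAt
  · exact (hf_T1_2 h2).differentiableAt

lemma contDiff_den (γ : SL(2, ℝ)) : ContDiff ℂ ω (fun p : V => den γ (p 0)) := by
  unfold den
  fun_prop

lemma contDiffOn_mob (γ : SL(2, ℝ)) : ContDiffOn ℂ ω (fun p : V => mob γ (p 0)) U := by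
  have h1 : ContDiffOn ℂ ω (fun p : V => ((γ 0 0 : ℝ) : ℂ) * p 0 + ((γ 0 1 : ℝ) : ℂ)) U := by
    fun_prop
  exact h1.div (contDiff_den γ).contDiffOn (fun p hp => den_ne hp)

lemma act2_contDiffOn (γ : SL(2, ℝ)) : ContDiffOn ℂ ω (act2 γ) U := by
  rw [contDiffOn_pi]
  intro i
  have h : ∀ j : Fin 3, ContDiffOn ℂ ω (fun p : V => p j) U := fun j => by fun_prop
  fin_cases i
  · exact contDiffOn_mob γ
  · exact (h 1).div (contDiff_den γ).contDiffOn (fun p hp => den_ne hp)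
  · exact (h 2).div (contDiff_den γ).contDiffOn (fun p hp => den_ne hp)
lemma act0_contDiffOn (γ : SL(2, ℝ)) : ContDiffOn ℂ ω (act0 γ) U := by
  rw [contDiffOn_pi]
  intro i
  have h : ∀ j : Fin 3, ContDiffOn ℂ ω (fun p : V => p j) U := fun j => by fun_prop
  fin_cases i
  · exact contDiffOn_mob γ
  · exact h 1
  · exact (contDiff_den γ).contDiffOn.mul (h 2)
lemma T0_contDiffOn : ContDiffOn ℂ ω T0 {p | p 2 ≠ 0} := by
  rw [contDiffOn_pi]
  intro i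
  have h : ∀ j : Fin 3, ContDiffOn ℂ ω (fun p : V => p j) {p | p 2 ≠ 0} := fun j => by fun_prop
  fin_cases i
  · exact h 0
  · exact contDiffOn_const.div (h 2) (fun p hp => hp)
  · exact (h 1).div (h 2) (fun p hp => hp)
lemma T1_contDiffOn : ContDiffOn ℂ ω T1 {p | p 2 ≠ 0} := by
  rw [contDiffOn_pi]
  intro i
  have h : ∀ j : Fin 3, ContDiffOn ℂ ω (fun p : V => p j) {p | p 2 ≠ 0} := fun j => by fun_prop
  fin_cases i
  · exact h 0
  · exact (h 1).div (h 2) (fun p hp => hp)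
  · exact contDiffOn_const.div (h 2) (fun p hp => hp)

lemma Jac_T0 {p : V} (h2 : p 2 ≠ 0) : Jac T0 p =
    !![1, 0, 0; 0, 0, 1 / p 2; 0, - 1 / p 2 ^ 2, - p 1 / p 2 ^ 2] := by
  ext j l
  fin_cases l
  · show dz j (fun q => T0 q 0) p = _
    rw [show (fun q : V => T0 q 0) = fun q => q 0 from rfl, dz_of_hf (hasFDerivAt_coord 0 p) j]
    fin_cases j <;> simp
  · show dz j (fun q => T0 q 1) p = _
    rw [dz_of_hf (hf_T0_1 h2) j]
    fin_cases j <;> simp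
    field_simp
  · show dz j (fun q => T0 q 2) p = _
    rw [dz_of_hf (hf_T0_2 h2) j]
    fin_cases j <;> simp
    field_simp
lemma Jac_T1 {p : V} (h2 : p 2 ≠ 0) : Jac T1 p =
    !![1, 0, 0; 0, 1 / p 2, 0; 0, - p 1 / p 2 ^ 2, - 1 / p 2 ^ 2] := by
  ext j l
  fin_cases l
  · show dz j (fun q => T1 q 0) p = _
    rw [show (fun q : V => T1 q 0) = fun q => q 0 from rfl, dz_of_hf (hasFDerivAt_coord 0 p) j]
    fin_cases j <;> simp
  · show dz j (fun q => T1 q 1) p = _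
    rw [dz_of_hf (hf_T1_1 h2) j]
    fin_cases j <;> simp
    field_simp
  · show dz j (fun q => T1 q 2) p = _
    rw [dz_of_hf (hf_T1_2 h2) j]
    fin_cases j <;> simp
    field_simp
lemma Jac_act2 (γ : SL(2, ℝ)) {p : V} (hp : p ∈ U) : Jac (act2 γ) p =
    !![1 / den γ (p 0) ^ 2, - (γ 1 0 : ℝ) * p 1 / den γ (p 0) ^ 2,
        - (γ 1 0 : ℝ) * p 2 / den γ (p 0) ^ 2;
      0, 1 / den γ (p 0), 0; 0, 0, 1 / den γ (p 0)] := by
  have hd : den γ (p 0) ≠ 0 := den_ne hp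
  ext j l
  fin_cases l
  · show dz j (fun q => act2 γ q 0) p = _
    rw [show (fun q : V => act2 γ q 0) = fun q => mob γ (q 0) from rfl, dz_of_hf (hf_mob γ hp) j]
    fin_cases j <;> simp
  · show dz j (fun q => act2 γ q 1) p = _
    rw [dz_of_hf (hf_act2_1 γ hp) j]
    fin_cases j <;> simp
    field_simp
  · show dz j (fun q => act2 γ q 2) p = _
    rw [dz_of_hf (hf_act2_2 γ hp) j]
    fin_cases j <;> simp
    field_simp
lemma Jac_act0 (γ : SL(2, ℝ)) {p : V} (hp : p ∈ U) : Jac (act0 γ) p =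
    !![1 / den γ (p 0) ^ 2, 0, (γ 1 0 : ℝ) * p 2; 0, 1, 0; 0, 0, den γ (p 0)] := by
  have hd : den γ (p 0) ≠ 0 := den_ne hp
  ext j l
  fin_cases l
  · show dz j (fun q => act0 γ q 0) p = _
    rw [show (fun q : V => act0 γ q 0) = fun q => mob γ (q 0) from rfl, dz_of_hf (hf_mob γ hp) j]
    fin_cases j <;> simp
  · show dz j (fun q => act0 γ q 1) p = _
    rw [show (fun q : V => act0 γ q 1) = fun q => q 1 from rfl, dz_of_hf (hasFDerivAt_coord 1 p) j]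
    fin_cases j <;> simp
  · show dz j (fun q => act0 γ q 2) p = _
    rw [dz_of_hf (hf_act0_2 γ) j]
    fin_cases j <;> simp
    ring
lemma det_Jac_T0 {p : V} (h2 : p 2 ≠ 0) : normSq (Jac T0 p).det = (normSq (p 2) ^ 3)⁻¹ := by
  have h : (Jac T0 p).det = 1 / p 2 ^ 3 := by
    rw [Jac_T0 h2, Matrix.det_fin_three]
    simp
    field_simp
  rw [h]
  simp
lemma det_Jac_T1 {p : V} (h2 : p 2 ≠ 0) : normSq (Jac T1 p).det = (normSq (p 2) ^ 3)⁻¹ := by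
  have h : (Jac T1 p).det = -(1 / p 2 ^ 3) := by
    rw [Jac_T1 h2, Matrix.det_fin_three]
    simp
    field_simp
  rw [h]
  simp
lemma det_Jac_act2 (γ : SL(2, ℝ)) {p : V} (hp : p ∈ U) :
    normSq (Jac (act2 γ) p).det = (normSq (den γ (p 0)) ^ 4)⁻¹ := by
  have hd : den γ (p 0) ≠ 0 := den_ne hp
  have h : (Jac (act2 γ) p).det = 1 / den γ (p 0) ^ 4 := by
    rw [Jac_act2 γ hp, Matrix.det_fin_three]
    simp
    field_simp
  rw [h]
  simp
lemma det_Jac_act0 (γ : SL(2, ℝ)) {p : V} (hp : p ∈ U) :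
    normSq (Jac (act0 γ) p).det = (normSq (den γ (p 0)))⁻¹ := by
  have hd : den γ (p 0) ≠ 0 := den_ne hp
  have h : (Jac (act0 γ) p).det = 1 / den γ (p 0) := by
    rw [Jac_act0 γ hp, Matrix.det_fin_three]
    simp
    field_simp
  rw [h]
  simp

/-- equivariance of `sig` -/
lemma sig_act2 (γ : SL(2, ℝ)) {p : V} (hp : p ∈ U) : sig (act2 γ p) = sig p := by
  have hp' : 0 < (p 0).im := hp
  have hJ : normSq (den γ (p 0)) ≠ 0 := by
    rw [Ne, normSq_eq_zero]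
    exact den_ne hp
  rw [sig, sig, act2_zero, act2_one_apply, act2_two, im_mob γ hp', normSq_div, normSq_div]
  field_simp
lemma sig_T0 {p : V} (h2 : p 2 ≠ 0) :
    sig (T0 p) = (1 + normSq (p 1)) / ((p 0).im * normSq (p 2)) := by
  have hJ : normSq (p 2) ≠ 0 := by
    rw [Ne, normSq_eq_zero]
    exact h2
  rw [sig, T0_zero, T0_one, T0_two, normSq_div, normSq_div, normSq_one, ← add_div, div_div]
  rw [mul_comm (normSq (p 2))]
lemma sig_T1 {p : V} (h2 : p 2 ≠ 0) :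
    sig (T1 p) = (1 + normSq (p 1)) / ((p 0).im * normSq (p 2)) := by
  rw [sig, T1_zero, T1_one, T1_two, normSq_div, normSq_div, normSq_one, ← add_div, div_div]
  rw [mul_comm (normSq (p 2)), add_comm (normSq (p 1))]

end Pool.Agent.KG
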