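import Mathlib
import Pool.Agent.KG.Maps

/-! # Module C1: the space `M = (ℍ × (ℂ³ ∖ 0)) / (Γ × ℂ^*)` and its étale charts -/

open scoped ContDiff ComplexConjugate ComplexOrder Matrix Topology MatrixGroups
open Complex MeasureTheory Filter

namespace Pool.Agent.KG

/-- `ℍ × (ℂ³ ∖ 0)` -/
def X : Type := {x : ℂ × (Fin 3 → ℂ) // 0 < x.1.im ∧ x.2 ≠ 0}

instance : TopologicalSpace X := inferInstanceAs (TopologicalSpace
  {x : ℂ × (Fin 3 → ℂ) // 0 < x.1.im ∧ x.2 ≠ 0})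

/-- `(z,w) ~ (γz, c (w₀, w₁, (cz+d) w₂))` -/
def rel (x y : X) : Prop := ∃ γ ∈ Gp, ∃ c : ℂ, c ≠ 0 ∧ y.1.1 = mob γ x.1.1 ∧
  y.1.2 = c • ![x.1.2 0, x.1.2 1, den γ x.1.1 * x.1.2 2]

namespace SpaceAux

/-- the linear part of the action -/
noncomputable def lin (γ : SL(2, ℝ)) (z : ℂ) (w : Fin 3 → ℂ) : Fin 3 → ℂ :=
  ![w 0, w 1, den γ z * w 2]

lemma lin_0 (γ : SL(2, ℝ)) (z : ℂ) (w : Fin 3 → ℂ) : lin γ z w 0 = w 0 := rfl
lemma lin_1 (γ : SL(2, ℝ)) (z : ℂ) (w : Fin 3 → ℂ) : lin γ z w 1 = w 1 := rfl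
lemma lin_2 (γ : SL(2, ℝ)) (z : ℂ) (w : Fin 3 → ℂ) : lin γ z w 2 = den γ z * w 2 := rfl

lemma lin_smul (γ : SL(2, ℝ)) (z c : ℂ) (w : Fin 3 → ℂ) : lin γ z (c • w) = c • lin γ z w := by
  ext k
  fin_cases k
  · rfl
  · rfl
  · show den γ z * (c * w 2) = c * (den γ z * w 2)
    ring

lemma lin_mul (γ γ' : SL(2, ℝ)) {z : ℂ} (hz : 0 < z.im) (w : Fin 3 → ℂ) :
    lin γ (mob γ' z) (lin γ' z w) = lin (γ * γ') z w := by
  ext k
  fin_cases k
  · rfl
  · rfl
  · show den γ (mob γ' z) * (den γ' z * w 2) = den (γ * γ') z * w 2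
    rw [den_mul γ γ' hz]
    ring

lemma lin_one (z : ℂ) (w : Fin 3 → ℂ) : lin 1 z w = w := by
  ext k
  fin_cases k
  · rfl
  · rfl
  · show den 1 z * w 2 = w 2
    rw [den_one, one_mul]

lemma lin_apply_ne {γ : SL(2, ℝ)} {z : ℂ} (hz : 0 < z.im) {w : Fin 3 → ℂ} {k : Fin 3} :
    lin γ z w k ≠ 0 ↔ w k ≠ 0 := by
  have h := den_ne (γ := γ) hz
  fin_cases k
  · exact Iff.rfl
  · exact Iff.rfl
  · show den γ z * w 2 ≠ 0 ↔ w 2 ≠ 0
    rw [mul_ne_zero_iff]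
    exact ⟨fun h' => h'.2, fun h' => ⟨h, h'⟩⟩

lemma lin_ne {γ : SL(2, ℝ)} {z : ℂ} (hz : 0 < z.im) {w : Fin 3 → ℂ} (hw : w ≠ 0) :
    lin γ z w ≠ 0 := by
  obtain ⟨k, hk⟩ := Function.ne_iff.1 hw
  exact Function.ne_iff.2 ⟨k, lin_apply_ne hz |>.2 hk⟩

lemma mob_im {γ : SL(2, ℝ)} {z : ℂ} (hz : 0 < z.im) : 0 < (mob γ z).im := by
  rw [im_mob γ hz]
  exact div_pos hz (normSq_pos.2 (den_ne hz))

/-- the action of `(γ, c)` -/
noncomputable def sc (γ : SL(2, ℝ)) (c : ℂˣ) (x : X) : X :=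
  ⟨(mob γ x.1.1, (c : ℂ) • lin γ x.1.1 x.1.2), mob_im x.2.1,
    smul_ne_zero c.ne_zero (lin_ne x.2.1 x.2.2)⟩

lemma X_ext {x y : X} (h1 : x.1.1 = y.1.1) (h2 : x.1.2 = y.1.2) : x = y :=
  Subtype.ext (Prod.ext h1 h2)

lemma sc_sc (γ γ' : SL(2, ℝ)) (c c' : ℂˣ) (x : X) :
    sc γ c (sc γ' c' x) = sc (γ * γ') (c * c') x := by
  apply X_ext
  · exact (mob_mul γ γ' x.2.1).symm
  · show (c : ℂ) • lin γ (mob γ' x.1.1) ((c' : ℂ) • lin γ' x.1.1 x.1.2) = _
    rw [lin_smul, lin_mul γ γ' x.2.1, smul_smul]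
    rfl

lemma sc_one (x : X) : sc 1 1 x = x := by
  apply X_ext
  · exact mob_one _
  · show ((1 : ℂˣ) : ℂ) • lin 1 x.1.1 x.1.2 = x.1.2
    rw [lin_one, Units.val_one, one_smul]

lemma rel_iff {x y : X} : rel x y ↔ ∃ γ ∈ Gp, ∃ c : ℂˣ, y = sc γ c x := by
  constructor
  · rintro ⟨γ, hγ, c, hc, h1, h2⟩
    exact ⟨γ, hγ, Units.mk0 c hc, X_ext h1 h2⟩
  · rintro ⟨γ, hγ, c, rfl⟩
    exact ⟨γ, hγ, c, c.ne_zero, rfl, rfl⟩

lemma continuous_den (γ : SL(2, ℝ)) : Continuous (den γ) := by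
  unfold den
  fun_prop

lemma continuousOn_mob (γ : SL(2, ℝ)) : ContinuousOn (mob γ) {z | 0 < z.im} :=
  fun _ hz => (mob_hasDerivAt γ hz).continuousAt.continuousWithinAt

lemma continuous_zX : Continuous fun x : X => x.1.1 :=
  _root_.continuous_fst.comp continuous_subtype_val
lemma continuous_wX : Continuous fun x : X => x.1.2 :=
  _root_.continuous_snd.comp continuous_subtype_val

lemma continuous_mobX (γ : SL(2, ℝ)) : Continuous fun x : X => mob γ x.1.1 :=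
  (continuousOn_mob γ).comp_continuous continuous_zX fun x => x.2.1

lemma continuous_linX (γ : SL(2, ℝ)) : Continuous fun x : X => lin γ x.1.1 x.1.2 := by
  have h : ∀ k : Fin 3, Continuous fun x : X => x.1.2 k := fun k =>
    (continuous_apply k).comp continuous_wX
  refine continuous_pi fun k => ?_
  fin_cases k
  · exact h 0
  · exact h 1
  · exact ((continuous_den γ).comp continuous_zX).mul (h 2)

lemma continuous_sc (γ : SL(2, ℝ)) (c : ℂˣ) : Continuous (sc γ c) :=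
  ((continuous_mobX γ).prodMk ((continuous_linX γ).const_smul (c : ℂ))).subtype_mk _

/-- the action as a homeomorphism -/
noncomputable def scH (γ : SL(2, ℝ)) (c : ℂˣ) : X ≃ₜ X where
  toFun := sc γ c
  invFun := sc γ⁻¹ c⁻¹
  left_inv x := by rw [sc_sc, inv_mul_cancel, inv_mul_cancel, sc_one]
  right_inv x := by rw [sc_sc, mul_inv_cancel, mul_inv_cancel, sc_one]
  continuous_toFun := continuous_sc γ c
  continuous_invFun := continuous_sc γ⁻¹ c⁻¹

end SpaceAux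

open SpaceAux

theorem rel_equiv : Equivalence rel where
  refl x := rel_iff.2 ⟨1, one_mem _, 1, (sc_one x).symm⟩
  symm := by
    intro x y h
    obtain ⟨γ, hγ, c, rfl⟩ := rel_iff.1 h
    exact rel_iff.2 ⟨γ⁻¹, inv_mem hγ, c⁻¹, by
      rw [sc_sc, inv_mul_cancel, inv_mul_cancel, sc_one]⟩
  trans := by
    intro x y z h h'
    obtain ⟨γ, hγ, c, rfl⟩ := rel_iff.1 h
    obtain ⟨γ', hγ', c', rfl⟩ := rel_iff.1 h'
    exact rel_iff.2 ⟨γ' * γ, mul_mem hγ' hγ, c' * c, by rw [sc_sc]⟩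

instance setoidX : Setoid X := ⟨rel, rel_equiv⟩

/-- the threefold -/
def M : Type := Quotient setoidX

instance : TopologicalSpace M := inferInstanceAs (TopologicalSpace (Quotient setoidX))

lemma mk_eq_iff {x y : X} : (Quotient.mk setoidX x : M) = Quotient.mk setoidX y ↔ rel x y :=
  Quotient.eq (r := setoidX)

lemma continuous_mk : Continuous (fun x : X => (Quotient.mk setoidX x : M)) :=
  continuous_quotient_mk'

theorem isOpenMap_mk : IsOpenMap (fun x : X => (Quotient.mk setoidX x : M)) := by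
  intro s hs
  have h : IsOpen ((fun x : X => (Quotient.mk setoidX x : M)) ⁻¹'
      ((fun x : X => (Quotient.mk setoidX x : M)) '' s)) := by
    have h1 : ((fun x : X => (Quotient.mk setoidX x : M)) ⁻¹'
        ((fun x : X => (Quotient.mk setoidX x : M)) '' s)) =
        ⋃ (γ : Gp) (c : ℂˣ), scH γ c '' s := by
      ext y
      simp only [Set.mem_preimage, Set.mem_image, Set.mem_iUnion]
      constructor
      · rintro ⟨x, hx, hxy⟩
        obtain ⟨γ, hγ, c, h⟩ := rel_iff.1 (mk_eq_iff.1 hxy)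
        exact ⟨⟨γ, hγ⟩, c, x, hx, h.symm⟩
      · rintro ⟨γ, c, x, hx, rfl⟩
        exact ⟨x, hx, mk_eq_iff.2 (rel_iff.2 ⟨γ, γ.2, c, rfl⟩)⟩
    rw [h1]
    exact isOpen_iUnion fun γ => isOpen_iUnion fun c => (scH γ c).isOpenMap s hs
  exact h

lemma isOpenQuotientMap_mk : IsOpenQuotientMap (fun x : X => (Quotient.mk setoidX x : M)) :=
  ⟨Quotient.mk_surjective, continuous_mk, isOpenMap_mk⟩

theorem M_compact : CompactSpace M := by
  obtain ⟨K, hK, hK', hcov⟩ := mob_cocompact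
  have h1 : IsCompact (K ×ˢ Metric.sphere (0 : Fin 3 → ℂ) 1) :=
    hK.prod (isCompact_sphere _ _)
  have h2 : IsCompact ((fun x : X => x.1) ⁻¹' (K ×ˢ Metric.sphere (0 : Fin 3 → ℂ) 1)) := by
    refine Topology.IsInducing.isCompact_preimage' (f := fun x : X => x.1)
      Topology.IsInducing.subtypeVal h1 ?_
    rintro ⟨z, w⟩ ⟨hz, hw⟩
    refine ⟨⟨(z, w), hK' hz, ?_⟩, rfl⟩
    rintro rfl
    simp at hw
  have h3 : (Set.univ : Set M) = (fun x : X => (Quotient.mk setoidX x : M)) ''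
      ((fun x : X => x.1) ⁻¹' (K ×ˢ Metric.sphere (0 : Fin 3 → ℂ) 1)) := by
    refine (Set.eq_univ_of_forall fun m => ?_).symm
    obtain ⟨x, rfl⟩ := Quotient.mk_surjective m
    obtain ⟨γ, hγ, hz⟩ := hcov x.1.1 x.2.1
    have hne : lin γ x.1.1 x.1.2 ≠ 0 := lin_ne x.2.1 x.2.2
    have hn : (‖lin γ x.1.1 x.1.2‖ : ℂ) ≠ 0 := by
      exact_mod_cast norm_ne_zero_iff.2 hne
    refine ⟨sc γ (Units.mk0 _ hn)⁻¹ x, ⟨hz, ?_⟩, ?_⟩
    · rw [mem_sphere_zero_iff_norm]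
      show ‖(((Units.mk0 (‖lin γ x.1.1 x.1.2‖ : ℂ) hn)⁻¹ : ℂˣ) : ℂ) • lin γ x.1.1 x.1.2‖ = 1
      rw [norm_smul, Units.val_inv_eq_inv_val, Units.val_mk0, norm_inv, norm_real, norm_norm,
        inv_mul_cancel₀ (norm_ne_zero_iff.2 hne)]
    · exact mk_eq_iff.2 (rel_equiv.symm (rel_iff.2 ⟨γ, hγ, _, rfl⟩))
  exact ⟨h3 ▸ h2.image continuous_mk⟩


namespace SpaceAux

/-- graph of `γ` up to scalars -/
def RG (γ : SL(2, ℝ)) : Set (X × X) := {q | mob γ q.1.1.1 = q.2.1.1 ∧ ∀ j k : Fin 3,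
  q.2.1.2 j * lin γ q.1.1.1 q.1.1.2 k = q.2.1.2 k * lin γ q.1.1.1 q.1.1.2 j}

lemma isClosed_RG (γ : SL(2, ℝ)) : IsClosed (RG γ) := by
  have h1 : Continuous fun q : X × X => mob γ q.1.1.1 := (continuous_mobX γ).comp continuous_fst
  have h2 : Continuous fun q : X × X => q.2.1.1 := continuous_zX.comp continuous_snd
  have h3 : ∀ k : Fin 3, Continuous fun q : X × X => q.2.1.2 k := fun k =>
    (continuous_apply k).comp (continuous_wX.comp continuous_snd)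
  have h4 : ∀ k : Fin 3, Continuous fun q : X × X => lin γ q.1.1.1 q.1.1.2 k := fun k =>
    (continuous_apply k).comp ((continuous_linX γ).comp continuous_fst)
  have h5 : RG γ = {q | mob γ q.1.1.1 = q.2.1.1} ∩ ⋂ (j : Fin 3) (k : Fin 3),
      {q | q.2.1.2 j * lin γ q.1.1.1 q.1.1.2 k = q.2.1.2 k * lin γ q.1.1.1 q.1.1.2 j} := by
    ext q
    simp [RG]
  rw [h5]
  exact (isClosed_eq h1 h2).inter (isClosed_iInter fun j => isClosed_iInter fun k =>
    isClosed_eq ((h3 j).mul (h4 k)) ((h3 k).mul (h4 j)))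

lemma rel_iff_RG {x y : X} : rel x y ↔ ∃ γ : Gp, (x, y) ∈ RG γ := by
  constructor
  · intro h
    obtain ⟨γ, hγ, c, rfl⟩ := rel_iff.1 h
    refine ⟨⟨γ, hγ⟩, rfl, fun j k => ?_⟩
    show (c : ℂ) * lin γ x.1.1 x.1.2 j * lin γ x.1.1 x.1.2 k =
      (c : ℂ) * lin γ x.1.1 x.1.2 k * lin γ x.1.1 x.1.2 j
    ring
  · rintro ⟨γ, h1, h2⟩
    obtain ⟨k, hk⟩ := Function.ne_iff.1 (lin_ne (γ := γ) x.2.1 x.2.2)
    have hk' : lin γ x.1.1 x.1.2 k ≠ 0 := hk
    have h3 : y.1.2 = (y.1.2 k / lin γ x.1.1 x.1.2 k) • lin γ x.1.1 x.1.2 := by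
      ext j
      show y.1.2 j = (y.1.2 k / lin γ x.1.1 x.1.2 k) * lin γ x.1.1 x.1.2 j
      have h4 : y.1.2 j * lin γ x.1.1 x.1.2 k = y.1.2 k * lin γ x.1.1 x.1.2 j := h2 j k
      field_simp
      exact h4
    have h5 : y.1.2 k / lin γ x.1.1 x.1.2 k ≠ 0 := by
      intro h0
      rw [h0, zero_smul] at h3
      exact y.2.2 h3
    exact ⟨γ, γ.2, _, h5, h1.symm, h3⟩

lemma locallyFinite_RG : LocallyFinite (fun γ : Gp => RG γ) := by
  rintro ⟨x, y⟩
  have ho : IsOpen {z : ℂ | 0 < z.im} := isOpen_lt continuous_const continuous_im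
  obtain ⟨K1, hK1, hx, hK1'⟩ := exists_compact_subset ho (show x.1.1 ∈ {z : ℂ | 0 < z.im} from x.2.1)
  obtain ⟨K2, hK2, hy, hK2'⟩ := exists_compact_subset ho (show y.1.1 ∈ {z : ℂ | 0 < z.im} from y.2.1)
  refine ⟨{q : X × X | q.1.1.1 ∈ interior K1 ∧ q.2.1.1 ∈ interior K2}, ?_, ?_⟩
  · refine IsOpen.mem_nhds ?_ ⟨hx, hy⟩
    exact (isOpen_interior.preimage (continuous_zX.comp continuous_fst)).inter
      (isOpen_interior.preimage (continuous_zX.comp continuous_snd))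
  · refine ((mob_proper (hK1.union hK2) (Set.union_subset hK1' hK2')).preimage
      (f := fun γ : Gp => (γ : SL(2, ℝ))) Subtype.val_injective.injOn).subset ?_
    rintro γ ⟨q, ⟨h1, -⟩, h2, h3⟩
    exact ⟨γ.2, q.1.1.1, Or.inl (interior_subset h2), Or.inr (h1 ▸ interior_subset h3)⟩

end SpaceAux

theorem M_t2 : T2Space M := by
  refine (t2Space_iff_of_isOpenQuotientMap (Y := M) isOpenQuotientMap_mk).2 ?_
  have h : {q : X × X | (Quotient.mk setoidX q.1 : M) = Quotient.mk setoidX q.2} =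
      ⋃ γ : Gp, RG γ := by
    ext ⟨x, y⟩
    rw [Set.mem_iUnion]
    exact mk_eq_iff.trans rel_iff_RG
  have h' := locallyFinite_RG.isClosed_iUnion fun γ => isClosed_RG γ
  rw [← h] at h'
  exact h'

theorem M_connected : ConnectedSpace M := by
  have h1 : IsConnected {z : ℂ | 0 < z.im} :=
    ⟨⟨I, by simp⟩, (convex_halfSpace_im_gt 0).isPreconnected⟩
  have h2 : IsConnected ({0}ᶜ : Set (Fin 3 → ℂ)) := by
    refine isConnected_compl_singleton_of_one_lt_rank ?_ 0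
    have h3 : Module.finrank ℝ (Fin 3 → ℂ) = 6 := by
      rw [Module.finrank_pi_fintype]
      simp [Complex.finrank_real_complex]
    rw [← Module.finrank_eq_rank, h3]
    norm_num
  have h3 : IsConnected {x : ℂ × (Fin 3 → ℂ) | 0 < x.1.im ∧ x.2 ≠ 0} := h1.prod h2
  have : ConnectedSpace X := isConnected_iff_connectedSpace.1 h3
  exact Quotient.mk_surjective.connectedSpace continuous_mk

/-- homogeneous coordinates in chart `i` -/
def hom (i : Fin 3) (p : V) : Fin 3 → ℂ :=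
  if i = 2 then ![p 1, p 2, 1] else if i = 0 then ![1, p 1, p 2] else ![p 1, 1, p 2]

lemma hom_self (i : Fin 3) (p : V) : hom i p i = 1 := by
  fin_cases i <;> simp [hom]

lemma hom_ne (i : Fin 3) (p : V) : hom i p ≠ 0 := by
  intro h
  have h1 := hom_self i p
  rw [h] at h1
  simp at h1

/-- the étale chart `i` (with a junk value outside of `U`) -/
noncomputable def pr (i : Fin 3) (p : V) : M :=
  if h : 0 < (p 0).im then Quotient.mk setoidX ⟨(p 0, hom i p), h, hom_ne i p⟩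
  else Quotient.mk setoidX ⟨(I, hom i p), by simp, hom_ne i p⟩

/-- the coordinates in chart `j` of the point `(γ z, [w₀ : w₁ : (cz+d) w₂])`, where `(z,[w])` is the
point with coordinates `p` in chart `i` -/
noncomputable def tr (i j : Fin 3) (γ : SL(2, ℝ)) (p : V) : V :=
  let w : Fin 3 → ℂ := ![hom i p 0, hom i p 1, den γ (p 0) * hom i p 2]
  if j = 2 then ![mob γ (p 0), w 0 / w 2, w 1 / w 2]
  else if j = 0 then ![mob γ (p 0), w 1 / w 0, w 2 / w 0]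
  else ![mob γ (p 0), w 0 / w 1, w 2 / w 1]

namespace SpaceAux

/-- affine coordinates `j` of a point -/
noncomputable def crd (j : Fin 3) (z : ℂ) (w : Fin 3 → ℂ) : V :=
  if j = 2 then ![z, w 0 / w 2, w 1 / w 2]
  else if j = 0 then ![z, w 1 / w 0, w 2 / w 0]
  else ![z, w 0 / w 1, w 2 / w 1]

lemma tr_eq (i j : Fin 3) (γ : SL(2, ℝ)) (p : V) :
    tr i j γ p = crd j (mob γ (p 0)) (lin γ (p 0) (hom i p)) := rfl

lemma crd_zero (j : Fin 3) (z : ℂ) (w : Fin 3 → ℂ) : crd j z w 0 = z := by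
  unfold crd
  split_ifs <;> rfl

lemma crd_smul (j : Fin 3) (z : ℂ) (w : Fin 3 → ℂ) {c : ℂ} (hc : c ≠ 0) :
    crd j z (c • w) = crd j z w := by
  unfold crd
  simp only [Pi.smul_apply, smul_eq_mul, mul_div_mul_left _ _ hc]

lemma hom_crd (j : Fin 3) (z : ℂ) {w : Fin 3 → ℂ} (hw : w j ≠ 0) :
    hom j (crd j z w) = (w j)⁻¹ • w := by
  ext k
  fin_cases j <;> fin_cases k <;> simp [hom, crd] at * <;> field_simp

lemma crd_hom (j : Fin 3) (p : V) : crd j (p 0) (hom j p) = p := by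
  ext k
  fin_cases j <;> fin_cases k <;> simp [hom, crd]

lemma pr_of_mem (i : Fin 3) {p : V} (hp : p ∈ U) :
    pr i p = Quotient.mk setoidX ⟨(p 0, hom i p), hp, hom_ne i p⟩ := dif_pos hp

lemma crd_mem {j : Fin 3} {z : ℂ} (hz : 0 < z.im) (w : Fin 3 → ℂ) : crd j z w ∈ U := by
  show 0 < (crd j z w 0).im
  rw [crd_zero]
  exact hz

/-- the point with coordinates `crd j` -/
lemma pr_crd (j : Fin 3) (x : X) (hw : x.1.2 j ≠ 0) :
    pr j (crd j x.1.1 x.1.2) = Quotient.mk setoidX x := by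
  rw [pr_of_mem j (crd_mem x.2.1 _)]
  refine mk_eq_iff.2 (rel_equiv.symm (rel_iff.2 ⟨1, one_mem _, (Units.mk0 _ hw)⁻¹, ?_⟩))
  apply X_ext
  · show crd j x.1.1 x.1.2 0 = mob 1 x.1.1
    rw [crd_zero, mob_one]
  · show hom j (crd j x.1.1 x.1.2) = _ • lin 1 x.1.1 x.1.2
    rw [hom_crd j _ hw, lin_one, Units.val_inv_eq_inv_val, Units.val_mk0]

end SpaceAux

lemma tr_self (i : Fin 3) (γ : SL(2, ℝ)) {p : V} (hp : p ∈ U) : tr i i γ p = act i γ p := by
  have h := den_ne (γ := γ) hp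
  ext k
  fin_cases i <;> fin_cases k <;> simp [tr, hom, act, act0, act2]

lemma tr02 (γ : SL(2, ℝ)) {p : V} (hp : p ∈ U) (h : p 2 ≠ 0) : tr 0 2 γ p = act2 γ (T0 p) := by
  have h' := den_ne (γ := γ) hp
  ext k
  fin_cases k <;> simp [tr, hom, act2, T0] <;> field_simp

lemma tr12 (γ : SL(2, ℝ)) {p : V} (hp : p ∈ U) (h : p 2 ≠ 0) : tr 1 2 γ p = act2 γ (T1 p) := by
  have h' := den_ne (γ := γ) hp
  ext k
  fin_cases k <;> simp [tr, hom, act2, T1] <;> field_simp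

lemma tr_mem (i j : Fin 3) (γ : SL(2, ℝ)) {p : V} (hp : p ∈ U) : tr i j γ p ∈ U :=
  crd_mem (mob_im hp) _

/-- composition -/
lemma tr_tr (i j k : Fin 3) (γ γ' : SL(2, ℝ)) {p : V} (hp : p ∈ U) (hj : hom i p j ≠ 0)
    (_ : hom i p k ≠ 0) : tr j k γ' (tr i j γ p) = tr i k (γ' * γ) p := by
  have h1 : lin γ (p 0) (hom i p) j ≠ 0 := (lin_apply_ne hp).2 hj
  rw [tr_eq j k, tr_eq i j, tr_eq i k, crd_zero, hom_crd j _ h1, lin_smul,
    crd_smul _ _ _ (inv_ne_zero h1), lin_mul γ' γ hp, mob_mul γ' γ hp]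

lemma tr_holo (i j : Fin 3) (γ : SL(2, ℝ)) :
    ContDiffOn ℂ ω (tr i j γ) {p | p ∈ U ∧ hom i p j ≠ 0} := by
  have h0 : ∀ k : Fin 3, ContDiff ℂ ω fun p : V => p k := fun k => contDiff_apply ℂ ℂ k
  have hden : ContDiff ℂ ω fun p : V => den γ (p 0) := by
    unfold den
    exact (contDiff_const.mul (h0 0)).add contDiff_const
  have hmob : ContDiffOn ℂ ω (fun p : V => mob γ (p 0)) {p | p ∈ U ∧ hom i p j ≠ 0} := by
    unfold mob
    exact ((contDiff_const.mul (h0 0)).add contDiff_const).contDiffOn.div hden.contDiffOn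
      fun p hp => den_ne hp.1
  have hh : ∀ k : Fin 3, ContDiff ℂ ω fun p : V => hom i p k := by
    intro k
    fin_cases i <;> fin_cases k
    all_goals first
      | exact contDiff_const
      | exact h0 1
      | exact h0 2
  have hw : ∀ k : Fin 3, ContDiff ℂ ω fun p : V => lin γ (p 0) (hom i p) k := by
    intro k
    fin_cases k
    · exact hh 0
    · exact hh 1
    · exact hden.mul (hh 2)
  have hne : ∀ p ∈ {p | p ∈ U ∧ hom i p j ≠ 0}, lin γ (p 0) (hom i p) j ≠ 0 :=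
    fun p hp => (lin_apply_ne hp.1).2 hp.2
  have hq : ∀ k : Fin 3, ContDiffOn ℂ ω
      (fun p : V => lin γ (p 0) (hom i p) k / lin γ (p 0) (hom i p) j)
      {p | p ∈ U ∧ hom i p j ≠ 0} :=
    fun k => (hw k).contDiffOn.div (hw j).contDiffOn hne
  refine contDiffOn_pi.2 fun k => ?_
  fin_cases j <;> fin_cases k
  all_goals first
    | exact hmob
    | exact hq 0
    | exact hq 1
    | exact hq 2

theorem pr_eq_iff (i j : Fin 3) {p q : V} (hp : p ∈ U) (hq : q ∈ U) :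
    pr i p = pr j q ↔ hom i p j ≠ 0 ∧ ∃ γ ∈ Gp, q = tr i j γ p := by
  rw [pr_of_mem i hp, pr_of_mem j hq]
  refine mk_eq_iff.trans ?_
  constructor
  · intro h
    obtain ⟨γ, hγ, c, h⟩ := rel_iff.1 h
    have h1 : q 0 = mob γ (p 0) := congrArg (fun x : X => x.1.1) h
    have h2 : hom j q = (c : ℂ) • lin γ (p 0) (hom i p) := congrArg (fun x : X => x.1.2) h
    have h3 : (1 : ℂ) = c * lin γ (p 0) (hom i p) j := by
      have h4 := congrFun h2 j
      rwa [hom_self] at h4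
    have h5 : lin γ (p 0) (hom i p) j ≠ 0 := by
      intro h0
      rw [h0, mul_zero] at h3
      exact one_ne_zero h3
    refine ⟨(lin_apply_ne hp).1 h5, γ, hγ, ?_⟩
    rw [tr_eq, ← crd_smul _ _ _ c.ne_zero, ← h2, ← h1, crd_hom]
  · rintro ⟨h1, γ, hγ, rfl⟩
    have h2 : lin γ (p 0) (hom i p) j ≠ 0 := (lin_apply_ne hp).2 h1
    refine rel_iff.2 ⟨γ, hγ, (Units.mk0 _ h2)⁻¹, X_ext ?_ ?_⟩
    · show tr i j γ p 0 = mob γ (p 0)
      rw [tr_eq, crd_zero]
    · show hom j (tr i j γ p) = _ • lin γ (p 0) (hom i p)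
      rw [tr_eq, hom_crd j _ h2, Units.val_inv_eq_inv_val, Units.val_mk0]

theorem pr_surj (x : M) : ∃ i, ∃ p ∈ U, pr i p = x := by
  obtain ⟨x, rfl⟩ := Quotient.mk_surjective x
  obtain ⟨k, hk⟩ := Function.ne_iff.1 x.2.2
  exact ⟨k, crd k x.1.1 x.1.2, crd_mem x.2.1 _, pr_crd k x hk⟩

lemma continuous_hom (i : Fin 3) : Continuous (hom i) := by
  refine continuous_pi fun k => ?_
  fin_cases i <;> fin_cases k <;> simp [hom] <;> fun_prop

theorem pr_continuousOn (i : Fin 3) : ContinuousOn (pr i) U := by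
  rw [continuousOn_iff_continuous_domRestrict]
  have h1 : U.domRestrict (pr i) = fun p : U => (Quotient.mk setoidX
      ⟨(p.1 0, hom i p), p.2, hom_ne i p⟩ : M) := by
    funext p
    exact pr_of_mem i p.2
  rw [h1]
  refine continuous_mk.comp (Continuous.subtype_mk ?_ _)
  exact ((continuous_apply 0).comp continuous_subtype_val).prodMk
    ((continuous_hom i).comp continuous_subtype_val)

theorem pr_open (i : Fin 3) {s : Set V} (hs : IsOpen s) (hsU : s ⊆ U) : IsOpen (pr i '' s) := by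
  have h1 : pr i '' s = (fun x : X => (Quotient.mk setoidX x : M)) ''
      {x : X | x.1.2 i ≠ 0 ∧ crd i x.1.1 x.1.2 ∈ s} := by
    ext m
    constructor
    · rintro ⟨p, hp, rfl⟩
      refine ⟨⟨(p 0, hom i p), hsU hp, hom_ne i p⟩, ⟨?_, ?_⟩, (pr_of_mem i (hsU hp)).symm⟩
      · show hom i p i ≠ 0
        rw [hom_self]
        exact one_ne_zero
      · show crd i (p 0) (hom i p) ∈ s
        rw [crd_hom]
        exact hp
    · rintro ⟨x, ⟨h1, h2⟩, rfl⟩
      exact ⟨_, h2, pr_crd i x h1⟩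
  rw [h1]
  apply isOpenMap_mk
  have h2 : IsOpen {x : X | x.1.2 i ≠ 0} :=
    isOpen_ne_fun ((continuous_apply i).comp continuous_wX) continuous_const
  have h3 : ContinuousOn (fun x : X => crd i x.1.1 x.1.2) {x : X | x.1.2 i ≠ 0} := by
    have hw : ∀ k : Fin 3, Continuous fun x : X => x.1.2 k := fun k =>
      (continuous_apply k).comp continuous_wX
    refine continuousOn_pi.2 fun k => ?_
    have hz := continuous_zX.continuousOn (s := {x : X | x.1.2 i ≠ 0})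
    fin_cases i <;> fin_cases k
    all_goals first
      | exact hz
      | exact (hw _).continuousOn.div (hw _).continuousOn fun x hx => hx
  exact h3.isOpen_inter_preimage h2 hs

/-- a small set in `ℍ` -/
def Small (N : Set ℂ) : Prop := IsOpen N ∧ N ⊆ {z | 0 < z.im} ∧
  ∀ γ ∈ Gp, ∀ z ∈ N, mob γ z ∈ N → γ = 1

lemma exists_small_nhd {z : ℂ} (hz : 0 < z.im) : ∃ N, Small N ∧ z ∈ N := by
  have ho : IsOpen {z : ℂ | 0 < z.im} := isOpen_lt continuous_const continuous_im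
  obtain ⟨K, hK, hx, hK'⟩ := exists_compact_subset ho (show z ∈ {z : ℂ | 0 < z.im} from hz)
  have hfin := mob_proper hK hK'
  -- separating neighbourhoods
  have hsep : ∀ γ : SL(2, ℝ), ∃ A : Set ℂ, IsOpen A ∧ z ∈ A ∧
      (γ ∈ Gp → γ ≠ 1 → ∀ z' ∈ A, 0 < z'.im → mob γ z' ∉ A) := by
    intro γ
    by_cases hγ : γ ∈ Gp ∧ γ ≠ 1
    · have hne : z ≠ mob γ z := fun h => hγ.2 (mob_free hγ.1 hz h.symm)
      obtain ⟨A, B, hA, hB, hzA, hzB, hAB⟩ := t2_separation hne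
      have h1 : IsOpen ({z : ℂ | 0 < z.im} ∩ mob γ ⁻¹' B) :=
        (continuousOn_mob γ).isOpen_inter_preimage ho hB
      refine ⟨A ∩ ({z : ℂ | 0 < z.im} ∩ mob γ ⁻¹' B), hA.inter h1, ⟨hzA, hz, hzB⟩,
        fun _ _ z' h2 _ h3 => ?_⟩
      exact Set.disjoint_left.1 hAB h3.1 h2.2.2
    · refine ⟨Set.univ, isOpen_univ, Set.mem_univ _, fun h1 h2 => absurd ⟨h1, h2⟩ hγ⟩
  choose A hA hzA hA' using hsep
  refine ⟨interior K ∩ ⋂ γ ∈ hfin.toFinset, A γ, ⟨?_, ?_, ?_⟩, hx, ?_⟩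
  · exact isOpen_interior.inter (isOpen_biInter_finset fun γ _ => hA γ)
  · exact fun z' h => hK' (interior_subset h.1)
  · intro γ hγ z' h1 h2
    by_contra hne
    have h3 : γ ∈ hfin.toFinset := by
      rw [Set.Finite.mem_toFinset]
      exact ⟨hγ, z', interior_subset h1.1, interior_subset h2.1⟩
    exact hA' γ hγ hne z' (Set.mem_iInter₂.1 h1.2 γ h3) (hK' (interior_subset h1.1))
      (Set.mem_iInter₂.1 h2.2 γ h3)
  · exact Set.mem_iInter₂.2 fun γ _ => hzA γ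

lemma Small.mono {N N' : Set ℂ} (h : Small N) (h' : IsOpen N') (hN : N' ⊆ N) : Small N' :=
  ⟨h', hN.trans h.2.1, fun γ hγ z hz hz' => h.2.2 γ hγ z (hN hz) (hN hz')⟩

lemma pr_injOn (i : Fin 3) {N : Set ℂ} (hN : Small N) : Set.InjOn (pr i) {p | p 0 ∈ N} := by
  intro p hp q hq h
  obtain ⟨-, γ, hγ, h1⟩ := (pr_eq_iff i i (hN.2.1 hp) (hN.2.1 hq)).1 h
  have h2 : q 0 = mob γ (p 0) := by rw [h1, tr_eq, crd_zero]
  have h3 : γ = 1 := hN.2.2 γ hγ _ hp (h2 ▸ hq)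
  rw [h1, tr_eq, h3, lin_one, mob_one, crd_hom]

end Pool.Agent.KG
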