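import Mathlib
import Pool.Agent.KG.Space

/-! # Module C2: the complex manifold `M` -/

open scoped ContDiff ComplexConjugate ComplexOrder Matrix Topology MatrixGroups Manifold
open Complex MeasureTheory Filter

namespace Pool.Agent.KG

lemma isOpen_fib {N : Set ℂ} (hN : IsOpen N) : IsOpen {p : V | p 0 ∈ N} :=
  hN.preimage (continuous_apply 0)

lemma fib_subset {N : Set ℂ} (hN : Small N) : {p : V | p 0 ∈ N} ⊆ U := fun _ hp => hN.2.1 hp

/-- the chart with target `{p | p 0 ∈ N}` inverse to `pr i` -/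
theorem exists_chart (i : Fin 3) {N : Set ℂ} (hN : Small N) :
    ∃ φ : OpenPartialHomeomorph M V, φ.target = {p | p 0 ∈ N} ∧
      φ.source = pr i '' {p | p 0 ∈ N} ∧ ∀ p, φ.symm p = pr i p := by
  have hS : IsOpen {p : V | p 0 ∈ N} := isOpen_fib hN.1
  have hSU : {p : V | p 0 ∈ N} ⊆ U := fib_subset hN
  let e : PartialEquiv V M := (pr_injOn i hN).toPartialEquiv (pr i) {p | p 0 ∈ N}
  have hc : ContinuousOn e e.source := (pr_continuousOn i).mono hSU
  have ho : IsOpenMap (e.source.domRestrict e) := by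
    intro s hs
    have : (e.source.domRestrict e) '' s = pr i '' (Subtype.val '' s) := by
      rw [Set.image_image]; rfl
    rw [this]
    exact pr_open i (hS.isOpenMap_subtype_val s hs)
      ((Subtype.coe_image_subset _ s).trans hSU)
  refine ⟨(OpenPartialHomeomorph.ofContinuousOpenRestrict e hc ho hS).symm, rfl, rfl, ?_⟩
  intro p
  rfl

/-- the chart with target `{p | p 0 ∈ N}` inverse to `pr i`, for small `N` -/
noncomputable def chart (i : Fin 3) (N : Set ℂ) : OpenPartialHomeomorph M V :=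
  open Classical in if h : Small N then (exists_chart i h).choose
  else (exists_chart i (N := ∅) ⟨isOpen_empty, by simp, by simp⟩).choose

lemma chart_target (i : Fin 3) {N : Set ℂ} (hN : Small N) :
    (chart i N).target = {p | p 0 ∈ N} := by
  rw [chart, dif_pos hN]
  exact (exists_chart i hN).choose_spec.1
lemma chart_source (i : Fin 3) {N : Set ℂ} (hN : Small N) :
    (chart i N).source = pr i '' {p | p 0 ∈ N} := by
  rw [chart, dif_pos hN]
  exact (exists_chart i hN).choose_spec.2.1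
lemma chart_symm (i : Fin 3) {N : Set ℂ} (hN : Small N) (p : V) :
    (chart i N).symm p = pr i p := by
  rw [chart, dif_pos hN]
  exact (exists_chart i hN).choose_spec.2.2 p

lemma exists_chartAt (x : M) : ∃ iN : Fin 3 × Set ℂ, Small iN.2 ∧ x ∈ (chart iN.1 iN.2).source := by
  obtain ⟨i, p, hp, rfl⟩ := pr_surj x
  obtain ⟨N, hN, hpN⟩ := exists_small_nhd (z := p 0) hp
  refine ⟨(i, N), hN, ?_⟩
  rw [chart_source i hN]
  exact ⟨p, hpN, rfl⟩

noncomputable instance : ChartedSpace V M where
  atlas := {φ | ∃ i N, Small N ∧ φ = chart i N}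
  chartAt x := chart (exists_chartAt x).choose.1 (exists_chartAt x).choose.2
  mem_chart_source x := (exists_chartAt x).choose_spec.2
  chart_mem_atlas x := ⟨_, _, (exists_chartAt x).choose_spec.1, rfl⟩

lemma mem_atlas_iff {φ : OpenPartialHomeomorph M V} :
    φ ∈ atlas V M ↔ ∃ i N, Small N ∧ φ = chart i N := Iff.rfl

/-- the chart `chart j N'` inverts `pr j` -/
lemma chart_pr (j : Fin 3) {N : Set ℂ} (hN : Small N) {q : V} (hq : q 0 ∈ N) :
    (chart j N) (pr j q) = q := by
  rw [← chart_symm j hN q]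
  exact (chart j N).right_inv (by rw [chart_target j hN]; exact hq)

lemma continuous_hom_apply (i j : Fin 3) : Continuous fun p : V => hom i p j := by
  fin_cases i <;> fin_cases j <;> simp [hom] <;> fun_prop

lemma isOpen_dom (i j : Fin 3) : IsOpen {p : V | p ∈ U ∧ hom i p j ≠ 0} :=
  isOpen_U.inter (isOpen_ne_fun (continuous_hom_apply i j) continuous_const)

/-- the change of charts is locally one of the maps `tr i j γ` -/
lemma chart_transition (i j : Fin 3) {N N' : Set ℂ} (hN : Small N) (hN' : Small N') {p : V}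
    (hp : p 0 ∈ N) (hp' : pr i p ∈ (chart j N').source) :
    ∃ γ ∈ Gp, hom i p j ≠ 0 ∧ tr i j γ p 0 ∈ N' ∧
      ∀ᶠ p' in 𝓝 p, (chart j N') (pr i p') = tr i j γ p' := by
  rw [chart_source j hN'] at hp'
  obtain ⟨q, hq, hqp⟩ := hp'
  have hpU : p ∈ U := fib_subset hN hp
  have hqU : q ∈ U := fib_subset hN' hq
  obtain ⟨hne, γ, hγ, hqe⟩ := (pr_eq_iff i j hpU hqU).1 hqp.symm
  refine ⟨γ, hγ, hne, hqe ▸ hq, ?_⟩
  have hdom : {p : V | p ∈ U ∧ hom i p j ≠ 0} ∈ 𝓝 p := (isOpen_dom i j).mem_nhds ⟨hpU, hne⟩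
  have hcont : ContinuousAt (tr i j γ) p :=
    (tr_holo i j γ).continuousOn.continuousAt hdom
  have hN'n : {q : V | q 0 ∈ N'} ∈ 𝓝 (tr i j γ p) :=
    (isOpen_fib hN'.1).mem_nhds (hqe ▸ hq)
  filter_upwards [hdom, hcont hN'n] with p' hp' hp''
  have h1 : tr i j γ p' ∈ U := tr_mem i j γ hp'.1
  have h2 : pr i p' = pr j (tr i j γ p') :=
    (pr_eq_iff i j hp'.1 h1).2 ⟨hp'.2, γ, hγ, rfl⟩
  rw [h2]
  exact chart_pr j hN' hp''

theorem M_isManifold : IsManifold 𝓘(ℂ, V) ω M := by
  apply isManifold_of_contDiffOn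
  rintro e e' ⟨i, N, hN, rfl⟩ ⟨j, N', hN', rfl⟩
  simp only [modelWithCornersSelf_coe, modelWithCornersSelf_coe_symm, Function.comp_id,
    Function.id_comp, Set.preimage_id, Set.range_id, Set.inter_univ]
  intro p hp
  rw [OpenPartialHomeomorph.trans_source] at hp
  have hp1 : p 0 ∈ N := by
    have := hp.1
    rw [OpenPartialHomeomorph.symm_source, chart_target i hN] at this
    exact this
  have hp2 : pr i p ∈ (chart j N').source := by
    have := hp.2
    rw [Set.mem_preimage, chart_symm i hN] at this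
    exact this
  obtain ⟨γ, _, hne, _, hev⟩ := chart_transition i j hN hN' hp1 hp2
  have hdom : {p : V | p ∈ U ∧ hom i p j ≠ 0} ∈ 𝓝 p :=
    (isOpen_dom i j).mem_nhds ⟨fib_subset hN hp1, hne⟩
  have h1 : ContDiffAt ℂ ω (tr i j γ) p := (tr_holo i j γ).contDiffAt hdom
  refine (h1.congr_of_eventuallyEq ?_).contDiffWithinAt
  filter_upwards [hev] with p' hp'
  rw [← hp', OpenPartialHomeomorph.coe_trans, Function.comp_apply, chart_symm i hN]

theorem M_isCompactComplexManifold : IsCompactComplexManifold 3 M :=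
  ⟨M_compact, M_t2, M_connected, M_isManifold⟩

end Pool.Agent.KG
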