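import Mathlib
import Pool.Agent.KG.Interface
import Pool.Agent.Hhelper97.Gam.Stokes

/-! # Module B1: the weight `ψ` and the cut-off -/

open scoped ContDiff ComplexConjugate ComplexOrder Matrix Topology MatrixGroups
open Complex MeasureTheory Filter

namespace Pool.Agent.KG
open Pool.Agent.Hhelper97

lemma dz_eq_wd (j : Fin 3) (f : V → ℂ) (p : V) : dz j f p = Gam.wd j f p := by
  rw [dz, Gam.wd]; ring

lemma dzb_eq_wdb (j : Fin 3) (f : V → ℂ) (p : V) : dzb j f p = Gam.wdb j f p := by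
  rw [dzb, Gam.wdb]; ring

lemma IsPsi.isWt {ψ : ℂ → ℝ} (h : IsPsi ψ) : Gam.IsWt ψ :=
  ⟨h.smooth, h.cpt, fun _ hz => h.supp hz, h.sum⟩

theorem exists_psi : ∃ ψ, IsPsi ψ := by
  refine ⟨Gam.psi, Gam.psi_contDiff, Gam.psi_hasCompactSupport, fun z hz => Gam.psi_im_pos z hz,
    Gam.psi_nonneg, ?_, Gam.psi_sum⟩
  intro K hK hK'
  have hL : IsCompact (tsupport Gam.psi) := Gam.psi_hasCompactSupport
  have hemb : Topology.IsOpenEmbedding (fun τ : UpperHalfPlane => (τ : ℂ)) :=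
    UpperHalfPlane.isOpenEmbedding_coe
  have hL' : IsCompact ((fun τ : UpperHalfPlane => (τ : ℂ)) ⁻¹' tsupport Gam.psi) :=
    hemb.isInducing.isCompact_preimage' hL (fun x hx => ⟨⟨x, Gam.psi_im_pos x hx⟩, rfl⟩)
  have hK'' : IsCompact ((fun τ : UpperHalfPlane => (τ : ℂ)) ⁻¹' K) :=
    hemb.isInducing.isCompact_preimage' hK (fun x hx => ⟨⟨x, hK' hx⟩, rfl⟩)
  have h := ProperlyDiscontinuousSMul.finite_disjoint_inter_image (Γ := Gam.Grp) hK'' hL'
  refine (h.image Subtype.val).subset ?_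
  rintro γ ⟨hγ, x, hxK, hx⟩
  have hx0 : 0 < x.im := hK' hxK
  refine ⟨⟨γ, hγ⟩, ?_, rfl⟩
  have hmem : (((⟨γ, hγ⟩ : Gam.Grp) • (⟨x, hx0⟩ : UpperHalfPlane) : UpperHalfPlane) : ℂ) ∈
      tsupport Gam.psi := by
    show ((γ • (⟨x, hx0⟩ : UpperHalfPlane) : UpperHalfPlane) : ℂ) ∈ tsupport Gam.psi
    rw [← Gam.mob_coe]
    exact subset_closure hx
  exact ⟨(⟨γ, hγ⟩ : Gam.Grp) • (⟨x, hx0⟩ : UpperHalfPlane),
    Set.mem_image_of_mem _ (show (⟨x, hx0⟩ : UpperHalfPlane) ∈ _ from hxK), hmem⟩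

theorem exists_cut : ∃ η, IsCut η := by
  refine ⟨fun t => Real.smoothTransition (2 - t),
    Real.smoothTransition.contDiff.comp (contDiff_const.sub contDiff_id), ?_, ?_, ?_⟩
  · intro t ht
    exact Real.smoothTransition.one_of_one_le (by linarith)
  · intro t ht
    exact Real.smoothTransition.zero_of_nonpos (by linarith)
  · intro t
    exact ⟨Real.smoothTransition.nonneg _, Real.smoothTransition.le_one _⟩

/-- `∫_{ℍ} ψ y⁻² > 0` -/
theorem psi_area_pos {ψ : ℂ → ℝ} (hψ : IsPsi ψ) :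
    0 < ∫ z in {z : ℂ | 0 < z.im}, ψ z * (z.im ^ 2)⁻¹ := by
  have hopen : IsOpen {z : ℂ | 0 < z.im} := isOpen_lt continuous_const continuous_im
  have hcont : ContinuousOn (fun z : ℂ => ψ z * (z.im ^ 2)⁻¹) {z : ℂ | 0 < z.im} := by
    refine hψ.smooth.continuous.continuousOn.mul (ContinuousOn.inv₀ ?_ ?_)
    · exact (continuous_im.pow 2).continuousOn
    · intro z hz
      exact pow_ne_zero 2 (ne_of_gt hz)
  have hint : IntegrableOn (fun z : ℂ => ψ z * (z.im ^ 2)⁻¹) {z : ℂ | 0 < z.im} := by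
    have hK : IsCompact (tsupport ψ) := hψ.cpt
    refine IntegrableOn.of_forall_sdiff_eq_zero
      ((hcont.mono hψ.supp).integrableOn_compact hK) hopen.measurableSet ?_
    rintro z ⟨-, hz⟩
    have : ψ z = 0 := by
      by_contra h
      exact hz (subset_closure h)
    simp [this]
  rw [setIntegral_pos_iff_support_of_nonneg_ae _ hint]
  · obtain ⟨γ, hγ⟩ : ∃ γ : Gp, ψ (mob γ I) ≠ 0 := by
      by_contra h
      push Not at h
      have := hψ.sum I (by simp)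
      simp [h] at this
    have hI : 0 < (mob (γ : SL(2, ℝ)) I).im := Gam.mob_im_pos _ (by simp)
    have hopen2 : IsOpen ({z : ℂ | ψ z ≠ 0} ∩ {z : ℂ | 0 < z.im}) :=
      (isOpen_ne_fun hψ.smooth.continuous continuous_const).inter hopen
    refine lt_of_lt_of_le (hopen2.measure_pos volume ⟨_, hγ, hI⟩) (measure_mono ?_)
    rintro z ⟨hz1, hz2⟩
    refine ⟨?_, hz2⟩
    have h2 : (z.im ^ 2)⁻¹ ≠ 0 := inv_ne_zero (pow_ne_zero 2 (ne_of_gt hz2))
    exact mul_ne_zero hz1 h2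
  · filter_upwards with z
    exact mul_nonneg (hψ.nonneg z) (by positivity)

end Pool.Agent.KG
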