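import Mathlib
import Pool.Agent.KG.Interface

/-! # Module G2: radial integrals over `ℂ²` (independent of everything else) -/

open scoped ContDiff ComplexConjugate ComplexOrder Matrix Topology MatrixGroups
open Complex MeasureTheory Filter

namespace Pool.Agent.KG

/-- radial integrals in `ℂ²` -/
lemma radx_aux (g : ℝ → ℝ) :
    (IntegrableOn (fun t => t * g t) (Set.Ioi 0) →
      Integrable (fun u : Fin 2 → ℂ => g (normSq (u 0) + normSq (u 1)))) ∧
    ∫ u : Fin 2 → ℂ, g (normSq (u 0) + normSq (u 1)) =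
      Real.pi ^ 2 * ∫ t in Set.Ioi (0 : ℝ), t * g t := by
  let E := EuclideanSpace ℂ (Fin 2)
  let e : (Fin 2 → ℂ) ≃L[ℝ] E := (PiLp.continuousLinearEquiv 2 ℝ (fun _ : Fin 2 => ℂ)).symm
  let μ : Measure E := (volume : Measure (Fin 2 → ℂ)).map e
  have hμ : μ.IsAddHaarMeasure := ContinuousLinearEquiv.isAddHaarMeasure_map e volume
  have hmp : MeasurePreserving e volume μ := ⟨e.continuous.measurable, rfl⟩
  have hemb : MeasurableEmbedding e := e.toHomeomorph.measurableEmbedding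
  have hfin : Module.finrank ℝ E = 4 := by
    rw [← LinearEquiv.finrank_eq e.toLinearEquiv, Module.finrank_pi_fintype]
    simp
  have hnorm : ∀ u : Fin 2 → ℂ, ‖e u‖ ^ 2 = normSq (u 0) + normSq (u 1) := by
    intro u
    rw [EuclideanSpace.norm_sq_eq, Fin.sum_univ_two, ← Complex.normSq_eq_norm_sq,
      ← Complex.normSq_eq_norm_sq]
    rfl
  have hball : μ.real (Metric.ball 0 1) = Real.pi ^ 2 / 2 := by
    have h1 : μ (Metric.ball 0 1) = ENNReal.ofReal (Real.pi ^ 2 / 2) := by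
      rw [← hmp.measure_preimage_emb hemb]
      have h2 : e ⁻¹' (Metric.ball 0 1) = {x : Fin 2 → ℂ | ∑ i, ‖x i‖ ^ (2 : ℝ) < 1} := by
        ext u
        simp only [Set.mem_preimage, mem_ball_zero_iff, Set.mem_ofPred_eq, Fin.sum_univ_two]
        have h3 : ‖e u‖ < 1 ↔ ‖e u‖ ^ 2 < 1 := by
          constructor
          · intro h; nlinarith [norm_nonneg (e u)]
          · intro h; nlinarith [norm_nonneg (e u)]
        rw [h3, hnorm, Complex.normSq_eq_norm_sq, Complex.normSq_eq_norm_sq]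
        norm_num
      rw [h2, Complex.volume_sum_rpow_lt_one (Fin 2) (by norm_num)]
      congr 1
      have : Real.Gamma (2 / 2 + 1) = 1 := by norm_num
      rw [this]
      have : Real.Gamma (2 * (Fintype.card (Fin 2) : ℝ) / 2 + 1) = 2 := by
        have := Real.Gamma_nat_eq_factorial 2
        norm_num at this ⊢
      rw [this]
      simp
    rw [Measure.real, h1, ENNReal.toReal_ofReal (by positivity)]
  have hcomp : (fun u : Fin 2 → ℂ => g (normSq (u 0) + normSq (u 1))) =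
      (fun x : E => (fun r : ℝ => g (r ^ 2)) ‖x‖) ∘ e := by
    funext u
    simp only [Function.comp_apply, hnorm]
  have hpow : ∀ x ∈ Set.Ioi (0 : ℝ), x ^ (Module.finrank ℝ E - 1) • g (x ^ 2) =
      x ^ ((2 : ℝ) - 1) • (fun t : ℝ => t * g t) (x ^ (2 : ℝ)) := by
    intro x hx
    rw [hfin]
    norm_num
    ring
  refine ⟨fun hg => ?_, ?_⟩
  · rw [hcomp, hmp.integrable_comp_emb hemb]
    rw [integrable_fun_norm_addHaar μ (f := fun r : ℝ => g (r ^ 2))]
    rw [integrableOn_congr_fun hpow measurableSet_Ioi]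
    exact (integrableOn_Ioi_comp_rpow_iff' _ (by norm_num)).2 hg
  · have h4 : ∫ u : Fin 2 → ℂ, g (normSq (u 0) + normSq (u 1)) =
        ∫ x, (fun r : ℝ => g (r ^ 2)) ‖x‖ ∂μ := by
      rw [← hmp.integral_comp hemb (fun x : E => g (‖x‖ ^ 2))]
      simp only [hnorm]
    rw [h4, integral_fun_norm_addHaar μ (fun r : ℝ => g (r ^ 2)),
      setIntegral_congr_fun measurableSet_Ioi hpow, hball, hfin]
    have h5 := integral_comp_rpow_Ioi_of_pos (g := fun t : ℝ => t * g t) (p := 2) (by norm_num)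
    have h6 : ∫ x in Set.Ioi (0 : ℝ), ((2 : ℝ) * x ^ ((2 : ℝ) - 1)) •
        (fun t : ℝ => t * g t) (x ^ (2 : ℝ)) =
        2 * ∫ x in Set.Ioi (0 : ℝ), x ^ ((2 : ℝ) - 1) • (fun t : ℝ => t * g t) (x ^ (2 : ℝ)) := by
      rw [← integral_const_mul]
      congr 1
      funext x
      simp only [smul_eq_mul]
      ring
    rw [h6] at h5
    rw [← h5]
    simp only [nsmul_eq_mul, smul_eq_mul]
    push_cast
    ring

/-- the fibre function -/
lemma radx_fib {c y : ℝ} (hy : 0 < y) {Q : ℝ → ℝ} (hQ : IntegrableOn Q (Set.Ioi 0)) :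
    (Integrable (fun u : Fin 2 → ℂ => c * ((y ^ 2)⁻¹ *
      ((normSq (u 0) + normSq (u 1)) / y * Q ((normSq (u 0) + normSq (u 1)) / y) /
        (normSq (u 0) + normSq (u 1)) ^ 2)))) ∧
    ∫ u : Fin 2 → ℂ, c * ((y ^ 2)⁻¹ *
      ((normSq (u 0) + normSq (u 1)) / y * Q ((normSq (u 0) + normSq (u 1)) / y) /
        (normSq (u 0) + normSq (u 1)) ^ 2)) =
      c * (y ^ 2)⁻¹ * (Real.pi ^ 2 * ∫ s in Set.Ioi (0 : ℝ), Q s) := by
  have h := radx_aux (fun t => c * ((y ^ 2)⁻¹ * (t / y * Q (t / y) / t ^ 2)))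
  have he : ∀ t ∈ Set.Ioi (0 : ℝ), t * (c * ((y ^ 2)⁻¹ * (t / y * Q (t / y) / t ^ 2))) =
      (c * (y ^ 2)⁻¹ * y⁻¹) * Q (y⁻¹ * t) := by
    intro t ht
    have ht0 : t ≠ 0 := (ne_of_gt ht)
    rw [show t / y = y⁻¹ * t by ring]
    field_simp
  have hint : IntegrableOn (fun t => Q (y⁻¹ * t)) (Set.Ioi 0) := by
    rw [integrableOn_Ioi_comp_mul_left_iff Q 0 (inv_pos.2 hy)]
    simpa using hQ
  refine ⟨h.1 ?_, ?_⟩
  · rw [integrableOn_congr_fun he measurableSet_Ioi]
    exact hint.const_mul _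
  · rw [h.2, setIntegral_congr_fun measurableSet_Ioi he, integral_const_mul,
      integral_comp_mul_left_Ioi Q 0 (inv_pos.2 hy)]
    simp only [inv_inv, mul_zero, smul_eq_mul]
    field_simp

/-- `∫_{ℂ²} g(|u|²) du = π² ∫_0^∞ t g(t) dt` for `g` with `t g(t)` integrable, with the weight `ψ`
on the base and `g` depending on `y` by scaling: let `P : ℝ → ℝ` be `C¹` on `[0,∞)` with
`P(s) → P∞` and `P'` integrable on `(0,∞)`.  The function
`ψ(z) y⁻² σ P'(σ) |u|⁻⁴` on `U` has integral `π² (P∞ - P 0) ∫ ψ y⁻²`. -/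
theorem radial {ψ : ℂ → ℝ} (hψc : Continuous ψ) (hψ0 : HasCompactSupport ψ)
    (hψs : tsupport ψ ⊆ {z | 0 < z.im}) {P P' : ℝ → ℝ} {l : ℝ}
    (hP : ∀ s > 0, HasDerivAt P (P' s) s) (hP0 : ContinuousWithinAt P (Set.Ici 0) 0)
    (hP'c : ContinuousOn P' (Set.Ioi 0))
    (hP' : IntegrableOn P' (Set.Ioi 0)) (hl : Tendsto P atTop (𝓝 l)) :
    IntegrableOn (fun p : V => ψ (p 0) * (((p 0).im ^ 2)⁻¹ *
        (sig p * P' (sig p) / (normSq (p 1) + normSq (p 2)) ^ 2))) U ∧
    ∫ p in U, ψ (p 0) * (((p 0).im ^ 2)⁻¹ *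
        (sig p * P' (sig p) / (normSq (p 1) + normSq (p 2)) ^ 2)) =
      Real.pi ^ 2 * (l - P 0) * ∫ z in {z : ℂ | 0 < z.im}, ψ z * (z.im ^ 2)⁻¹ := by
  classical
  set H : Set ℂ := {z : ℂ | 0 < z.im} with hH
  have hHo : IsOpen H := isOpen_lt continuous_const Complex.continuous_im
  have hHm : MeasurableSet H := hHo.measurableSet
  -- replace `P'` by a measurable function
  set Q : ℝ → ℝ := (Set.Ioi (0 : ℝ)).piecewise P' (fun _ => 0) with hQd
  have hQm : Measurable Q := hP'c.measurable_piecewise continuousOn_const measurableSet_Ioi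
  have hQP : ∀ s ∈ Set.Ioi (0 : ℝ), Q s = P' s := fun s hs => by
    simp only [hQd, Set.piecewise_eq_of_mem _ _ _ hs]
  have hQi : IntegrableOn Q (Set.Ioi 0) :=
    (integrableOn_congr_fun hQP measurableSet_Ioi).2 hP'
  have hQI : ∫ s in Set.Ioi (0 : ℝ), Q s = l - P 0 := by
    rw [setIntegral_congr_fun measurableSet_Ioi hQP]
    exact integral_Ioi_of_hasDerivAt_of_tendsto hP0 (fun s hs => hP s hs) hP' hl
  -- the function on the product
  let G : ℂ × (Fin 2 → ℂ) → ℝ := fun q => ψ q.1 * ((q.1.im ^ 2)⁻¹ *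
      ((normSq (q.2 0) + normSq (q.2 1)) / q.1.im * Q ((normSq (q.2 0) + normSq (q.2 1)) / q.1.im) /
        (normSq (q.2 0) + normSq (q.2 1)) ^ 2))
  have hGm : Measurable G := by
    have m1 : Measurable (fun q : ℂ × (Fin 2 → ℂ) => ψ q.1) := hψc.measurable.comp measurable_fst
    have m2 : Measurable (fun q : ℂ × (Fin 2 → ℂ) => q.1.im) := by fun_prop
    have m3 : Measurable (fun q : ℂ × (Fin 2 → ℂ) => normSq (q.2 0) + normSq (q.2 1)) := by
      have : Continuous (fun q : ℂ × (Fin 2 → ℂ) => normSq (q.2 0) + normSq (q.2 1)) := by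
        exact (Complex.continuous_normSq.comp (by fun_prop)).add
          (Complex.continuous_normSq.comp (by fun_prop))
      exact this.measurable
    have m4 : Measurable (fun q : ℂ × (Fin 2 → ℂ) =>
        Q ((normSq (q.2 0) + normSq (q.2 1)) / q.1.im)) := hQm.comp (m3.div m2)
    exact m1.mul ((m2.pow_const 2).inv.mul ((((m3.div m2).mul m4)).div (m3.pow_const 2)))
  have hw : ∀ (φ : ℂ → ℝ), Continuous φ → (∀ z, z ∉ tsupport ψ → φ z = 0) →
      IntegrableOn (fun z => φ z * (z.im ^ 2)⁻¹) H := by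
    intro φ hφ hφ0
    have h1 : IntegrableOn (fun z => φ z * (z.im ^ 2)⁻¹) (tsupport ψ) := by
      refine ContinuousOn.integrableOn_compact hψ0 ?_
      refine hφ.continuousOn.mul (ContinuousOn.inv₀ (by fun_prop) ?_)
      intro z hz
      have : 0 < z.im := hψs hz
      positivity
    have h2 : Integrable (fun z => φ z * (z.im ^ 2)⁻¹) := by
      rwa [integrableOn_iff_integrable_of_support_subset] at h1
      intro z hz
      by_contra hcon
      exact hz (by simp [hφ0 z hcon])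
    exact h2.integrableOn
  have hψi : IntegrableOn (fun z => ψ z * (z.im ^ 2)⁻¹) H :=
    hw ψ hψc (fun z hz => image_eq_zero_of_notMem_tsupport hz)
  have hψi' : IntegrableOn (fun z => |ψ z| * (z.im ^ 2)⁻¹) H :=
    hw (fun z => |ψ z|) hψc.abs (fun z hz => by simp [image_eq_zero_of_notMem_tsupport hz])
  have hGn : ∀ (z : ℂ) (u : Fin 2 → ℂ), 0 < z.im → ‖G (z, u)‖ = |ψ z| * ((z.im ^ 2)⁻¹ *
      ((normSq (u 0) + normSq (u 1)) / z.im * |Q ((normSq (u 0) + normSq (u 1)) / z.im)| /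
        (normSq (u 0) + normSq (u 1)) ^ 2)) := by
    intro z u hz
    have h0 := normSq_nonneg (u 0)
    have h1 := normSq_nonneg (u 1)
    simp only [G, Real.norm_eq_abs, abs_mul, abs_div, abs_inv, abs_pow]
    rw [abs_of_pos hz, abs_of_nonneg (add_nonneg h0 h1)]
  have hGi : Integrable G ((volume.restrict H).prod volume) := by
    rw [integrable_prod_iff hGm.aestronglyMeasurable]
    refine ⟨?_, ?_⟩
    · rw [ae_restrict_iff' hHm]
      exact Eventually.of_forall fun z hz => (radx_fib (c := ψ z) hz hQi).1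
    · have h3 : ∀ z ∈ H, ∫ u, ‖G (z, u)‖ =
          |ψ z| * (z.im ^ 2)⁻¹ * (Real.pi ^ 2 * ∫ s in Set.Ioi (0 : ℝ), |Q s|) := by
        intro z hz
        simp_rw [hGn z _ hz]
        exact (radx_fib hz hQi.abs).2
      have h4 : IntegrableOn (fun z => |ψ z| * (z.im ^ 2)⁻¹ *
          (Real.pi ^ 2 * ∫ s in Set.Ioi (0 : ℝ), |Q s|)) H := hψi'.mul_const _
      exact (integrableOn_congr_fun h3 hHm).2 h4
  have hGI : ∫ q, G q ∂((volume.restrict H).prod volume) =
      Real.pi ^ 2 * (l - P 0) * ∫ z in H, ψ z * (z.im ^ 2)⁻¹ := by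
    rw [integral_prod _ hGi, ← integral_const_mul]
    refine setIntegral_congr_fun hHm fun z hz => ?_
    have h5 := (radx_fib (c := ψ z) hz hQi).2
    refine h5.trans ?_
    rw [hQI]
    ring
  -- transfer
  let e := MeasurableEquiv.piFinSuccAbove (fun _ : Fin 3 => ℂ) 0
  have he : MeasurePreserving e volume volume := volume_preserving_piFinSuccAbove (fun _ => ℂ) 0
  have hres : ((volume : Measure ℂ).restrict H).prod (volume : Measure (Fin 2 → ℂ)) =
      (volume : Measure (ℂ × (Fin 2 → ℂ))).restrict (H ×ˢ Set.univ) := by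
    rw [Measure.volume_eq_prod, ← Measure.prod_restrict, Measure.restrict_univ]
  have hU : e ⁻¹' (H ×ˢ Set.univ) = U := by
    ext p
    simp [e, H, U, MeasurableEquiv.piFinSuccAbove, Fin.insertNthEquiv]
  have hFG : ∀ p ∈ U, ψ (p 0) * (((p 0).im ^ 2)⁻¹ *
        (sig p * P' (sig p) / (normSq (p 1) + normSq (p 2)) ^ 2)) = G (e p) := by
    intro p hp
    have hy : 0 < (p 0).im := hp
    have h0 : (e p).1 = p 0 := rfl
    have h1 : (e p).2 0 = p 1 := rfl
    have h2 : (e p).2 1 = p 2 := rfl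
    simp only [G, h0, h1, h2]
    show _ = ψ (p 0) * (((p 0).im ^ 2)⁻¹ * (sig p * Q (sig p) /
      (normSq (p 1) + normSq (p 2)) ^ 2))
    have hs : 0 ≤ sig p := div_nonneg (add_nonneg (normSq_nonneg _) (normSq_nonneg _)) hy.le
    rcases hs.eq_or_lt with h | h
    · rw [← h]; simp
    · rw [hQP _ h]
  have hUm : MeasurableSet U := by
    rw [← hU]; exact e.measurable (hHm.prod MeasurableSet.univ)
  rw [hres] at hGi hGI
  refine ⟨?_, ?_⟩
  · rw [integrableOn_congr_fun hFG hUm, ← hU]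
    exact (he.integrableOn_comp_preimage e.measurableEmbedding).2 hGi
  · rw [setIntegral_congr_fun hUm hFG, ← hU, ← hGI]
    exact he.setIntegral_preimage_emb e.measurableEmbedding _ _

end Pool.Agent.KG
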