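import Mathlib
import Pool.Agent.KG.Maps
import Pool.Agent.KG.Alg

/-! # Module E2a: the boundary term, change of coordinates to the charts 0 and 1 -/

open scoped ContDiff ComplexConjugate ComplexOrder Matrix Topology MatrixGroups
open Complex MeasureTheory Filter

namespace Pool.Agent.KG

/-- the boundary integrand in chart 2 -/
noncomputable def bdry (W₂ W₃ : Fin 3 → V → Mat) (α : Fin 3 → V → ℂ) (p : V) : ℂ :=
  ∑ j, ∑ k, dz j (fun p => (sig p : ℂ)) p * cofm (W₂ 2 p) (W₃ 2 p) j k * α k p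

/-- E2a: change of variables, half `‖p 2‖ ≤ ‖p 1‖`.  Here `sig0 p = (1+|a|²)/(y|q|²)`. -/
noncomputable def sig0 (p : V) : ℝ := (1 + normSq (p 1)) / ((p 0).im * normSq (p 2))

/-- the boundary integrand in chart 0 / 1 -/
noncomputable def bdry0 (T : V → V) (W₂ W₃ : V → Mat) (α : Fin 3 → V → ℂ) (p : V) : ℂ :=
  ∑ j, ∑ k, dz j (fun p => (sig0 p : ℂ)) p * cofm (W₂ p) (W₃ p) j k * pull01 T α k p

/-- `sig` is smooth on `U` -/
lemma differentiableAt_sig {p : V} (hp : p ∈ U) : DifferentiableAt ℝ (fun w => (sig w : ℂ)) p := by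
  have hy : ((p 0).im : ℝ) ≠ 0 := ne_of_gt hp
  have happ : ∀ i : Fin 3, DifferentiableAt ℝ (fun w : V => w i) p := fun i =>
    differentiableAt_apply i p
  have hre : ∀ i : Fin 3, DifferentiableAt ℝ (fun w : V => (w i).re) p := fun i =>
    Complex.reCLM.differentiableAt.comp p (happ i)
  have him : ∀ i : Fin 3, DifferentiableAt ℝ (fun w : V => (w i).im) p := fun i =>
    Complex.imCLM.differentiableAt.comp p (happ i)
  have hn : ∀ i : Fin 3, DifferentiableAt ℝ (fun w : V => normSq (w i)) p := fun i => by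
    have : (fun w : V => normSq (w i)) = fun w => (w i).re * (w i).re + (w i).im * (w i).im := by
      funext w; rw [normSq_apply]
    rw [this]
    exact ((hre i).mul (hre i)).add ((him i).mul (him i))
  have h1 : DifferentiableAt ℝ (fun w : V => (normSq (w 1) + normSq (w 2)) / (w 0).im) p :=
    ((hn 1).add (hn 2)).mul ((him 0).inv hy)
  exact Complex.ofRealCLM.differentiableAt.comp p h1

/-- the pointwise transformation rule of the boundary integrand -/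
lemma bdry_transform {T : V → V} {W₂ W₃ : Fin 3 → V → Mat} {i : Fin 3} {p : V}
    (hT : DifferentiableAt ℂ T p) (hTp : T p ∈ U)
    (hsig : (fun w => (sig0 w : ℂ)) =ᶠ[𝓝 p] fun w => (sig (T w) : ℂ))
    (e2 : W₂ i p = pull T (W₂ 2) p) (e3 : W₃ i p = pull T (W₃ 2) p) (α : Fin 3 → V → ℂ) :
    bdry0 T (W₂ i) (W₃ i) α p = normSq (Jac T p).det * bdry W₂ W₃ α (T p) := by
  have h1 : ∀ j, dz j (fun w => (sig0 w : ℂ)) p =
      (Jac T p *ᵥ fun l => dz l (fun w => (sig w : ℂ)) (T p)) j := by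
    intro j
    rw [dz_congr hsig, dz_comp (f := fun w => (sig w : ℂ)) hT (differentiableAt_sig hTp)]
    rfl
  have h2 : ∀ k, pull01 T α k p = ((Jac T p).map conj *ᵥ fun m => α m (T p)) k := fun k => rfl
  have h3 := sum_cofm_transform (Jac T p) (W₂ 2 (T p)) (W₃ 2 (T p))
    (fun l => dz l (fun w => (sig w : ℂ)) (T p)) (fun m => α m (T p))
  unfold bdry0 bdry
  rw [e2, e3, pull_eq, pull_eq]
  simp only [h1, h2]
  have h4 : ∀ j k, (Jac T p *ᵥ fun l => dz l (fun w => (sig w : ℂ)) (T p)) j *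
      cofm (Jac T p * W₂ 2 (T p) * (Jac T p)ᴴ) (Jac T p * W₃ 2 (T p) * (Jac T p)ᴴ) j k *
      ((Jac T p).map conj *ᵥ fun m => α m (T p)) k =
      (Jac T p *ᵥ fun l => dz l (fun w => (sig w : ℂ)) (T p)) j *
      ((Jac T p).map conj *ᵥ fun m => α m (T p)) k *
      cofm (Jac T p * W₂ 2 (T p) * (Jac T p)ᴴ) (Jac T p * W₃ 2 (T p) * (Jac T p)ᴴ) j k :=
    fun j k => by ring
  have h5 : ∀ j k, dz j (fun w => (sig w : ℂ)) (T p) * cofm (W₂ 2 (T p)) (W₃ 2 (T p)) j k *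
      α k (T p) = dz j (fun w => (sig w : ℂ)) (T p) * α k (T p) *
      cofm (W₂ 2 (T p)) (W₃ 2 (T p)) j k := fun j k => by ring
  simp only [h4, h5]
  exact h3

/-- the general change of variables -/
lemma bdry_change_aux {ψ : ℂ → ℝ} {W₂ W₃ : Fin 3 → V → Mat} {T : V → V} {i : Fin 3}
    (α : Fin 3 → V → ℂ) (g : ℝ → ℝ) {S S' : Set V} (hS' : MeasurableSet S') (hU : S' ⊆ U)
    (hne : ∀ p ∈ S', p 2 ≠ 0) (himg : T '' S' = S) (hinj : Set.InjOn T S')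
    (hT : ∀ p : V, p 2 ≠ 0 → DifferentiableAt ℂ T p)
    (hmem : ∀ p : V, T p ∈ U ↔ p ∈ U) (hT0 : ∀ p : V, T p 0 = p 0)
    (hsig : ∀ p : V, p 2 ≠ 0 → sig (T p) = sig0 p)
    (e2 : ∀ p ∈ S', W₂ i p = pull T (W₂ 2) p) (e3 : ∀ p ∈ S', W₃ i p = pull T (W₃ 2) p) :
    ∫ p in S, ((ψ (p 0) * g (sig p) : ℝ) : ℂ) * bdry W₂ W₃ α p =
      ∫ p in S', ((ψ (p 0) * g (sig0 p) : ℝ) : ℂ) * bdry0 T (W₂ i) (W₃ i) α p := by
  rw [← himg, integral_image_eq_integral_abs_det_fderiv_smul volume hS'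
    (fun p hp => ((hT p (hne p hp)).restrictScalars ℝ).hasFDerivAt.hasFDerivWithinAt) hinj]
  refine setIntegral_congr_fun hS' fun p hp => ?_
  have h2 := hne p hp
  have hsig' : (fun w => (sig0 w : ℂ)) =ᶠ[𝓝 p] fun w => (sig (T w) : ℂ) := by
    have : {w : V | w 2 ≠ 0} ∈ 𝓝 p :=
      (isOpen_ne_fun (continuous_apply 2) continuous_const).mem_nhds h2
    filter_upwards [this] with w hw
    rw [hsig w hw]
  have h3 := bdry_transform (hT p h2) ((hmem p).2 (hU hp)) hsig' (e2 p hp) (e3 p hp) α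
  show |(fderiv ℝ T p).det| • (((ψ (T p 0) * g (sig (T p)) : ℝ) : ℂ) * bdry W₂ W₃ α (T p)) =
    ((ψ (p 0) * g (sig0 p) : ℝ) : ℂ) * bdry0 T (W₂ i) (W₃ i) α p
  rw [abs_det_fderiv (hT p h2), hT0, hsig p h2, h3, Complex.real_smul]
  ring

theorem bdry_change0 {ψ : ℂ → ℝ} {W₂ W₃ : Fin 3 → V → Mat} (h2 : Form11 W₂) (h3 : Form11 W₃)
    (α : Fin 3 → V → ℂ) (g : ℝ → ℝ) :
    ∫ p in {p | p ∈ U ∧ p 1 ≠ 0 ∧ ‖p 2‖ ≤ ‖p 1‖}, ((ψ (p 0) * g (sig p) : ℝ) : ℂ) *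
        bdry W₂ W₃ α p =
      ∫ p in {p | p ∈ U ∧ p 2 ≠ 0 ∧ ‖p 1‖ ≤ 1}, ((ψ (p 0) * g (sig0 p) : ℝ) : ℂ) *
        bdry0 T0 (W₂ 0) (W₃ 0) α p := by
  refine bdry_change_aux (i := 0) α g ?_ (fun p hp => hp.1) (fun p hp => hp.2.1) ?_
    (fun p hp q hq h => T0_inj hp.2.1 hq.2.1 h) (fun p h => T0_holo h) (fun p => T0_mem)
    (fun p => rfl) (fun p h => sig_T0 h) (fun p hp => h2.pull0 p hp.1 hp.2.1)
    (fun p hp => h3.pull0 p hp.1 hp.2.1)
  · refine isOpen_U.measurableSet.inter (MeasurableSet.inter ?_ ?_)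
    · exact (isOpen_ne_fun (continuous_apply 2) continuous_const).measurableSet
    · exact (isClosed_le (continuous_apply 1).norm continuous_const).measurableSet
  · ext p
    constructor
    · rintro ⟨q, ⟨hqU, hq2, hq1⟩, rfl⟩
      refine ⟨T0_mem.2 hqU, one_div_ne_zero hq2, ?_⟩
      show ‖q 1 / q 2‖ ≤ ‖1 / q 2‖
      rw [norm_div, norm_div, norm_one]
      gcongr
    · rintro ⟨hpU, hp1, hp2⟩
      refine ⟨![p 0, p 2 / p 1, 1 / p 1], ⟨?_, one_div_ne_zero hp1, ?_⟩, T0_surj hp1⟩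
      · have := T0_mem.1 (show T0 ![p 0, p 2 / p 1, 1 / p 1] ∈ U by rw [T0_surj hp1]; exact hpU)
        exact this
      · show ‖p 2 / p 1‖ ≤ 1
        rw [norm_div]
        exact div_le_one_of_le₀ hp2 (norm_nonneg _)

theorem bdry_change1 {ψ : ℂ → ℝ} {W₂ W₃ : Fin 3 → V → Mat} (h2 : Form11 W₂) (h3 : Form11 W₃)
    (α : Fin 3 → V → ℂ) (g : ℝ → ℝ) :
    ∫ p in {p | p ∈ U ∧ ‖p 1‖ < ‖p 2‖}, ((ψ (p 0) * g (sig p) : ℝ) : ℂ) *
        bdry W₂ W₃ α p =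
      ∫ p in {p | p ∈ U ∧ p 2 ≠ 0 ∧ ‖p 1‖ < 1}, ((ψ (p 0) * g (sig0 p) : ℝ) : ℂ) *
        bdry0 T1 (W₂ 1) (W₃ 1) α p := by
  refine bdry_change_aux (i := 1) α g ?_ (fun p hp => hp.1) (fun p hp => hp.2.1) ?_
    (fun p hp q hq h => T1_inj hp.2.1 hq.2.1 h) (fun p h => T1_holo h) (fun p => T1_mem)
    (fun p => rfl) (fun p h => sig_T1 h) (fun p hp => h2.pull1 p hp.1 hp.2.1)
    (fun p hp => h3.pull1 p hp.1 hp.2.1)
  · refine isOpen_U.measurableSet.inter (MeasurableSet.inter ?_ ?_)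
    · exact (isOpen_ne_fun (continuous_apply 2) continuous_const).measurableSet
    · exact (isOpen_lt (continuous_apply 1).norm continuous_const).measurableSet
  · ext p
    constructor
    · rintro ⟨q, ⟨hqU, hq2, hq1⟩, rfl⟩
      refine ⟨T1_mem.2 hqU, ?_⟩
      show ‖q 1 / q 2‖ < ‖1 / q 2‖
      rw [norm_div, norm_div, norm_one]
      have : 0 < ‖q 2‖ := norm_pos_iff.2 hq2
      gcongr
    · rintro ⟨hpU, hp2⟩
      have h0 : 0 < ‖p 2‖ := (norm_nonneg _).trans_lt hp2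
      have hp2' : p 2 ≠ 0 := norm_pos_iff.1 h0
      refine ⟨![p 0, p 1 / p 2, 1 / p 2], ⟨?_, one_div_ne_zero hp2', ?_⟩, T1_surj hp2'⟩
      · have := T1_mem.1 (show T1 ![p 0, p 1 / p 2, 1 / p 2] ∈ U by rw [T1_surj hp2']; exact hpU)
        exact this
      · show ‖p 1 / p 2‖ < 1
        rw [norm_div]
        exact (div_lt_one h0).2 hp2

end Pool.Agent.KG
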