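import Mathlib
import Pool.Agent.KG.BdryChange

/-! # Module E2: the boundary term tends to `0` for tame forms -/

open scoped ContDiff ComplexConjugate ComplexOrder Matrix Topology MatrixGroups
open Complex MeasureTheory Filter

namespace Pool.Agent.KG

/-! ### the derivatives of `sig0` -/

private lemma dat_im {p : V} : DifferentiableAt ℝ (fun w : V => ((w 0).im : ℂ)) p := by
  have h1 : DifferentiableAt ℝ (fun w : V => (w 0).im) p :=
    (Complex.imCLM.differentiableAt).comp p (by fun_prop : DifferentiableAt ℝ (fun w : V => w 0) p)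
  exact (Complex.ofRealCLM.differentiableAt).comp p h1

private lemma dat_nsq (l : Fin 3) {p : V} :
    DifferentiableAt ℝ (fun w : V => (normSq (w l) : ℂ)) p := by
  have : (fun w : V => (normSq (w l) : ℂ)) = fun w : V => conj (w l) * w l := by
    funext w; rw [Complex.normSq_eq_conj_mul_self]
  rw [this]
  have h1 : DifferentiableAt ℝ (fun w : V => w l) p := by fun_prop
  have h2 : DifferentiableAt ℝ (fun w : V => conj (w l)) p :=
    (Complex.conjCLE.differentiableAt).comp p h1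
  exact h2.mul h1

/-- `dz j` of `sig0` -/
private lemma dz_sig0 {p : V} (hp : p ∈ U) (h2 : p 2 ≠ 0) (j : Fin 3) :
    dz j (fun p => (sig0 p : ℂ)) p =
      if j = 0 then I / 2 * ((1 + normSq (p 1)) / ((p 0).im ^ 2 * normSq (p 2)))
      else if j = 1 then conj (p 1) / ((p 0).im * normSq (p 2))
      else - ((1 + normSq (p 1)) / (p 0).im) * conj (p 2) / normSq (p 2) ^ 2 := by
  have hy : ((p 0).im : ℂ) ≠ 0 := by exact_mod_cast (ne_of_gt hp)
  have hq : (normSq (p 2) : ℂ) ≠ 0 := by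
    rw [Ne, Complex.ofReal_eq_zero, Complex.normSq_eq_zero]; exact h2
  have e : (fun p : V => (sig0 p : ℂ)) =
      fun w : V => (1 + (normSq (w 1) : ℂ)) * (((w 0).im : ℂ) * (normSq (w 2) : ℂ))⁻¹ := by
    funext w
    simp only [sig0]; push_cast; rw [div_eq_mul_inv]
  have d1 : DifferentiableAt ℝ (fun w : V => (1 + (normSq (w 1) : ℂ))) p :=
    (differentiableAt_const _).add (dat_nsq 1)
  have d2 : DifferentiableAt ℝ (fun w : V => ((w 0).im : ℂ) * (normSq (w 2) : ℂ)) p :=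
    dat_im.mul (dat_nsq 2)
  have hne : ((p 0).im : ℂ) * (normSq (p 2) : ℂ) ≠ 0 := mul_ne_zero hy hq
  have d3 : DifferentiableAt ℝ (fun w : V => (((w 0).im : ℂ) * (normSq (w 2) : ℂ))⁻¹) p :=
    d2.inv hne
  rw [e, dz_mul d1 d3, dz_inv (f := fun w : V => ((w 0).im : ℂ) * (normSq (w 2) : ℂ)) d2 hne,
    dz_add (differentiableAt_const _) (dat_nsq 1), dz_const,
    dz_mul dat_im (dat_nsq 2), dz_im, dz_normSq, dz_normSq]
  fin_cases j
  · simp
    field_simp
  · simp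
    field_simp
  · simp
    field_simp

/-- `|q|⁴ bdry0` -/
private noncomputable def HH (T : V → V) (A B : V → Mat) (α : Fin 3 → V → ℂ) (p : V) : ℂ :=
  (normSq (p 2) : ℂ) ^ 2 * bdry0 T A B α p

private lemma HH_expand (T : V → V) (A B : V → Mat) (α : Fin 3 → V → ℂ) {p : V} (hp : p ∈ U)
    (h2 : p 2 ≠ 0) :
    HH T A B α p =
      - ((1 + normSq (p 1)) / (p 0).im) * cofm (A p) (B p) 2 2 * (conj (p 2) * pull01 T α 2 p) +
      (I / 2 * ((1 + normSq (p 1)) / (p 0).im ^ 2) * normSq (p 2) *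
        (cofm (A p) (B p) 0 0 * pull01 T α 0 p + cofm (A p) (B p) 0 1 * pull01 T α 1 p
          + cofm (A p) (B p) 0 2 * pull01 T α 2 p) +
      conj (p 1) / (p 0).im * normSq (p 2) *
        (cofm (A p) (B p) 1 0 * pull01 T α 0 p + cofm (A p) (B p) 1 1 * pull01 T α 1 p
          + cofm (A p) (B p) 1 2 * pull01 T α 2 p) +
      - ((1 + normSq (p 1)) / (p 0).im) * conj (p 2) *
        (cofm (A p) (B p) 2 0 * pull01 T α 0 p + cofm (A p) (B p) 2 1 * pull01 T α 1 p)) := by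
  have hy : ((p 0).im : ℂ) ≠ 0 := by exact_mod_cast (ne_of_gt hp)
  have hq : (normSq (p 2) : ℂ) ≠ 0 := by
    rw [Ne, Complex.ofReal_eq_zero, Complex.normSq_eq_zero]; exact h2
  have e0 := dz_sig0 hp h2 0
  have e1 := dz_sig0 hp h2 1
  have e2 := dz_sig0 hp h2 2
  simp only [if_true, show (1 : Fin 3) ≠ 0 by decide, show (2 : Fin 3) ≠ 0 by decide,
    show (2 : Fin 3) ≠ 1 by decide, if_false] at e0 e1 e2
  simp only [HH, bdry0, Fin.sum_univ_three, e0, e1, e2]
  field_simp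
  ring

private lemma cofm_cont {A B : V → Mat} (hA : ∀ j k, ContinuousOn (fun p => A p j k) U)
    (hB : ∀ j k, ContinuousOn (fun p => B p j k) U) (j k : Fin 3) :
    ContinuousOn (fun p => cofm (A p) (B p) j k) U := by
  unfold cofm
  exact ((((hA _ _).mul (hB _ _)).add ((hA _ _).mul (hB _ _))).sub
    ((hA _ _).mul (hB _ _))).sub ((hA _ _).mul (hB _ _))

/-- the compact polydisc bundle -/
private def QQ (K : Set ℂ) : Set V := {p | p 0 ∈ K ∧ ‖p 1‖ ≤ 1 ∧ ‖p 2‖ ≤ 1}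

private lemma isCompact_QQ {K : Set ℂ} (hK : IsCompact K) : IsCompact (QQ K) := by
  have h := isCompact_univ_pi (X := fun _ : Fin 3 => ℂ)
    (s := ![K, Metric.closedBall 0 1, Metric.closedBall 0 1]) (by
      intro i; fin_cases i
      · exact hK
      · exact isCompact_closedBall _ _
      · exact isCompact_closedBall _ _)
  convert h using 1
  ext p
  simp [QQ, Set.mem_pi, Fin.forall_fin_succ]

private lemma QQ_subset {K : Set ℂ} (hK' : K ⊆ {z | 0 < z.im}) : QQ K ⊆ U := fun _ hp => hK' hp.1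

private lemma exists_bounds {A B : V → Mat} (hA : ∀ j k, ContinuousOn (fun p => A p j k) U)
    (hB : ∀ j k, ContinuousOn (fun p => B p j k) U) {K : Set ℂ} (hK : IsCompact K)
    (hK' : K ⊆ {z | 0 < z.im}) :
    ∃ C : ℝ, 1 ≤ C ∧ ∀ p ∈ QQ K, (∀ j k, ‖cofm (A p) (B p) j k‖ ≤ C) ∧ (p 0).im⁻¹ ≤ C := by
  have h1 : ∀ jk : Fin 3 × Fin 3, ∃ C : ℝ, ∀ p ∈ QQ K, ‖cofm (A p) (B p) jk.1 jk.2‖ ≤ C := fun jk =>
    (isCompact_QQ hK).exists_bound_of_continuousOn ((cofm_cont hA hB _ _).mono (QQ_subset hK'))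
  choose c hc using h1
  obtain ⟨d, hd⟩ := (isCompact_QQ hK).exists_bound_of_continuousOn
    (f := fun p : V => ((p 0).im)⁻¹) (by
      refine ContinuousOn.inv₀ (Continuous.continuousOn (by fun_prop)) ?_
      intro p hp
      exact ne_of_gt (hK' hp.1))
  refine ⟨max 1 (max d (∑ jk, |c jk|)), le_max_left _ _, fun p hp => ⟨fun j k => ?_, ?_⟩⟩
  · refine (hc (j, k) p hp).trans (le_trans ?_ ((le_max_right _ _).trans (le_max_right _ _)))
    exact (le_abs_self _).trans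
      (Finset.single_le_sum (f := fun jk => |c jk|) (fun _ _ => abs_nonneg _) (Finset.mem_univ _))
  · refine le_trans ?_ ((le_max_left _ _).trans (le_max_right _ _))
    exact (le_abs_self _).trans (hd p hp)

private lemma sum_bound {c₀ c₁ c₂ b₀ b₁ b₂ : ℂ} {C r : ℝ} (hr : 0 ≤ r) (hC : 0 ≤ C)
    (h0 : ‖c₀‖ ≤ C) (h1 : ‖c₁‖ ≤ C) (h2 : ‖c₂‖ ≤ C) (g0 : r * ‖b₀‖ ≤ C) (g1 : r * ‖b₁‖ ≤ C)
    (g2 : r * ‖b₂‖ ≤ C) : r * ‖c₀ * b₀ + c₁ * b₁ + c₂ * b₂‖ ≤ 3 * C ^ 2 := by
  have e : ‖c₀ * b₀ + c₁ * b₁ + c₂ * b₂‖ ≤ ‖c₀‖ * ‖b₀‖ + ‖c₁‖ * ‖b₁‖ + ‖c₂‖ * ‖b₂‖ := by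
    refine (norm_add₃_le).trans (le_of_eq ?_)
    rw [norm_mul, norm_mul, norm_mul]
  calc r * ‖c₀ * b₀ + c₁ * b₁ + c₂ * b₂‖
      ≤ r * (‖c₀‖ * ‖b₀‖ + ‖c₁‖ * ‖b₁‖ + ‖c₂‖ * ‖b₂‖) := mul_le_mul_of_nonneg_left e hr
    _ = ‖c₀‖ * (r * ‖b₀‖) + ‖c₁‖ * (r * ‖b₁‖) + ‖c₂‖ * (r * ‖b₂‖) := by ring
    _ ≤ C * C + C * C + C * C := by
        have := mul_le_mul h0 g0 (by positivity) hC
        have := mul_le_mul h1 g1 (by positivity) hC
        have := mul_le_mul h2 g2 (by positivity) hC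
        linarith
    _ = 3 * C ^ 2 := by ring

private lemma term_bound {X N S : ℂ} {x r y : ℝ} (hX : ‖X‖ ≤ x) (hN : ‖N‖ = r * r) (hr : 0 ≤ r)
    (hS : r * ‖S‖ ≤ y) : ‖X * N * S‖ ≤ x * r * y := by
  rw [norm_mul, norm_mul, hN]
  have hx : 0 ≤ x := (norm_nonneg _).trans hX
  calc ‖X‖ * (r * r) * ‖S‖ = (‖X‖ * r) * (r * ‖S‖) := by ring
    _ ≤ (x * r) * y := mul_le_mul (mul_le_mul_of_nonneg_right hX hr) hS (by positivity)
        (by positivity)

/-- the two bounds for `|q|⁴ bdry0` -/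
private lemma HH_bound {A B : V → Mat} (hA : ∀ j k, ContinuousOn (fun p => A p j k) U)
    (hB : ∀ j k, ContinuousOn (fun p => B p j k) U) {T : V → V} {α : Fin 3 → V → ℂ}
    (hα : TameAt T α) {K : Set ℂ} (hK : IsCompact K) (hK' : K ⊆ {z | 0 < z.im}) :
    ∃ C : ℝ, 0 ≤ C ∧ ∀ p : V, p 0 ∈ K → ‖p 1‖ ≤ 1 → p 2 ≠ 0 → ‖p 2‖ ≤ 1 →
      ‖HH T A B α p‖ ≤ C ∧
      ‖HH T A B α p + ((1 + normSq (p 1)) / (p 0).im) * cofm (A p) (B p) 2 2 *
        (conj (p 2) * pull01 T α 2 p)‖ ≤ C * ‖p 2‖ := by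
  obtain ⟨C₁, hC₁, hb₁⟩ := exists_bounds hA hB hK hK'
  obtain ⟨C₂, hb₂⟩ := hα.bdd K hK hK'
  set C := max C₁ C₂ with hC
  have hC1 : 1 ≤ C := hC₁.trans (le_max_left _ _)
  have hC0 : 0 ≤ C := by linarith
  have main : ∀ p : V, p 0 ∈ K → ‖p 1‖ ≤ 1 → p 2 ≠ 0 → ‖p 2‖ ≤ 1 →
      ‖HH T A B α p + ((1 + normSq (p 1)) / (p 0).im) * cofm (A p) (B p) 2 2 *
        (conj (p 2) * pull01 T α 2 p)‖ ≤ (10 * C ^ 4) * ‖p 2‖ ∧
      ‖((1 + normSq (p 1)) / (p 0).im) * cofm (A p) (B p) 2 2 *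
        (conj (p 2) * pull01 T α 2 p)‖ ≤ 2 * C ^ 3 := by
    intro p h0 h1 h2 h3
    have hpU : p ∈ U := hK' h0
    have hy : 0 < (p 0).im := hpU
    obtain ⟨hc, hyC⟩ := hb₁ p ⟨h0, h1, h3⟩
    obtain ⟨g0, g1, g2⟩ := hb₂ p h0 h1 h2 h3
    have hc' : ∀ j k, ‖cofm (A p) (B p) j k‖ ≤ C := fun j k => (hc j k).trans (le_max_left _ _)
    have hyC' : (p 0).im⁻¹ ≤ C := hyC.trans (le_max_left _ _)
    replace g0 : ‖pull01 T α 0 p‖ ≤ C := g0.trans (le_max_right _ _)
    replace g1 : ‖pull01 T α 1 p‖ ≤ C := g1.trans (le_max_right _ _)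
    replace g2 : ‖p 2‖ * ‖pull01 T α 2 p‖ ≤ C := g2.trans (le_max_right _ _)
    have g0' : ‖p 2‖ * ‖pull01 T α 0 p‖ ≤ C := by
      calc ‖p 2‖ * ‖pull01 T α 0 p‖ ≤ 1 * C := mul_le_mul h3 g0 (norm_nonneg _) zero_le_one
        _ = C := one_mul _
    have g1' : ‖p 2‖ * ‖pull01 T α 1 p‖ ≤ C := by
      calc ‖p 2‖ * ‖pull01 T α 1 p‖ ≤ 1 * C := mul_le_mul h3 g1 (norm_nonneg _) zero_le_one
        _ = C := one_mul _
    have hr := norm_nonneg (p 2)
    have ha : normSq (p 1) ≤ 1 := by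
      rw [Complex.normSq_eq_norm_sq]; nlinarith [norm_nonneg (p 1)]
    have hκ : ‖((1 + normSq (p 1)) / (p 0).im : ℂ)‖ ≤ 2 * C := by
      rw [show ((1 + normSq (p 1)) / (p 0).im : ℂ) = (((1 + normSq (p 1)) * (p 0).im⁻¹ : ℝ) : ℂ) by
        push_cast; rw [div_eq_mul_inv], Complex.norm_real, Real.norm_of_nonneg (by
          have := Complex.normSq_nonneg (p 1); positivity)]
      have := Complex.normSq_nonneg (p 1)
      exact mul_le_mul (by linarith) hyC' (by positivity) (by norm_num)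
    have hκ2 : ‖((1 + normSq (p 1)) / (p 0).im ^ 2 : ℂ)‖ ≤ 2 * C ^ 2 := by
      rw [show ((1 + normSq (p 1)) / (p 0).im ^ 2 : ℂ) =
        (((1 + normSq (p 1)) * ((p 0).im⁻¹) ^ 2 : ℝ) : ℂ) by
        push_cast; rw [div_eq_mul_inv, inv_pow], Complex.norm_real, Real.norm_of_nonneg (by
          have := Complex.normSq_nonneg (p 1); positivity)]
      have := Complex.normSq_nonneg (p 1)
      have h' : ((p 0).im⁻¹) ^ 2 ≤ C ^ 2 := pow_le_pow_left₀ (by positivity) hyC' 2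
      exact mul_le_mul (by linarith) h' (by positivity) (by norm_num)
    have hay : ‖conj (p 1) / ((p 0).im : ℂ)‖ ≤ C := by
      rw [norm_div, Complex.norm_conj, Complex.norm_real, Real.norm_of_nonneg hy.le, div_eq_mul_inv]
      calc ‖p 1‖ * (p 0).im⁻¹ ≤ 1 * C := mul_le_mul h1 hyC' (by positivity) zero_le_one
        _ = C := one_mul _
    have hq : ‖(normSq (p 2) : ℂ)‖ = ‖p 2‖ * ‖p 2‖ := by
      rw [Complex.norm_real, Real.norm_of_nonneg (Complex.normSq_nonneg _),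
        Complex.normSq_eq_norm_sq, sq]
    have S0 := sum_bound hr hC0 (hc' 0 0) (hc' 0 1) (hc' 0 2) g0' g1' g2
    have S1 := sum_bound hr hC0 (hc' 1 0) (hc' 1 1) (hc' 1 2) g0' g1' g2
    have S2 : ‖cofm (A p) (B p) 2 0 * pull01 T α 0 p + cofm (A p) (B p) 2 1 * pull01 T α 1 p‖ ≤
        2 * C ^ 2 := by
      refine (norm_add_le _ _).trans ?_
      rw [norm_mul, norm_mul]
      have := mul_le_mul (hc' 2 0) g0 (norm_nonneg _) hC0
      have := mul_le_mul (hc' 2 1) g1 (norm_nonneg _) hC0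
      linarith
    constructor
    · have e : HH T A B α p + ((1 + normSq (p 1)) / (p 0).im) * cofm (A p) (B p) 2 2 *
          (conj (p 2) * pull01 T α 2 p) =
        (I / 2 * ((1 + normSq (p 1)) / (p 0).im ^ 2) * normSq (p 2) *
        (cofm (A p) (B p) 0 0 * pull01 T α 0 p + cofm (A p) (B p) 0 1 * pull01 T α 1 p
          + cofm (A p) (B p) 0 2 * pull01 T α 2 p)) +
      (conj (p 1) / (p 0).im * normSq (p 2) *
        (cofm (A p) (B p) 1 0 * pull01 T α 0 p + cofm (A p) (B p) 1 1 * pull01 T α 1 p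
          + cofm (A p) (B p) 1 2 * pull01 T α 2 p)) +
      (- ((1 + normSq (p 1)) / (p 0).im) * conj (p 2) *
        (cofm (A p) (B p) 2 0 * pull01 T α 0 p + cofm (A p) (B p) 2 1 * pull01 T α 1 p)) := by
        rw [HH_expand T A B α hpU h2]; ring
      rw [e]
      refine (norm_add₃_le).trans ?_
      have t1 := term_bound (X := I / 2 * ((1 + normSq (p 1)) / (p 0).im ^ 2)) (x := C ^ 2) (by
        rw [norm_mul, norm_div, Complex.norm_I, Complex.norm_ofNat]; linarith) hq hr S0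
      have t2 := term_bound hay hq hr S1
      have t3 : ‖- ((1 + normSq (p 1)) / (p 0).im) * conj (p 2) *
        (cofm (A p) (B p) 2 0 * pull01 T α 0 p + cofm (A p) (B p) 2 1 * pull01 T α 1 p)‖ ≤
          (2 * C) * ‖p 2‖ * (2 * C ^ 2) := by
        rw [norm_mul, norm_mul, norm_neg, Complex.norm_conj]
        exact mul_le_mul (mul_le_mul_of_nonneg_right hκ hr) S2 (norm_nonneg _) (by positivity)
      have hC2 : C ^ 3 ≤ C ^ 4 := pow_le_pow_right₀ hC1 (by norm_num)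
      have := mul_le_mul_of_nonneg_right hC2 hr
      nlinarith [t1, t2, t3]
    · rw [norm_mul, norm_mul, norm_mul, Complex.norm_conj]
      have := mul_le_mul (mul_le_mul hκ (hc' 2 2) (norm_nonneg _) (by positivity)) g2
        (by positivity) (by positivity)
      nlinarith [this]
  refine ⟨10 * C ^ 4 + 2 * C ^ 3, by positivity, fun p h0 h1 h2 h3 => ?_⟩
  obtain ⟨m1, m2⟩ := main p h0 h1 h2 h3
  have hr := norm_nonneg (p 2)
  have hC4 : 0 ≤ C ^ 4 := by positivity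
  have hC3 : 0 ≤ C ^ 3 := by positivity
  constructor
  · have := norm_sub_le (HH T A B α p + ((1 + normSq (p 1)) / (p 0).im) * cofm (A p) (B p) 2 2 *
        (conj (p 2) * pull01 T α 2 p)) (((1 + normSq (p 1)) / (p 0).im) * cofm (A p) (B p) 2 2 *
        (conj (p 2) * pull01 T α 2 p))
    rw [add_sub_cancel_right] at this
    nlinarith [this]
  · nlinarith [m1]

private lemma HH_cont {A B : V → Mat} (hA : ∀ j k, ContinuousOn (fun p => A p j k) U)
    (hB : ∀ j k, ContinuousOn (fun p => B p j k) U) {T : V → V} {α : Fin 3 → V → ℂ}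
    (hmeas : ∀ k, ContinuousOn (pull01 T α k) {p | p ∈ U ∧ p 2 ≠ 0}) :
    ContinuousOn (HH T A B α) {p | p ∈ U ∧ p 2 ≠ 0} := by
  have hc : ∀ j k, ContinuousOn (fun p => cofm (A p) (B p) j k) {p | p ∈ U ∧ p 2 ≠ 0} :=
    fun j k => (cofm_cont hA hB j k).mono (fun p hp => hp.1)
  have hy : ContinuousOn (fun p : V => (((p 0).im : ℂ))⁻¹) {p | p ∈ U ∧ p 2 ≠ 0} := by
    refine ContinuousOn.inv₀ (Continuous.continuousOn (by fun_prop)) ?_
    intro p hp
    exact_mod_cast (ne_of_gt hp.1)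
  have hn : ∀ l, Continuous (fun p : V => (normSq (p l) : ℂ)) := fun l =>
    Complex.continuous_ofReal.comp (Complex.continuous_normSq.comp (by fun_prop))
  have hcj : ∀ l, Continuous (fun p : V => conj (p l)) := fun l =>
    Complex.continuous_conj.comp (by fun_prop)
  have k0 : ContinuousOn (fun p : V => ((1 + normSq (p 1)) / (p 0).im : ℂ))
      {p | p ∈ U ∧ p 2 ≠ 0} := by
    simp only [div_eq_mul_inv]
    exact (continuous_const.add (hn 1)).continuousOn.mul hy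
  have k1 : ContinuousOn (fun p : V => ((1 + normSq (p 1)) / (p 0).im ^ 2 : ℂ))
      {p | p ∈ U ∧ p 2 ≠ 0} := by
    simp only [div_eq_mul_inv, ← inv_pow]
    exact (continuous_const.add (hn 1)).continuousOn.mul (hy.pow 2)
  have k2 : ContinuousOn (fun p : V => (conj (p 1) / (p 0).im : ℂ))
      {p | p ∈ U ∧ p 2 ≠ 0} := by
    simp only [div_eq_mul_inv]
    exact (hcj 1).continuousOn.mul hy
  refine ContinuousOn.congr (f := fun p =>
      - ((1 + normSq (p 1)) / (p 0).im) * cofm (A p) (B p) 2 2 * (conj (p 2) * pull01 T α 2 p) +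
      (I / 2 * ((1 + normSq (p 1)) / (p 0).im ^ 2) * normSq (p 2) *
        (cofm (A p) (B p) 0 0 * pull01 T α 0 p + cofm (A p) (B p) 0 1 * pull01 T α 1 p
          + cofm (A p) (B p) 0 2 * pull01 T α 2 p) +
      conj (p 1) / (p 0).im * normSq (p 2) *
        (cofm (A p) (B p) 1 0 * pull01 T α 0 p + cofm (A p) (B p) 1 1 * pull01 T α 1 p
          + cofm (A p) (B p) 1 2 * pull01 T α 2 p) +
      - ((1 + normSq (p 1)) / (p 0).im) * conj (p 2) *
        (cofm (A p) (B p) 2 0 * pull01 T α 0 p + cofm (A p) (B p) 2 1 * pull01 T α 1 p)))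
    ?_ (fun p hp => HH_expand T A B α hp.1 hp.2)
  refine ContinuousOn.add ?_ (ContinuousOn.add (ContinuousOn.add ?_ ?_) ?_)
  · exact (k0.neg.mul (hc 2 2)).mul ((hcj 2).continuousOn.mul (hmeas 2))
  · exact ((continuousOn_const.mul k1).mul (hn 2).continuousOn).mul
      ((((hc 0 0).mul (hmeas 0)).add ((hc 0 1).mul (hmeas 1))).add ((hc 0 2).mul (hmeas 2)))
  · exact (k2.mul (hn 2).continuousOn).mul
      ((((hc 1 0).mul (hmeas 0)).add ((hc 1 1).mul (hmeas 1))).add ((hc 1 2).mul (hmeas 2)))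
  · exact (k0.neg.mul (hcj 2).continuousOn).mul
      (((hc 2 0).mul (hmeas 0)).add ((hc 2 1).mul (hmeas 1)))

private lemma vec_cont (z a : ℂ) : Continuous (fun q : ℂ => (![z, a, q] : V)) := by
  refine continuous_pi fun i => ?_
  fin_cases i
  · exact continuous_const
  · exact continuous_const
  · exact continuous_id

private lemma circle_cont (ρ : ℝ) : Continuous (fun θ : ℝ => (ρ : ℂ) * Complex.exp (θ * I)) := by
  fun_prop

private lemma norm_circle {ρ : ℝ} (hρ : 0 < ρ) (θ : ℝ) : ‖(ρ : ℂ) * Complex.exp (θ * I)‖ = ρ := by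
  rw [norm_mul, Complex.norm_exp_ofReal_mul_I, mul_one, Complex.norm_real,
    Real.norm_of_nonneg hρ.le]

private lemma circle_ne {ρ : ℝ} (hρ : 0 < ρ) (θ : ℝ) : (ρ : ℂ) * Complex.exp (θ * I) ≠ 0 := by
  rw [← norm_pos_iff, norm_circle hρ]; exact hρ

/-- the angular mean of `|q|⁴ bdry0` tends to `0` -/
private lemma HH_mean {A B : V → Mat} (hA : ∀ j k, ContinuousOn (fun p => A p j k) U)
    (hB : ∀ j k, ContinuousOn (fun p => B p j k) U) {T : V → V} {α : Fin 3 → V → ℂ}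
    (hα : TameAt T α) (hmeas : ∀ k, ContinuousOn (pull01 T α k) {p | p ∈ U ∧ p 2 ≠ 0})
    {z a : ℂ} (hz : 0 < z.im) (ha : ‖a‖ ≤ 1) :
    Tendsto (fun ρ : ℝ => ∫ θ in (0 : ℝ)..2 * Real.pi,
      HH T A B α ![z, a, ρ * Complex.exp (θ * I)]) (𝓝[>] 0) (𝓝 0) := by
  have hKs : ({z} : Set ℂ) ⊆ {z | 0 < z.im} := by
    intro w hw; rw [Set.mem_singleton_iff] at hw; rw [hw]; exact hz
  obtain ⟨C, hC0, hC⟩ := HH_bound hA hB hα isCompact_singleton hKs
  obtain ⟨C₂, hb₂⟩ := hα.bdd {z} isCompact_singleton hKs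
  set κ : ℂ := (1 + normSq a) / z.im with hκ
  set c : ℂ := cofm (A ![z, a, 0]) (B ![z, a, 0]) 2 2 with hc
  -- continuity in θ
  have cθ : ∀ ρ : ℝ, 0 < ρ → Continuous (fun θ : ℝ => HH T A B α ![z, a, ρ * Complex.exp (θ * I)]) := by
    intro ρ hρ
    refine (HH_cont hA hB hmeas).comp_continuous ((vec_cont z a).comp (circle_cont ρ)) ?_
    intro θ
    exact ⟨hz, circle_ne hρ θ⟩
  have bθ : ∀ ρ : ℝ, 0 < ρ → Continuous (fun θ : ℝ =>
      conj (ρ * Complex.exp (θ * I)) * pull01 T α 2 ![z, a, ρ * Complex.exp (θ * I)]) := by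
    intro ρ hρ
    refine (Complex.continuous_conj.comp (circle_cont ρ)).mul ?_
    refine (hmeas 2).comp_continuous ((vec_cont z a).comp (circle_cont ρ)) ?_
    intro θ
    exact ⟨hz, circle_ne hρ θ⟩
  have t1 := (hα.mean z a hz ha).const_mul (-κ * c)
  rw [mul_zero] at t1
  have t2 : Tendsto (fun ρ : ℝ => ∫ θ in (0 : ℝ)..2 * Real.pi,
      (HH T A B α ![z, a, ρ * Complex.exp (θ * I)] + κ * c *
        (conj (ρ * Complex.exp (θ * I)) * pull01 T α 2 ![z, a, ρ * Complex.exp (θ * I)])))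
      (𝓝[>] 0) (𝓝 0) := by
    have gc : Continuous (fun q : ℂ => cofm (A ![z, a, q]) (B ![z, a, q]) 2 2) :=
      (cofm_cont hA hB 2 2).comp_continuous (vec_cont z a) (fun q => hz)
    rw [Metric.tendsto_nhds]
    intro ε hε
    have hMpos : 0 < (C + ‖κ‖ * |C₂|) * (2 * Real.pi) + 1 := by positivity
    set δ := ε / ((C + ‖κ‖ * |C₂|) * (2 * Real.pi) + 1) with hδ
    have hδ0 : 0 < δ := by positivity
    obtain ⟨δ', hδ', hg⟩ := Metric.continuousAt_iff.1 (gc.continuousAt (x := 0)) δ hδ0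
    filter_upwards [self_mem_nhdsWithin, mem_nhdsWithin_of_mem_nhds
      (Iio_mem_nhds (show (0 : ℝ) < min 1 (min δ δ') by positivity))] with ρ hρ hρ'
    have hρ0 : 0 < ρ := hρ
    have hρ1 : ρ < 1 := lt_of_lt_of_le hρ' (min_le_left _ _)
    have hρ2 : ρ < δ := lt_of_lt_of_le hρ' ((min_le_right _ _).trans (min_le_left _ _))
    have hρ3 : ρ < δ' := lt_of_lt_of_le hρ' ((min_le_right _ _).trans (min_le_right _ _))
    rw [dist_zero_right]
    have hbd : ∀ θ ∈ Set.uIoc (0 : ℝ) (2 * Real.pi),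
        ‖HH T A B α ![z, a, ρ * Complex.exp (θ * I)] + κ * c *
        (conj (ρ * Complex.exp (θ * I)) * pull01 T α 2 ![z, a, ρ * Complex.exp (θ * I)])‖ ≤
          (C + ‖κ‖ * |C₂|) * δ := by
      intro θ _
      set q : ℂ := ρ * Complex.exp (θ * I) with hq
      have hqn : ‖q‖ = ρ := norm_circle hρ0 θ
      have hq0 : q ≠ 0 := circle_ne hρ0 θ
      have e1 := (hC ![z, a, q] rfl ha hq0 (by
        show ‖q‖ ≤ 1; rw [hqn]; exact hρ1.le)).2
      have e2 := (hb₂ ![z, a, q] rfl ha hq0 (by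
        show ‖q‖ ≤ 1; rw [hqn]; exact hρ1.le)).2.2
      have e3 : ‖cofm (A ![z, a, q]) (B ![z, a, q]) 2 2 - c‖ < δ := by
        have := hg (x := q) (by rw [dist_zero_right, hqn]; exact hρ3)
        rwa [dist_eq_norm] at this
      have e1' : ‖HH T A B α ![z, a, q] + κ * cofm (A ![z, a, q]) (B ![z, a, q]) 2 2 *
        (conj q * pull01 T α 2 ![z, a, q])‖ ≤ C * ρ := by
        rw [← hqn]; exact e1
      have e2' : ‖conj q * pull01 T α 2 ![z, a, q]‖ ≤ |C₂| := by
        rw [norm_mul, Complex.norm_conj]; exact e2.trans (le_abs_self _)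
      have e4 : HH T A B α ![z, a, q] + κ * c * (conj q * pull01 T α 2 ![z, a, q]) =
          (HH T A B α ![z, a, q] + κ * cofm (A ![z, a, q]) (B ![z, a, q]) 2 2 *
        (conj q * pull01 T α 2 ![z, a, q])) - κ * (cofm (A ![z, a, q]) (B ![z, a, q]) 2 2 - c) *
        (conj q * pull01 T α 2 ![z, a, q]) := by ring
      rw [e4]
      refine (norm_sub_le _ _).trans ?_
      rw [norm_mul, norm_mul κ]
      have m1 : C * ρ ≤ C * δ := mul_le_mul_of_nonneg_left hρ2.le hC0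
      have m2 : ‖κ‖ * ‖cofm (A ![z, a, q]) (B ![z, a, q]) 2 2 - c‖ *
        ‖conj q * pull01 T α 2 ![z, a, q]‖ ≤ ‖κ‖ * δ * |C₂| :=
        mul_le_mul (mul_le_mul_of_nonneg_left e3.le (norm_nonneg _)) e2' (norm_nonneg _)
          (by positivity)
      linarith
    refine (intervalIntegral.norm_integral_le_of_norm_le_const hbd).trans_lt ?_
    rw [sub_zero, abs_of_pos (show (0 : ℝ) < 2 * Real.pi by positivity)]
    have hlt : (C + ‖κ‖ * |C₂|) * δ * (2 * Real.pi) <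
        ((C + ‖κ‖ * |C₂|) * (2 * Real.pi) + 1) * δ := by nlinarith
    refine hlt.trans_le (le_of_eq ?_)
    rw [hδ]; field_simp
  have t3 := t1.add t2
  rw [zero_add] at t3
  refine t3.congr' ?_
  filter_upwards [self_mem_nhdsWithin] with ρ hρ
  rw [← intervalIntegral.integral_const_mul, ← intervalIntegral.integral_add]
  · refine intervalIntegral.integral_congr fun θ _ => ?_
    ring
  · exact ((bθ ρ hρ).const_mul _).intervalIntegrable _ _
  · exact ((cθ ρ hρ).add ((bθ ρ hρ).const_mul _)).intervalIntegrable _ _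

/-! ### the integral in one variable -/

private lemma supp_k {κ R ρ : ℝ} (hκ : 0 < κ) (hR : 0 < R) (hρ : 0 < ρ)
    (h1 : 1 ≤ κ / (ρ ^ 2 * R)) (h2 : κ / (ρ ^ 2 * R) ≤ 2) :
    Real.sqrt (κ / R) / 2 ≤ ρ ∧ ρ ≤ Real.sqrt (κ / R) := by
  have hr : 0 < κ / R := by positivity
  have e : κ / (ρ ^ 2 * R) = (κ / R) / ρ ^ 2 := by field_simp
  rw [e] at h1 h2
  have hρ2 : 0 < ρ ^ 2 := by positivity
  rw [le_div_iff₀ hρ2, one_mul] at h1
  rw [div_le_iff₀ hρ2] at h2
  constructor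
  · rw [div_le_iff₀ (by norm_num : (0 : ℝ) < 2)]
    apply Real.sqrt_le_iff.2
    constructor
    · positivity
    · nlinarith
  · exact Real.le_sqrt_of_sq_le h1

private lemma norm_kernel_le {κ R ρ M : ℝ} {k : ℝ → ℝ} (hκ : 0 < κ) (hR : 0 < R) (hρ : 0 < ρ)
    (hk0 : ∀ t, k t ≠ 0 → 1 ≤ t ∧ t ≤ 2) (hM : ∀ t, |k t| ≤ M) :
    |k (κ / (ρ ^ 2 * R)) / (R * (ρ ^ 2) ^ 2)| ≤ M * 16 / (R * (Real.sqrt (κ / R)) ^ 4) := by
  have hr : 0 < Real.sqrt (κ / R) := Real.sqrt_pos.2 (by positivity)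
  have hM0 : 0 ≤ M := (abs_nonneg _).trans (hM 0)
  by_cases hk : k (κ / (ρ ^ 2 * R)) = 0
  · rw [hk, zero_div, abs_zero]; positivity
  · obtain ⟨a, b⟩ := hk0 _ hk
    obtain ⟨c, d⟩ := supp_k hκ hR hρ a b
    rw [abs_div, abs_of_pos (show 0 < R * (ρ ^ 2) ^ 2 by positivity)]
    have h4 : (Real.sqrt (κ / R)) ^ 4 ≤ 16 * (ρ ^ 2) ^ 2 := by
      have : (Real.sqrt (κ / R)) ^ 4 ≤ (2 * ρ) ^ 4 :=
        pow_le_pow_left₀ hr.le (by linarith) 4
      nlinarith [this]
    rw [div_le_div_iff₀ (by positivity) (by positivity)]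
    calc |k (κ / (ρ ^ 2 * R))| * (R * Real.sqrt (κ / R) ^ 4)
        ≤ M * (R * (16 * (ρ ^ 2) ^ 2)) :=
          mul_le_mul (hM _) (mul_le_mul_of_nonneg_left h4 hR.le) (by positivity) hM0
      _ = M * 16 * (R * (ρ ^ 2) ^ 2) := by ring

/-- polar coordinates -/
private lemma polar_kernel {H : ℂ → ℂ} (hH : ContinuousOn H {q | q ≠ 0}) {κ R : ℝ} (hκ : 0 < κ)
    (hR : 0 < R) {k : ℝ → ℝ} (hk : Continuous k) (hk0 : ∀ t, k t ≠ 0 → 1 ≤ t ∧ t ≤ 2) :
    ∫ q : ℂ, ((k (κ / (normSq q * R)) / (R * normSq q ^ 2) : ℝ) : ℂ) * H q =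
      ∫ ρ in Set.Icc (Real.sqrt (κ / R) / 2) (Real.sqrt (κ / R)),
        ((ρ * (k (κ / (ρ ^ 2 * R)) / (R * (ρ ^ 2) ^ 2)) : ℝ) : ℂ) *
          ∫ θ in (0 : ℝ)..2 * Real.pi, H (ρ * Complex.exp (θ * I)) := by
  set r := Real.sqrt (κ / R) with hr
  have hr0 : 0 < r := Real.sqrt_pos.2 (by positivity)
  have hzero : ∀ ρ : ℝ, 0 < ρ → ρ ∉ Set.Icc (r / 2) r → k (κ / (ρ ^ 2 * R)) = 0 := by
    intro ρ hρ hn
    by_contra hne
    obtain ⟨a, b⟩ := hk0 _ hne
    exact hn (supp_k hκ hR hρ a b)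
  have hsym : ∀ p : ℝ × ℝ, Complex.polarCoord.symm p = (p.1 : ℂ) * Complex.exp (p.2 * I) := by
    intro p
    rw [Complex.polarCoord_symm_apply, Complex.exp_mul_I, Complex.ofReal_cos, Complex.ofReal_sin]
  have hnsq : ∀ p : ℝ × ℝ, normSq ((p.1 : ℂ) * Complex.exp (p.2 * I)) = p.1 ^ 2 := by
    intro p
    rw [Complex.normSq_eq_norm_sq, norm_mul, Complex.norm_exp_ofReal_mul_I, mul_one,
      Complex.norm_real, Real.norm_eq_abs, sq_abs]
  rw [← Complex.integral_comp_polarCoord_symm]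
  have step1 : ∫ p in polarCoord.target, p.1 • (((k (κ / (normSq (Complex.polarCoord.symm p) * R)) /
      (R * normSq (Complex.polarCoord.symm p) ^ 2) : ℝ) : ℂ) * H (Complex.polarCoord.symm p)) =
      ∫ p in Set.Ioi (0 : ℝ) ×ˢ Set.Ioo (-Real.pi) Real.pi,
        ((p.1 * (k (κ / (p.1 ^ 2 * R)) / (R * (p.1 ^ 2) ^ 2)) : ℝ) : ℂ) *
          H (p.1 * Complex.exp (p.2 * I)) := by
    refine setIntegral_congr_fun (measurableSet_Ioi.prod measurableSet_Ioo) fun p _ => ?_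
    rw [hsym, hnsq, Complex.real_smul]
    push_cast
    ring
  have hcont : ContinuousOn (fun p : ℝ × ℝ =>
      ((p.1 * (k (κ / (p.1 ^ 2 * R)) / (R * (p.1 ^ 2) ^ 2)) : ℝ) : ℂ) *
          H (p.1 * Complex.exp (p.2 * I))) (Set.Ioi (0 : ℝ) ×ˢ Set.univ) := by
    refine ContinuousOn.mul ?_ ?_
    · refine Complex.continuous_ofReal.comp_continuousOn ?_
      refine continuous_fst.continuousOn.mul (ContinuousOn.div ?_ (by fun_prop) ?_)
      · refine hk.comp_continuousOn (ContinuousOn.div (by fun_prop) (by fun_prop) ?_)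
        intro p hp
        have : 0 < p.1 := hp.1
        positivity
      · intro p hp
        have : 0 < p.1 := hp.1
        positivity
    · refine hH.comp (Continuous.continuousOn (by fun_prop)) ?_
      intro p hp
      exact circle_ne hp.1 p.2
  have hint : IntegrableOn (fun p : ℝ × ℝ =>
      ((p.1 * (k (κ / (p.1 ^ 2 * R)) / (R * (p.1 ^ 2) ^ 2)) : ℝ) : ℂ) *
          H (p.1 * Complex.exp (p.2 * I))) (Set.Ioi (0 : ℝ) ×ˢ Set.Ioo (-Real.pi) Real.pi)
          (volume.prod volume) := by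
    have h1 : IntegrableOn (fun p : ℝ × ℝ =>
      ((p.1 * (k (κ / (p.1 ^ 2 * R)) / (R * (p.1 ^ 2) ^ 2)) : ℝ) : ℂ) *
          H (p.1 * Complex.exp (p.2 * I))) (Set.Icc (r / 2) r ×ˢ Set.Icc (-Real.pi) Real.pi)
          (volume.prod volume) := by
      rw [← Measure.volume_eq_prod]
      refine ContinuousOn.integrableOn_compact (isCompact_Icc.prod isCompact_Icc) ?_
      refine hcont.mono ?_
      rintro p ⟨hp, -⟩
      exact ⟨lt_of_lt_of_le (by positivity) hp.1, Set.mem_univ _⟩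
    have h2 : IntegrableOn (fun p : ℝ × ℝ =>
      ((p.1 * (k (κ / (p.1 ^ 2 * R)) / (R * (p.1 ^ 2) ^ 2)) : ℝ) : ℂ) *
          H (p.1 * Complex.exp (p.2 * I))) (Set.Icc (r / 2) r ×ˢ Set.Ioo (-Real.pi) Real.pi)
          (volume.prod volume) := h1.mono_set (Set.prod_mono le_rfl Set.Ioo_subset_Icc_self)
    refine h2.of_forall_sdiff_eq_zero (measurableSet_Ioi.prod measurableSet_Ioo) ?_
    rintro p ⟨⟨hp1, hp2⟩, hp3⟩
    have : k (κ / (p.1 ^ 2 * R)) = 0 := hzero p.1 hp1 (fun h => hp3 ⟨h, hp2⟩)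
    simp [this]
  rw [step1, Measure.volume_eq_prod, setIntegral_prod _ hint]
  have hsub : Set.Icc (r / 2) r ⊆ Set.Ioi (0 : ℝ) := fun ρ hρ =>
    lt_of_lt_of_le (by positivity) hρ.1
  have step2 : ∫ x in Set.Ioi (0 : ℝ), ∫ y in Set.Ioo (-Real.pi) Real.pi,
      ((x * (k (κ / (x ^ 2 * R)) / (R * (x ^ 2) ^ 2)) : ℝ) : ℂ) * H (x * Complex.exp (y * I)) =
      ∫ x in Set.Ioi (0 : ℝ), ((x * (k (κ / (x ^ 2 * R)) / (R * (x ^ 2) ^ 2)) : ℝ) : ℂ) *
        ∫ θ in (0 : ℝ)..2 * Real.pi, H (x * Complex.exp (θ * I)) := by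
    refine setIntegral_congr_fun measurableSet_Ioi fun ρ _ => ?_
    rw [integral_const_mul]
    congr 1
    have hper : Function.Periodic (fun θ : ℝ => H (ρ * Complex.exp (θ * I))) (2 * Real.pi) := by
      intro θ
      simp only []
      congr 2
      push_cast
      rw [add_mul, Complex.exp_add, Complex.exp_two_pi_mul_I, mul_one]
    have h1 := hper.intervalIntegral_add_eq (-Real.pi) 0
    rw [show -Real.pi + 2 * Real.pi = Real.pi by ring, zero_add] at h1
    rw [← h1, intervalIntegral.integral_of_le (by linarith [Real.pi_pos]),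
      integral_Ioc_eq_integral_Ioo]
  rw [step2]
  refine setIntegral_eq_of_subset_of_forall_sdiff_eq_zero measurableSet_Ioi hsub ?_
  rintro ρ ⟨hρ, hn⟩
  rw [hzero ρ hρ hn]
  simp

/-- the one-variable limit -/
private lemma radial_limit {H : ℂ → ℂ} (hH : ContinuousOn H {q | q ≠ 0})
    (hmean : Tendsto (fun ρ : ℝ => ∫ θ in (0 : ℝ)..2 * Real.pi, H (ρ * Complex.exp (θ * I)))
      (𝓝[>] 0) (𝓝 0))
    {κ : ℝ} (hκ : 0 < κ) {k : ℝ → ℝ} (hk : Continuous k) (hk0 : ∀ t, k t ≠ 0 → 1 ≤ t ∧ t ≤ 2)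
    {M : ℝ} (hM : ∀ t, |k t| ≤ M) :
    Tendsto (fun R : ℝ => ∫ q : ℂ, ((k (κ / (normSq q * R)) / (R * normSq q ^ 2) : ℝ) : ℂ) * H q)
      atTop (𝓝 0) := by
  have hM0 : 0 ≤ M := (abs_nonneg _).trans (hM 0)
  rw [Metric.tendsto_nhds]
  intro ε hε
  set δ := ε / (16 * M / κ + 1) with hδ
  have hδ0 : 0 < δ := by positivity
  have hm := (Metric.tendsto_nhds.1 hmean) δ hδ0
  rw [eventually_nhdsWithin_iff, Metric.eventually_nhds_iff] at hm
  obtain ⟨ρ₀, hρ₀, hm⟩ := hm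
  filter_upwards [eventually_gt_atTop (0 : ℝ), eventually_gt_atTop (κ / ρ₀ ^ 2)] with R hR hR'
  rw [dist_zero_right, polar_kernel hH hκ hR hk hk0]
  set r := Real.sqrt (κ / R) with hr
  have hr0 : 0 < r := Real.sqrt_pos.2 (by positivity)
  have hr2 : R * r ^ 2 = κ := by
    rw [hr, Real.sq_sqrt (by positivity)]; field_simp
  have hrρ : r < ρ₀ := by
    rw [hr, Real.sqrt_lt' hρ₀, div_lt_iff₀ hR]
    rwa [div_lt_iff₀ (by positivity), mul_comm] at hR'
  have hb : ∀ ρ ∈ Set.Icc (r / 2) r, ‖((ρ * (k (κ / (ρ ^ 2 * R)) / (R * (ρ ^ 2) ^ 2)) : ℝ) : ℂ) *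
          ∫ θ in (0 : ℝ)..2 * Real.pi, H (ρ * Complex.exp (θ * I))‖ ≤
        r * (M * 16 / (R * r ^ 4)) * δ := by
    intro ρ hρ
    have hρ0 : 0 < ρ := lt_of_lt_of_le (by positivity) hρ.1
    have h1 := hm (y := ρ) (by rw [Real.dist_eq, sub_zero, abs_of_pos hρ0]; linarith [hρ.2]) hρ0
    rw [dist_zero_right] at h1
    rw [norm_mul, Complex.norm_real, norm_mul, Real.norm_of_nonneg hρ0.le, Real.norm_eq_abs]
    have h2 := norm_kernel_le (M := M) hκ hR hρ0 hk0 hM
    exact mul_le_mul (mul_le_mul hρ.2 h2 (abs_nonneg _) hr0.le) h1.le (norm_nonneg _)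
      (by positivity)
  have hv : volume (Set.Icc (r / 2) r) < ⊤ := by
    rw [Real.volume_Icc]; exact ENNReal.ofReal_lt_top
  refine (norm_setIntegral_le_of_norm_le_const hv hb).trans_lt ?_
  rw [Real.volume_real_Icc_of_le (by linarith)]
  have e1 : r * (M * 16 / (R * r ^ 4)) * δ * (r - r / 2) = (8 * M / κ) * δ := by
    rw [← hr2]; field_simp; ring
  rw [e1]
  have : (8 * M / κ) * δ < (16 * M / κ + 1) * δ := by
    apply mul_lt_mul_of_pos_right _ hδ0
    have : 8 * M / κ ≤ 16 * M / κ := by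
      apply div_le_div_of_nonneg_right _ hκ.le; linarith
    linarith
  refine this.trans_le (le_of_eq ?_)
  rw [hδ]; field_simp

/-- a uniform bound -/
private lemma radial_bound {H : ℂ → ℂ} {C : ℝ} (hC0 : 0 ≤ C)
    (hH : ∀ q, q ≠ 0 → ‖q‖ ≤ 1 → ‖H q‖ ≤ C) {κ R : ℝ} (hκ : 0 < κ) (hR : κ ≤ R)
    {k : ℝ → ℝ} (hk0 : ∀ t, k t ≠ 0 → 1 ≤ t ∧ t ≤ 2) {M : ℝ} (hM : ∀ t, |k t| ≤ M) :
    ‖∫ q : ℂ, ((k (κ / (normSq q * R)) / (R * normSq q ^ 2) : ℝ) : ℂ) * H q‖ ≤
      16 * Real.pi * M * C / κ := by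
  have hR0 : 0 < R := lt_of_lt_of_le hκ hR
  have hM0 : 0 ≤ M := (abs_nonneg _).trans (hM 0)
  set r := Real.sqrt (κ / R) with hr
  have hr0 : 0 < r := Real.sqrt_pos.2 (by positivity)
  have hr2 : R * r ^ 2 = κ := by
    rw [hr, Real.sq_sqrt (by positivity)]; field_simp
  have hr1 : r ≤ 1 := by
    rw [hr, Real.sqrt_le_one]
    rwa [div_le_one hR0]
  have hsub : ∫ q : ℂ, ((k (κ / (normSq q * R)) / (R * normSq q ^ 2) : ℝ) : ℂ) * H q =
      ∫ q in Metric.closedBall (0 : ℂ) r,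
        ((k (κ / (normSq q * R)) / (R * normSq q ^ 2) : ℝ) : ℂ) * H q := by
    rw [← setIntegral_univ]
    refine setIntegral_eq_of_subset_of_forall_sdiff_eq_zero MeasurableSet.univ
      (Set.subset_univ _) ?_
    rintro q ⟨-, hq⟩
    have hq0 : 0 < ‖q‖ := by
      rw [Metric.mem_closedBall, dist_zero_right, not_le] at hq
      linarith
    have : k (κ / (normSq q * R)) = 0 := by
      by_contra hne
      obtain ⟨a, b⟩ := hk0 _ hne
      rw [Complex.normSq_eq_norm_sq] at a b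
      apply hq
      rw [Metric.mem_closedBall, dist_zero_right]
      exact (supp_k hκ hR0 hq0 a b).2
    rw [this, zero_div, Complex.ofReal_zero, zero_mul]
  have hb : ∀ q ∈ Metric.closedBall (0 : ℂ) r,
      ‖((k (κ / (normSq q * R)) / (R * normSq q ^ 2) : ℝ) : ℂ) * H q‖ ≤
        M * 16 / (R * r ^ 4) * C := by
    intro q hq
    rw [Metric.mem_closedBall, dist_zero_right] at hq
    by_cases hq0 : q = 0
    · rw [hq0, Complex.normSq_zero]
      simp
      positivity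
    · rw [norm_mul, Complex.norm_real, Real.norm_eq_abs, Complex.normSq_eq_norm_sq]
      exact mul_le_mul (norm_kernel_le hκ hR0 (norm_pos_iff.2 hq0) hk0 hM)
        (hH q hq0 (hq.trans hr1)) (norm_nonneg _) (by positivity)
  rw [hsub]
  have hv : volume (Metric.closedBall (0 : ℂ) r) < ⊤ := measure_closedBall_lt_top
  refine (norm_setIntegral_le_of_norm_le_const hv hb).trans (le_of_eq ?_)
  rw [Measure.real, Complex.volume_closedBall, ENNReal.toReal_mul, ENNReal.toReal_pow,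
    ENNReal.toReal_ofReal hr0.le, ENNReal.coe_toReal, NNReal.coe_real_pi, ← hr2]
  field_simp

/-! ### the integral over `U` -/

private lemma cut_supp {η : ℝ → ℝ} (hη : IsCut η) (t : ℝ) (ht : deriv η t ≠ 0) : 1 ≤ t ∧ t ≤ 2 := by
  constructor
  · by_contra h
    push Not at h
    apply ht
    have : η =ᶠ[𝓝 t] fun _ => (1 : ℝ) := by
      filter_upwards [Iio_mem_nhds h] with s hs
      exact hη.one s (le_of_lt hs)
    rw [this.deriv_eq, deriv_const]
  · by_contra h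
    push Not at h
    apply ht
    have : η =ᶠ[𝓝 t] fun _ => (0 : ℝ) := by
      filter_upwards [Ioi_mem_nhds h] with s hs
      exact hη.zero s (le_of_lt hs)
    rw [this.deriv_eq, deriv_const]

private lemma cut_cont {η : ℝ → ℝ} (hη : IsCut η) : Continuous (deriv η) :=
  hη.smooth.continuous_deriv (by simp)

private lemma cut_bdd {η : ℝ → ℝ} (hη : IsCut η) : ∃ M : ℝ, ∀ t, |deriv η t| ≤ M := by
  obtain ⟨M, hM⟩ := isCompact_Icc.exists_bound_of_continuousOn (s := Set.Icc (1 : ℝ) 2)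
    (cut_cont hη).continuousOn
  refine ⟨M, fun t => ?_⟩
  by_cases h : deriv η t = 0
  · rw [h, abs_zero]
    exact (norm_nonneg _).trans (hM 1 ⟨le_rfl, by norm_num⟩)
  · exact hM t (cut_supp hη t h)

/-- the integrand -/
private noncomputable def FF (ψ : ℂ → ℝ) (A B : V → Mat) (T : V → V) (α : Fin 3 → V → ℂ)
    (η : ℝ → ℝ) (R : ℝ) (p : V) : ℂ :=
  ((ψ (p 0) * (deriv η (sig0 p / R) / R) : ℝ) : ℂ) * bdry0 T A B α p

private lemma FF_eq (ψ : ℂ → ℝ) (A B : V → Mat) (T : V → V) (α : Fin 3 → V → ℂ)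
    (η : ℝ → ℝ) (R : ℝ) {p : V} (h2 : p 2 ≠ 0) :
    FF ψ A B T α η R p = (ψ (p 0) : ℂ) *
      (((deriv η ((1 + normSq (p 1)) / (p 0).im / (normSq (p 2) * R)) /
        (R * normSq (p 2) ^ 2) : ℝ) : ℂ) * HH T A B α p) := by
  have hq : (normSq (p 2) : ℂ) ≠ 0 := by
    rw [Ne, Complex.ofReal_eq_zero, Complex.normSq_eq_zero]; exact h2
  have e : sig0 p / R = (1 + normSq (p 1)) / (p 0).im / (normSq (p 2) * R) := by
    rw [sig0, div_div, div_div, mul_assoc]
  rw [FF, e, HH]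
  push_cast
  rw [div_mul_eq_div_div _ (R : ℂ), mul_assoc]
  congr 1
  rw [← mul_assoc, div_mul_cancel₀ _ (pow_ne_zero 2 hq)]

private lemma FF_cont {ψ : ℂ → ℝ} (hψ : IsPsi ψ) {A B : V → Mat}
    (hA : ∀ j k, ContinuousOn (fun p => A p j k) U) (hB : ∀ j k, ContinuousOn (fun p => B p j k) U)
    {T : V → V} {α : Fin 3 → V → ℂ}
    (hmeas : ∀ k, ContinuousOn (pull01 T α k) {p | p ∈ U ∧ p 2 ≠ 0})
    {η : ℝ → ℝ} (hη : IsCut η) {R : ℝ} (hR : 0 < R) :
    ContinuousOn (FF ψ A B T α η R) {p | p ∈ U ∧ p 2 ≠ 0} := by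
  have hn : ∀ l, Continuous (fun p : V => normSq (p l)) := fun l =>
    Complex.continuous_normSq.comp (by fun_prop)
  refine ContinuousOn.congr (f := fun p => (ψ (p 0) : ℂ) *
      (((deriv η ((1 + normSq (p 1)) / (p 0).im / (normSq (p 2) * R)) /
        (R * normSq (p 2) ^ 2) : ℝ) : ℂ) * HH T A B α p)) ?_
    (fun p hp => FF_eq ψ A B T α η R hp.2)
  refine ContinuousOn.mul ?_ (ContinuousOn.mul ?_ (HH_cont hA hB hmeas))
  · exact (Complex.continuous_ofReal.comp
      (hψ.smooth.continuous.comp (by fun_prop : Continuous fun p : V => p 0))).continuousOn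
  · refine Complex.continuous_ofReal.comp_continuousOn (ContinuousOn.div ?_ ?_ ?_)
    · refine (cut_cont hη).comp_continuousOn (ContinuousOn.div (ContinuousOn.div ?_ ?_ ?_) ?_ ?_)
      · exact (continuous_const.add (hn 1)).continuousOn
      · exact Continuous.continuousOn (by fun_prop)
      · intro p hp; exact ne_of_gt hp.1
      · exact ((hn 2).mul continuous_const).continuousOn
      · intro p hp
        exact mul_ne_zero (fun h => hp.2 (Complex.normSq_eq_zero.1 h)) hR.ne'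
    · exact (continuous_const.mul ((hn 2).pow 2)).continuousOn
    · intro p hp
      exact mul_ne_zero hR.ne' (pow_ne_zero 2 (fun h => hp.2 (Complex.normSq_eq_zero.1 h)))

/-- integrability for `R > 0` -/
private lemma FF_int {ψ : ℂ → ℝ} (hψ : IsPsi ψ) {A B : V → Mat}
    (hA : ∀ j k, ContinuousOn (fun p => A p j k) U) (hB : ∀ j k, ContinuousOn (fun p => B p j k) U)
    {T : V → V} {α : Fin 3 → V → ℂ}
    (hmeas : ∀ k, ContinuousOn (pull01 T α k) {p | p ∈ U ∧ p 2 ≠ 0})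
    {η : ℝ → ℝ} (hη : IsCut η) {R : ℝ} (hR : 0 < R) {E : Set V} (hE : MeasurableSet E)
    (hEU : ∀ p ∈ E, p ∈ U ∧ p 2 ≠ 0 ∧ ‖p 1‖ ≤ 1) :
    IntegrableOn (FF ψ A B T α η R) E := by
  have hK : IsCompact (tsupport ψ) := hψ.cpt
  obtain ⟨Y, hY⟩ := hK.exists_bound_of_continuousOn (f := fun z : ℂ => z.im) (by fun_prop)
  obtain ⟨Y', hY'⟩ := hK.exists_bound_of_continuousOn (f := fun z : ℂ => (z.im)⁻¹) (by
    refine ContinuousOn.inv₀ (by fun_prop) ?_
    intro z hz
    exact ne_of_gt (hψ.supp hz))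
  set r₁ := Real.sqrt (1 / (|Y| + 1) / R) / 2 with hr₁
  set r₂ := Real.sqrt (2 * |Y'| / R) with hr₂
  have hr₁0 : 0 < r₁ := by
    have : 0 < Real.sqrt (1 / (|Y| + 1) / R) := Real.sqrt_pos.2 (by positivity)
    positivity
  -- the compact set
  have hc := isCompact_univ_pi (X := fun _ : Fin 3 => ℂ)
    (s := ![tsupport ψ, Metric.closedBall 0 1, Metric.closedBall 0 r₂ \ Metric.ball 0 r₁]) (by
      intro i; fin_cases i
      · exact hK
      · exact isCompact_closedBall _ _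
      · exact (isCompact_closedBall _ _).diff Metric.isOpen_ball)
  set Kc : Set V := Set.univ.pi
    ![tsupport ψ, Metric.closedBall 0 1, Metric.closedBall 0 r₂ \ Metric.ball 0 r₁] with hKc
  have hmem : ∀ p : V, p ∈ Kc ↔ p 0 ∈ tsupport ψ ∧ ‖p 1‖ ≤ 1 ∧ (‖p 2‖ ≤ r₂ ∧ r₁ ≤ ‖p 2‖) := by
    intro p
    simp [hKc, Set.mem_pi, Fin.forall_fin_succ]
  have h1 : IntegrableOn (FF ψ A B T α η R) Kc := by
    refine ContinuousOn.integrableOn_compact hc ((FF_cont hψ hA hB hmeas hη hR).mono ?_)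
    intro p hp
    rw [hmem] at hp
    refine ⟨hψ.supp hp.1, ?_⟩
    rw [← norm_pos_iff]
    linarith [hp.2.2.2]
  refine (h1.mono_set (Set.inter_subset_left (t := E))).of_forall_sdiff_eq_zero hE ?_
  rintro p ⟨hpE, hpn⟩
  obtain ⟨hpU, h2, ha⟩ := hEU p hpE
  by_cases h0 : p 0 ∈ tsupport ψ
  · have hd : deriv η (sig0 p / R) = 0 := by
      by_contra hne
      obtain ⟨a, b⟩ := cut_supp hη _ hne
      apply hpn
      refine ⟨(hmem p).2 ⟨h0, ha, ?_⟩, hpE⟩
      have e : sig0 p / R = (1 + normSq (p 1)) / (p 0).im / (‖p 2‖ ^ 2 * R) := by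
        rw [sig0, div_div, div_div, mul_assoc, Complex.normSq_eq_norm_sq (p 2)]
      rw [e] at a b
      have hy : 0 < (p 0).im := hpU
      have hns := Complex.normSq_nonneg (p 1)
      have hns' : normSq (p 1) ≤ 1 := by
        rw [Complex.normSq_eq_norm_sq]; nlinarith [norm_nonneg (p 1)]
      have hκ : 0 < (1 + normSq (p 1)) / (p 0).im := by positivity
      obtain ⟨c, d⟩ := supp_k hκ hR (norm_pos_iff.2 h2) a b
      have hy1 : (p 0).im ≤ |Y| + 1 := by
        have := hY _ h0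
        rw [Real.norm_of_nonneg hy.le] at this
        linarith [le_abs_self Y]
      have hy2 : ((p 0).im)⁻¹ ≤ |Y'| := by
        have := hY' _ h0
        rw [Real.norm_of_nonneg (by positivity)] at this
        linarith [le_abs_self Y']
      constructor
      · refine d.trans (Real.sqrt_le_sqrt ?_)
        apply div_le_div_of_nonneg_right _ hR.le
        rw [div_eq_mul_inv]
        exact mul_le_mul (by linarith) hy2 (by positivity) (by norm_num)
      · refine le_trans ?_ c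
        rw [hr₁]
        apply div_le_div_of_nonneg_right _ (by norm_num)
        apply Real.sqrt_le_sqrt
        apply div_le_div_of_nonneg_right _ hR.le
        rw [div_le_div_iff₀ (by positivity) hy]
        nlinarith
    rw [FF, hd]
    simp
  · rw [FF, image_eq_zero_of_notMem_tsupport h0]
    simp

/-- coordinates `(q, (z, a))` -/
private lemma integral_fibre {f : V → ℂ} (hf : Integrable f) :
    ∫ p, f p = ∫ w : Fin 2 → ℂ, ∫ q : ℂ, f ![w 0, w 1, q] ∧
      Integrable (fun w : Fin 2 → ℂ => ∫ q : ℂ, f ![w 0, w 1, q]) := by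
  have mp := (volume_preserving_piFinSuccAbove (fun _ : Fin 3 => ℂ) 2).symm
  have e : ∀ x : ℂ × (Fin 2 → ℂ), (MeasurableEquiv.piFinSuccAbove (fun _ : Fin 3 => ℂ) 2).symm x =
      ![x.2 0, x.2 1, x.1] := by
    rintro ⟨q, w⟩
    ext i
    fin_cases i
    · rfl
    · rfl
    · rfl
  have hi : Integrable (fun x : ℂ × (Fin 2 → ℂ) => f ![x.2 0, x.2 1, x.1])
      (volume.prod volume) := by
    have := (mp.integrable_comp_emb (MeasurableEquiv.measurableEmbedding _) (g := f)).2 hf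
    refine this.congr (Eventually.of_forall fun x => ?_)
    simp only [Function.comp, e]
  constructor
  · rw [← mp.integral_comp' f]
    simp only [e]
    exact integral_prod_symm _ hi
  · exact hi.integral_prod_right

/-- E2b: the limit in chart 0 or 1 (the open or closed polydisc in `p 1` makes no difference);
`A`, `B` continuous matrix functions. Rescale `q = q'/√R` and use dominated convergence. -/
theorem bdry0_tendsto {ψ : ℂ → ℝ} (hψ : IsPsi ψ) {A B : V → Mat}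
    (hA : ∀ j k, ContinuousOn (fun p => A p j k) U) (hB : ∀ j k, ContinuousOn (fun p => B p j k) U)
    {T : V → V} {α : Fin 3 → V → ℂ} (hα : TameAt T α)
    (hmeas : ∀ k, ContinuousOn (pull01 T α k) {p | p ∈ U ∧ p 2 ≠ 0})
    {η : ℝ → ℝ} (hη : IsCut η) {D : Set ℂ} (hD : D = {a | ‖a‖ ≤ 1} ∨ D = {a | ‖a‖ < 1}) :
    Tendsto (fun R : ℝ => ∫ p in {p | p ∈ U ∧ p 2 ≠ 0 ∧ p 1 ∈ D},
      ((ψ (p 0) * (deriv η (sig0 p / R) / R) : ℝ) : ℂ) * bdry0 T A B α p) atTop (𝓝 0) := by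
  have hD1 : ∀ a ∈ D, ‖a‖ ≤ 1 := by
    rcases hD with h | h
    · rw [h]; exact fun a ha => ha
    · rw [h]; exact fun a ha => le_of_lt ha
  have hDm : MeasurableSet D := by
    rcases hD with h | h
    · rw [h]; exact (isClosed_le continuous_norm continuous_const).measurableSet
    · rw [h]; exact (isOpen_lt continuous_norm continuous_const).measurableSet
  set E : Set V := {p | p ∈ U ∧ p 2 ≠ 0 ∧ p 1 ∈ D} with hE
  have hEm : MeasurableSet E := by
    refine isOpen_U.measurableSet.inter (MeasurableSet.inter ?_ ?_)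
    · exact (isOpen_ne_fun (by fun_prop) continuous_const).measurableSet
    · exact (measurable_pi_apply 1) hDm
  have hEU : ∀ p ∈ E, p ∈ U ∧ p 2 ≠ 0 ∧ ‖p 1‖ ≤ 1 := fun p hp => ⟨hp.1, hp.2.1, hD1 _ hp.2.2⟩
  obtain ⟨M, hM⟩ := cut_bdd hη
  have hM0 : 0 ≤ M := (abs_nonneg _).trans (hM 0)
  have hK : IsCompact (tsupport ψ) := hψ.cpt
  obtain ⟨P, hP⟩ := hψ.smooth.continuous.bounded_above_of_compact_support hψ.cpt
  have hP0 : 0 ≤ P := (norm_nonneg _).trans (hP 0)
  obtain ⟨Y, hY⟩ := hK.exists_bound_of_continuousOn (f := fun z : ℂ => z.im) (by fun_prop)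
  obtain ⟨Y', hY'⟩ := hK.exists_bound_of_continuousOn (f := fun z : ℂ => (z.im)⁻¹) (by
    refine ContinuousOn.inv₀ (by fun_prop) ?_
    intro z hz
    exact ne_of_gt (hψ.supp hz))
  obtain ⟨C, hC0, hC⟩ := HH_bound hA hB hα hK hψ.supp
  -- the integrand on the fibre
  set G : ℝ → (Fin 2 → ℂ) → ℂ := fun R w =>
    ∫ q : ℂ, E.indicator (FF ψ A B T α η R) ![w 0, w 1, q] with hG
  have hint : ∀ R : ℝ, 0 < R → Integrable (E.indicator (FF ψ A B T α η R)) := fun R hR =>
    (integrable_indicator_iff hEm).2 (FF_int hψ hA hB hmeas hη hR hEm hEU)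
  have hfib : ∀ R : ℝ, 0 < R → ∫ p in E, FF ψ A B T α η R p = ∫ w, G R w := by
    intro R hR
    rw [← integral_indicator hEm]
    exact (integral_fibre (hint R hR)).1
  -- fibre formula
  have hform : ∀ (R : ℝ) (w : Fin 2 → ℂ), 0 < (w 0).im → w 1 ∈ D →
      G R w = (ψ (w 0) : ℂ) * ∫ q : ℂ,
        ((deriv η ((1 + normSq (w 1)) / (w 0).im / (normSq q * R)) /
        (R * normSq q ^ 2) : ℝ) : ℂ) * HH T A B α ![w 0, w 1, q] := by
    intro R w hw hwD
    rw [← integral_const_mul]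
    refine integral_congr_ae (Eventually.of_forall fun q => ?_)
    show E.indicator (FF ψ A B T α η R) ![w 0, w 1, q] = _
    by_cases hq : q = 0
    · rw [Set.indicator_of_notMem (by rw [hE]; rintro ⟨-, h, -⟩; exact h hq)]
      simp [hq]
    · rw [Set.indicator_of_mem (show (![w 0, w 1, q] : V) ∈ E from ⟨hw, hq, hwD⟩)]
      exact FF_eq ψ A B T α η R (p := ![w 0, w 1, q]) hq
  have hform0 : ∀ (R : ℝ) (w : Fin 2 → ℂ), ¬ (w 0 ∈ tsupport ψ ∧ w 1 ∈ D) → G R w = 0 := by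
    intro R w hw
    rw [hG]
    simp only
    rw [integral_eq_zero_of_ae]
    refine Eventually.of_forall fun q => ?_
    show E.indicator (FF ψ A B T α η R) ![w 0, w 1, q] = 0
    by_cases hE' : (![w 0, w 1, q] : V) ∈ E
    · rw [Set.indicator_of_mem hE']
      have h0 : w 0 ∉ tsupport ψ := fun h => hw ⟨h, hE'.2.2⟩
      have : ψ ((![w 0, w 1, q] : V) 0) = 0 := image_eq_zero_of_notMem_tsupport h0
      rw [FF, this]
      simp
    · exact Set.indicator_of_notMem hE' _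
  have hcH : ∀ w : Fin 2 → ℂ, 0 < (w 0).im →
      ContinuousOn (fun q : ℂ => HH T A B α ![w 0, w 1, q]) {q | q ≠ 0} := by
    intro w hw
    exact (HH_cont hA hB hmeas).comp (vec_cont _ _).continuousOn (fun q hq => ⟨hw, hq⟩)
  -- pointwise limit
  have hlim : ∀ w : Fin 2 → ℂ, Tendsto (fun R => G R w) atTop (𝓝 0) := by
    intro w
    by_cases hw : w 0 ∈ tsupport ψ ∧ w 1 ∈ D
    · have hw0 : 0 < (w 0).im := hψ.supp hw.1
      have hκ : 0 < (1 + normSq (w 1)) / (w 0).im := by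
        have := Complex.normSq_nonneg (w 1); positivity
      have h1 := (radial_limit (hcH w hw0) (HH_mean hA hB hα hmeas hw0 (hD1 _ hw.2)) hκ
        (cut_cont hη) (cut_supp hη) hM).const_mul (ψ (w 0) : ℂ)
      rw [mul_zero] at h1
      refine h1.congr fun R => ?_
      rw [hform R w hw0 hw.2]
    · refine tendsto_const_nhds.congr fun R => ?_
      rw [hform0 R w hw]
  -- the bound
  set S : Set (Fin 2 → ℂ) := {w | w 0 ∈ tsupport ψ ∧ ‖w 1‖ ≤ 1} with hS
  have hSc : IsCompact S := by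
    have h := isCompact_univ_pi (X := fun _ : Fin 2 => ℂ)
      (s := ![tsupport ψ, Metric.closedBall 0 1]) (by
        intro i; fin_cases i
        · exact hK
        · exact isCompact_closedBall _ _)
    convert h using 1
    ext p
    simp [hS, Set.mem_pi, Fin.forall_fin_succ]
  have hbound : ∀ R : ℝ, 2 * |Y'| ≤ R → ∀ w, ‖G R w‖ ≤
      S.indicator (fun _ => P * (16 * Real.pi * M * C * |Y|)) w := by
    intro R hR w
    by_cases hw : w 0 ∈ tsupport ψ ∧ w 1 ∈ D
    · have hw0 : 0 < (w 0).im := hψ.supp hw.1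
      have hns := Complex.normSq_nonneg (w 1)
      have hw1 := hD1 _ hw.2
      have hns' : normSq (w 1) ≤ 1 := by
        rw [Complex.normSq_eq_norm_sq]; nlinarith [norm_nonneg (w 1)]
      have hκ : 0 < (1 + normSq (w 1)) / (w 0).im := by positivity
      have hy2 : ((w 0).im)⁻¹ ≤ |Y'| := by
        have := hY' _ hw.1
        rw [Real.norm_of_nonneg (by positivity)] at this
        linarith [le_abs_self Y']
      have hy1 : (w 0).im ≤ |Y| := by
        have := hY _ hw.1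
        rw [Real.norm_of_nonneg hw0.le] at this
        linarith [le_abs_self Y]
      have hκR : (1 + normSq (w 1)) / (w 0).im ≤ R := by
        refine le_trans ?_ hR
        rw [div_eq_mul_inv]
        exact mul_le_mul (by linarith) hy2 (by positivity) (by norm_num)
      rw [Set.indicator_of_mem (show w ∈ S from ⟨hw.1, hw1⟩), hform R w hw0 hw.2, norm_mul]
      have h1 := radial_bound (H := fun q => HH T A B α ![w 0, w 1, q]) hC0
        (fun q hq hq1 => (hC ![w 0, w 1, q] hw.1 hw1 hq hq1).1) hκ hκR (cut_supp hη) hM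
      refine mul_le_mul ?_ (h1.trans ?_) (norm_nonneg _) hP0
      · rw [Complex.norm_real]; exact hP _
      · rw [div_eq_mul_inv]
        refine mul_le_mul_of_nonneg_left ?_ (by positivity)
        rw [inv_div]
        rw [div_le_iff₀ (by positivity)]
        have := abs_nonneg Y
        nlinarith
    · rw [hform0 R w hw, norm_zero]
      exact Set.indicator_nonneg (fun _ _ => by positivity) _
  have hdom := tendsto_integral_filter_of_dominated_convergence (μ := volume) (F := G)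
    (f := fun _ => 0) (l := atTop)
    (S.indicator (fun _ => P * (16 * Real.pi * M * C * |Y|)))
    (by
      filter_upwards [eventually_gt_atTop (0 : ℝ)] with R hR
      exact (integral_fibre (hint R hR)).2.aestronglyMeasurable)
    (by
      filter_upwards [eventually_ge_atTop (2 * |Y'|)] with R hR
      exact Eventually.of_forall (hbound R hR))
    (by
      rw [integrable_indicator_iff hSc.measurableSet]
      exact integrableOn_const hSc.measure_lt_top.ne)
    (Eventually.of_forall hlim)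
  rw [integral_zero] at hdom
  refine hdom.congr' ?_
  filter_upwards [eventually_gt_atTop (0 : ℝ)] with R hR
  exact (hfib R hR).symm

/-! ### conclusion -/

private lemma pull01_cont {T : V → V} (hT : ContDiffOn ℂ ω T {p | p 2 ≠ 0})
    (hU : ∀ p, p ∈ U → T p ∈ U) {α : Fin 3 → V → ℂ} (hα : ∀ k, ContDiffOn ℝ 1 (α k) U)
    (k : Fin 3) : ContinuousOn (pull01 T α k) {p | p ∈ U ∧ p 2 ≠ 0} := by
  have ho : IsOpen {p : V | p 2 ≠ 0} := isOpen_ne_fun (by fun_prop) continuous_const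
  unfold pull01
  refine continuousOn_finsetSum _ fun m _ => ContinuousOn.mul ?_ ?_
  · refine Complex.continuous_conj.comp_continuousOn ?_
    have h1 : ContDiffOn ℝ ((1 : ℕ∞) : WithTop ℕ∞) (fun p' => T p' m) {p | p 2 ≠ 0} := by
      have h := (hT.restrict_scalars ℝ).of_le (m := ((1 : ℕ∞) : WithTop ℕ∞)) le_top
      exact (contDiffOn_pi.1 h) m
    have h2 := contDiffOn_dz (j := k) (a := 0) (b := 1) ho (by simp) h1
    exact h2.continuousOn.mono (fun p hp => hp.2)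
  · exact (hα m).continuousOn.comp (hT.continuousOn.mono (fun p hp => hp.2))
      (fun p hp => hU p hp.1)

private lemma sig_contDiffOn : ContDiffOn ℝ ((1 : ℕ∞) : WithTop ℕ∞) (fun p : V => (sig p : ℂ)) U := by
  have h1 : ContDiff ℝ ((1 : ℕ∞) : WithTop ℕ∞) (fun p : V => normSq (p 1) + normSq (p 2)) := by
    have : (fun p : V => normSq (p 1) + normSq (p 2)) =
        fun p : V => ((p 1).re ^ 2 + (p 1).im ^ 2) + ((p 2).re ^ 2 + (p 2).im ^ 2) := by
      funext p; simp only [Complex.normSq_apply]; ring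
    rw [this]
    have hre : ∀ l : Fin 3, ContDiff ℝ ((1 : ℕ∞) : WithTop ℕ∞) (fun p : V => (p l).re) := fun l =>
      Complex.reCLM.contDiff.comp (contDiff_apply ℝ ℂ l)
    have him : ∀ l : Fin 3, ContDiff ℝ ((1 : ℕ∞) : WithTop ℕ∞) (fun p : V => (p l).im) := fun l =>
      Complex.imCLM.contDiff.comp (contDiff_apply ℝ ℂ l)
    exact (((hre 1).pow 2).add ((him 1).pow 2)).add (((hre 2).pow 2).add ((him 2).pow 2))
  have h2 : ContDiff ℝ ((1 : ℕ∞) : WithTop ℕ∞) (fun p : V => (p 0).im) :=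
    Complex.imCLM.contDiff.comp (contDiff_apply ℝ ℂ 0)
  refine Complex.ofRealCLM.contDiff.comp_contDiffOn (f := fun p : V => sig p) ?_
  exact h1.contDiffOn.div h2.contDiffOn (fun p hp => ne_of_gt hp)

private lemma bdry_cont {W₂ W₃ : Fin 3 → V → Mat} (h2 : Form11 W₂)
    (h3 : Form11 W₃) {α : Fin 3 → V → ℂ} (hα : Form01 α) :
    ContinuousOn (bdry W₂ W₃ α) U := by
  unfold bdry
  refine continuousOn_finsetSum _ fun j _ => continuousOn_finsetSum _ fun k _ => ?_
  refine ContinuousOn.mul (ContinuousOn.mul ?_ ?_) (hα.smooth k).continuousOn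
  · exact (contDiffOn_dz (j := j) (a := 0) (b := 1) isOpen_U (by simp) sig_contDiffOn).continuousOn
  · exact cofm_cont (fun j k => (h2.smooth 2 j k).continuousOn)
      (fun j k => (h3.smooth 2 j k).continuousOn) j k

private lemma bdry_int {ψ : ℂ → ℝ} (hψ : IsPsi ψ) {W₂ W₃ : Fin 3 → V → Mat} (h2 : Form11 W₂)
    (h3 : Form11 W₃) {α : Fin 3 → V → ℂ} (hα : Form01 α) {η : ℝ → ℝ}
    (hη : IsCut η) {R : ℝ} (hR : 0 < R) :
    IntegrableOn (fun p => ((ψ (p 0) * (deriv η (sig p / R) / R) : ℝ) : ℂ) * bdry W₂ W₃ α p) U := by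
  have hK : IsCompact (tsupport ψ) := hψ.cpt
  obtain ⟨Y, hY⟩ := hK.exists_bound_of_continuousOn (f := fun z : ℂ => z.im) (by fun_prop)
  set r₂ := Real.sqrt (2 * R * |Y|) with hr₂
  have hc := isCompact_univ_pi (X := fun _ : Fin 3 => ℂ)
    (s := ![tsupport ψ, Metric.closedBall 0 r₂, Metric.closedBall 0 r₂]) (by
      intro i; fin_cases i
      · exact hK
      · exact isCompact_closedBall _ _
      · exact isCompact_closedBall _ _)
  set Kc : Set V := Set.univ.pi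
    ![tsupport ψ, Metric.closedBall 0 r₂, Metric.closedBall 0 r₂] with hKc
  have hmem : ∀ p : V, p ∈ Kc ↔ p 0 ∈ tsupport ψ ∧ ‖p 1‖ ≤ r₂ ∧ ‖p 2‖ ≤ r₂ := by
    intro p
    simp [hKc, Set.mem_pi, Fin.forall_fin_succ]
  have h1 : IntegrableOn (fun p => ((ψ (p 0) * (deriv η (sig p / R) / R) : ℝ) : ℂ) *
      bdry W₂ W₃ α p) Kc := by
    refine ContinuousOn.integrableOn_compact hc (ContinuousOn.mul ?_
      ((bdry_cont h2 h3 hα).mono ?_))
    · refine Complex.continuous_ofReal.comp_continuousOn (ContinuousOn.mul ?_ ?_)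
      · exact (hψ.smooth.continuous.comp (by fun_prop : Continuous fun p : V => p 0)).continuousOn
      · refine ContinuousOn.div_const ((cut_cont hη).comp_continuousOn (ContinuousOn.div_const ?_ _)) _
        have hs : ContinuousOn (fun p : V => sig p) U := by
          have := (Complex.continuous_re.comp_continuousOn sig_contDiffOn.continuousOn)
          exact this
        refine hs.mono ?_
        intro p hp
        exact hψ.supp ((hmem p).1 hp).1
    · intro p hp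
      exact hψ.supp ((hmem p).1 hp).1
  refine (h1.mono_set (Set.inter_subset_left (t := U))).of_forall_sdiff_eq_zero
    isOpen_U.measurableSet ?_
  rintro p ⟨hpU, hpn⟩
  have hy : 0 < (p 0).im := hpU
  by_cases h0 : p 0 ∈ tsupport ψ
  · have hd : deriv η (sig p / R) = 0 := by
      by_contra hne
      obtain ⟨a, b⟩ := cut_supp hη _ hne
      apply hpn
      have hy1 : (p 0).im ≤ |Y| := by
        have := hY _ h0
        rw [Real.norm_of_nonneg hy.le] at this
        linarith [le_abs_self Y]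
      rw [div_le_iff₀ hR, sig, div_le_iff₀ hy, Complex.normSq_eq_norm_sq,
        Complex.normSq_eq_norm_sq] at b
      have hb' : ‖p 1‖ ^ 2 + ‖p 2‖ ^ 2 ≤ 2 * R * |Y| := by nlinarith
      refine ⟨(hmem p).2 ⟨h0, ?_, ?_⟩, hpU⟩
      · apply Real.le_sqrt_of_sq_le; nlinarith [sq_nonneg ‖p 2‖]
      · apply Real.le_sqrt_of_sq_le; nlinarith [sq_nonneg ‖p 1‖]
    rw [hd]
    simp
  · rw [image_eq_zero_of_notMem_tsupport h0]
    simp

/-- E2: conclusion -/
theorem bdry_tendsto {ψ : ℂ → ℝ} (hψ : IsPsi ψ) {W₂ W₃ : Fin 3 → V → Mat} (h2 : Form11 W₂)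
    (h3 : Form11 W₃) {α : Fin 3 → V → ℂ} (hα : Form01 α) (ht : Tame α) {η : ℝ → ℝ}
    (hη : IsCut η) :
    Tendsto (fun R : ℝ => ∫ p in U, ((ψ (p 0) * (deriv η (sig p / R) / R) : ℝ) : ℂ) *
      bdry W₂ W₃ α p) atTop (𝓝 0) := by
  have hs2 : ∀ i j k, ContinuousOn (fun p => W₂ i p j k) U := fun i j k =>
    (h2.smooth i j k).continuousOn
  have hs3 : ∀ i j k, ContinuousOn (fun p => W₃ i p j k) U := fun i j k =>
    (h3.smooth i j k).continuousOn
  have t0 := bdry0_tendsto hψ (hs2 0) (hs3 0) ht.1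
    (pull01_cont T0_contDiffOn (fun p hp => T0_mem.2 hp) hα.smooth) hη
    (D := {a | ‖a‖ ≤ 1}) (Or.inl rfl)
  have t1 := bdry0_tendsto hψ (hs2 1) (hs3 1) ht.2
    (pull01_cont T1_contDiffOn (fun p hp => T1_mem.2 hp) hα.smooth) hη
    (D := {a | ‖a‖ < 1}) (Or.inr rfl)
  have t := t0.add t1
  rw [zero_add] at t
  refine t.congr' ?_
  filter_upwards [eventually_gt_atTop (0 : ℝ)] with R hR
  have c0 := bdry_change0 (ψ := ψ) h2 h3 α (fun s => deriv η (s / R) / R)
  have c1 := bdry_change1 (ψ := ψ) h2 h3 α (fun s => deriv η (s / R) / R)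
  have hi := bdry_int hψ h2 h3 hα hη hR
  rw [← c0, ← c1]
  set S₁ : Set V := {p | p ∈ U ∧ p 1 ≠ 0 ∧ ‖p 2‖ ≤ ‖p 1‖} with hS₁
  set S₂ : Set V := {p | p ∈ U ∧ ‖p 1‖ < ‖p 2‖} with hS₂
  have hm₂ : MeasurableSet S₂ :=
    isOpen_U.measurableSet.inter
      (isOpen_lt (f := fun p : V => ‖p 1‖) (g := fun p : V => ‖p 2‖) (by fun_prop)
        (by fun_prop)).measurableSet
  have hdisj : Disjoint S₁ S₂ := by
    rw [Set.disjoint_left]
    rintro p ⟨-, -, h⟩ ⟨-, h'⟩
    exact absurd h (not_le.2 h')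
  have hsub : S₁ ∪ S₂ ⊆ U := by
    rintro p (h | h)
    · exact h.1
    · exact h.1
  rw [← setIntegral_union hdisj hm₂ (hi.mono_set (Set.subset_union_left.trans hsub))
    (hi.mono_set (Set.subset_union_right.trans hsub))]
  symm
  refine setIntegral_eq_of_subset_of_forall_sdiff_eq_zero isOpen_U.measurableSet hsub ?_
  rintro p ⟨hpU, hpn⟩
  have hz : p 1 = 0 ∧ p 2 = 0 := by
    by_cases h1 : p 1 = 0
    · refine ⟨h1, ?_⟩
      by_contra h2'
      apply hpn
      right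
      refine ⟨hpU, ?_⟩
      rw [h1, norm_zero]
      exact norm_pos_iff.2 h2'
    · exfalso
      apply hpn
      rcases le_or_gt ‖p 2‖ ‖p 1‖ with h | h
      · exact Or.inl ⟨hpU, h1, h⟩
      · exact Or.inr ⟨hpU, h⟩
  have hsig : sig p = 0 := by
    rw [sig, hz.1, hz.2]; simp
  have hd : deriv η (sig p / R) = 0 := by
    by_contra hne
    have := (cut_supp hη _ hne).1
    rw [hsig, zero_div] at this
    linarith
  rw [hd]
  simp

end Pool.Agent.KG
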