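import Mathlib
import Pool.Agent.KG.Maps
import Pool.Agent.KG.Alg

/-! # Module A4: global forms -/

open scoped ContDiff ComplexConjugate ComplexOrder Matrix Topology MatrixGroups
open Complex MeasureTheory Filter

namespace Pool.Agent.KG

namespace FormsAux

/-! ### auxiliary facts -/

lemma two_le_infty : (2 : WithTop ℕ∞) ≤ ∞ :=
  WithTop.coe_le_coe.mpr (show (2 : ℕ∞) ≤ ⊤ from le_top)

lemma three_le_infty : (3 : WithTop ℕ∞) ≤ ∞ :=
  WithTop.coe_le_coe.mpr (show (3 : ℕ∞) ≤ ⊤ from le_top)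

lemma tendsto_line (p : V) :
    Tendsto (fun t : ℂ => p + Pi.single (2 : Fin 3) t) (𝓝[≠] 0) (𝓝 p) := by
  have h : Continuous (fun t : ℂ => p + Pi.single (2 : Fin 3) t) := by
    refine continuous_const.add ?_
    exact continuous_pi (fun i => by
      by_cases hi : i = 2
      · subst hi; simpa using continuous_id'
      · simpa [Pi.single_eq_of_ne hi] using continuous_const)
  have h' := h.tendsto 0
  simp only [Pi.single_zero, add_zero] at h'
  exact h'.mono_left nhdsWithin_le_nhds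

/-- two functions continuous on `U` which agree off `q = 0` agree -/
lemma eq_of_dense {F G : V → ℂ} (hF : ContinuousOn F U) (hG : ContinuousOn G U)
    (h : ∀ p ∈ U, p 2 ≠ 0 → F p = G p) : ∀ p ∈ U, F p = G p := by
  intro p hp
  by_cases h2 : p 2 = 0
  · have hU : U ∈ 𝓝 p := isOpen_U.mem_nhds hp
    have hl := tendsto_line p
    have h1 := ((hF.continuousAt hU).tendsto).comp hl
    have h3 := ((hG.continuousAt hU).tendsto).comp hl
    refine tendsto_nhds_unique_of_eventuallyEq h1 h3 ?_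
    have hev : ∀ᶠ t : ℂ in 𝓝[≠] 0, p + Pi.single (2 : Fin 3) t ∈ U := hl.eventually hU
    filter_upwards [hev, self_mem_nhdsWithin] with t ht ht0
    refine h _ ht ?_
    simpa [h2] using ht0
  · exact h p hp h2

lemma isOpen_Uq : IsOpen {p : V | p ∈ U ∧ p 2 ≠ 0} := by
  refine isOpen_U.inter ?_
  exact isOpen_ne_fun (continuous_apply 2) continuous_const

lemma pull_add {n : ℕ} (T : (Fin n → ℂ) → Fin n → ℂ) (h h' : (Fin n → ℂ) → Matrix (Fin n) (Fin n) ℂ)
    (p : Fin n → ℂ) : pull T (fun w => h w + h' w) p = pull T h p + pull T h' p := by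
  rw [pull_eq, pull_eq, pull_eq, Matrix.mul_add, Matrix.add_mul]

lemma pull_smul {n : ℕ} (c : ℂ) (T : (Fin n → ℂ) → Fin n → ℂ)
    (h : (Fin n → ℂ) → Matrix (Fin n) (Fin n) ℂ)
    (p : Fin n → ℂ) : pull T (fun w => c • h w) p = c • pull T h p := by
  rw [pull_eq, pull_eq, Matrix.mul_smul, Matrix.smul_mul]

/-- `pull` only sees the value of the form at the image point -/
lemma pull_val {n : ℕ} (T : (Fin n → ℂ) → Fin n → ℂ) {h h' : (Fin n → ℂ) → Matrix (Fin n) (Fin n) ℂ}
    {p : Fin n → ℂ} (e : h (T p) = h' (T p)) : pull T h p = pull T h' p := by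
  rw [pull_eq, pull_eq, e]

lemma real_smul_herm {A : Mat} (hA : A.IsHermitian) (c : ℝ) : ((c : ℂ) • A).IsHermitian := by
  unfold Matrix.IsHermitian
  rw [Matrix.conjTranspose_smul, hA.eq]
  simp

lemma contDiffOn_coord (i : Fin 3) (s : Set V) : ContDiffOn ℝ ∞ (fun p : V => p i) s :=
  (contDiff_apply ℝ ℂ i).contDiffOn

/-- the swap of the fibre coordinates -/
noncomputable def swp (p : V) : V := ![p 0, p 2, p 1]

lemma swp_mem {p : V} : swp p ∈ U ↔ p ∈ U := by
  simp [swp, U]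

lemma swp_holo (p : V) : DifferentiableAt ℂ swp p := by
  unfold swp
  rw [differentiableAt_pi]
  intro i
  fin_cases i
  · simpa using (differentiableAt_apply (𝕜 := ℂ) (0 : Fin 3) p)
  · simpa using (differentiableAt_apply (𝕜 := ℂ) (2 : Fin 3) p)
  · simpa using (differentiableAt_apply (𝕜 := ℂ) (1 : Fin 3) p)

lemma swp_contDiff : ContDiff ℝ ∞ swp := by
  unfold swp
  rw [contDiff_pi]
  intro i
  fin_cases i
  · simpa using (contDiff_apply ℝ ℂ (0 : Fin 3) (n := ∞))
  · simpa using (contDiff_apply ℝ ℂ (2 : Fin 3) (n := ∞))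
  · simpa using (contDiff_apply ℝ ℂ (1 : Fin 3) (n := ∞))

lemma Jac_swp (p : V) : Jac swp p = !![1, 0, 0; 0, 0, 1; 0, 1, 0] := by
  ext j l
  unfold Jac
  fin_cases l <;> fin_cases j <;> simp [swp, dz_coord]

lemma pull_swp (h : V → Mat) (p : V) :
    pull swp h p = (h (swp p)).submatrix (Equiv.swap 1 2) (Equiv.swap 1 2) := by
  rw [pull_eq, Jac_swp]
  ext j k
  fin_cases j <;> fin_cases k <;>
    simp [Matrix.mul_apply, Fin.sum_univ_three, Matrix.conjTranspose_apply,
      Equiv.swap_apply_def, Matrix.vecMul, dotProduct]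

lemma Jac_contDiffOn {T : V → V} {s : Set V} (hs : IsOpen s) (hT : ContDiffOn ℂ ω T s)
    (j l : Fin 3) : ContDiffOn ℝ ∞ (fun p => Jac T p j l) s := by
  have h1 : ContDiffOn ℝ ω T s := hT.restrict_scalars ℝ
  have h2 : ContDiffOn ℝ ∞ T s := h1.of_le (by exact_mod_cast le_top)
  have h3 : ContDiffOn ℝ ∞ (fun p => T p l) s := (contDiffOn_pi.mp h2) l
  exact contDiffOn_dz (a := ⊤) (b := ⊤) hs (by simp) h3

lemma pull_contDiffOn {T : V → V} {s t : Set V} (hs : IsOpen s) (hT : ContDiffOn ℂ ω T s)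
    (hst : Set.MapsTo T s t) {h : V → Mat} (hh : ∀ j k, ContDiffOn ℝ ∞ (fun p => h p j k) t)
    (j k : Fin 3) : ContDiffOn ℝ ∞ (fun p => pull T h p j k) s := by
  have h1 : ContDiffOn ℝ ω T s := hT.restrict_scalars ℝ
  have h2 : ContDiffOn ℝ ∞ T s := h1.of_le (by exact_mod_cast le_top)
  have e : (fun p => pull T h p j k) = fun p => ∑ l, ∑ m,
      Jac T p j l * conj (Jac T p k m) * h (T p) l m := rfl
  rw [e]
  refine ContDiffOn.sum fun l _ => ContDiffOn.sum fun m _ => ?_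
  refine ContDiffOn.mul (ContDiffOn.mul (Jac_contDiffOn hs hT j l) ?_) ?_
  · exact (Complex.conjCLE.contDiff.comp_contDiffOn (Jac_contDiffOn hs hT k m))
  · exact (hh l m).comp h2 hst

end FormsAux

open FormsAux

namespace Form11
variable {W W' : Fin 3 → V → Mat}

lemma fa_cdAt (hW : Form11 W) (i j k : Fin 3) {p : V} (hp : p ∈ U) :
    ContDiffAt ℝ ∞ (fun p => W i p j k) p :=
  (hW.smooth i j k).contDiffAt (isOpen_U.mem_nhds hp)

lemma fa_diffAt (hW : Form11 W) (i j k : Fin 3) {p : V} (hp : p ∈ U) :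
    DifferentiableAt ℝ (fun p => W i p j k) p :=
  (hW.fa_cdAt i j k hp).differentiableAt (by simp)

lemma fa_equiv_aux (hW : Form11 W) {i : Fin 3} {T : V → V}
    (hT : ∀ {p : V}, p 2 ≠ 0 → DifferentiableAt ℂ T p) (hTU : ∀ {p : V}, T p ∈ U ↔ p ∈ U)
    (hact : ∀ (γ : SL(2, ℝ)) {p : V}, p ∈ U → p 2 ≠ 0 → T (act0 γ p) = act2 γ (T p))
    (hpull : ∀ p ∈ U, p 2 ≠ 0 → W i p = pull T (W 2) p) {γ : SL(2, ℝ)} (hγ : γ ∈ Gp) :
    ∀ p ∈ U, W i p = pull (act0 γ) (W i) p := by
  have key : ∀ p ∈ U, p 2 ≠ 0 → W i p = pull (act0 γ) (W i) p := by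
    intro p hp h2
    have hp' : act0 γ p ∈ U := act0_mem γ hp
    have h2' : (act0 γ p) 2 ≠ 0 := by
      have : (act0 γ p) 2 = den γ (p 0) * p 2 := rfl
      rw [this]
      exact mul_ne_zero (den_ne hp) h2
    have e1 : pull (act0 γ) (W i) p = pull (act0 γ) (fun w => pull T (W 2) w) p :=
      pull_val _ (hpull _ hp' h2')
    rw [e1, ← pull_comp (act0_holo γ hp) (hT h2')]
    have hev : (fun w => T (act0 γ w)) =ᶠ[𝓝 p] (fun w => act2 γ (T w)) := by
      filter_upwards [isOpen_Uq.mem_nhds (show p ∈ {p : V | p ∈ U ∧ p 2 ≠ 0} from ⟨hp, h2⟩)]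
        with w hw
      exact hact γ hw.1 hw.2
    rw [pull_congr hev, pull_comp (hT h2) (act2_holo γ (hTU.mpr hp)), hpull p hp h2]
    exact pull_val _ (hW.equiv γ hγ _ (hTU.mpr hp))
  intro p hp
  ext j k
  refine eq_of_dense (F := fun p => W i p j k) (G := fun p => pull (act0 γ) (W i) p j k)
    (hW.smooth i j k).continuousOn
    (pull_contDiffOn isOpen_U (act0_contDiffOn γ) (fun q hq => act0_mem γ hq)
      (hW.smooth i) j k).continuousOn ?_ p hp
  intro q hq hq2
  exact congrFun (congrFun (key q hq hq2) j) k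

/-- equivariance in all charts -/
lemma equiv_act (hW : Form11 W) (i : Fin 3) {γ : SL(2, ℝ)} (hγ : γ ∈ Gp) {p : V} (hp : p ∈ U) :
    W i p = pull (act i γ) (W i) p := by
  fin_cases i
  · exact hW.fa_equiv_aux (i := 0) T0_holo T0_mem T0_act0 hW.pull0 hγ p hp
  · exact hW.fa_equiv_aux (i := 1) T1_holo T1_mem T1_act0 hW.pull1 hγ p hp
  · exact hW.equiv γ hγ p hp

lemma add (hW : Form11 W) (hW' : Form11 W') : Form11 (fun i p => W i p + W' i p) where
  smooth i j k := (hW.smooth i j k).add (hW'.smooth i j k)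
  herm i p hp := (hW.herm i p hp).add (hW'.herm i p hp)
  pull0 p hp h2 := by
    show W 0 p + W' 0 p = pull T0 (fun w => W 2 w + W' 2 w) p
    rw [pull_add, hW.pull0 p hp h2, hW'.pull0 p hp h2]
  pull1 p hp h2 := by
    show W 1 p + W' 1 p = pull T1 (fun w => W 2 w + W' 2 w) p
    rw [pull_add, hW.pull1 p hp h2, hW'.pull1 p hp h2]
  equiv γ hγ p hp := by
    show W 2 p + W' 2 p = pull (act2 γ) (fun w => W 2 w + W' 2 w) p
    rw [pull_add, ← hW.equiv γ hγ p hp, ← hW'.equiv γ hγ p hp]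

lemma smul (c : ℝ) (hW : Form11 W) : Form11 (fun i p => (c : ℂ) • W i p) where
  smooth i j k := contDiffOn_const.mul (hW.smooth i j k)
  herm i p hp := real_smul_herm (hW.herm i p hp) c
  pull0 p hp h2 := by
    show (c : ℂ) • W 0 p = pull T0 (fun w => (c : ℂ) • W 2 w) p
    rw [pull_smul, hW.pull0 p hp h2]
  pull1 p hp h2 := by
    show (c : ℂ) • W 1 p = pull T1 (fun w => (c : ℂ) • W 2 w) p
    rw [pull_smul, hW.pull1 p hp h2]
  equiv γ hγ p hp := by
    show (c : ℂ) • W 2 p = pull (act2 γ) (fun w => (c : ℂ) • W 2 w) p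
    rw [pull_smul, ← hW.equiv γ hγ p hp]

/-- swapping the two fibre coordinates -/
lemma swap (hW : Form11 W) : Form11 (fun i p =>
    if i = 2 then ((W 2 ![p 0, p 2, p 1]).submatrix (Equiv.swap 1 2) (Equiv.swap 1 2))
    else W (if i = 0 then 1 else 0) p) := by
  have e2 : (fun p : V => (W 2 ![p 0, p 2, p 1]).submatrix (Equiv.swap 1 2) (Equiv.swap 1 2)) =
      fun p => pull swp (W 2) p := by
    funext p; rw [pull_swp]; rfl
  have e2' : ∀ p : V, (W 2 ![p 0, p 2, p 1]).submatrix (Equiv.swap 1 2) (Equiv.swap 1 2) =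
      pull swp (W 2) p := fun p => congrFun e2 p
  have sT0 : ∀ p : V, swp (T0 p) = T1 p := fun p => rfl
  have sT1 : ∀ p : V, swp (T1 p) = T0 p := fun p => rfl
  have sact : ∀ (γ : SL(2, ℝ)) (p : V), swp (act2 γ p) = act2 γ (swp p) := fun γ p => rfl
  constructor
  · intro i j k
    fin_cases i
    · exact hW.smooth 1 j k
    · exact hW.smooth 0 j k
    · show ContDiffOn ℝ ∞ (fun p : V => W 2 (swp p) (Equiv.swap 1 2 j) (Equiv.swap 1 2 k)) U
      exact (hW.smooth 2 _ _).comp swp_contDiff.contDiffOn (fun q hq => swp_mem.mpr hq)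
  · intro i p hp
    fin_cases i
    · exact hW.herm 1 p hp
    · exact hW.herm 0 p hp
    · exact (hW.herm 2 (swp p) (swp_mem.mpr hp)).submatrix _
  · intro p hp h2
    show W 1 p = pull T0
      (fun p : V => (W 2 ![p 0, p 2, p 1]).submatrix (Equiv.swap 1 2) (Equiv.swap 1 2)) p
    rw [e2, ← pull_comp (T0_holo h2) (swp_holo _), hW.pull1 p hp h2]
    rfl
  · intro p hp h2
    show W 0 p = pull T1
      (fun p : V => (W 2 ![p 0, p 2, p 1]).submatrix (Equiv.swap 1 2) (Equiv.swap 1 2)) p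
    rw [e2, ← pull_comp (T1_holo h2) (swp_holo _), hW.pull0 p hp h2]
    rfl
  · intro γ hγ p hp
    show (W 2 ![p 0, p 2, p 1]).submatrix (Equiv.swap 1 2) (Equiv.swap 1 2) = pull (act2 γ)
      (fun p : V => (W 2 ![p 0, p 2, p 1]).submatrix (Equiv.swap 1 2) (Equiv.swap 1 2)) p
    rw [e2, e2', ← pull_comp (act2_holo γ hp) (swp_holo _)]
    have : (fun w => swp (act2 γ w)) = fun w => act2 γ (swp w) := rfl
    rw [this, pull_comp (swp_holo _) (act2_holo γ (swp_mem.mpr hp))]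
    exact pull_val _ (hW.equiv γ hγ _ (swp_mem.mpr hp))

end Form11

lemma Closed.add {W W' : Fin 3 → V → Mat} (hW : Form11 W) (hW' : Form11 W') (h : Closed W)
    (h' : Closed W') : Closed (fun i p => W i p + W' i p) := by
  intro i p hp a j k
  show dz a (fun p => W i p j k + W' i p j k) p = dz j (fun p => W i p a k + W' i p a k) p
  rw [dz_add (hW.fa_diffAt i j k hp) (hW'.fa_diffAt i j k hp),
    dz_add (hW.fa_diffAt i a k hp) (hW'.fa_diffAt i a k hp), h i p hp a j k, h' i p hp a j k]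

lemma Closed.smul {W : Fin 3 → V → Mat} (c : ℝ) (hW : Form11 W) (h : Closed W) :
    Closed (fun i p => (c : ℂ) • W i p) := by
  intro i p hp a j k
  show dz a (fun p => (c : ℂ) * W i p j k) p = dz j (fun p => (c : ℂ) * W i p a k) p
  rw [dz_mul (differentiableAt_const _) (hW.fa_diffAt i j k hp),
    dz_mul (differentiableAt_const _) (hW.fa_diffAt i a k hp), h i p hp a j k, dz_const, dz_const]
  ring

lemma FormsAux.closed_aux {W : Fin 3 → V → Mat} (hW : Form11 W) {i : Fin 3} {T : V → V}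
    (hT : ContDiffOn ℂ ω T {p | p 2 ≠ 0}) (hTU : ∀ {p : V}, T p ∈ U ↔ p ∈ U)
    (hpull : ∀ p ∈ U, p 2 ≠ 0 → W i p = pull T (W 2) p)
    (h : ∀ p ∈ U, ∀ a j k, dz a (fun p => W 2 p j k) p = dz j (fun p => W 2 p a k) p) :
    ∀ p ∈ U, ∀ a j k, dz a (fun p => W i p j k) p = dz j (fun p => W i p a k) p := by
  intro p hp a j k
  refine eq_of_dense (F := fun p => dz a (fun p => W i p j k) p)
    (G := fun p => dz j (fun p => W i p a k) p)
    (contDiffOn_dz (a := ⊤) (b := ⊤) isOpen_U (by simp) (hW.smooth i j k)).continuousOn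
    (contDiffOn_dz (a := ⊤) (b := ⊤) isOpen_U (by simp) (hW.smooth i a k)).continuousOn ?_ p hp
  intro q hq hq2
  have hmem : q ∈ {p : V | p ∈ U ∧ p 2 ≠ 0} := ⟨hq, hq2⟩
  have hev : ∀ᶠ w in 𝓝 q, W i w = pull T (W 2) w := by
    filter_upwards [isOpen_Uq.mem_nhds hmem] with w hw
    exact hpull w hw.1 hw.2
  have h1 : dz a (fun p => W i p j k) q = dz a (fun p => pull T (W 2) p j k) q :=
    dz_congr (hev.mono fun w hw => by simp only [hw])
  have h2 : dz j (fun p => W i p a k) q = dz j (fun p => pull T (W 2) p a k) q :=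
    dz_congr (hev.mono fun w hw => by simp only [hw])
  show dz a (fun p => W i p j k) q = dz j (fun p => W i p a k) q
  rw [h1, h2]
  exact closed_pull isOpen_Uq isOpen_U
    ((hT.of_le le_top).mono (fun w hw => hw.2)) (fun w hw => hTU.mpr hw.1)
    (fun j k => (hW.smooth 2 j k).of_le (by exact_mod_cast le_top)) h q hmem a j k

/-- closedness in chart 2 suffices -/
lemma closed_of_chart2 {W : Fin 3 → V → Mat} (hW : Form11 W)
    (h : ∀ p ∈ U, ∀ a j k, dz a (fun p => W 2 p j k) p = dz j (fun p => W 2 p a k) p) :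
    Closed W := by
  intro i
  fin_cases i
  · exact closed_aux (i := 0) hW T0_contDiffOn T0_mem hW.pull0 h
  · exact closed_aux (i := 1) hW T1_contDiffOn T1_mem hW.pull1 h
  · exact h

/-- `∑_j ∂_j C_{jk} = 0` -/
lemma div_cofm {A B : V → Mat} {p : V} (hA : ∀ j k, DifferentiableAt ℝ (fun w => A w j k) p)
    (hB : ∀ j k, DifferentiableAt ℝ (fun w => B w j k) p)
    (cA : ∀ a j k, dz a (fun w => A w j k) p = dz j (fun w => A w a k) p)
    (cB : ∀ a j k, dz a (fun w => B w j k) p = dz j (fun w => B w a k) p) (k : Fin 3) :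
    ∑ j, dz j (fun w => cofm (A w) (B w) j k) p = 0 := by
  have key : ∀ j : Fin 3, dz j (fun w => cofm (A w) (B w) j k) p =
      (dz j (fun w => A w (j + 1) (k + 1)) p * B p (j + 2) (k + 2) +
        A p (j + 1) (k + 1) * dz j (fun w => B w (j + 2) (k + 2)) p) +
      (dz j (fun w => A w (j + 2) (k + 2)) p * B p (j + 1) (k + 1) +
        A p (j + 2) (k + 2) * dz j (fun w => B w (j + 1) (k + 1)) p) -
      (dz j (fun w => A w (j + 1) (k + 2)) p * B p (j + 2) (k + 1) +
        A p (j + 1) (k + 2) * dz j (fun w => B w (j + 2) (k + 1)) p) -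
      (dz j (fun w => A w (j + 2) (k + 1)) p * B p (j + 1) (k + 2) +
        A p (j + 2) (k + 1) * dz j (fun w => B w (j + 1) (k + 2)) p) := by
    intro j
    unfold cofm
    have m1 : DifferentiableAt ℝ (fun w => A w (j + 1) (k + 1) * B w (j + 2) (k + 2)) p :=
      (hA _ _).mul (hB _ _)
    have m2 : DifferentiableAt ℝ (fun w => A w (j + 2) (k + 2) * B w (j + 1) (k + 1)) p :=
      (hA _ _).mul (hB _ _)
    have m3 : DifferentiableAt ℝ (fun w => A w (j + 1) (k + 2) * B w (j + 2) (k + 1)) p :=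
      (hA _ _).mul (hB _ _)
    have m4 : DifferentiableAt ℝ (fun w => A w (j + 2) (k + 1) * B w (j + 1) (k + 2)) p :=
      (hA _ _).mul (hB _ _)
    rw [dz_sub (f := fun w => A w (j + 1) (k + 1) * B w (j + 2) (k + 2) +
        A w (j + 2) (k + 2) * B w (j + 1) (k + 1) - A w (j + 1) (k + 2) * B w (j + 2) (k + 1))
        ((m1.add m2).sub m3) m4,
      dz_sub (f := fun w => A w (j + 1) (k + 1) * B w (j + 2) (k + 2) +
        A w (j + 2) (k + 2) * B w (j + 1) (k + 1)) (m1.add m2) m3, dz_add m1 m2,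
      dz_mul (hA _ _) (hB _ _), dz_mul (hA _ _) (hB _ _), dz_mul (hA _ _) (hB _ _),
      dz_mul (hA _ _) (hB _ _)]
  rw [Fin.sum_univ_three, key, key, key]
  have a1 : ((0 : Fin 3) + 1) = 1 := rfl
  have a2 : ((0 : Fin 3) + 2) = 2 := rfl
  have a3 : ((1 : Fin 3) + 1) = 2 := rfl
  have a4 : ((1 : Fin 3) + 2) = 0 := rfl
  have a5 : ((2 : Fin 3) + 1) = 0 := rfl
  have a6 : ((2 : Fin 3) + 2) = 1 := rfl
  rw [a1, a2, a3, a4, a5, a6]
  rw [cA 1 0, cA 1 0, cA 2 0, cA 2 0, cA 2 1, cA 2 1, cB 1 0, cB 1 0, cB 2 0, cB 2 0, cB 2 1,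
    cB 2 1]
  ring

/-! ### Hessians of global functions -/

lemma Fun0.fa_cdAt {h : Fin 3 → V → ℝ} (hh : Fun0 h) (i : Fin 3) {p : V} (hp : p ∈ U) :
    ContDiffAt ℝ ∞ (h i) p := (hh.smooth i).contDiffAt (isOpen_U.mem_nhds hp)

/-- the Hessian of a global function is a closed global form -/
lemma Fun0.hess_form11 {h : Fin 3 → V → ℝ} (hh : Fun0 h) : Form11 (fun i p => hess (h i) p) where
  smooth i j k := by
    have h1 : ContDiffOn ℝ ∞ (fun w => (h i w : ℂ)) U :=
      Complex.ofRealCLM.contDiff.comp_contDiffOn (hh.smooth i)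
    have h2 : ContDiffOn ℝ ∞ (fun w => dzb k (fun w => (h i w : ℂ)) w) U :=
      contDiffOn_dzb (a := ⊤) (b := ⊤) isOpen_U (by simp) h1
    exact contDiffOn_dz (a := ⊤) (b := ⊤) isOpen_U (by simp) h2
  herm i p hp := hess_herm ((hh.fa_cdAt i hp).of_le two_le_infty)
  pull0 p hp h2 := by
    have hmem : p ∈ {p : V | p ∈ U ∧ p 2 ≠ 0} := ⟨hp, h2⟩
    have hev : h 0 =ᶠ[𝓝 p] fun w => h 2 (T0 w) := by
      filter_upwards [isOpen_Uq.mem_nhds hmem] with w hw
      exact hh.pull0 w hw.1 hw.2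
    have hev2 : ContDiffAt ℂ 2 T0 p :=
      ((T0_contDiffOn.mono (fun w hw => hw.2)).contDiffAt (isOpen_Uq.mem_nhds hmem)).of_le le_top
    show hess (h 0) p = pull T0 (fun w => hess (h 2) w) p
    rw [hess_congr hev]
    exact hess_comp hev2 ((hh.fa_cdAt 2 (T0_mem.mpr hp)).of_le two_le_infty)
  pull1 p hp h2 := by
    have hmem : p ∈ {p : V | p ∈ U ∧ p 2 ≠ 0} := ⟨hp, h2⟩
    have hev : h 1 =ᶠ[𝓝 p] fun w => h 2 (T1 w) := by
      filter_upwards [isOpen_Uq.mem_nhds hmem] with w hw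
      exact hh.pull1 w hw.1 hw.2
    have hev2 : ContDiffAt ℂ 2 T1 p :=
      ((T1_contDiffOn.mono (fun w hw => hw.2)).contDiffAt (isOpen_Uq.mem_nhds hmem)).of_le le_top
    show hess (h 1) p = pull T1 (fun w => hess (h 2) w) p
    rw [hess_congr hev]
    exact hess_comp hev2 ((hh.fa_cdAt 2 (T1_mem.mpr hp)).of_le two_le_infty)
  equiv γ hγ p hp := by
    have hev : h 2 =ᶠ[𝓝 p] fun w => h 2 (act2 γ w) := by
      filter_upwards [isOpen_U.mem_nhds hp] with w hw
      exact hh.equiv γ hγ w hw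
    have hev2 : ContDiffAt ℂ 2 (act2 γ) p :=
      ((act2_contDiffOn γ).contDiffAt (isOpen_U.mem_nhds hp)).of_le le_top
    show hess (h 2) p = pull (act2 γ) (fun w => hess (h 2) w) p
    rw [hess_congr hev]
    exact hess_comp hev2 ((hh.fa_cdAt 2 (act2_mem γ hp)).of_le two_le_infty)

lemma Fun0.hess_closed {h : Fin 3 → V → ℝ} (hh : Fun0 h) : Closed (fun i p => hess (h i) p) := by
  intro i p hp a j k
  exact Pool.Agent.KG.hess_closed ((hh.fa_cdAt i hp).of_le three_le_infty) a j k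

/-! ### the part pulled back from `Z` -/

/-- projection to `Z = {u = 0}` -/
noncomputable def FormsAux.prz (p : V) : V := ![p 0, 0, 0]

lemma FormsAux.prz_mem {p : V} : prz p ∈ U ↔ p ∈ U := by
  simp [prz, U]

lemma FormsAux.prz_contDiff : ContDiff ℝ ∞ prz := by
  unfold prz
  rw [contDiff_pi]
  intro i
  fin_cases i
  · simpa using (contDiff_apply ℝ ℂ (0 : Fin 3) (n := ∞))
  · simpa using (contDiff_const (n := ∞) (c := (0 : ℂ)))
  · simpa using (contDiff_const (n := ∞) (c := (0 : ℂ)))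

lemma FormsAux.pull_single {T : V → V} {h : V → Mat} {p : V} {c : ℂ}
    (e : h (T p) = Matrix.single 0 0 c) (j k : Fin 3) :
    pull T h p j k = Jac T p j 0 * conj (Jac T p k 0) * c := by
  have : pull T h p j k = ∑ l, ∑ m, Jac T p j l * conj (Jac T p k m) * h (T p) l m := rfl
  rw [this, e]
  simp [Fin.sum_univ_three, Matrix.single_apply]

lemma zpart_form11 {W : Fin 3 → V → Mat} (hW : Form11 W) : Form11 (zpart W) where
  smooth i j k := by
    show ContDiffOn ℝ ∞ (fun p => (Matrix.single 0 0 (W 2 (prz p) 0 0) : Mat) j k) U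
    have h1 : ContDiffOn ℝ ∞ (fun p => W 2 (prz p) 0 0) U :=
      (hW.smooth 2 0 0).comp prz_contDiff.contDiffOn (fun q hq => prz_mem.mpr hq)
    by_cases hjk : 0 = j ∧ 0 = k
    · obtain ⟨rfl, rfl⟩ := hjk
      simpa using h1
    · have : (fun p => (Matrix.single 0 0 (W 2 (prz p) 0 0) : Mat) j k) = fun _ => 0 := by
        funext p; rw [Matrix.single_apply, if_neg hjk]
      rw [this]
      exact contDiffOn_const
  herm i p hp := by
    have h0 : conj (W 2 (prz p) 0 0) = W 2 (prz p) 0 0 :=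
      (hW.herm 2 (prz p) (prz_mem.mpr hp)).apply 0 0
    show (Matrix.single 0 0 (W 2 (prz p) 0 0) : Mat).IsHermitian
    unfold Matrix.IsHermitian
    rw [Matrix.conjTranspose_single]
    congr 1
  pull0 p hp h2 := by
    ext j k
    rw [pull_single (c := W 2 (prz p) 0 0) rfl, Jac_T0 h2]
    show (Matrix.single 0 0 (W 2 (prz p) 0 0) : Mat) j k = _
    fin_cases j <;> fin_cases k <;> simp
  pull1 p hp h2 := by
    ext j k
    rw [pull_single (c := W 2 (prz p) 0 0) rfl, Jac_T1 h2]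
    show (Matrix.single 0 0 (W 2 (prz p) 0 0) : Mat) j k = _
    fin_cases j <;> fin_cases k <;> simp
  equiv γ hγ p hp := by
    have hz : prz p ∈ U := prz_mem.mpr hp
    have e1 : prz (act2 γ p) = act2 γ (prz p) := by
      simp [prz, act2]
    have e0 := congrFun (congrFun (hW.equiv γ hγ (prz p) hz) 0) 0
    have e00 : pull (act2 γ) (W 2) (prz p) 0 0 = ∑ l, ∑ m,
      Jac (act2 γ) (prz p) 0 l * conj (Jac (act2 γ) (prz p) 0 m) *
        W 2 (act2 γ (prz p)) l m := rfl
    rw [e00, Jac_act2 γ hz] at e0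
    have e2 : W 2 (prz p) 0 0 = (1 / den γ (p 0) ^ 2) * conj (1 / den γ (p 0) ^ 2) *
        W 2 (prz (act2 γ p)) 0 0 := by
      rw [e0, e1]
      simp [Fin.sum_univ_three, prz]
    ext j k
    rw [pull_single (c := W 2 (prz (act2 γ p)) 0 0) rfl, Jac_act2 γ hp]
    show (Matrix.single 0 0 (W 2 (prz p) 0 0) : Mat) j k = _
    fin_cases j <;> fin_cases k <;> simp [e2]

end Pool.Agent.KG
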