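import Mathlib
import Pool.Agent.KG.Forms

/-! # Module E1: growth at `D₂` and integrability -/

open scoped ContDiff ComplexConjugate ComplexOrder Matrix Topology MatrixGroups
open Complex MeasureTheory Filter

namespace Pool.Agent.KG

/-- a continuous density on `M` (no equivariance needed), in the three charts -/
structure Dens (ρ : Fin 3 → V → ℂ) : Prop where
  cont : ∀ i, ContinuousOn (ρ i) U
  pull0 : ∀ p ∈ U, p 2 ≠ 0 → ρ 2 (T0 p) = normSq (p 2) ^ 3 * ρ 0 p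
  pull1 : ∀ p ∈ U, p 2 ≠ 0 → ρ 2 (T1 p) = normSq (p 2) ^ 3 * ρ 1 p

lemma isCompact_cyl {K : Set ℂ} (hK : IsCompact K) :
    IsCompact {p : V | p 0 ∈ K ∧ ‖p 1‖ ≤ 1 ∧ ‖p 2‖ ≤ 1} := by
  have h : {p : V | p 0 ∈ K ∧ ‖p 1‖ ≤ 1 ∧ ‖p 2‖ ≤ 1} =
      Set.pi Set.univ ![K, Metric.closedBall 0 1, Metric.closedBall 0 1] := by
    ext p
    simp only [Set.mem_ofPred_eq, Set.mem_univ_pi, Fin.forall_fin_succ]
    simp
  rw [h]
  apply isCompact_univ_pi
  intro i
  fin_cases i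
  · exact hK
  · exact isCompact_closedBall _ _
  · exact isCompact_closedBall _ _

lemma cyl_bound {f : V → ℂ} (hf : ContinuousOn f U) {K : Set ℂ} (hK : IsCompact K)
    (hK' : K ⊆ {z | 0 < z.im}) : ∃ C : ℝ, 0 ≤ C ∧ ∀ p : V, p 0 ∈ K → ‖p 1‖ ≤ 1 → ‖p 2‖ ≤ 1 →
      ‖f p‖ ≤ C := by
  obtain ⟨C, hC⟩ := (isCompact_cyl hK).exists_bound_of_continuousOn
    (hf.mono (fun p hp => hK' hp.1))
  exact ⟨max C 0, le_max_right _ _, fun p h0 h1 h2 => (hC p ⟨h0, h1, h2⟩).trans (le_max_left _ _)⟩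

theorem Dens.growth {ρ : Fin 3 → V → ℂ} (hρ : Dens ρ) {K : Set ℂ} (hK : IsCompact K)
    (hK' : K ⊆ {z | 0 < z.im}) :
    ∃ C : ℝ, ∀ p : V, p 0 ∈ K → ‖ρ 2 p‖ ≤ C * (1 + (‖p 1‖ + ‖p 2‖)) ^ (-6 : ℝ) := by
  obtain ⟨C0, hC0, h0⟩ := cyl_bound (hρ.cont 0) hK hK'
  obtain ⟨C1, hC1, h1⟩ := cyl_bound (hρ.cont 1) hK hK'
  obtain ⟨C2, hC2, h2⟩ := cyl_bound (hρ.cont 2) hK hK'
  refine ⟨3 ^ 6 * (C0 + C1 + C2), fun p hp => ?_⟩
  have hpU : p ∈ U := hK' hp
  set s := 1 + (‖p 1‖ + ‖p 2‖) with hs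
  have hs0 : 0 < s := by positivity
  have hrpow : s ^ (-6 : ℝ) = (s ^ 6)⁻¹ := by
    rw [Real.rpow_neg hs0.le]
    norm_cast
  rw [hrpow, ← div_eq_mul_inv, le_div_iff₀ (by positivity)]
  have aux : ∀ t : ℝ, 0 < t → s ≤ 3 * t → ∀ x : ℝ, ∀ Ci : ℝ, 0 ≤ Ci → x ≤ (t⁻¹) ^ 6 * Ci →
      x * s ^ 6 ≤ 3 ^ 6 * Ci := by
    intro t ht hst x Ci hCi hx
    have h6 : s ^ 6 ≤ (3 * t) ^ 6 := pow_le_pow_left₀ hs0.le hst 6
    calc x * s ^ 6 ≤ ((t⁻¹) ^ 6 * Ci) * s ^ 6 := by gcongr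
      _ ≤ ((t⁻¹) ^ 6 * Ci) * (3 * t) ^ 6 := by gcongr
      _ = 3 ^ 6 * Ci := by
        field_simp
  by_cases hA : ‖p 1‖ ≤ 1 ∧ ‖p 2‖ ≤ 1
  · have hx := h2 p hp hA.1 hA.2
    have := aux 1 one_pos (by rw [hs]; linarith [hA.1, hA.2]) ‖ρ 2 p‖ C2 hC2 (by simpa using hx)
    linarith
  · by_cases hB : ‖p 2‖ ≤ ‖p 1‖
    · have hp1 : 1 < ‖p 1‖ := by
        by_contra h
        push Not at h
        exact hA ⟨h, hB.trans h⟩
      have hp1' : p 1 ≠ 0 := norm_pos_iff.1 (by linarith)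
      set q : V := ![p 0, p 2 / p 1, 1 / p 1] with hq
      have hqp : T0 q = p := T0_surj hp1'
      have hq0 : q 0 = p 0 := by simp [hq]
      have hq1 : ‖q 1‖ ≤ 1 := by
        simp only [hq, Matrix.cons_val_one, Matrix.cons_val_zero, norm_div]
        rw [div_le_one (by linarith)]
        exact hB
      have hq2n : ‖q 2‖ = ‖p 1‖⁻¹ := by simp [hq]
      have hq2 : ‖q 2‖ ≤ 1 := by
        rw [hq2n]
        exact inv_le_one_of_one_le₀ hp1.le
      have hq2' : q 2 ≠ 0 := by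
        rw [← norm_pos_iff, hq2n]; positivity
      have hpull := hρ.pull0 q (by show 0 < (q 0).im; rw [hq0]; exact hpU) hq2'
      rw [hqp] at hpull
      have hx : ‖ρ 2 p‖ ≤ (‖p 1‖⁻¹) ^ 6 * C0 := by
        rw [hpull, norm_mul]
        have e : ‖((normSq (q 2) : ℂ)) ^ 3‖ = (‖p 1‖⁻¹) ^ 6 := by
          rw [norm_pow, Complex.norm_real, Complex.normSq_eq_norm_sq, hq2n, Real.norm_eq_abs,
            abs_of_nonneg (by positivity)]
          ring
        rw [e]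
        gcongr
        exact h0 q (by rw [hq0]; exact hp) hq1 hq2
      have := aux ‖p 1‖ (by linarith) (by rw [hs]; linarith) _ C0 hC0 hx
      linarith
    · push Not at hB
      have hp1 : 1 < ‖p 2‖ := by
        by_contra h
        push Not at h
        exact hA ⟨hB.le.trans h, h⟩
      have hp1' : p 2 ≠ 0 := norm_pos_iff.1 (by linarith)
      set q : V := ![p 0, p 1 / p 2, 1 / p 2] with hq
      have hqp : T1 q = p := T1_surj hp1'
      have hq0 : q 0 = p 0 := by simp [hq]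
      have hq1 : ‖q 1‖ ≤ 1 := by
        simp only [hq, Matrix.cons_val_one, Matrix.cons_val_zero, norm_div]
        rw [div_le_one (by linarith)]
        exact hB.le
      have hq2n : ‖q 2‖ = ‖p 2‖⁻¹ := by simp [hq]
      have hq2 : ‖q 2‖ ≤ 1 := by
        rw [hq2n]
        exact inv_le_one_of_one_le₀ hp1.le
      have hq2' : q 2 ≠ 0 := by
        rw [← norm_pos_iff, hq2n]; positivity
      have hpull := hρ.pull1 q (by show 0 < (q 0).im; rw [hq0]; exact hpU) hq2'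
      rw [hqp] at hpull
      have hx : ‖ρ 2 p‖ ≤ (‖p 2‖⁻¹) ^ 6 * C1 := by
        rw [hpull, norm_mul]
        have e : ‖((normSq (q 2) : ℂ)) ^ 3‖ = (‖p 2‖⁻¹) ^ 6 := by
          rw [norm_pow, Complex.norm_real, Complex.normSq_eq_norm_sq, hq2n, Real.norm_eq_abs,
            abs_of_nonneg (by positivity)]
          ring
        rw [e]
        gcongr
        exact h1 q (by rw [hq0]; exact hp) hq1 hq2
      have := aux ‖p 2‖ (by linarith) (by rw [hs]; linarith) _ C1 hC1 hx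
      linarith

/-- the dominating function -/
lemma integrable_dom {K : Set ℂ} (hK : IsCompact K) :
    Integrable (fun p : V => K.indicator (fun _ => (1 : ℝ)) (p 0) *
      (1 + ‖p 1‖) ^ (-3 : ℝ) * (1 + ‖p 2‖) ^ (-3 : ℝ)) := by
  have h1 : Integrable (fun x : ℂ => (1 + ‖x‖) ^ (-3 : ℝ)) :=
    integrable_one_add_norm (by rw [Complex.finrank_real_complex]; norm_num)
  have h0 : Integrable (K.indicator (fun _ : ℂ => (1 : ℝ))) :=
    (integrable_indicator_iff hK.measurableSet).2 (integrableOn_const hK.measure_lt_top.ne)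
  let f : Fin 3 → ℂ → ℝ := ![K.indicator (fun _ : ℂ => (1 : ℝ)),
    fun x : ℂ => (1 + ‖x‖) ^ (-3 : ℝ), fun x : ℂ => (1 + ‖x‖) ^ (-3 : ℝ)]
  have hf : ∀ i, Integrable (f i) := by
    intro i
    fin_cases i
    · exact h0
    · exact h1
    · exact h1
  have h : Integrable (fun p : Fin 3 → ℂ => ∏ i, f i (p i)) := Integrable.fintype_prod hf
  refine h.congr (Eventually.of_forall fun p => ?_)
  simp [f, Fin.prod_univ_three]

lemma dom_le {a b : ℝ} (ha : 0 ≤ a) (hb : 0 ≤ b) :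
    (1 + (a + b)) ^ (-6 : ℝ) ≤ (1 + a) ^ (-3 : ℝ) * (1 + b) ^ (-3 : ℝ) := by
  rw [Real.rpow_neg (by positivity), Real.rpow_neg (by positivity), Real.rpow_neg (by positivity),
    ← mul_inv]
  apply inv_anti₀ (by positivity)
  rw [← Real.mul_rpow (by positivity) (by positivity)]
  have : (1 + (a + b)) ^ (6 : ℝ) = ((1 + (a + b)) ^ 2) ^ (3 : ℝ) := by
    rw [← Real.rpow_natCast, ← Real.rpow_mul (by positivity)]
    norm_num
  rw [this]
  apply Real.rpow_le_rpow (by positivity) _ (by norm_num)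
  nlinarith [mul_nonneg ha hb]

theorem Dens.dominated {ψ : ℂ → ℝ} (hψ : IsPsi ψ) {ρ : Fin 3 → V → ℂ} (hρ : Dens ρ) :
    ∃ g : V → ℝ, Integrable g ∧ ∀ p ∈ U, ‖(ψ (p 0) : ℂ) * ρ 2 p‖ ≤ g p := by
  have hK : IsCompact (tsupport ψ) := hψ.cpt
  obtain ⟨C, hC⟩ := hρ.growth hK hψ.supp
  obtain ⟨M, hM⟩ := hψ.smooth.continuous.bounded_above_of_compact_support hψ.cpt
  have hM0 : 0 ≤ M := (norm_nonneg _).trans (hM 0)
  refine ⟨fun p => (M * |C|) * ((tsupport ψ).indicator (fun _ => (1 : ℝ)) (p 0) *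
      (1 + ‖p 1‖) ^ (-3 : ℝ) * (1 + ‖p 2‖) ^ (-3 : ℝ)), (integrable_dom hK).const_mul _, ?_⟩
  intro p hp
  beta_reduce
  by_cases h : p 0 ∈ tsupport ψ
  · rw [norm_mul, Set.indicator_of_mem h, one_mul, mul_assoc M]
    refine mul_le_mul ?_ ?_ (norm_nonneg _) hM0
    · rw [Complex.norm_real]; exact hM _
    · refine (hC p h).trans ?_
      have h1 : C * (1 + (‖p 1‖ + ‖p 2‖)) ^ (-6 : ℝ) ≤ |C| * (1 + (‖p 1‖ + ‖p 2‖)) ^ (-6 : ℝ) :=
        mul_le_mul_of_nonneg_right (le_abs_self C) (by positivity)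
      refine h1.trans (mul_le_mul_of_nonneg_left (dom_le (norm_nonneg _) (norm_nonneg _))
        (abs_nonneg C))
  · have : ψ (p 0) = 0 := by
      by_contra h2
      exact h (subset_closure h2)
    rw [this, Set.indicator_of_notMem h]
    simp

lemma Dens.contOn {ψ : ℂ → ℝ} (hψ : IsPsi ψ) {ρ : Fin 3 → V → ℂ} (hρ : Dens ρ) :
    ContinuousOn (fun p => (ψ (p 0) : ℂ) * ρ 2 p) U := by
  have h1 : Continuous fun p : V => (ψ (p 0) : ℂ) :=
    Complex.continuous_ofReal.comp (hψ.smooth.continuous.comp (continuous_apply 0))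
  exact h1.continuousOn.mul (hρ.cont 2)

lemma measurableSet_U : MeasurableSet (U : Set V) := isOpen_U.measurableSet

theorem Dens.integrable {ψ : ℂ → ℝ} (hψ : IsPsi ψ) {ρ : Fin 3 → V → ℂ} (hρ : Dens ρ) :
    IntegrableOn (fun p => (ψ (p 0) : ℂ) * ρ 2 p) U := by
  obtain ⟨g, hg, hb⟩ := hρ.dominated hψ
  refine Integrable.mono' hg.integrableOn ((hρ.contOn hψ).aestronglyMeasurable measurableSet_U) ?_
  exact (ae_restrict_iff' measurableSet_U).2 (Eventually.of_forall hb)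

/-- with a cut-off the integrals converge -/
theorem Dens.tendsto_cut {ψ : ℂ → ℝ} (hψ : IsPsi ψ) {ρ : Fin 3 → V → ℂ} (hρ : Dens ρ)
    {η : ℝ → ℝ} (hη : IsCut η) :
    Tendsto (fun R : ℝ => ∫ p in U, ((ψ (p 0) * η (sig p / R) : ℝ) : ℂ) * ρ 2 p) atTop
      (𝓝 (∫ p in U, (ψ (p 0) : ℂ) * ρ 2 p)) := by
  obtain ⟨g, hg, hb⟩ := hρ.dominated hψ
  have e : ∀ (R : ℝ) (p : V), ((ψ (p 0) * η (sig p / R) : ℝ) : ℂ) * ρ 2 p =
      ((η (sig p / R) : ℝ) : ℂ) * ((ψ (p 0) : ℂ) * ρ 2 p) := by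
    intro R p
    push_cast
    ring
  simp only [e]
  refine tendsto_integral_filter_of_dominated_convergence g ?_ ?_ hg.integrableOn ?_
  · refine Eventually.of_forall fun R => ?_
    refine AEStronglyMeasurable.mul ?_ ((hρ.contOn hψ).aestronglyMeasurable measurableSet_U)
    have hsig : Measurable (sig : V → ℝ) := by
      unfold sig
      fun_prop
    have : Measurable fun p : V => ((η (sig p / R) : ℝ) : ℂ) :=
      Complex.measurable_ofReal.comp (hη.smooth.continuous.measurable.comp (hsig.div_const R))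
    exact this.aestronglyMeasurable
  · refine Eventually.of_forall fun R => ?_
    refine (ae_restrict_iff' measurableSet_U).2 (Eventually.of_forall fun p hp => ?_)
    rw [norm_mul]
    have h1 : ‖((η (sig p / R) : ℝ) : ℂ)‖ ≤ 1 := by
      rw [Complex.norm_real, Real.norm_eq_abs, abs_of_nonneg (hη.bdd _).1]
      exact (hη.bdd _).2
    exact (mul_le_of_le_one_left (norm_nonneg _) h1).trans (hb p hp)
  · refine Eventually.of_forall fun p => ?_
    have : ∀ᶠ R : ℝ in atTop, ((η (sig p / R) : ℝ) : ℂ) * ((ψ (p 0) : ℂ) * ρ 2 p) =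
        (ψ (p 0) : ℂ) * ρ 2 p := by
      filter_upwards [eventually_ge_atTop (max 1 (sig p))] with R hR
      have hR1 : 0 < R := lt_of_lt_of_le one_pos ((le_max_left _ _).trans hR)
      rw [hη.one _ ((div_le_one hR1).2 ((le_max_right _ _).trans hR))]
      simp
    exact tendsto_const_nhds.congr' (this.mono fun R h => h.symm)

theorem D3_dens {W₁ W₂ W₃ : Fin 3 → V → Mat} (h1 : Form11 W₁) (h2 : Form11 W₂)
    (h3 : Form11 W₃) : Dens (fun i p => D3 (W₁ i p) (W₂ i p) (W₃ i p)) where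
  cont i := by
    have s1 : ∀ a b, ContinuousOn (fun p => W₁ i p a b) U := fun a b =>
      (h1.smooth i a b).continuousOn
    have s2 : ∀ a b, ContinuousOn (fun p => W₂ i p a b) U := fun a b =>
      (h2.smooth i a b).continuousOn
    have s3 : ∀ a b, ContinuousOn (fun p => W₃ i p a b) U := fun a b =>
      (h3.smooth i a b).continuousOn
    unfold D3 cofm
    refine continuousOn_finsetSum _ fun j _ => continuousOn_finsetSum _ fun k _ => ?_
    exact (s1 _ _).mul (((((s2 _ _).mul (s3 _ _)).add ((s2 _ _).mul (s3 _ _))).sub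
      ((s2 _ _).mul (s3 _ _))).sub ((s2 _ _).mul (s3 _ _)))
  pull0 p hp h := by
    have hn : (normSq (p 2) : ℂ) ≠ 0 := by
      exact_mod_cast (normSq_pos.2 h).ne'
    rw [h1.pull0 p hp h, h2.pull0 p hp h, h3.pull0 p hp h, pull_eq, pull_eq, pull_eq,
      D3_transform, det_Jac_T0 h]
    push_cast
    field_simp
  pull1 p hp h := by
    have hn : (normSq (p 2) : ℂ) ≠ 0 := by
      exact_mod_cast (normSq_pos.2 h).ne'
    rw [h1.pull1 p hp h, h2.pull1 p hp h, h3.pull1 p hp h, pull_eq, pull_eq, pull_eq,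
      D3_transform, det_Jac_T1 h]
    push_cast
    field_simp

/-- consequences for `III` -/
theorem III_integrable {ψ : ℂ → ℝ} (hψ : IsPsi ψ) {W₁ W₂ W₃ : Fin 3 → V → Mat}
    (h1 : Form11 W₁) (h2 : Form11 W₂) (h3 : Form11 W₃) :
    IntegrableOn (fun p => ψ (p 0) * (D3 (W₁ 2 p) (W₂ 2 p) (W₃ 2 p)).re) U := by
  have h := ((D3_dens h1 h2 h3).integrable hψ).re
  refine h.congr (Eventually.of_forall fun p => ?_)
  simp
theorem III_comm12 {ψ : ℂ → ℝ} (W₁ W₂ W₃ : Fin 3 → V → Mat) :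
    III ψ W₁ W₂ W₃ = III ψ W₂ W₁ W₃ := by
  unfold III
  simp only [D3_comm12 (W₁ 2 _)]
theorem III_comm23 {ψ : ℂ → ℝ} (W₁ W₂ W₃ : Fin 3 → V → Mat) :
    III ψ W₁ W₂ W₃ = III ψ W₁ W₃ W₂ := by
  unfold III
  simp only [D3_comm23 _ (W₂ 2 _)]
theorem III_add {ψ : ℂ → ℝ} (hψ : IsPsi ψ) {W₁ W₁' W₂ W₃ : Fin 3 → V → Mat} (h1 : Form11 W₁)
    (h1' : Form11 W₁') (h2 : Form11 W₂) (h3 : Form11 W₃) :
    III ψ (fun i p => W₁ i p + W₁' i p) W₂ W₃ = III ψ W₁ W₂ W₃ + III ψ W₁' W₂ W₃ := by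
  unfold III
  rw [← integral_add (III_integrable hψ h1 h2 h3) (III_integrable hψ h1' h2 h3)]
  simp only [D3_add_left, Complex.add_re, mul_add]
theorem III_smul {ψ : ℂ → ℝ} (c : ℝ) (W₁ W₂ W₃ : Fin 3 → V → Mat) :
    III ψ (fun i p => (c : ℂ) • W₁ i p) W₂ W₃ = c * III ψ W₁ W₂ W₃ := by
  unfold III
  rw [← integral_const_mul]
  refine integral_congr_ae (Eventually.of_forall fun p => ?_)
  simp only [D3_smul_left, Complex.re_ofReal_mul]
  ring

end Pool.Agent.KG
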