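import Mathlib
import Pool.Agent.KG.Psi
import Pool.Agent.KG.Forms

/-! # Module B2: Stokes, compactly supported in the fibre direction -/

open scoped ContDiff ComplexConjugate ComplexOrder Matrix Topology MatrixGroups
open Complex MeasureTheory Filter

namespace Pool.Agent.KG
open Pool.Agent.Hhelper97

/-- `∫ ∂f/∂z_j = 0` for compactly supported `C¹` functions -/
theorem integral_dz_eq_zero {f : V → ℂ} (hf : ContDiff ℝ 1 f) (hc : HasCompactSupport f)
    (j : Fin 3) : ∫ p, dz j f p = 0 := by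
  simp only [dz_eq_wd]
  exact Gam.integral_wd_eq_zero hf hc j

lemma contDiffOn_sig : ContDiffOn ℝ ∞ sig U := by
  intro p hp
  have hp : 0 < (p 0).im := hp
  have hre : ∀ i : Fin 3, ContDiffAt ℝ ∞ (fun p : V => (p i).re) p := fun i =>
    (Complex.reCLM.contDiff.comp (contDiff_apply ℝ ℂ i)).contDiffAt
  have him : ∀ i : Fin 3, ContDiffAt ℝ ∞ (fun p : V => (p i).im) p := fun i =>
    (Complex.imCLM.contDiff.comp (contDiff_apply ℝ ℂ i)).contDiffAt
  have h1 : ContDiffAt ℝ ∞ (fun p : V => normSq (p 1) + normSq (p 2)) p := by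
    have : (fun p : V => normSq (p 1) + normSq (p 2)) = fun p : V =>
        ((p 1).re * (p 1).re + (p 1).im * (p 1).im) +
        ((p 2).re * (p 2).re + (p 2).im * (p 2).im) := rfl
    rw [this]
    exact (((hre 1).mul (hre 1)).add ((him 1).mul (him 1))).add
      (((hre 2).mul (hre 2)).add ((him 2).mul (him 2)))
  exact (h1.div (him 0) hp.ne').contDiffWithinAt

lemma sig_eq_sg (p : V) : sig p = (normSq (p 1) + normSq (p 2)) / (p 0).im := rfl

lemma sig_act2' (γ : SL(2, ℝ)) {p : V} (hp : p ∈ U) : sig (act2 γ p) = sig p := sig_act2 γ hp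

theorem stokes_cpt {ψ : ℂ → ℝ} (hψ : IsPsi ψ) {W₂ W₃ : Fin 3 → V → Mat} (h2 : Form11 W₂)
    (h3 : Form11 W₃) (c2 : Closed W₂) (c3 : Closed W₃) {α : Fin 3 → V → ℂ} (hα : Form01 α)
    {η : ℝ → ℝ} (hη : ContDiff ℝ ∞ η) (hηc : ∃ R, ∀ t ≥ R, η t = 0) :
    ∫ p in U, ((ψ (p 0) * η (sig p) : ℝ) : ℂ) *
        ∑ j, ∑ k, cofm (W₂ 2 p) (W₃ 2 p) j k * dz j (α k) p =
      -∫ p in U, ((ψ (p 0) * deriv η (sig p) : ℝ) : ℂ) *
        ∑ j, ∑ k, dz j (fun p => (sig p : ℂ)) p * cofm (W₂ 2 p) (W₃ 2 p) j k * α k p := by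
  obtain ⟨R, hR⟩ := hηc
  have hUo : IsOpen U := Gam.isOpen_U
  have hUm : MeasurableSet U := hUo.measurableSet
  set C : V → Mat := fun p => cofm (W₂ 2 p) (W₃ 2 p) with hC
  -- smoothness
  have hCs : ∀ j k, ContDiffOn ℝ 1 (fun p => C p j k) U := by
    intro j k
    have s2 : ∀ a b, ContDiffOn ℝ 1 (fun p => W₂ 2 p a b) U := fun a b =>
      (h2.smooth 2 a b).of_le (by exact_mod_cast le_top)
    have s3 : ∀ a b, ContDiffOn ℝ 1 (fun p => W₃ 2 p a b) U := fun a b =>
      (h3.smooth 2 a b).of_le (by exact_mod_cast le_top)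
    simp only [hC, cofm]
    exact ((((s2 _ _).mul (s3 _ _)).add ((s2 _ _).mul (s3 _ _))).sub
      ((s2 _ _).mul (s3 _ _))).sub ((s2 _ _).mul (s3 _ _))
  have hηs : ContDiffOn ℝ 1 (fun p => ((η (sig p) : ℝ) : ℂ)) U := by
    have h1 : ContDiffOn ℝ ∞ (fun p => η (sig p)) U := hη.comp_contDiffOn contDiffOn_sig
    exact (Complex.ofRealCLM.contDiff.comp_contDiffOn h1).of_le (by exact_mod_cast le_top)
  set Z : Fin 3 → V → ℂ := fun j p => ∑ k, C p j k * α k p with hZ
  have hZs : ∀ j, ContDiffOn ℝ 1 (Z j) U := fun j =>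
    ContDiffOn.sum fun k _ => (hCs j k).mul (hα.smooth k)
  have hd : ∀ {f : V → ℂ}, ContDiffOn ℝ 1 f U → ∀ {p : V}, p ∈ U → DifferentiableAt ℝ f p :=
    fun hf _ hp => (hf.differentiableOn one_ne_zero).differentiableAt (hUo.mem_nhds hp)
  -- bounds
  have hK : IsCompact (tsupport ψ) := hψ.cpt
  obtain ⟨y₂, hy₂⟩ := hK.exists_bound_of_continuousOn (f := fun z : ℂ => z) continuousOn_id
  set B : ℝ := 1 + |y₂| + |R| * |y₂| with hB
  have hBB : ∀ p ∈ U, p 0 ∈ tsupport ψ → sig p < R → ‖p‖ ≤ B := by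
    intro p hp hp0 hs
    have hp : 0 < (p 0).im := hp
    have h0 : ‖p 0‖ ≤ |y₂| := (hy₂ _ hp0).trans (le_abs_self _)
    have him : (p 0).im ≤ |y₂| := ((le_abs_self _).trans (Complex.abs_im_le_norm _)).trans h0
    have hR0 : 0 ≤ R := by
      have : 0 ≤ sig p := div_nonneg (add_nonneg (normSq_nonneg _) (normSq_nonneg _)) hp.le
      linarith
    have h1 : normSq (p 1) + normSq (p 2) ≤ |R| * |y₂| := by
      rw [sig, div_lt_iff₀ hp] at hs
      calc normSq (p 1) + normSq (p 2) ≤ R * (p 0).im := hs.le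
        _ ≤ |R| * |y₂| := mul_le_mul (le_abs_self R) him hp.le (abs_nonneg R)
    have hB1 : 1 ≤ B := by rw [hB]; nlinarith [abs_nonneg y₂, mul_nonneg (abs_nonneg R) (abs_nonneg y₂)]
    have hB2 : |R| * |y₂| ≤ B ^ 2 := by
      have : |R| * |y₂| ≤ B := by rw [hB]; linarith [abs_nonneg y₂]
      nlinarith
    have hi : ∀ i : Fin 3, normSq (p i) ≤ normSq (p 1) + normSq (p 2) → ‖p i‖ ≤ B := by
      intro i hi
      have : ‖p i‖ ^ 2 ≤ B ^ 2 := by
        rw [← Complex.normSq_eq_norm_sq]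
        exact (hi.trans h1).trans hB2
      exact (abs_le_of_sq_le_sq' this (by linarith)).2
    rw [pi_norm_le_iff_of_nonneg (by linarith)]
    intro i
    fin_cases i
    · exact h0.trans (by rw [hB]; linarith [mul_nonneg (abs_nonneg R) (abs_nonneg y₂)])
    · exact hi 1 (by linarith [normSq_nonneg (p 2)])
    · exact hi 2 (by linarith [normSq_nonneg (p 1)])
  have hηne : ∀ p : V, η (sig p) ≠ 0 → sig p < R := by
    intro p h
    by_contra h2
    push Not at h2
    exact h (hR _ h2)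
  have hdηne : ∀ p : V, deriv η (sig p) ≠ 0 → sig p ≤ R := by
    intro p h
    by_contra h2
    push Not at h2
    apply h
    have : η =ᶠ[𝓝 (sig p)] fun _ => 0 := by
      filter_upwards [Ioi_mem_nhds h2] with s hs
      exact hR s (le_of_lt hs)
    rw [this.deriv_eq]
    simp
  have hdηne' : ∀ p : V, deriv η (sig p) ≠ 0 → sig p < R + 1 := fun p h => by
    linarith [hdηne p h]
  -- equivariance
  have hE : ∀ γ ∈ Gam.Grp, ∀ p ∈ Gam.U,
      ((‖Gam.J γ (p 0)‖⁻¹ ^ 8 : ℝ) : ℂ) *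
        (((η (sig (Gam.act γ p)) : ℝ) : ℂ) * Z 0 (Gam.act γ p)) =
      (Gam.J γ (p 0) ^ 2)⁻¹ * (((η (sig p) : ℝ) : ℂ) * Z 0 p) := by
    intro γ hγ p hp
    have hden : Gam.J γ (p 0) ≠ 0 := Gam.J_ne_zero γ hp
    have e1 : sig (Gam.act γ p) = sig p := sig_act2 γ hp
    have key : (normSq (Jac (act2 γ) p).det : ℂ) * Z 0 (act2 γ p) =
        (Gam.J γ (p 0) ^ 2)⁻¹ * Z 0 p := by
      have ht := sum_cofm_transform (Jac (act2 γ) p) (W₂ 2 (act2 γ p)) (W₃ 2 (act2 γ p))
        (Pi.single 0 1) (fun k => α k (act2 γ p))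
      rw [← pull_eq, ← pull_eq, ← h2.equiv γ hγ p hp, ← h3.equiv γ hγ p hp] at ht
      have hαe : (Jac (act2 γ) p).map conj *ᵥ (fun k => α k (act2 γ p)) = fun k => α k p := by
        ext k
        rw [hα.equiv γ hγ p hp k]
        simp [Matrix.mulVec, dotProduct, Jac]
      have hcol : ∀ j, (Jac (act2 γ) p *ᵥ Pi.single 0 1) j =
          if j = 0 then (Gam.J γ (p 0) ^ 2)⁻¹ else 0 := by
        intro j
        rw [Jac_act2 γ hp]
        fin_cases j <;> simp [Matrix.mulVec, dotProduct, Fin.sum_univ_three, den, Gam.J]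
      rw [hαe] at ht
      simp only [hcol] at ht
      have hl : ∑ j : Fin 3, ∑ k, (if j = 0 then (Gam.J γ (p 0) ^ 2)⁻¹ else 0) * α k p *
          cofm (W₂ 2 p) (W₃ 2 p) j k = (Gam.J γ (p 0) ^ 2)⁻¹ * Z 0 p := by
        rw [Fin.sum_univ_three]
        simp only [if_true, hZ, hC, Finset.mul_sum]
        simp
        refine Finset.sum_congr rfl fun k _ => ?_
        ring
      have hr : ∑ j : Fin 3, ∑ k, (Pi.single 0 1 : Fin 3 → ℂ) j * α k (act2 γ p) *
          cofm (W₂ 2 (act2 γ p)) (W₃ 2 (act2 γ p)) j k = Z 0 (act2 γ p) := by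
        rw [Fin.sum_univ_three]
        simp only [hZ, hC]
        simp
        refine Finset.sum_congr rfl fun k _ => ?_
        ring
      rw [hl, hr] at ht
      exact ht.symm
    have hdet : (normSq (Jac (act2 γ) p).det : ℂ) = ((‖Gam.J γ (p 0)‖⁻¹ ^ 8 : ℝ) : ℂ) := by
      rw [det_Jac_act2 γ hp]
      congr 1
      show (normSq (Gam.J γ (p 0)) ^ 4)⁻¹ = _
      rw [Complex.normSq_eq_norm_sq]
      ring
    rw [hdet] at key
    rw [e1]
    have key' : ((‖Gam.J γ (p 0)‖⁻¹ ^ 8 : ℝ) : ℂ) * Z 0 (Gam.act γ p) =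
        (Gam.J γ (p 0) ^ 2)⁻¹ * Z 0 p := key
    linear_combination ((η (sig p) : ℝ) : ℂ) * key'
  have hs := Gam.stokes_compact hψ.isWt
    (Y := fun j p => ((η (sig p) : ℝ) : ℂ) * Z j p) (B := B)
    (fun j => hηs.mul (hZs j)) (fun j p hp hp0 hne => ?_) hE
  rotate_left
  · apply hBB p hp hp0
    apply hηne
    intro h
    exact hne (by simp [h])
  have hdη : ∀ p ∈ U, ∀ j, Gam.wd j (fun p => ((η (sig p) : ℝ) : ℂ)) p =
      ((deriv η (sig p) : ℝ) : ℂ) * dz j (fun p => (sig p : ℂ)) p := by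
    intro p hp j
    rw [← dz_eq_wd]
    exact dz_real_comp ((contDiffOn_sig.contDiffAt (hUo.mem_nhds hp)).differentiableAt (by simp))
      ((hη.differentiable (by simp)) _)
  have key : ∀ p ∈ Gam.U, Gam.psiC ψ p *
      ∑ j, Gam.wd j (fun p => ((η (sig p) : ℝ) : ℂ) * Z j p) p =
      ((ψ (p 0) * η (sig p) : ℝ) : ℂ) *
        ∑ j, ∑ k, cofm (W₂ 2 p) (W₃ 2 p) j k * dz j (α k) p +
      ((ψ (p 0) * deriv η (sig p) : ℝ) : ℂ) *
        ∑ j, ∑ k, dz j (fun p => (sig p : ℂ)) p * cofm (W₂ 2 p) (W₃ 2 p) j k * α k p := by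
    intro p hp
    have hpU : p ∈ U := hp
    have h1 : ∀ j, Gam.wd j (fun p => ((η (sig p) : ℝ) : ℂ) * Z j p) p =
        Gam.wd j (fun p => ((η (sig p) : ℝ) : ℂ)) p * Z j p +
        ((η (sig p) : ℝ) : ℂ) * Gam.wd j (Z j) p := fun j =>
      Gam.wd_mul (hd hηs hpU) (hd (hZs j) hpU) j
    have h2' : ∑ j, Gam.wd j (Z j) p = ∑ j, ∑ k, C p j k * dz j (α k) p := by
      have h3' : ∀ j, Gam.wd j (Z j) p =
          ∑ k, (dz j (fun q => C q j k) p * α k p + C p j k * dz j (α k) p) := by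
        intro j
        simp only [hZ]
        rw [Gam.wd_sum]
        · refine Finset.sum_congr rfl fun k _ => ?_
          rw [Gam.wd_mul (hd (hCs j k) hpU) (hd (hα.smooth k) hpU), ← dz_eq_wd, ← dz_eq_wd]
        · exact fun k _ => (hd (hCs j k) hpU).mul (hd (hα.smooth k) hpU)
      simp only [h3', Finset.sum_add_distrib]
      have hdiv : ∑ j, ∑ k, dz j (fun q => C q j k) p * α k p = 0 := by
        rw [Finset.sum_comm]
        refine Finset.sum_eq_zero fun k _ => ?_
        rw [← Finset.sum_mul]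
        have := div_cofm (A := W₂ 2) (B := W₃ 2) (p := p)
          (fun a b => hd ((h2.smooth 2 a b).of_le (by exact_mod_cast le_top)) hpU)
          (fun a b => hd ((h3.smooth 2 a b).of_le (by exact_mod_cast le_top)) hpU)
          (c2 2 p hpU) (c3 2 p hpU) k
        rw [show ∑ j, dz j (fun q => C q j k) p = 0 from this, zero_mul]
      rw [hdiv, zero_add]
    simp only [h1, Finset.sum_add_distrib]
    rw [← Finset.mul_sum, h2']
    simp only [hdη p hpU, Gam.psiC, hZ, hC, Fin.sum_univ_three]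
    push_cast
    ring
  rw [setIntegral_congr_fun Gam.isOpen_U.measurableSet key, integral_add] at hs
  · exact eq_neg_of_add_eq_zero_left hs
  · refine Gam.integrableOn_U hψ.isWt (B := B) ?_ ?_
    · have hc1 : ContinuousOn (fun p : V => ((ψ (p 0) * η (sig p) : ℝ) : ℂ)) U := by
        have : ContinuousOn (fun p : V => ψ (p 0) * η (sig p)) U :=
          ((hψ.smooth.continuous.comp (continuous_apply 0)).continuousOn).mul
            (hη.continuous.comp_continuousOn contDiffOn_sig.continuousOn)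
        exact Complex.continuous_ofReal.comp_continuousOn this
      refine hc1.mul ?_
      refine continuousOn_finsetSum _ fun j _ => continuousOn_finsetSum _ fun k _ => ?_
      refine (hCs j k).continuousOn.mul ?_
      have := Gam.continuousOn_wd (hα.smooth k) j
      exact this.congr fun p _ => dz_eq_wd _ _ _
    · intro p hp hne
      have h1 : ψ (p 0) * η (sig p) ≠ 0 := by
        intro h
        apply hne
        rw [h]
        simp
      have h1' : p 0 ∈ tsupport ψ := subset_closure (left_ne_zero_of_mul h1)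
      exact ⟨h1', hBB p hp h1' (hηne p (right_ne_zero_of_mul h1))⟩
  · have hBB' : ∃ B' : ℝ, ∀ p ∈ U, p 0 ∈ tsupport ψ → sig p ≤ R → ‖p‖ ≤ B' := by
      refine ⟨1 + |y₂| + |R + 1| * |y₂|, ?_⟩
      intro p hp hp0 hs
      have hp : 0 < (p 0).im := hp
      have h0 : ‖p 0‖ ≤ |y₂| := (hy₂ _ hp0).trans (le_abs_self _)
      have him : (p 0).im ≤ |y₂| := ((le_abs_self _).trans (Complex.abs_im_le_norm _)).trans h0
      have h1 : normSq (p 1) + normSq (p 2) ≤ |R + 1| * |y₂| := by
        rw [sig, div_le_iff₀ hp] at hs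
        calc normSq (p 1) + normSq (p 2) ≤ R * (p 0).im := hs
          _ ≤ (R + 1) * (p 0).im := by nlinarith
          _ ≤ |R + 1| * |y₂| := mul_le_mul (le_abs_self _) him hp.le (abs_nonneg _)
      set B' := 1 + |y₂| + |R + 1| * |y₂| with hB'
      have hB1 : 1 ≤ B' := by
        rw [hB']; nlinarith [abs_nonneg y₂, mul_nonneg (abs_nonneg (R + 1)) (abs_nonneg y₂)]
      have hB2 : |R + 1| * |y₂| ≤ B' ^ 2 := by
        have : |R + 1| * |y₂| ≤ B' := by rw [hB']; linarith [abs_nonneg y₂]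
        nlinarith
      have hi : ∀ i : Fin 3, normSq (p i) ≤ normSq (p 1) + normSq (p 2) → ‖p i‖ ≤ B' := by
        intro i hi
        have : ‖p i‖ ^ 2 ≤ B' ^ 2 := by
          rw [← Complex.normSq_eq_norm_sq]
          exact (hi.trans h1).trans hB2
        exact (abs_le_of_sq_le_sq' this (by linarith)).2
      rw [pi_norm_le_iff_of_nonneg (by linarith)]
      intro i
      fin_cases i
      · exact h0.trans (by rw [hB']; linarith [mul_nonneg (abs_nonneg (R + 1)) (abs_nonneg y₂)])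
      · exact hi 1 (by linarith [normSq_nonneg (p 2)])
      · exact hi 2 (by linarith [normSq_nonneg (p 1)])
    obtain ⟨B', hB'⟩ := hBB'
    refine Gam.integrableOn_U hψ.isWt (B := B') ?_ ?_
    · have hc1 : ContinuousOn (fun p : V => ((ψ (p 0) * deriv η (sig p) : ℝ) : ℂ)) U := by
        have : ContinuousOn (fun p : V => ψ (p 0) * deriv η (sig p)) U :=
          ((hψ.smooth.continuous.comp (continuous_apply 0)).continuousOn).mul
            ((hη.continuous_deriv (by simp)).comp_continuousOn contDiffOn_sig.continuousOn)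
        exact Complex.continuous_ofReal.comp_continuousOn this
      refine hc1.mul ?_
      refine continuousOn_finsetSum _ fun j _ => continuousOn_finsetSum _ fun k _ => ?_
      refine ContinuousOn.mul (ContinuousOn.mul ?_ (hCs j k).continuousOn)
        (hα.smooth k).continuousOn
      have hsC : ContDiffOn ℝ 1 (fun p => (sig p : ℂ)) U :=
        (Complex.ofRealCLM.contDiff.comp_contDiffOn contDiffOn_sig).of_le
          (by exact_mod_cast le_top)
      have := Gam.continuousOn_wd hsC j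
      exact this.congr fun p _ => dz_eq_wd _ _ _
    · intro p hp hne
      have h1 : ψ (p 0) * deriv η (sig p) ≠ 0 := by
        intro h
        apply hne
        rw [h]
        simp
      have h1' : p 0 ∈ tsupport ψ := subset_closure (left_ne_zero_of_mul h1)
      exact ⟨h1', hB' p hp h1' (hdηne p (right_ne_zero_of_mul h1))⟩

end Pool.Agent.KG
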