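import Mathlib
import Pool.Agent.KG.Psi
import Pool.Agent.KG.StokesC
import Pool.Agent.KG.Growth
import Pool.Agent.KG.Boundary

/-! # Module E3: Stokes on `M` -/

open scoped ContDiff ComplexConjugate ComplexOrder Matrix Topology MatrixGroups
open Complex MeasureTheory Filter

namespace Pool.Agent.KG

/-- from `stokes_cpt` and `bdry_tendsto` -/
theorem stokesM {ψ : ℂ → ℝ} (hψ : IsPsi ψ) {W₂ W₃ : Fin 3 → V → Mat} (h2 : Form11 W₂)
    (h3 : Form11 W₃) (c2 : Closed W₂) (c3 : Closed W₃) {α : Fin 3 → V → ℂ} (hα : Form01 α)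
    (ht : Tame α) {η : ℝ → ℝ} (hη : IsCut η) :
    Tendsto (fun R : ℝ => ∫ p in U, ((ψ (p 0) * η (sig p / R) : ℝ) : ℂ) *
        ∑ j, ∑ k, cofm (W₂ 2 p) (W₃ 2 p) j k * dz j (α k) p) atTop (𝓝 0) := by
  have h := (bdry_tendsto hψ h2 h3 hα ht hη).neg
  rw [neg_zero] at h
  refine h.congr' ?_
  filter_upwards [eventually_gt_atTop 0] with R hR
  have hs : ContDiff ℝ ∞ (fun t : ℝ => η (t / R)) := hη.smooth.comp (contDiff_id.div_const R)
  have hz : ∃ R' : ℝ, ∀ t ≥ R', (fun t : ℝ => η (t / R)) t = 0 := by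
    refine ⟨2 * R, fun t htR => hη.zero _ ?_⟩
    rw [ge_iff_le, le_div_iff₀ hR]
    exact htR
  have hst := stokes_cpt hψ h2 h3 c2 c3 hα hs hz
  have hd : ∀ t : ℝ, deriv (fun t : ℝ => η (t / R)) t = deriv η (t / R) / R := by
    intro t
    have h1 : HasDerivAt η (deriv η (t / R)) (t / R) :=
      (hη.smooth.differentiable (by simp) _).hasDerivAt
    have h2 : HasDerivAt (fun t : ℝ => t / R) (1 / R) t := (hasDerivAt_id t).div_const R
    have h3 := (h1.comp t h2).deriv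
    rw [show (η ∘ fun t : ℝ => t / R) = fun t : ℝ => η (t / R) from rfl] at h3
    rw [h3]
    ring
  simp only [hd] at hst
  rw [hst]
  rfl

/-- `∂̄h` is a tame (0,1)-form -/
theorem Fun0.form01 {h : Fin 3 → V → ℝ} (hh : Fun0 h) :
    Form01 (fun k p => dzb k (fun w => (h 2 w : ℂ)) p) where
  smooth k := by
    have h1 : ContDiffOn ℝ ∞ (fun w => (h 2 w : ℂ)) U :=
      Complex.ofRealCLM.contDiff.comp_contDiffOn (hh.smooth 2)
    have h2 : ContDiffOn ℝ ∞ (fun w => dzb k (fun w => (h 2 w : ℂ)) w) U :=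
      contDiffOn_dzb (a := ⊤) (b := ⊤) isOpen_U (by simp) h1
    exact h2.of_le (by exact_mod_cast le_top)
  equiv γ hγ p hp k := by
    have hev : (fun w => (h 2 w : ℂ)) =ᶠ[𝓝 p] fun w => ((h 2 (act2 γ w) : ℝ) : ℂ) := by
      filter_upwards [isOpen_U.mem_nhds hp] with w hw
      rw [hh.equiv γ hγ w hw]
    show dzb k (fun w => (h 2 w : ℂ)) p = _
    rw [dzb_congr hev]
    have hd : DifferentiableAt ℝ (fun w => (h 2 w : ℂ)) (act2 γ p) := by
      have := (hh.smooth 2).contDiffAt (isOpen_U.mem_nhds (act2_mem γ hp))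
      exact Complex.ofRealCLM.differentiableAt.comp _ (this.differentiableAt (by simp))
    exact dzb_comp (f := fun w => (h 2 w : ℂ)) (act2_holo γ hp) hd

lemma Fun0.tame_aux {h : Fin 3 → V → ℝ} (hh : Fun0 h) {i : Fin 3} {T : V → V}
    (hT : ∀ p : V, p 2 ≠ 0 → DifferentiableAt ℂ T p) (hTU : ∀ p : V, T p ∈ U ↔ p ∈ U)
    (hpull : ∀ p ∈ U, p 2 ≠ 0 → h i p = h 2 (T p)) :
    TameAt T (fun k p => dzb k (fun w => (h 2 w : ℂ)) p) := by
  have key : ∀ k, ∀ p ∈ U, p 2 ≠ 0 →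
      pull01 T (fun k p => dzb k (fun w => (h 2 w : ℂ)) p) k p =
        dzb k (fun w => (h i w : ℂ)) p := by
    intro k p hp hp2
    have hmem : p ∈ {p : V | p ∈ U ∧ p 2 ≠ 0} := ⟨hp, hp2⟩
    have hev : (fun w => (h i w : ℂ)) =ᶠ[𝓝 p] fun w => ((h 2 (T w) : ℝ) : ℂ) := by
      filter_upwards [FormsAux.isOpen_Uq.mem_nhds hmem] with w hw
      rw [hpull w hw.1 hw.2]
    rw [dzb_congr hev]
    have hd : DifferentiableAt ℝ (fun w => (h 2 w : ℂ)) (T p) := by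
      have := (hh.smooth 2).contDiffAt (isOpen_U.mem_nhds ((hTU p).2 hp))
      exact Complex.ofRealCLM.differentiableAt.comp _ (this.differentiableAt (by simp))
    exact (dzb_comp (f := fun w => (h 2 w : ℂ)) (hT p hp2) hd).symm
  have hcont : ∀ k, ContinuousOn (fun p => dzb k (fun w => (h i w : ℂ)) p) U := by
    intro k
    have h1 : ContDiffOn ℝ ∞ (fun w => (h i w : ℂ)) U :=
      Complex.ofRealCLM.contDiff.comp_contDiffOn (hh.smooth i)
    exact (contDiffOn_dzb (a := ⊤) (b := ⊤) isOpen_U (by simp) h1).continuousOn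
  have hbd : ∀ K : Set ℂ, IsCompact K → K ⊆ {z | 0 < z.im} → ∃ C : ℝ, 0 ≤ C ∧ ∀ k : Fin 3,
      ∀ p : V, p 0 ∈ K → ‖p 1‖ ≤ 1 → p 2 ≠ 0 → ‖p 2‖ ≤ 1 →
      ‖pull01 T (fun k p => dzb k (fun w => (h 2 w : ℂ)) p) k p‖ ≤ C := by
    intro K hK hK'
    have := fun k => cyl_bound (hcont k) hK hK'
    choose C hC0 hC using this
    refine ⟨∑ k, C k, Finset.sum_nonneg fun k _ => hC0 k, fun k p h0 h1 h2 h3 => ?_⟩
    rw [key k p (hK' h0) h2]
    exact (hC k p h0 h1 h3).trans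
      (Finset.single_le_sum (f := C) (fun k _ => hC0 k) (Finset.mem_univ k))
  refine ⟨?_, ?_⟩
  · intro K hK hK'
    obtain ⟨C, hC0, hC⟩ := hbd K hK hK'
    refine ⟨C, fun p h0 h1 h2 h3 => ⟨hC 0 p h0 h1 h2 h3, hC 1 p h0 h1 h2 h3, ?_⟩⟩
    calc ‖p 2‖ * _ ≤ 1 * C := mul_le_mul h3 (hC 2 p h0 h1 h2 h3) (norm_nonneg _) zero_le_one
      _ = C := one_mul C
  · intro z a hz ha
    obtain ⟨C, hC0, hC⟩ := hbd {z} isCompact_singleton (by simpa using hz)
    rw [tendsto_zero_iff_norm_tendsto_zero]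
    have hlim : Tendsto (fun ρ : ℝ => ρ * C * |2 * Real.pi - 0|) (𝓝[>] 0) (𝓝 0) := by
      have : Tendsto (fun ρ : ℝ => ρ * C * |2 * Real.pi - 0|) (𝓝 0)
          (𝓝 (0 * C * |2 * Real.pi - 0|)) := by
        exact ((continuous_id.mul continuous_const).mul continuous_const).tendsto 0
      rw [zero_mul, zero_mul] at this
      exact this.mono_left nhdsWithin_le_nhds
    refine squeeze_zero' (Eventually.of_forall fun ρ => norm_nonneg _) ?_ hlim
    filter_upwards [Ioo_mem_nhdsGT (zero_lt_one' ℝ)] with ρ hρ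
    refine intervalIntegral.norm_integral_le_of_norm_le_const ?_
    intro θ _
    have hne : Complex.exp (θ * I) ≠ 0 := Complex.exp_ne_zero _
    have hn : ‖(ρ : ℂ) * Complex.exp (θ * I)‖ = ρ := by
      rw [norm_mul, Complex.norm_exp_ofReal_mul_I, mul_one, Complex.norm_real, Real.norm_eq_abs,
        abs_of_pos hρ.1]
    rw [norm_mul, RCLike.norm_conj, hn]
    refine mul_le_mul_of_nonneg_left ?_ hρ.1.le
    refine hC 2 _ (by simp) (by simpa using ha) ?_ ?_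
    · show (ρ : ℂ) * Complex.exp (θ * I) ≠ 0
      exact mul_ne_zero (by exact_mod_cast hρ.1.ne') hne
    · show ‖(ρ : ℂ) * Complex.exp (θ * I)‖ ≤ 1
      rw [hn]; exact hρ.2.le

theorem Fun0.tame {h : Fin 3 → V → ℝ} (hh : Fun0 h) :
    Tame (fun k p => dzb k (fun w => (h 2 w : ℂ)) p) :=
  ⟨hh.tame_aux (fun _ h => T0_holo h) (fun _ => T0_mem) hh.pull0,
    hh.tame_aux (fun _ h => T1_holo h) (fun _ => T1_mem) hh.pull1⟩

/-- `∫_M i∂∂̄h ∧ W₂ ∧ W₃ = 0` -/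
theorem III_hess {ψ : ℂ → ℝ} (hψ : IsPsi ψ) {h : Fin 3 → V → ℝ} (hh : Fun0 h)
    {W₂ W₃ : Fin 3 → V → Mat} (h2 : Form11 W₂) (h3 : Form11 W₃) (c2 : Closed W₂)
    (c3 : Closed W₃) : III ψ (fun i p => hess (h i) p) W₂ W₃ = 0 := by
  obtain ⟨η, hη⟩ := exists_cut
  have t1 := stokesM hψ h2 h3 c2 c3 hh.form01 hh.tame hη
  have hd := D3_dens hh.hess_form11 h2 h3
  have t2 := hd.tendsto_cut hψ hη
  have e : ∀ p, ∑ j, ∑ k, cofm (W₂ 2 p) (W₃ 2 p) j k *
      dz j (fun p => dzb k (fun w => (h 2 w : ℂ)) p) p = D3 (hess (h 2) p) (W₂ 2 p) (W₃ 2 p) := by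
    intro p
    unfold D3 hess
    refine Finset.sum_congr rfl fun j _ => Finset.sum_congr rfl fun k _ => ?_
    ring
  simp only [e] at t1
  have h0 := tendsto_nhds_unique t2 t1
  have hint := hd.integrable hψ
  unfold III
  have : ∫ p in U, ψ (p 0) * (D3 (hess (h 2) p) (W₂ 2 p) (W₃ 2 p)).re =
      (∫ p in U, (ψ (p 0) : ℂ) * D3 (hess (h 2) p) (W₂ 2 p) (W₃ 2 p)).re := by
    have h1 := Complex.reCLM.integral_comp_comm hint
    simp only [Complex.reCLM_apply, Complex.re_ofReal_mul] at h1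
    exact h1
  rw [this, h0]
  simp

end Pool.Agent.KG
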