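import Mathlib
import Pool.Agent.KG.Forms

/-! # Module G1: the forms `f`, `Θ_δ` -/

open scoped ContDiff ComplexConjugate ComplexOrder Matrix Topology MatrixGroups
open Complex MeasureTheory Filter

namespace Pool.Agent.KG

lemma thx_ofReal_contDiffAt {n : WithTop ℕ∞} {S : V → ℝ} {p : V} (hS : ContDiffAt ℝ n S p) :
    ContDiffAt ℝ n (fun w => (S w : ℂ)) p :=
  (Complex.ofRealCLM.contDiff.contDiffAt).comp p hS

/-- Hessian of `log S` -/
lemma thx_hess_log {S : V → ℝ} {p : V} (hS : ContDiffAt ℝ 2 S p) (h0 : 0 < S p) (j k : Fin 3) :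
    hess (fun w => Real.log (S w)) p j k =
      dz j (dzb k (fun w => (S w : ℂ))) p / (S p : ℂ) -
       dz j (fun w => (S w : ℂ)) p * dzb k (fun w => (S w : ℂ)) p / (S p : ℂ) ^ 2 := by
  have hS1 : ∀ᶠ w in 𝓝 p, DifferentiableAt ℝ S w := by
    have := hS.eventually (by simp)
    filter_upwards [this] with w hw using hw.differentiableAt (by simp)
  have hpos : ∀ᶠ w in 𝓝 p, 0 < S w := hS.continuousAt.eventually (lt_mem_nhds h0)
  have h1 : dzb k (fun w => ((Real.log (S w) : ℝ) : ℂ)) =ᶠ[𝓝 p]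
      fun w => ((((fun t : ℝ => t⁻¹) (S w)) : ℝ) : ℂ) * dzb k (fun w => (S w : ℂ)) w := by
    filter_upwards [hS1, hpos] with w hw hw0
    rw [dzb_real_comp hw (Real.differentiableAt_log hw0.ne'), Real.deriv_log]
  have hd : DifferentiableAt ℝ (fun w => dzb k (fun w => (S w : ℂ)) w) p := by
    obtain ⟨s, hs, hsS⟩ := (thx_ofReal_contDiffAt hS).contDiffOn (m := 2) le_rfl (by simp)
    obtain ⟨t, hts, hto, hpt⟩ := mem_nhds_iff.1 (by simpa using hs)
    have := contDiffOn_dzb (j := k) hto (a := 1) (b := 2) (by norm_num)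
      ((hsS.mono (by simp)).mono hts)
    exact (this.contDiffAt (hto.mem_nhds hpt)).differentiableAt (by simp)
  have hinv : DifferentiableAt ℝ (fun t : ℝ => t⁻¹) (S p) :=
    differentiableAt_inv h0.ne'
  have hSd : DifferentiableAt ℝ S p := hS.differentiableAt (by simp)
  show dz j (dzb k (fun w => ((Real.log (S w) : ℝ) : ℂ))) p = _
  rw [dz_congr h1, dz_mul _ hd, dz_real_comp hSd hinv]
  · have h0' : (S p : ℂ) ≠ 0 := by exact_mod_cast h0.ne'
    simp only [deriv_inv, ofReal_neg, ofReal_inv, ofReal_pow]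
    field_simp
    ring
  · have : DifferentiableAt ℝ (fun w => (S w)⁻¹) p := hSd.inv h0.ne'
    exact (Complex.ofRealCLM.differentiableAt).comp p this

lemma thx_diff_coord (l : Fin 3) (p : V) : DifferentiableAt ℝ (fun w : V => w l) p := by
  fun_prop
lemma thx_diff_im (l : Fin 3) (p : V) : DifferentiableAt ℝ (fun w : V => ((w l).im : ℂ)) p := by
  have h : DifferentiableAt ℝ (fun w : V => Complex.ofRealCLM (Complex.imCLM (w l))) p := by
    fun_prop
  exact h
lemma thx_diff_normSq (l : Fin 3) (p : V) :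
    DifferentiableAt ℝ (fun w : V => (normSq (w l) : ℂ)) p := by
  have h : DifferentiableAt ℝ (fun w : V => (Complex.conjCLE (w l)) * (w l)) p := by
    fun_prop
  refine h.congr_of_eventuallyEq (Eventually.of_forall fun w => ?_)
  simp [Complex.normSq_eq_conj_mul_self]

lemma thx_diff_dim (δ : ℝ) (p : V) :
    DifferentiableAt ℝ (fun w : V => (δ : ℂ) * ((w 0).im : ℂ)) p :=
  (differentiableAt_const _).mul (thx_diff_im 0 p)
lemma thx_diff_s2 (δ : ℝ) (p : V) :
    DifferentiableAt ℝ (fun w : V => (δ : ℂ) * ((w 0).im : ℂ) + (normSq (w 1) : ℂ)) p :=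
  (thx_diff_dim δ p).add (thx_diff_normSq 1 p)
lemma thx_diff_s0 (p : V) :
    DifferentiableAt ℝ (fun w : V => 1 + (normSq (w 1) : ℂ)) p :=
  (differentiableAt_const _).add (thx_diff_normSq 1 p)
lemma thx_diff_s0' (δ : ℝ) (p : V) :
    DifferentiableAt ℝ (fun w : V => (δ : ℂ) * ((w 0).im : ℂ) * (normSq (w 2) : ℂ)) p :=
  (thx_diff_dim δ p).mul (thx_diff_normSq 2 p)

lemma thx_SS_two (δ : ℝ) (p : V) : SS δ 2 p = δ * (p 0).im + normSq (p 1) + normSq (p 2) := by
  simp [SS]
lemma thx_SS_ne {i : Fin 3} (hi : i ≠ 2) (δ : ℝ) (p : V) :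
    SS δ i p = 1 + normSq (p 1) + δ * (p 0).im * normSq (p 2) := by
  simp [SS, hi]

lemma thx_dz_SS2 (δ : ℝ) (p : V) (j : Fin 3) :
    dz j (fun w => (SS δ 2 w : ℂ)) p = ![-I * δ / 2, conj (p 1), conj (p 2)] j := by
  have h : (fun w : V => (SS δ 2 w : ℂ)) =
      fun w => ((δ : ℂ) * ((w 0).im : ℂ) + (normSq (w 1) : ℂ)) + (normSq (w 2) : ℂ) := by
    funext w; rw [thx_SS_two]; push_cast; ring
  rw [h, dz_add (thx_diff_s2 δ p) (thx_diff_normSq 2 p), dz_add (thx_diff_dim δ p) (thx_diff_normSq 1 p),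
    dz_mul (differentiableAt_const _) (thx_diff_im 0 p), dz_const, dz_im, dz_normSq, dz_normSq]
  fin_cases j <;> simp <;> ring

lemma thx_dzb_SS2 (δ : ℝ) (p : V) (j : Fin 3) :
    dzb j (fun w => (SS δ 2 w : ℂ)) p = ![I * δ / 2, p 1, p 2] j := by
  have h : (fun w : V => (SS δ 2 w : ℂ)) =
      fun w => ((δ : ℂ) * ((w 0).im : ℂ) + (normSq (w 1) : ℂ)) + (normSq (w 2) : ℂ) := by
    funext w; rw [thx_SS_two]; push_cast; ring
  rw [h, dzb_add (thx_diff_s2 δ p) (thx_diff_normSq 2 p), dzb_add (thx_diff_dim δ p) (thx_diff_normSq 1 p),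
    dzb_mul (differentiableAt_const _) (thx_diff_im 0 p), dzb_const, dzb_im, dzb_normSq, dzb_normSq]
  fin_cases j <;> simp <;> ring

lemma thx_dzdzb_SS2 (δ : ℝ) (p : V) (j k : Fin 3) :
    dz j (dzb k (fun w => (SS δ 2 w : ℂ))) p =
      (!![0, 0, 0; 0, 1, 0; 0, 0, 1] : Mat) j k := by
  have h : dzb k (fun w => (SS δ 2 w : ℂ)) = fun w => (![I * δ / 2, w 1, w 2] : V) k := by
    funext w; exact thx_dzb_SS2 δ w k
  rw [h]
  fin_cases k
  · have : (fun w : V => (![I * δ / 2, w 1, w 2] : V) ((fun i => i) ⟨0, by decide⟩)) =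
      fun w : V => I * δ / 2 := by funext w; simp
    rw [this, dz_const]
    fin_cases j <;> simp
  · have : (fun w : V => (![I * δ / 2, w 1, w 2] : V) ((fun i => i) ⟨1, by decide⟩)) =
      fun w : V => w 1 := by funext w; simp
    rw [this, dz_coord]
    fin_cases j <;> simp
  · have : (fun w : V => (![I * δ / 2, w 1, w 2] : V) ((fun i => i) ⟨2, by decide⟩)) =
      fun w : V => w 2 := by funext w; simp
    rw [this, dz_coord]
    fin_cases j <;> simp

lemma thx_dz_SS0 {i : Fin 3} (hi : i ≠ 2) (δ : ℝ) (p : V) (j : Fin 3) :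
    dz j (fun w => (SS δ i w : ℂ)) p =
      ![-I * δ / 2 * normSq (p 2), conj (p 1), δ * (p 0).im * conj (p 2)] j := by
  have h : (fun w : V => (SS δ i w : ℂ)) =
      fun w => (1 + (normSq (w 1) : ℂ)) + ((δ : ℂ) * ((w 0).im : ℂ)) * (normSq (w 2) : ℂ) := by
    funext w; rw [thx_SS_ne hi]; push_cast; ring
  rw [h, dz_add (thx_diff_s0 p) (thx_diff_s0' δ p),
    dz_add (differentiableAt_const _) (thx_diff_normSq 1 p),
    dz_mul (thx_diff_dim δ p) (thx_diff_normSq 2 p),
    dz_mul (differentiableAt_const _) (thx_diff_im 0 p), dz_const, dz_const, dz_im, dz_normSq,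
    dz_normSq]
  fin_cases j <;> simp [-mul_eq_mul_right_iff, -mul_eq_mul_left_iff] <;> ring

lemma thx_dzb_SS0 {i : Fin 3} (hi : i ≠ 2) (δ : ℝ) (p : V) (j : Fin 3) :
    dzb j (fun w => (SS δ i w : ℂ)) p =
      ![I * δ / 2 * (normSq (p 2)), p 1, δ * (p 0).im * p 2] j := by
  have h : (fun w : V => (SS δ i w : ℂ)) =
      fun w => (1 + (normSq (w 1) : ℂ)) + ((δ : ℂ) * ((w 0).im : ℂ)) * (normSq (w 2) : ℂ) := by
    funext w; rw [thx_SS_ne hi]; push_cast; ring
  rw [h, dzb_add (thx_diff_s0 p) (thx_diff_s0' δ p),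
    dzb_add (differentiableAt_const _) (thx_diff_normSq 1 p),
    dzb_mul (thx_diff_dim δ p) (thx_diff_normSq 2 p),
    dzb_mul (differentiableAt_const _) (thx_diff_im 0 p), dzb_const, dzb_const, dzb_im, dzb_normSq,
    dzb_normSq]
  fin_cases j <;> simp [-mul_eq_mul_right_iff, -mul_eq_mul_left_iff] <;> ring

lemma thx_dzdzb_SS0 {i : Fin 3} (hi : i ≠ 2) (δ : ℝ) (p : V) (j k : Fin 3) :
    dz j (dzb k (fun w => (SS δ i w : ℂ))) p =
      (!![0, 0, -I * δ / 2 * p 2; 0, 1, 0; I * δ / 2 * conj (p 2), 0, δ * (p 0).im] : Mat) j k := by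
  have h : dzb k (fun w => (SS δ i w : ℂ)) =
      fun w => ![I * δ / 2 * (normSq (w 2)), w 1, δ * (w 0).im * w 2] k := by
    funext w; exact thx_dzb_SS0 hi δ w k
  rw [h]
  fin_cases k
  · have : (fun w : V => (![I * δ / 2 * (normSq (w 2)), w 1, δ * (w 0).im * w 2] : V)
      ((fun i => i) ⟨0, by decide⟩)) =
      fun w : V => I * δ / 2 * (normSq (w 2) : ℂ) := by funext w; simp
    rw [this, dz_mul (differentiableAt_const _) (thx_diff_normSq 2 p), dz_const, dz_normSq]
    fin_cases j <;> simp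
  · have : (fun w : V => (![I * δ / 2 * (normSq (w 2)), w 1, δ * (w 0).im * w 2] : V)
      ((fun i => i) ⟨1, by decide⟩)) =
      fun w : V => w 1 := by funext w; simp
    rw [this, dz_coord]
    fin_cases j <;> simp
  · have : (fun w : V => (![I * δ / 2 * (normSq (w 2)), w 1, δ * (w 0).im * w 2] : V)
      ((fun i => i) ⟨2, by decide⟩)) =
      fun w : V => ((δ : ℂ) * ((w 0).im : ℂ)) * w 2 := by funext w; simp
    rw [this, dz_mul (thx_diff_dim δ p) (thx_diff_coord 2 p),
      dz_mul (differentiableAt_const _) (thx_diff_im 0 p), dz_const, dz_coord, dz_im]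
    fin_cases j <;> simp [-mul_eq_mul_right_iff, -mul_eq_mul_left_iff]
    ring


lemma SS_pos {δ : ℝ} (hδ : 0 < δ) (i : Fin 3) {p : V} (hp : p ∈ U) : 0 < SS δ i p := by
  have hy : 0 < (p 0).im := hp
  have h1 := normSq_nonneg (p 1)
  have h2 := normSq_nonneg (p 2)
  unfold SS
  split_ifs <;> positivity

lemma thx_two_le_infty : (2 : WithTop ℕ∞) ≤ ∞ := WithTop.coe_le_coe.2 (le_top : (2 : ℕ∞) ≤ ⊤)
lemma thx_three_le_infty : (3 : WithTop ℕ∞) ≤ ∞ := WithTop.coe_le_coe.2 (le_top : (3 : ℕ∞) ≤ ⊤)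

lemma thx_contDiff_normSq_coord (l : Fin 3) : ContDiff ℝ ∞ (fun p : V => normSq (p l)) := by
  have h1 : ContDiff ℝ ∞ (fun p : V => Complex.reCLM (p l)) := by fun_prop
  have h2 : ContDiff ℝ ∞ (fun p : V => Complex.imCLM (p l)) := by fun_prop
  exact (h1.mul h1).add (h2.mul h2)

lemma thx_contDiff_im_coord (l : Fin 3) : ContDiff ℝ ∞ (fun p : V => (p l).im) := by
  have h2 : ContDiff ℝ ∞ (fun p : V => Complex.imCLM (p l)) := by fun_prop
  exact h2

lemma SS_contDiff (δ : ℝ) (i : Fin 3) : ContDiff ℝ ∞ (SS δ i) := by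
  have h0 := thx_contDiff_im_coord 0
  have h1 := thx_contDiff_normSq_coord 1
  have h2 := thx_contDiff_normSq_coord 2
  by_cases hi : i = 2
  · subst hi
    have : SS δ 2 = fun p => δ * (p 0).im + normSq (p 1) + normSq (p 2) := by
      funext p; exact thx_SS_two δ p
    rw [this]
    exact ((contDiff_const.mul h0).add h1).add h2
  · have : SS δ i = fun p => 1 + normSq (p 1) + δ * (p 0).im * normSq (p 2) := by
      funext p; exact thx_SS_ne hi δ p
    rw [this]
    exact (contDiff_const.add h1).add ((contDiff_const.mul h0).mul h2)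

lemma SS_T0 (δ : ℝ) {p : V} (h2 : p 2 ≠ 0) : SS δ 2 (T0 p) = SS δ 0 p / normSq (p 2) := by
  have hN : normSq (p 2) ≠ 0 := by simpa [normSq_eq_zero] using h2
  rw [thx_SS_two, thx_SS_ne (by decide)]
  simp only [T0, Matrix.cons_val_zero, Matrix.cons_val_one, Matrix.cons_val, normSq_div, normSq_one]
  field_simp
  ring

lemma SS_T1 (δ : ℝ) {p : V} (h2 : p 2 ≠ 0) : SS δ 2 (T1 p) = SS δ 1 p / normSq (p 2) := by
  have hN : normSq (p 2) ≠ 0 := by simpa [normSq_eq_zero] using h2
  rw [thx_SS_two, thx_SS_ne (by decide)]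
  simp only [T1, Matrix.cons_val_zero, Matrix.cons_val_one, Matrix.cons_val, normSq_div, normSq_one]
  field_simp
  ring

lemma SS_act2 (δ : ℝ) {γ : Matrix.SpecialLinearGroup (Fin 2) ℝ} {p : V} (hp : p ∈ U) :
    SS δ 2 (act2 γ p) = SS δ 2 p / normSq (den γ (p 0)) := by
  have hN : normSq (den γ (p 0)) ≠ 0 := by
    simpa [normSq_eq_zero] using den_ne (γ := γ) (z := p 0) hp
  rw [thx_SS_two, thx_SS_two]
  simp only [act2, Matrix.cons_val_zero, Matrix.cons_val_one, Matrix.cons_val, normSq_div,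
    im_mob γ hp]
  field_simp

/-- entries of a smooth Hessian are smooth -/
lemma thx_contDiffOn_hess {h : V → ℝ} (hh : ContDiffOn ℝ ∞ h U) (j k : Fin 3) :
    ContDiffOn ℝ ∞ (fun p => hess h p j k) U := by
  have h1 : ContDiffOn ℝ ∞ (fun w => (h w : ℂ)) U :=
    Complex.ofRealCLM.contDiff.comp_contDiffOn hh
  have h2 := contDiffOn_dzb (j := k) isOpen_U (a := ⊤) (b := ⊤) (by simp) h1
  exact contDiffOn_dz (j := j) isOpen_U (a := ⊤) (b := ⊤) (by simp) h2

lemma thx_contDiffOn_logSS {δ : ℝ} (hδ : 0 < δ) (i : Fin 3) :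
    ContDiffOn ℝ ∞ (fun p => Real.log (SS δ i p)) U :=
  (SS_contDiff δ i).contDiffOn.log (fun p hp => (SS_pos hδ i hp).ne')

lemma thx_contDiffAt_of_U {n : WithTop ℕ∞} {h : V → ℝ} (hh : ContDiffOn ℝ ∞ h U) (hn : n ≤ ∞) {p : V}
    (hp : p ∈ U) : ContDiffAt ℝ n h p :=
  (hh.contDiffAt (isOpen_U.mem_nhds hp)).of_le hn

/-- `-i∂∂̄ log y = f` -/
lemma hess_log_im {p : V} (hp : p ∈ U) (i : Fin 3) :
    hess (fun p => Real.log (p 0).im) p = - fF i p := by
  have hy : 0 < (p 0).im := hp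
  have hy' : ((p 0).im : ℂ) ≠ 0 := by exact_mod_cast hy.ne'
  have h1 : ∀ k : Fin 3, dzb k (fun w : V => ((w 0).im : ℂ)) =
      fun _ => if k = 0 then I / 2 else 0 := by
    intro k; funext w; exact dzb_im 0
  ext j k
  rw [thx_hess_log ((thx_contDiff_im_coord 0).contDiffAt.of_le thx_two_le_infty) hy, h1,
    dz_const, dz_im]
  fin_cases j <;> fin_cases k <;> simp [fF, Matrix.single]
  field_simp
  simp
  norm_num

lemma thx_fF_apply (i : Fin 3) (p : V) : fF i p =
    (!![((1 / (4 * (p 0).im ^ 2) : ℝ) : ℂ), 0, 0; 0, 0, 0; 0, 0, 0] : Mat) := by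
  ext j k
  fin_cases j <;> fin_cases k <;> simp [fF, Matrix.single]

lemma fF_form11 : Form11 fF := by
  refine ⟨?_, ?_, ?_, ?_, ?_⟩
  · intro i j k
    have h0 : ContDiffOn ℝ ∞ (fun p : V => ((1 / (4 * (p 0).im ^ 2) : ℝ) : ℂ)) U := by
      have h1 : ContDiffOn ℝ ∞ (fun p : V => (1 / (4 * (p 0).im ^ 2) : ℝ)) U := by
        refine contDiffOn_const.div ?_ ?_
        · exact contDiffOn_const.mul ((thx_contDiff_im_coord 0).contDiffOn.pow 2)
        · intro p hp
          have : 0 < (p 0).im := hp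
          positivity
      exact Complex.ofRealCLM.contDiff.comp_contDiffOn h1
    simp only [thx_fF_apply]
    fin_cases j <;> fin_cases k <;> simp only [Matrix.of_apply, Matrix.cons_val', Matrix.cons_val]
    all_goals first | exact h0 | exact contDiffOn_const
  · intro i p _
    rw [thx_fF_apply]
    ext j k
    fin_cases j <;> fin_cases k <;> simp
  · intro p hp h2
    rw [pull_eq, Jac_T0 h2, thx_fF_apply, thx_fF_apply]
    ext j k
    fin_cases j <;> fin_cases k <;> simp [Matrix.mul_apply, Fin.sum_univ_three, T0]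
  · intro p hp h2
    rw [pull_eq, Jac_T1 h2, thx_fF_apply, thx_fF_apply]
    ext j k
    fin_cases j <;> fin_cases k <;> simp [Matrix.mul_apply, Fin.sum_univ_three, T1]
  · intro γ _ p hp
    have hy : 0 < (p 0).im := hp
    have hy' : ((p 0).im : ℂ) ≠ 0 := by exact_mod_cast hy.ne'
    have hd := den_ne (γ := γ) (z := p 0) hp
    have hd' : conj (den γ (p 0)) ≠ 0 := by simpa using hd
    have hN : (normSq (den γ (p 0)) : ℂ) = conj (den γ (p 0)) * den γ (p 0) :=
      Complex.normSq_eq_conj_mul_self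
    rw [pull_eq, Jac_act2 γ hp, thx_fF_apply, thx_fF_apply]
    ext j k
    fin_cases j <;> fin_cases k <;>
      simp [Matrix.mul_apply, Fin.sum_univ_three, act2, im_mob γ hp, hN]
    field_simp

lemma fF_closed : Closed fF := by
  intro i p hp a j k
  have h : ∀ j k : Fin 3, (fun w : V => fF i w j k) =ᶠ[𝓝 p]
      fun w => - hess (fun p => Real.log (p 0).im) w j k := by
    intro j k
    filter_upwards [isOpen_U.mem_nhds hp] with w hw
    rw [hess_log_im hw i]
    simp
  rw [dz_congr (h j k), dz_congr (h a k), dz_neg, dz_neg]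
  congr 1
  refine hess_closed ?_ a j k
  have : ContDiffOn ℝ ∞ (fun p : V => Real.log (p 0).im) U :=
    (thx_contDiff_im_coord 0).contDiffOn.log (fun p hp => (ne_of_gt hp : (p 0).im ≠ 0))
  exact thx_contDiffAt_of_U this thx_three_le_infty hp

lemma thx_contDiffAt_normSq {n : WithTop ℕ∞} {g : V → ℂ} {p : V} (hg : ContDiffAt ℝ n g p) :
    ContDiffAt ℝ n (fun w => normSq (g w)) p := by
  have h1 : ContDiffAt ℝ n (fun w => Complex.reCLM (g w)) p :=
    Complex.reCLM.contDiff.contDiffAt.comp p hg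
  have h2 : ContDiffAt ℝ n (fun w => Complex.imCLM (g w)) p :=
    Complex.imCLM.contDiff.contDiffAt.comp p hg
  exact (h1.mul h1).add (h2.mul h2)

lemma thx_hess_logSS_pull {δ : ℝ} (hδ : 0 < δ) {T : V → V} {g : V → ℂ} {i : Fin 3} {p : V}
    (hp : p ∈ U) (hTp : T p ∈ U)
    (hT : ContDiffAt ℂ 2 T p) (hg : ContDiffAt ℂ 2 g p)
    (hgc : ContDiffAt ℝ 2 g p)
    (h0 : g p ≠ 0) (h : ∀ᶠ w in 𝓝 p, w ∈ U → SS δ 2 (T w) = SS δ i w / normSq (g w)) :
    hess (fun p => Real.log (SS δ i p)) p = pull T (hess (fun p => Real.log (SS δ 2 p))) p := by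
  have hS2 : ContDiffAt ℝ 2 (fun p => Real.log (SS δ 2 p)) (T p) :=
    thx_contDiffAt_of_U (thx_contDiffOn_logSS hδ 2) thx_two_le_infty hTp
  rw [← hess_comp hT hS2]
  have hgn : ∀ᶠ w in 𝓝 p, g w ≠ 0 := hgc.continuousAt.eventually_ne h0
  have hSi : ContDiffAt ℝ 2 (fun p => Real.log (SS δ i p)) p :=
    thx_contDiffAt_of_U (thx_contDiffOn_logSS hδ i) thx_two_le_infty hp
  have hgs : ContDiffAt ℝ 2 (fun w => -Real.log (normSq (g w))) p :=
    ((thx_contDiffAt_normSq hgc).log (by simpa [normSq_eq_zero] using h0)).neg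
  have e1 : (fun w => Real.log (SS δ 2 (T w))) =ᶠ[𝓝 p]
      fun w => Real.log (SS δ i w) + -Real.log (normSq (g w)) := by
    filter_upwards [h, isOpen_U.mem_nhds hp, hgn] with w hw hwU hgw
    rw [hw hwU, Real.log_div (SS_pos hδ i hwU).ne' (by simpa [normSq_eq_zero] using hgw)]
    ring
  have e2 : hess (fun w => -Real.log (normSq (g w))) p = 0 := by
    have := hess_smul (-1) (h := fun w => Real.log (normSq (g w))) (p := p)
      ((thx_contDiffAt_normSq hgc).log (by simpa [normSq_eq_zero] using h0))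
    rw [hess_log_normSq hg h0] at this
    simpa using this
  rw [hess_congr e1, hess_add hSi hgs, e2, add_zero]

lemma thx_pull_add {T : V → V} {h h' : V → Mat} (p : V) :
    pull T (fun w => h w + h' w) p = pull T h p + pull T h' p := by
  simp only [pull_eq, Matrix.mul_add, Matrix.add_mul]

lemma ThD_form11 {δ : ℝ} (hδ : 0 < δ) : Form11 (ThD δ) := by
  have hh := fF_form11
  refine ⟨?_, ?_, ?_, ?_, ?_⟩
  · intro i j k
    exact (thx_contDiffOn_hess (thx_contDiffOn_logSS hδ i) j k).add (hh.smooth i j k)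
  · intro i p hp
    exact (hess_herm (thx_contDiffAt_of_U (thx_contDiffOn_logSS hδ i) thx_two_le_infty hp)).add (hh.herm i p hp)
  · intro p hp h2
    have hc : ContDiff ℝ 2 (fun w : V => w 2) := by fun_prop
    have e := thx_hess_logSS_pull hδ (T := T0) (g := fun w => w 2) (i := 0) hp (T0_mem.2 hp)
      ((T0_contDiffOn.contDiffAt ((isOpen_ne_fun (continuous_apply 2) continuous_const).mem_nhds
        h2)).of_le le_top)
      (by fun_prop) hc.contDiffAt h2
      (by
        filter_upwards [hc.continuous.continuousAt.eventually_ne h2] with w hw _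
          using SS_T0 δ hw)
    show _ + _ = pull T0 (fun w => hess (fun p => Real.log (SS δ 2 p)) w + fF 2 w) p
    rw [thx_pull_add, ← e, ← hh.pull0 p hp h2]
  · intro p hp h2
    have hc : ContDiff ℝ 2 (fun w : V => w 2) := by fun_prop
    have e := thx_hess_logSS_pull hδ (T := T1) (g := fun w => w 2) (i := 1) hp (T1_mem.2 hp)
      ((T1_contDiffOn.contDiffAt ((isOpen_ne_fun (continuous_apply 2) continuous_const).mem_nhds
        h2)).of_le le_top)
      (by fun_prop) hc.contDiffAt h2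
      (by
        filter_upwards [hc.continuous.continuousAt.eventually_ne h2] with w hw _
          using SS_T1 δ hw)
    show _ + _ = pull T1 (fun w => hess (fun p => Real.log (SS δ 2 p)) w + fF 2 w) p
    rw [thx_pull_add, ← e, ← hh.pull1 p hp h2]
  · intro γ hγ p hp
    have hc : ContDiff ℝ 2 (fun w : V => den γ (w 0)) := by unfold den; fun_prop
    have e := thx_hess_logSS_pull hδ (T := act2 γ) (g := fun w => den γ (w 0)) (i := 2) hp
      (act2_mem γ hp)
      (((act2_contDiffOn γ).contDiffAt (isOpen_U.mem_nhds hp)).of_le le_top)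
      (by unfold den; fun_prop) hc.contDiffAt (den_ne hp)
      (by filter_upwards with w hw using SS_act2 δ hw)
    show _ + _ = pull (act2 γ) (fun w => hess (fun p => Real.log (SS δ 2 p)) w + fF 2 w) p
    rw [thx_pull_add, ← e, ← hh.equiv γ hγ p hp]

lemma ThD_closed {δ : ℝ} (hδ : 0 < δ) : Closed (ThD δ) := by
  intro i p hp a j k
  have hd : ∀ j k : Fin 3, DifferentiableAt ℝ
      (fun w => hess (fun p => Real.log (SS δ i p)) w j k) p := fun j k =>
    ((thx_contDiffOn_hess (thx_contDiffOn_logSS hδ i) j k).contDiffAt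
      (isOpen_U.mem_nhds hp)).differentiableAt (by simp)
  have hd' : ∀ j k : Fin 3, DifferentiableAt ℝ (fun w => fF i w j k) p := fun j k =>
    ((fF_form11.smooth i j k).contDiffAt (isOpen_U.mem_nhds hp)).differentiableAt (by simp)
  have e : ∀ j k : Fin 3, (fun w => ThD δ i w j k) =
    fun w => hess (fun p => Real.log (SS δ i p)) w j k + fF i w j k := fun j k => rfl
  rw [e, e, dz_add (hd j k) (hd' j k), dz_add (hd a k) (hd' a k), fF_closed i p hp a j k,
    hess_closed (thx_contDiffAt_of_U (thx_contDiffOn_logSS hδ i) thx_three_le_infty hp) a j k]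

/-- explicit formula in chart 2, with `S = δy + |u|²` -/
lemma ThD_chart2 {δ : ℝ} (hδ : 0 < δ) {p : V} (hp : p ∈ U) : ThD δ 2 p =
    let S : ℂ := (SS δ 2 p : ℂ)
    let y : ℂ := ((p 0).im : ℂ)
    !![1 / (4 * y ^ 2) - δ ^ 2 / (4 * S ^ 2), I * δ * p 1 / (2 * S ^ 2), I * δ * p 2 / (2 * S ^ 2);
      - I * δ * conj (p 1) / (2 * S ^ 2), 1 / S - normSq (p 1) / S ^ 2,
        - conj (p 1) * p 2 / S ^ 2;
      - I * δ * conj (p 2) / (2 * S ^ 2), - conj (p 2) * p 1 / S ^ 2,
        1 / S - normSq (p 2) / S ^ 2] := by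
  have hS : (SS δ 2 p : ℂ) ≠ 0 := by exact_mod_cast (SS_pos hδ 2 hp).ne'
  have hy : 0 < (p 0).im := hp
  have hy' : ((p 0).im : ℂ) ≠ 0 := by exact_mod_cast hy.ne'
  have hI : I ^ 2 = -1 := I_sq
  dsimp only
  ext j k
  show hess (fun p => Real.log (SS δ 2 p)) p j k + fF 2 p j k = _
  rw [thx_hess_log ((SS_contDiff δ 2).contDiffAt.of_le thx_two_le_infty) (SS_pos hδ 2 hp), thx_dz_SS2, thx_dzb_SS2,
    thx_dzdzb_SS2, thx_fF_apply]
  fin_cases j <;> fin_cases k <;> simp [Complex.normSq_eq_conj_mul_self]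
  all_goals field_simp
  all_goals try ring_nf
  all_goals simp only [hI]
  all_goals try ring

lemma thx_ThD_chart0_apply {δ : ℝ} (hδ : 0 < δ) {i : Fin 3} (hi : i ≠ 2) {p : V} (hp : p ∈ U)
    (j k : Fin 3) : ThD δ i p j k =
      (!![0, 0, -I * δ / 2 * p 2; 0, 1, 0; I * δ / 2 * conj (p 2), 0, δ * (p 0).im] : Mat) j k /
        (SS δ i p : ℂ) -
      (![-I * δ / 2 * normSq (p 2), conj (p 1), δ * (p 0).im * conj (p 2)] : V) j *
      (![I * δ / 2 * (normSq (p 2)), p 1, δ * (p 0).im * p 2] : V) k / (SS δ i p : ℂ) ^ 2 +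
      (!![((1 / (4 * (p 0).im ^ 2) : ℝ) : ℂ), 0, 0; 0, 0, 0; 0, 0, 0] : Mat) j k := by
  show hess (fun p => Real.log (SS δ i p)) p j k + fF i p j k = _
  rw [thx_hess_log ((SS_contDiff δ i).contDiffAt.of_le thx_two_le_infty) (SS_pos hδ i hp), thx_dz_SS0 hi,
    thx_dzb_SS0 hi, thx_dzdzb_SS0 hi, thx_fF_apply]

lemma zpart_Th {p : V} (hp : p ∈ U) (i : Fin 3) : zpart Th i p = 0 := by
  have hp' : (![p 0, 0, 0] : V) ∈ U := by
    show 0 < ((![p 0, 0, 0] : V) 0).im
    exact hp
  have hy : 0 < (p 0).im := hp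
  have hy' : ((p 0).im : ℂ) ≠ 0 := by exact_mod_cast hy.ne'
  unfold zpart Th
  rw [ThD_chart2 one_pos hp', thx_SS_two]
  simp

lemma thx_lineW_Th_eq {z : ℂ} (hz : 0 < z.im) (a l : ℂ) : lineW Th z a l =
    (((1 + normSq a) * z.im / (z.im + (1 + normSq a) * ‖l‖ ^ 2) ^ 2 : ℝ) : ℂ) := by
  have hp' : (![z, l, l * a] : V) ∈ U := by
    show 0 < ((![z, l, l * a] : V) 0).im
    simpa using hz
  have hS := SS_pos one_pos 2 hp'
  have hSe : SS 1 2 (![z, l, l * a] : V) = z.im + (1 + normSq a) * ‖l‖ ^ 2 := by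
    rw [thx_SS_two, ← Complex.normSq_eq_norm_sq]
    simp [normSq_mul]
    ring
  rw [hSe] at hS
  have hS' : ((z.im + (1 + normSq a) * ‖l‖ ^ 2 : ℝ) : ℂ) ≠ 0 := by exact_mod_cast hS.ne'
  have hl : ((‖l‖ : ℝ) : ℂ) ^ 2 = conj l * l := by
    rw [← Complex.normSq_eq_conj_mul_self, Complex.normSq_eq_norm_sq]; push_cast; rfl
  unfold lineW Th
  rw [ThD_chart2 one_pos hp', hSe]
  push_cast at hS' ⊢
  simp [Complex.normSq_eq_conj_mul_self, hl] at hS' ⊢
  field_simp
  ring

lemma lineW_Th {z : ℂ} (hz : 0 < z.im) (a : ℂ) : ∫ l, lineW Th z a l = Real.pi := by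
  have hA : 0 < 1 + normSq a := by have := normSq_nonneg a; positivity
  set A := 1 + normSq a with hAdef
  set y := z.im with hy
  have e1 : ∀ l, lineW Th z a l = ((A * y / (y + A * ‖l‖ ^ 2) ^ 2 : ℝ) : ℂ) := fun l =>
    thx_lineW_Th_eq hz a l
  simp_rw [e1]
  rw [integral_complex_ofReal]
  congr 1
  rw [integral_fun_norm_addHaar volume (fun r => A * y / (y + A * r ^ 2) ^ 2)]
  have h1 : ∫ r in Set.Ioi (0 : ℝ), r ^ (Module.finrank ℝ ℂ - 1) •
      (A * y / (y + A * r ^ 2) ^ 2) = 1 / 2 := by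
    have hd : ∀ x ∈ Set.Ioi (0 : ℝ), HasDerivAt (fun r : ℝ => -(y / (2 * (y + A * r ^ 2))))
        (x ^ (Module.finrank ℝ ℂ - 1) • (A * y / (y + A * x ^ 2) ^ 2)) x := by
      intro x hx
      have hx0 : 0 < x := hx
      have hne : (2 * (y + A * x ^ 2)) ≠ 0 := by positivity
      have h2 : HasDerivAt (fun r : ℝ => 2 * (y + A * r ^ 2)) (2 * (A * (2 * x))) x := by
        have := (((hasDerivAt_pow 2 x).const_mul A).const_add y).const_mul 2
        simpa using this
      have h3 := ((hasDerivAt_const x y).div h2 hne).neg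
      refine HasDerivAt.congr_deriv h3 ?_
      rw [Complex.finrank_real_complex]
      simp
      field_simp
    have hc : ContinuousWithinAt (fun r : ℝ => -(y / (2 * (y + A * r ^ 2)))) (Set.Ici 0) 0 := by
      have : ContinuousAt (fun r : ℝ => -(y / (2 * (y + A * r ^ 2)))) 0 := by
        refine (ContinuousAt.div continuousAt_const (by fun_prop) ?_).neg
        simp; exact hz.ne'
      exact this.continuousWithinAt
    have hl : Tendsto (fun r : ℝ => -(y / (2 * (y + A * r ^ 2)))) atTop (𝓝 0) := by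
      have h4 : Tendsto (fun r : ℝ => 2 * (y + A * r ^ 2)) atTop atTop := by
        refine Tendsto.const_mul_atTop (by norm_num) ?_
        refine tendsto_atTop_add_const_left _ _ ?_
        exact Tendsto.const_mul_atTop hA (tendsto_pow_atTop (by norm_num))
      have := (h4.const_div_atTop y).neg
      simpa using this
    rw [integral_Ioi_of_hasDerivAt_of_nonneg hc hd ?_ hl]
    · simp
      field_simp
    · intro x hx
      have hx0 : 0 < x := hx
      have : 0 < y + A * x ^ 2 := by positivity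
      have := hz
      positivity
  rw [h1]
  have h5 : (volume : Measure ℂ).real (Metric.ball 0 1) = Real.pi := by
    simp [Measure.real, Complex.volume_ball]
  rw [h5, Complex.finrank_real_complex]
  simp
  ring

lemma fF_psd {p : V} (hp : p ∈ U) (i : Fin 3) : (fF i p).PosSemidef := by
  have hy : 0 < (p 0).im := hp
  refine Matrix.PosSemidef.of_dotProduct_mulVec_nonneg (fF_form11.herm i p hp) fun x => ?_
  have : star x ⬝ᵥ (fF i p *ᵥ x) = ((1 / (4 * (p 0).im ^ 2) * normSq (x 0) : ℝ) : ℂ) := by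
    rw [thx_fF_apply]
    simp [Matrix.mulVec, dotProduct, Fin.sum_univ_three, Complex.normSq_eq_conj_mul_self]
    ring
  rw [this]
  have h0 := normSq_nonneg (x 0)
  exact Complex.zero_le_real.2 (by positivity)

lemma thx_Th_quad {p : V} (hp : p ∈ U) (x : Fin 3 → ℂ) : star x ⬝ᵥ (Th 2 p *ᵥ x) =
    ((normSq (conj (p 1) * x 2 - conj (p 2) * x 1) / SS 1 2 p ^ 2 +
      (normSq ((p 0).im * x 1 - I / 2 * x 0 * conj (p 1)) +
        normSq ((p 0).im * x 2 - I / 2 * x 0 * conj (p 2))) / ((p 0).im * SS 1 2 p ^ 2) +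
      normSq (x 0) * (normSq (p 1) + normSq (p 2)) / (4 * (p 0).im ^ 2 * SS 1 2 p) : ℝ) : ℂ) := by
  have hy : 0 < (p 0).im := hp
  have hy' : ((p 0).im : ℂ) ≠ 0 := by exact_mod_cast hy.ne'
  have hS : (SS 1 2 p : ℂ) ≠ 0 := by exact_mod_cast (SS_pos one_pos 2 hp).ne'
  have hSe : (SS 1 2 p : ℂ) = (p 0).im + conj (p 1) * p 1 + conj (p 2) * p 2 := by
    rw [thx_SS_two]; push_cast; simp [Complex.normSq_eq_conj_mul_self]
  have hI : I ^ 2 = -1 := I_sq
  unfold Th
  rw [ThD_chart2 one_pos hp]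
  simp only [Matrix.mulVec, dotProduct, Fin.sum_univ_three, Matrix.of_apply, Matrix.cons_val',
    Matrix.cons_val_zero, Matrix.cons_val_one, Matrix.cons_val, Pi.star_apply,
    RCLike.star_def]
  push_cast
  simp only [Complex.normSq_eq_conj_mul_self, map_sub, map_mul, map_div₀, conj_I, conj_ofReal,
    Complex.conj_conj, map_ofNat]
  field_simp
  rw [hSe]
  ring_nf
  simp only [hI]
  ring

lemma Th_psd {p : V} (hp : p ∈ U) : (Th 2 p).PosSemidef := by
  have hy : 0 < (p 0).im := hp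
  have hS := SS_pos one_pos 2 hp
  refine Matrix.PosSemidef.of_dotProduct_mulVec_nonneg ((ThD_form11 one_pos).herm 2 p hp)
    fun x => ?_
  rw [thx_Th_quad hp]
  refine Complex.zero_le_real.2 ?_
  have h0 := normSq_nonneg (x 0)
  have h1 := normSq_nonneg (conj (p 1) * x 2 - conj (p 2) * x 1)
  have h2 := normSq_nonneg ((p 0).im * x 1 - I / 2 * x 0 * conj (p 1))
  have h3 := normSq_nonneg ((p 0).im * x 2 - I / 2 * x 0 * conj (p 2))
  have h4 := normSq_nonneg (p 1)
  have h5 := normSq_nonneg (p 2)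
  positivity


lemma D3_fF_Th_Th {p : V} (hp : p ∈ U) : D3 (fF 2 p) (Th 2 p) (Th 2 p) =
    ((1 / 2 / ((p 0).im * SS 1 2 p ^ 3) : ℝ) : ℂ) := by
  have hy : 0 < (p 0).im := hp
  have hy' : ((p 0).im : ℂ) ≠ 0 := by exact_mod_cast hy.ne'
  have hS : (SS 1 2 p : ℂ) ≠ 0 := by exact_mod_cast (SS_pos one_pos 2 hp).ne'
  have hSe : (SS 1 2 p : ℂ) = (p 0).im + conj (p 1) * p 1 + conj (p 2) * p 2 := by
    rw [thx_SS_two]; push_cast; simp [Complex.normSq_eq_conj_mul_self]
  unfold Th
  rw [ThD_chart2 one_pos hp, thx_fF_apply]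
  simp only [D3, cofm, Fin.sum_univ_three, Matrix.of_apply, Matrix.cons_val',
    Matrix.cons_val_zero, Matrix.cons_val_one, Matrix.cons_val]
  have e1 : (0 : Fin 3) + 1 = 1 := rfl
  have e2 : (0 : Fin 3) + 2 = 2 := rfl
  simp only [e1, e2, Matrix.cons_val_zero, Matrix.cons_val_one, Matrix.cons_val]
  push_cast
  simp only [Complex.normSq_eq_conj_mul_self]
  field_simp
  rw [hSe]
  ring

lemma D3_Th_Th_Th {p : V} (hp : p ∈ U) : D3 (Th 2 p) (Th 2 p) (Th 2 p) =
    ((3 / 2 * (normSq (p 1) + normSq (p 2)) / ((p 0).im * SS 1 2 p ^ 4) : ℝ) : ℂ) := by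
  have hy : 0 < (p 0).im := hp
  have hy' : ((p 0).im : ℂ) ≠ 0 := by exact_mod_cast hy.ne'
  have hS : (SS 1 2 p : ℂ) ≠ 0 := by exact_mod_cast (SS_pos one_pos 2 hp).ne'
  have hSe : (SS 1 2 p : ℂ) = (p 0).im + conj (p 1) * p 1 + conj (p 2) * p 2 := by
    rw [thx_SS_two]; push_cast; simp [Complex.normSq_eq_conj_mul_self]
  have hI : I ^ 2 = -1 := I_sq
  unfold Th
  rw [D3_self, Matrix.det_fin_three, ThD_chart2 one_pos hp]
  simp only [Matrix.of_apply, Matrix.cons_val',
    Matrix.cons_val_zero, Matrix.cons_val_one, Matrix.cons_val]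
  push_cast
  simp only [Complex.normSq_eq_conj_mul_self]
  field_simp
  rw [hSe]
  ring_nf
  simp only [hI]
  ring

lemma thx_Th_fF_quad0 {i : Fin 3} (hi : i ≠ 2) {p : V} (hp : p ∈ U) (x : Fin 3 → ℂ) :
    star x ⬝ᵥ ((Th i p + fF i p) *ᵥ x) =
    (((normSq (x 1) + (p 0).im * normSq (x 2 + I / (2 * (p 0).im) * x 0 * conj (p 2)) +
        (p 0).im * normSq (conj (p 1) * (x 2 + I / (2 * (p 0).im) * x 0 * conj (p 2)) -
          conj (p 2) * x 1)) / SS 1 i p ^ 2 +
      normSq (x 0) * (2 - (p 0).im * normSq (p 2) / SS 1 i p) / (4 * (p 0).im ^ 2) : ℝ) : ℂ) := by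
  have hy : 0 < (p 0).im := hp
  have hy' : ((p 0).im : ℂ) ≠ 0 := by exact_mod_cast hy.ne'
  have hS : (SS 1 i p : ℂ) ≠ 0 := by exact_mod_cast (SS_pos one_pos i hp).ne'
  have hSe : (SS 1 i p : ℂ) = 1 + conj (p 1) * p 1 + (p 0).im * (conj (p 2) * p 2) := by
    rw [thx_SS_ne hi]; push_cast; simp [Complex.normSq_eq_conj_mul_self]
  have hI : I ^ 2 = -1 := I_sq
  simp only [Matrix.mulVec, dotProduct, Fin.sum_univ_three, Matrix.add_apply, Th]
  simp only [thx_ThD_chart0_apply one_pos hi hp, thx_fF_apply, Matrix.of_apply, Matrix.cons_val',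
    Matrix.cons_val_zero, Matrix.cons_val_one, Matrix.cons_val, Pi.star_apply,
    RCLike.star_def]
  push_cast
  simp only [Complex.normSq_eq_conj_mul_self, map_sub, map_add, map_mul, map_div₀, conj_I,
    conj_ofReal, Complex.conj_conj, map_ofNat]
  field_simp
  rw [hSe]
  ring_nf
  simp only [hI]
  ring

/-- the Kähler form `Θ + f` -/
lemma Th_fF_posDef {p : V} (hp : p ∈ U) (i : Fin 3) : (Th i p + fF i p).PosDef := by
  have hy : 0 < (p 0).im := hp
  have hy' : ((p 0).im : ℂ) ≠ 0 := by exact_mod_cast hy.ne'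
  have hS := SS_pos one_pos i hp
  have hherm : (Th i p + fF i p).IsHermitian :=
    ((ThD_form11 one_pos).herm i p hp).add (fF_form11.herm i p hp)
  refine Matrix.PosDef.of_dotProduct_mulVec_pos hherm fun x hx => ?_
  by_cases hi : i = 2
  · subst hi
    have e : star x ⬝ᵥ ((Th 2 p + fF 2 p) *ᵥ x) =
        ((normSq (conj (p 1) * x 2 - conj (p 2) * x 1) / SS 1 2 p ^ 2 +
      (normSq ((p 0).im * x 1 - I / 2 * x 0 * conj (p 1)) +
        normSq ((p 0).im * x 2 - I / 2 * x 0 * conj (p 2))) / ((p 0).im * SS 1 2 p ^ 2) +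
      normSq (x 0) * (normSq (p 1) + normSq (p 2)) / (4 * (p 0).im ^ 2 * SS 1 2 p) +
      1 / (4 * (p 0).im ^ 2) * normSq (x 0) : ℝ) : ℂ) := by
      rw [Matrix.add_mulVec, dotProduct_add, thx_Th_quad hp, Complex.ofReal_add _ (1 / _ * _)]
      congr 1
      rw [thx_fF_apply]
      simp [Matrix.mulVec, dotProduct, Fin.sum_univ_three, Complex.normSq_eq_conj_mul_self]
      ring
    rw [e]
    refine Complex.zero_lt_real.2 ?_
    have h0 := normSq_nonneg (x 0)
    have h1 := normSq_nonneg (conj (p 1) * x 2 - conj (p 2) * x 1)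
    have h2 := normSq_nonneg ((p 0).im * x 1 - I / 2 * x 0 * conj (p 1))
    have h3 := normSq_nonneg ((p 0).im * x 2 - I / 2 * x 0 * conj (p 2))
    have h4 := normSq_nonneg (p 1)
    have h5 := normSq_nonneg (p 2)
    by_cases hx0 : x 0 = 0
    · have h6 : 0 < normSq ((p 0).im * x 1 - I / 2 * x 0 * conj (p 1)) +
          normSq ((p 0).im * x 2 - I / 2 * x 0 * conj (p 2)) := by
        by_contra hcon
        have h7 : normSq ((p 0).im * x 1 - I / 2 * x 0 * conj (p 1)) = 0 := by linarith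
        have h8 : normSq ((p 0).im * x 2 - I / 2 * x 0 * conj (p 2)) = 0 := by linarith
        rw [normSq_eq_zero, hx0] at h7 h8
        apply hx
        have h9 : x 1 = 0 := by simpa [hy'] using h7
        have h10 : x 2 = 0 := by simpa [hy'] using h8
        ext j; fin_cases j <;> simp [hx0, h9, h10]
      positivity
    · have h6 : 0 < normSq (x 0) := normSq_pos.2 hx0
      positivity
  · rw [thx_Th_fF_quad0 hi hp]
    refine Complex.zero_lt_real.2 ?_
    set X := x 2 + I / (2 * (p 0).im) * x 0 * conj (p 2) with hX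
    have h0 := normSq_nonneg (x 0)
    have h1 := normSq_nonneg (x 1)
    have h2 := normSq_nonneg X
    have h3 := normSq_nonneg (conj (p 1) * X - conj (p 2) * x 1)
    have h4 := normSq_nonneg (p 1)
    have h5 := normSq_nonneg (p 2)
    have h6 : (p 0).im * normSq (p 2) / SS 1 i p ≤ 1 := by
      rw [div_le_one hS, thx_SS_ne hi]
      linarith
    have h7 : 0 < 2 - (p 0).im * normSq (p 2) / SS 1 i p := by linarith
    by_cases hx0 : x 0 = 0
    · have h8 : 0 < normSq (x 1) + (p 0).im * normSq X := by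
        by_contra hcon
        have h9 : 0 ≤ (p 0).im * normSq X := by positivity
        have h10 : normSq (x 1) = 0 := by linarith
        have h11 : (p 0).im * normSq X = 0 := by linarith
        have h12 : normSq X = 0 := by
          rcases mul_eq_zero.1 h11 with h | h
          · exact absurd h hy.ne'
          · exact h
        rw [normSq_eq_zero] at h10 h12
        rw [hX, hx0] at h12
        apply hx
        have h13 : x 2 = 0 := by simpa using h12
        ext j; fin_cases j <;> simp [hx0, h10, h13]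
      positivity
    · have h8 : 0 < normSq (x 0) := normSq_pos.2 hx0
      positivity

end Pool.Agent.KG
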