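import Mathlib
import Pool.Agent.KG.StokesM
import Pool.Agent.KG.Theta
import Pool.Agent.KG.Radial
import Pool.Agent.KG.Psi

open scoped ContDiff ComplexConjugate ComplexOrder Matrix Topology MatrixGroups
open Complex MeasureTheory Filter

namespace Pool.Agent.KG

/-! # Module H: the balanced metric with negative total Chern scalar curvature -/

namespace Bal


/-! ### algebra -/

lemma cofm_eq_adj (A B : Mat) (j k : Fin 3) :
    cofm A B j k = (A + B).adjugate k j - A.adjugate k j - B.adjugate k j := by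
  have h1 := cofm_self (A + B) j k
  have h2 := cofm_self A j k
  have h3 := cofm_self B j k
  rw [cofm_add_left, cofm_comm A (A + B), cofm_comm B (A + B), cofm_add_left, cofm_add_left,
    cofm_comm B A] at h1
  simp only [Matrix.add_apply] at h1
  rw [h2, h3] at h1
  linear_combination h1 / 2

/-- cofactor matrix -/
noncomputable def cf (J : Mat) : Mat := J.adjugateᵀ

lemma cofm_transform (J A B : Mat) :
    cofm (J * A * Jᴴ) (J * B * Jᴴ) = cf J * cofm A B * (cf J)ᴴ := by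
  have key : ∀ X : Mat, (J * X * Jᴴ).adjugate = Jᴴ.adjugate * (X.adjugate * J.adjugate) := by
    intro X
    rw [Matrix.adjugate_mul_distrib, Matrix.adjugate_mul_distrib]
  have e : cofm A B = ((A + B).adjugate - A.adjugate - B.adjugate)ᵀ := by
    ext j k; rw [cofm_eq_adj]; rfl
  have e' : cofm (J * A * Jᴴ) (J * B * Jᴴ) =
      ((J * (A + B) * Jᴴ).adjugate - (J * A * Jᴴ).adjugate - (J * B * Jᴴ).adjugate)ᵀ := by
    ext j k; rw [cofm_eq_adj, mul_add, add_mul]; rfl
  have hJ : Jᴴ.adjugate = J.adjugateᴴ := by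
    rw [Matrix.adjugate_conjTranspose]
  rw [e', e, key, key, key, ← mul_sub, ← mul_sub, ← sub_mul, ← sub_mul, hJ, cf,
    Matrix.transpose_mul, Matrix.transpose_mul, Matrix.conjTranspose_transpose,
    Matrix.transpose_conjTranspose]
  


lemma cofm_diag (a b : Fin 3 → ℂ) : cofm (Matrix.diagonal a) (Matrix.diagonal b) =
    Matrix.diagonal (fun j => a (j + 1) * b (j + 2) + a (j + 2) * b (j + 1)) := by
  ext j k
  fin_cases j <;> fin_cases k <;> simp [cofm, Matrix.diagonal]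

lemma D3_diag (a b c : Fin 3 → ℂ) :
    D3 (Matrix.diagonal a) (Matrix.diagonal b) (Matrix.diagonal c) =
      ∑ j, a j * (b (j + 1) * c (j + 2) + b (j + 2) * c (j + 1)) := by
  simp only [D3, cofm_diag]
  refine Finset.sum_congr rfl fun j _ => ?_
  rw [Finset.sum_eq_single j]
  · simp
  · intro k _ hk
    simp [Matrix.diagonal_apply_ne' _ hk]
  · simp

/-- the three rank one forms `η`, `f`, `τ` in chart 2, as columns -/
noncomputable def Jm (p : V) : Mat :=
  let y : ℂ := ((p 0).im : ℂ)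
  let N : ℂ := ((normSq (p 1) + normSq (p 2) : ℝ) : ℂ)
  !![0, 1 / (2 * y), I / (2 * y); p 2 / N, 0, conj (p 1) / N; - p 1 / N, 0, conj (p 2) / N]

lemma det_Jm {p : V} (hp : p ∈ U) (h : normSq (p 1) + normSq (p 2) ≠ 0) :
    normSq (Jm p).det = 1 / (4 * (p 0).im ^ 2 * (normSq (p 1) + normSq (p 2)) ^ 2) := by
  have hy : ((p 0).im : ℂ) ≠ 0 := by
    have : (0 : ℝ) < (p 0).im := hp
    exact_mod_cast this.ne'
  have hN : ((normSq (p 1) + normSq (p 2) : ℝ) : ℂ) ≠ 0 := by exact_mod_cast h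
  have e : (Jm p).det = ((-1 / (2 * (p 0).im * (normSq (p 1) + normSq (p 2))) : ℝ) : ℂ) := by
    rw [Matrix.det_fin_three]
    simp only [Jm, Matrix.cons_val', Matrix.cons_val_zero, Matrix.cons_val_one, Matrix.of_apply,
      Matrix.cons_val, Matrix.cons_val_fin_one]
    have h1 : p 1 * conj (p 1) = (normSq (p 1) : ℂ) := mul_conj _
    have h2 : p 2 * conj (p 2) = (normSq (p 2) : ℂ) := mul_conj _
    have h3 : (normSq (p 1) + normSq (p 2) : ℂ) = p 1 * conj (p 1) + p 2 * conj (p 2) := by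
      rw [h1, h2]
    push_cast at hN ⊢
    generalize (normSq (p 1) + normSq (p 2) : ℂ) = N at hN h3 ⊢
    field_simp
    rw [h3]
    ring
  rw [e, normSq_ofReal]
  field_simp
  ring

/-- `a η + b f + c τ` -/
noncomputable def comb (p : V) (a b c : ℝ) : Mat :=
  Jm p * Matrix.diagonal ![(a : ℂ), b, c] * (Jm p)ᴴ

lemma comb_add (p : V) (a b c a' b' c' : ℝ) :
    comb p a b c + comb p a' b' c' = comb p (a + a') (b + b') (c + c') := by
  rw [comb, comb, ← add_mul, ← mul_add, comb, Matrix.diagonal_add]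
  congr 3
  funext i
  fin_cases i <;> simp

lemma comb_smul (p : V) (a b c r : ℝ) :
    (r : ℂ) • comb p a b c = comb p (r * a) (r * b) (r * c) := by
  rw [comb, ← Matrix.smul_mul, ← Matrix.mul_smul, ← Matrix.diagonal_smul, comb]
  congr 3
  funext i
  fin_cases i <;> simp

lemma D3_comb {p : V} (hp : p ∈ U) (h : normSq (p 1) + normSq (p 2) ≠ 0)
    (a b c a' b' c' a'' b'' c'' : ℝ) :
    D3 (comb p a b c) (comb p a' b' c') (comb p a'' b'' c'') =
      ((1 / (4 * (p 0).im ^ 2 * (normSq (p 1) + normSq (p 2)) ^ 2) *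
        (a * (b' * c'' + c' * b'') + b * (c' * a'' + a' * c'') + c * (a' * b'' + b' * a'')) : ℝ)
          : ℂ) := by
  rw [comb, comb, comb, D3_transform, det_Jm hp h, D3_diag, Fin.sum_univ_three,
    ofReal_mul]
  congr 1
  simp

lemma hess_real_comp {h : V → ℝ} {φ : ℝ → ℝ} {p : V} (hh : ContDiffAt ℝ 2 h p)
    (hφ : ContDiffAt ℝ 2 φ (h p)) (j k : Fin 3) :
    hess (fun w => φ (h w)) p j k = (deriv φ (h p) : ℝ) * hess h p j k +
      (deriv (deriv φ) (h p) : ℝ) * (dz j (fun w => (h w : ℂ)) p * dzb k (fun w => (h w : ℂ)) p) := by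
  have e1 : ∀ᶠ w in 𝓝 p, ContDiffAt ℝ 2 h w := hh.eventually (by simp)
  have e2 : ∀ᶠ w in 𝓝 p, ContDiffAt ℝ 2 φ (h w) :=
    hh.continuousAt.eventually (hφ.eventually (by simp))
  have e3 : (fun w => dzb k (fun w => ((φ (h w) : ℝ) : ℂ)) w) =ᶠ[𝓝 p]
      fun w => ((deriv φ (h w) : ℝ) : ℂ) * dzb k (fun w => (h w : ℂ)) w := by
    filter_upwards [e1, e2] with w h1 h2
    exact dzb_real_comp (h1.differentiableAt (by simp)) (h2.differentiableAt (by simp))
  have hd : ContDiffAt ℝ 1 (deriv φ) (h p) :=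
    (hφ.fderiv_right (m := 1) (by norm_num)).clm_apply contDiffAt_const
  have d1 : DifferentiableAt ℝ (fun w => ((deriv φ (h w) : ℝ) : ℂ)) p := by
    have : DifferentiableAt ℝ (fun w => (deriv φ (h w) : ℝ)) p :=
      (hd.differentiableAt (by simp)).comp p (hh.differentiableAt (by simp))
    exact (ofRealCLM.differentiableAt).comp p this
  have hc : ContDiffAt ℝ 2 (fun w => (h w : ℂ)) p := ofRealCLM.contDiff.contDiffAt.comp p hh
  have d2 : DifferentiableAt ℝ (fun w => dzb k (fun w => (h w : ℂ)) w) p := by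
    have hf := hc.fderiv_right (m := 1) (by norm_num)
    have h1 : DifferentiableAt ℝ (fun w => fderiv ℝ (fun w => (h w : ℂ)) w (Pi.single k 1)) p :=
      (hf.clm_apply contDiffAt_const).differentiableAt (by simp)
    have h2 : DifferentiableAt ℝ (fun w => fderiv ℝ (fun w => (h w : ℂ)) w (Pi.single k I)) p :=
      (hf.clm_apply contDiffAt_const).differentiableAt (by simp)
    have h3 := (h1.add (h2.const_mul I)).mul_const (2⁻¹ : ℂ)
    exact h3
  rw [hess, dz_congr e3, dz_mul d1 d2, dz_real_comp (hh.differentiableAt (by simp))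
    (hd.differentiableAt (by simp)), hess]
  ring



lemma diff_im (l : Fin 3) (p : V) : DifferentiableAt ℝ (fun w : V => ((w l).im : ℂ)) p :=
  ofRealCLM.differentiableAt.comp p
    (imCLM.differentiableAt.comp p (differentiableAt_apply l p))

lemma diff_coord (l : Fin 3) (p : V) : DifferentiableAt ℝ (fun w : V => w l) p :=
  differentiableAt_apply l p

lemma diff_normSq (l : Fin 3) (p : V) : DifferentiableAt ℝ (fun w : V => (normSq (w l) : ℂ)) p := by
  have : (fun w : V => (normSq (w l) : ℂ)) = fun w => w l * conj (w l) := by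
    funext w; rw [mul_conj]
  rw [this]
  exact (diff_coord l p).mul (conjCLE.differentiableAt.comp p (diff_coord l p))

lemma im_ne {p : V} (hp : p ∈ U) : ((p 0).im : ℂ) ≠ 0 := by
  have : (0 : ℝ) < (p 0).im := hp
  exact_mod_cast this.ne'

lemma diff_NN (p : V) : DifferentiableAt ℝ
    (fun w : V => (normSq (w 1) : ℂ) + (normSq (w 2) : ℂ)) p :=
  (diff_normSq 1 p).add (diff_normSq 2 p)

lemma diff_invIm {p : V} (hp : p ∈ U) : DifferentiableAt ℝ
    (fun w : V => (((w 0).im : ℂ))⁻¹) p :=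
  (diff_im 0 p).inv (im_ne hp)

lemma dz_sig {p : V} (hp : p ∈ U) (j : Fin 3) : dz j (fun w => (sig w : ℂ)) p =
    ![I * (normSq (p 1) + normSq (p 2)) / (2 * (p 0).im ^ 2), conj (p 1) / (p 0).im,
      conj (p 2) / (p 0).im] j := by
  have h0 := im_ne hp
  have e : (fun w : V => (sig w : ℂ)) =
      fun w => ((normSq (w 1) : ℂ) + (normSq (w 2) : ℂ)) * (((w 0).im : ℂ))⁻¹ := by
    funext w; simp [sig, div_eq_mul_inv]
  rw [e, dz_mul (diff_NN p) (diff_invIm hp),
    dz_add (diff_normSq 1 p) (diff_normSq 2 p), dz_inv (diff_im 0 p) h0, dz_normSq, dz_normSq,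
    dz_im]
  fin_cases j <;> simp <;> field_simp

lemma dzb_sig {p : V} (hp : p ∈ U) (j : Fin 3) : dzb j (fun w => (sig w : ℂ)) p =
    ![- I * (normSq (p 1) + normSq (p 2)) / (2 * (p 0).im ^ 2), p 1 / (p 0).im,
      p 2 / (p 0).im] j := by
  have h0 := im_ne hp
  have e : (fun w : V => (sig w : ℂ)) =
      fun w => ((normSq (w 1) : ℂ) + (normSq (w 2) : ℂ)) * (((w 0).im : ℂ))⁻¹ := by
    funext w; simp [sig, div_eq_mul_inv]
  rw [e, dzb_mul (diff_NN p) (diff_invIm hp),
    dzb_add (diff_normSq 1 p) (diff_normSq 2 p), dzb_inv (diff_im 0 p) h0, dzb_normSq, dzb_normSq,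
    dzb_im]
  fin_cases j <;> simp <;> field_simp

lemma dz_div_im {f : V → ℂ} {p : V} (hp : p ∈ U) (hf : DifferentiableAt ℝ f p) (j : Fin 3) :
    dz j (fun w => f w / ((w 0).im : ℂ)) p = dz j f p / (p 0).im +
      (if j = 0 then I / 2 else 0) * f p / (p 0).im ^ 2 := by
  have h0 := im_ne hp
  simp only [div_eq_mul_inv]
  rw [dz_mul hf (diff_invIm hp), dz_inv (diff_im 0 p) h0, dz_im]
  split_ifs
  · field_simp
    try ring
  · simp

lemma hess_sig {p : V} (hp : p ∈ U) : hess sig p =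
    let y : ℂ := ((p 0).im : ℂ)
    !![(normSq (p 1) + normSq (p 2)) / (2 * y ^ 3), I * p 1 / (2 * y ^ 2), I * p 2 / (2 * y ^ 2);
      - I * conj (p 1) / (2 * y ^ 2), 1 / y, 0;
      - I * conj (p 2) / (2 * y ^ 2), 0, 1 / y] := by
  have h0 := im_ne hp
  ext j k
  have e : (fun w => dzb k (fun w => (sig w : ℂ)) w) =ᶠ[𝓝 p] fun w =>
      ![- I * (normSq (w 1) + normSq (w 2)) / (2 * (w 0).im ^ 2), w 1 / (w 0).im,
        w 2 / (w 0).im] k := by
    filter_upwards [isOpen_U.mem_nhds hp] with w hw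
    exact dzb_sig hw k
  rw [hess, dz_congr e]
  fin_cases k
  · have e2 : (fun w : V => (![- I * (normSq (w 1) + normSq (w 2)) / (2 * ((w 0).im : ℂ) ^ 2),
        w 1 / ((w 0).im : ℂ), w 2 / ((w 0).im : ℂ)] : Fin 3 → ℂ) ⟨0, by simp⟩) =
        fun w => (- I / 2 * ((normSq (w 1) : ℂ) + normSq (w 2)) / ((w 0).im : ℂ))
          / ((w 0).im : ℂ) := by
      funext w
      simp only [Fin.zero_eta, Matrix.cons_val_zero]
      ring
    have hd : DifferentiableAt ℝ (fun w : V => (- I / 2 * ((normSq (w 1) : ℂ) + normSq (w 2)))) p :=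
      (diff_NN p).const_mul _
    have hd2 : DifferentiableAt ℝ (fun w : V => (- I / 2 * ((normSq (w 1) : ℂ) + normSq (w 2)))
        / ((w 0).im : ℂ)) p := by
      simp only [div_eq_mul_inv _ (((_ : V) 0).im : ℂ)]
      exact hd.mul (diff_invIm hp)
    simp only [e2]
    rw [dz_div_im hp hd2, dz_div_im hp hd,
      dz_mul (differentiableAt_const _) (diff_NN p), dz_const,
      dz_add (diff_normSq 1 p) (diff_normSq 2 p), dz_normSq, dz_normSq]
    fin_cases j
    · simp; field_simp; ring_nf; simp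
    · simp; field_simp
    · simp; field_simp
  · have e2 : (fun w : V => (![- I * (normSq (w 1) + normSq (w 2)) / (2 * ((w 0).im : ℂ) ^ 2),
        w 1 / ((w 0).im : ℂ), w 2 / ((w 0).im : ℂ)] : Fin 3 → ℂ) ⟨1, by simp⟩) =
        fun w => w 1 / ((w 0).im : ℂ) := by
      funext w
      simp
    simp only [e2]
    rw [dz_div_im hp (diff_coord 1 p), dz_coord]
    fin_cases j <;> simp <;> field_simp
  · have e2 : (fun w : V => (![- I * (normSq (w 1) + normSq (w 2)) / (2 * ((w 0).im : ℂ) ^ 2),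
        w 1 / ((w 0).im : ℂ), w 2 / ((w 0).im : ℂ)] : Fin 3 → ℂ) ⟨2, by simp⟩) =
        fun w => w 2 / ((w 0).im : ℂ) := by
      funext w
      simp
    simp only [e2]
    rw [dz_div_im hp (diff_coord 2 p), dz_coord]
    fin_cases j <;> simp <;> field_simp


lemma comb_apply (p : V) (a b c : ℝ) (j k : Fin 3) : comb p a b c j k =
    Jm p j 0 * a * conj (Jm p k 0) + Jm p j 1 * b * conj (Jm p k 1) +
      Jm p j 2 * c * conj (Jm p k 2) := by
  rw [comb, Matrix.mul_apply, Fin.sum_univ_three]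
  simp [Matrix.mul_diagonal, Matrix.conjTranspose_apply]

lemma hess_comp_sig {p : V} (hp : p ∈ U) (hN : normSq (p 1) + normSq (p 2) ≠ 0) {φ : ℝ → ℝ}
    (hφ : ContDiffAt ℝ 2 φ (sig p)) : hess (fun w => φ (sig w)) p =
      comb p (sig p * deriv φ (sig p)) (sig p * deriv φ (sig p))
        (sig p * deriv φ (sig p) + sig p ^ 2 * deriv (deriv φ) (sig p)) := by
  have hs : ContDiffAt ℝ 2 sig p := by
    have h1 : ContDiff ℝ 2 (fun w : V => normSq (w 1) + normSq (w 2)) := by
      simp only [normSq_apply]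
      have h (l : Fin 3) : ContDiff ℝ 2 (fun w : V => w l) := contDiff_apply ℝ ℂ l
      have hr (l : Fin 3) : ContDiff ℝ 2 (fun w : V => (w l).re) := reCLM.contDiff.comp (h l)
      have hi (l : Fin 3) : ContDiff ℝ 2 (fun w : V => (w l).im) := imCLM.contDiff.comp (h l)
      exact (((hr 1).mul (hr 1)).add ((hi 1).mul (hi 1))).add
        (((hr 2).mul (hr 2)).add ((hi 2).mul (hi 2)))
    have h2 : ContDiff ℝ 2 (fun w : V => (w 0).im) :=
      imCLM.contDiff.comp (contDiff_apply ℝ ℂ 0)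
    exact h1.contDiffAt.div h2.contDiffAt (ne_of_gt (show (0 : ℝ) < (p 0).im from hp))
  ext j k
  rw [hess_real_comp hs hφ, hess_sig hp, dz_sig hp, dzb_sig hp, comb_apply]
  have hy := im_ne hp
  have hN' : (normSq (p 1) + normSq (p 2) : ℂ) ≠ 0 := by exact_mod_cast hN
  have h1 : p 1 * conj (p 1) = (normSq (p 1) : ℂ) := mul_conj _
  have h2 : p 2 * conj (p 2) = (normSq (p 2) : ℂ) := mul_conj _
  have h3 : (normSq (p 1) + normSq (p 2) : ℂ) = p 1 * conj (p 1) + p 2 * conj (p 2) := by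
    rw [h1, h2]
  have hI : I ^ 2 = -1 := I_sq
  have hcN : conj (normSq (p 1) + normSq (p 2) : ℂ) = normSq (p 1) + normSq (p 2) := by
    rw [map_add, conj_ofReal, conj_ofReal]
  simp only [sig, Jm]
  push_cast
  generalize ((deriv φ ((normSq (p 1) + normSq (p 2)) / (p 0).im) : ℝ) : ℂ) = A
  generalize ((deriv (deriv φ) ((normSq (p 1) + normSq (p 2)) / (p 0).im) : ℝ) : ℂ) = B
  generalize (normSq (p 1) + normSq (p 2) : ℂ) = N at hN' h3 hcN ⊢
  fin_cases j <;> fin_cases k <;>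
    simp only [Fin.zero_eta, Fin.mk_one, Fin.reduceFinMk, Matrix.cons_val', Matrix.cons_val_zero,
      Matrix.cons_val_one, Matrix.of_apply, Matrix.cons_val, Matrix.cons_val_fin_one, map_div₀,
      map_mul, map_one, map_ofNat, conj_ofReal, conj_I, map_neg, conj_conj, map_zero, hcN] <;>
    field_simp <;> (try rw [h3]) <;> ring_nf <;> (try simp only [hI]) <;> (try ring)

lemma N_pos {p : V} (hN : normSq (p 1) + normSq (p 2) ≠ 0) : 0 < normSq (p 1) + normSq (p 2) :=
  lt_of_le_of_ne (add_nonneg (normSq_nonneg _) (normSq_nonneg _)) hN.symm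

lemma sig_pos {p : V} (hp : p ∈ U) (hN : normSq (p 1) + normSq (p 2) ≠ 0) : 0 < sig p :=
  div_pos (N_pos hN) hp

lemma sig_nonneg {p : V} (hp : p ∈ U) : 0 ≤ sig p :=
  div_nonneg (add_nonneg (normSq_nonneg _) (normSq_nonneg _)) (le_of_lt hp)

lemma fF_comb (p : V) (hp : p ∈ U) : fF 2 p = comb p 0 1 0 := by
  have h0 := im_ne hp
  ext j k
  rw [comb_apply]
  fin_cases j <;> fin_cases k <;>
    simp [fF, Jm, Matrix.single, map_ofNat (starRingEnd ℂ) 2] <;> field_simp <;> norm_num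

lemma contDiffAt_sig {p : V} (hp : p ∈ U) : ContDiffAt ℝ 2 sig p := by
  have h1 : ContDiff ℝ 2 (fun w : V => normSq (w 1) + normSq (w 2)) := by
    simp only [normSq_apply]
    have h (l : Fin 3) : ContDiff ℝ 2 (fun w : V => w l) := contDiff_apply ℝ ℂ l
    have hr (l : Fin 3) : ContDiff ℝ 2 (fun w : V => (w l).re) := reCLM.contDiff.comp (h l)
    have hi (l : Fin 3) : ContDiff ℝ 2 (fun w : V => (w l).im) := imCLM.contDiff.comp (h l)
    exact (((hr 1).mul (hr 1)).add ((hi 1).mul (hi 1))).add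
      (((hr 2).mul (hr 2)).add ((hi 2).mul (hi 2)))
  have h2 : ContDiff ℝ 2 (fun w : V => (w 0).im) :=
    imCLM.contDiff.comp (contDiff_apply ℝ ℂ 0)
  exact h1.contDiffAt.div h2.contDiffAt (ne_of_gt (show (0 : ℝ) < (p 0).im from hp))

lemma contDiffAt_logim {p : V} (hp : p ∈ U) :
    ContDiffAt ℝ 2 (fun w : V => Real.log (w 0).im) p := by
  have h2 : ContDiff ℝ 2 (fun w : V => (w 0).im) :=
    imCLM.contDiff.comp (contDiff_apply ℝ ℂ 0)
  exact h2.contDiffAt.log (ne_of_gt (show (0 : ℝ) < (p 0).im from hp))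

lemma ThD_comb {δ : ℝ} (hδ : 0 < δ) {p : V} (hp : p ∈ U)
    (hN : normSq (p 1) + normSq (p 2) ≠ 0) :
    ThD δ 2 p = comb p (sig p / (δ + sig p)) (sig p / (δ + sig p))
      (sig p * δ / (δ + sig p) ^ 2) := by
  have hs := sig_pos hp hN
  have hds : 0 < δ + sig p := by positivity
  have hφ : ContDiffAt ℝ 2 (fun s : ℝ => Real.log (δ + s)) (sig p) :=
    ((contDiff_const.add contDiff_id).contDiffAt).log hds.ne'
  have hφs : ContDiffAt ℝ 2 (fun w : V => Real.log (δ + sig w)) p :=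
    (contDiffAt_const.add (contDiffAt_sig hp)).log hds.ne'
  have e : (fun w : V => Real.log (SS δ 2 w)) =ᶠ[𝓝 p]
      fun w => Real.log (w 0).im + Real.log (δ + sig w) := by
    filter_upwards [isOpen_U.mem_nhds hp] with w hw
    have hw0 : (0 : ℝ) < (w 0).im := hw
    have h3 : 0 < δ + sig w := by have := sig_nonneg hw; positivity
    rw [← Real.log_mul hw0.ne' h3.ne']
    congr 1
    simp only [SS, sig, if_true]
    field_simp
    ring
  have d1 : ∀ s : ℝ, 0 < δ + s → HasDerivAt (fun s : ℝ => Real.log (δ + s)) (δ + s)⁻¹ s := by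
    intro s hs
    have := ((hasDerivAt_id s).const_add δ).log hs.ne'
    simpa using this
  have d2 : deriv (deriv (fun s : ℝ => Real.log (δ + s))) (sig p) = -((δ + sig p) ^ 2)⁻¹ := by
    have e2 : deriv (fun s : ℝ => Real.log (δ + s)) =ᶠ[𝓝 (sig p)] fun s => (δ + s)⁻¹ := by
      filter_upwards [lt_mem_nhds hs] with s hs
      exact (d1 s (by positivity)).deriv
    rw [e2.deriv_eq]
    have : HasDerivAt (fun s : ℝ => (δ + s)⁻¹) (-1 / (δ + sig p) ^ 2) (sig p) :=
      ((hasDerivAt_id (sig p)).const_add δ).inv hds.ne'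
    rw [this.deriv]
    field_simp
  rw [ThD, hess_congr e, hess_add (contDiffAt_logim hp) hφs, hess_log_im hp 2,
    hess_comp_sig hp hN hφ, (d1 _ hds).deriv, d2]
  rw [neg_add_eq_sub, sub_add_cancel]
  congr 1
  field_simp
  ring

/-- the function `1/(1+σ)` on `M` -/
noncomputable def hB : Fin 3 → V → ℝ := fun i p =>
  if i = 2 then (p 0).im / SS 1 2 p else (p 0).im * normSq (p 2) / SS 1 i p

lemma hB_comb {p : V} (hp : p ∈ U) (hN : normSq (p 1) + normSq (p 2) ≠ 0) :
    hess (hB 2) p = comb p (- sig p / (1 + sig p) ^ 2) (- sig p / (1 + sig p) ^ 2)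
      (- sig p * (1 - sig p) / (1 + sig p) ^ 3) := by
  have hs := sig_pos hp hN
  have hds : 0 < 1 + sig p := by positivity
  have hφ : ContDiffAt ℝ 2 (fun s : ℝ => (1 + s)⁻¹) (sig p) :=
    ((contDiff_const.add contDiff_id).contDiffAt).inv hds.ne'
  have e : hB 2 =ᶠ[𝓝 p] fun w => (1 + sig w)⁻¹ := by
    filter_upwards [isOpen_U.mem_nhds hp] with w hw
    have hw0 : (0 : ℝ) < (w 0).im := hw
    have h3 : 0 < 1 + sig w := by have := sig_nonneg hw; positivity
    have h4 : 0 < SS 1 2 w := SS_pos one_pos 2 hw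
    have h5 : SS 1 2 w = (w 0).im * (1 + sig w) := by
      simp only [SS, sig, if_true]
      field_simp
      ring
    simp only [hB, if_true]
    rw [h5]
    field_simp
  have d1 : ∀ s : ℝ, 0 < 1 + s → HasDerivAt (fun s : ℝ => (1 + s)⁻¹) (- ((1 + s) ^ 2)⁻¹) s := by
    intro s hs
    have : HasDerivAt (fun s : ℝ => (1 + s)⁻¹) (-1 / (1 + s) ^ 2) s :=
      ((hasDerivAt_id s).const_add 1).inv hs.ne'
    convert this using 1
    field_simp
  have d2 : deriv (deriv (fun s : ℝ => (1 + s)⁻¹)) (sig p) = 2 / (1 + sig p) ^ 3 := by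
    have e2 : deriv (fun s : ℝ => (1 + s)⁻¹) =ᶠ[𝓝 (sig p)] fun s => - ((1 + s) ^ 2)⁻¹ := by
      filter_upwards [lt_mem_nhds hs] with s hs
      exact (d1 s (by positivity)).deriv
    rw [e2.deriv_eq]
    have : HasDerivAt (fun s : ℝ => - ((1 + s) ^ 2)⁻¹)
        (-(-(((2 : ℕ) : ℝ) * (1 + sig p) ^ (2 - 1) * 1) / ((1 + sig p) ^ 2) ^ 2)) (sig p) :=
      (((((hasDerivAt_id (sig p)).const_add 1).pow 2)).inv (pow_pos hds 2).ne').neg
    rw [this.deriv]
    field_simp
    norm_num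
    ring
  rw [hess_congr e, hess_comp_sig hp hN hφ, (d1 _ hds).deriv, d2]
  congr 1
  · field_simp
  · field_simp
  · field_simp
    ring

lemma hB_fun0 : Fun0 hB := by
  have hden : ContDiff ℝ ∞ (fun w : V => (w 0).im) := imCLM.contDiff.comp (contDiff_apply ℝ ℂ 0)
  have hnq : ContDiff ℝ ∞ (fun w : V => normSq (w 2)) := by
    simp only [normSq_apply]
    have h : ContDiff ℝ ∞ (fun w : V => w 2) := contDiff_apply ℝ ℂ 2
    have hr : ContDiff ℝ ∞ (fun w : V => (w 2).re) := reCLM.contDiff.comp h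
    have hi : ContDiff ℝ ∞ (fun w : V => (w 2).im) := imCLM.contDiff.comp h
    exact (hr.mul hr).add (hi.mul hi)
  refine ⟨fun i => ?_, fun p hp h2 => ?_, fun p hp h2 => ?_, fun γ hγ p hp => ?_⟩
  · by_cases hi : i = 2
    · subst hi
      have e : hB 2 = fun p => (p 0).im / SS 1 2 p := by
        funext p; simp only [hB, if_true]
      rw [e]
      exact hden.contDiffOn.div (SS_contDiff 1 2).contDiffOn
        (fun p hp => (SS_pos one_pos 2 hp).ne')
    · have e : hB i = fun p => (p 0).im * normSq (p 2) / SS 1 i p := by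
        funext p; simp only [hB, if_neg hi]
      rw [e]
      exact (hden.mul hnq).contDiffOn.div (SS_contDiff 1 i).contDiffOn
        (fun p hp => (SS_pos one_pos i hp).ne')
  · have hn : normSq (p 2) ≠ 0 := by simpa using h2
    have hS := (SS_pos one_pos 0 hp).ne'
    have e : (T0 p) 0 = p 0 := rfl
    simp only [hB, if_true]
    rw [if_neg (by decide), SS_T0 1 h2, e]
    field_simp
  · have hn : normSq (p 2) ≠ 0 := by simpa using h2
    have hS := (SS_pos one_pos 1 hp).ne'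
    have e : (T1 p) 0 = p 0 := rfl
    simp only [hB, if_true]
    rw [if_neg (by decide), SS_T1 1 h2, e]
    field_simp
  · have hn : normSq (den γ (p 0)) ≠ 0 := by
      rw [ne_eq, normSq_eq_zero]; exact den_ne hp
    have hS := (SS_pos one_pos 2 hp).ne'
    have e : (act2 γ p) 0 = mob γ (p 0) := rfl
    simp only [hB, if_true]
    rw [SS_act2 1 hp, e, im_mob γ hp]
    field_simp

/-- `Θ₁` -/
noncomputable def W1 : Fin 3 → V → Mat := fun i p => Th i p + hess (hB i) p
/-- `Θ₂ - f` -/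
noncomputable def W2 : Fin 3 → V → Mat := fun i p => ThD (1 / 32) i p + ((-1 : ℝ) : ℂ) • fF i p
/-- `Θ + f` -/
noncomputable def W3 : Fin 3 → V → Mat := fun i p => Th i p + fF i p

lemma W1_form : Form11 W1 := (ThD_form11 one_pos).add hB_fun0.hess_form11
lemma W2_form : Form11 W2 := (ThD_form11 (by norm_num)).add (fF_form11.smul (-1))
lemma W3_form : Form11 W3 := (ThD_form11 one_pos).add fF_form11
lemma W1_closed : Closed W1 :=
  Closed.add (ThD_form11 one_pos) hB_fun0.hess_form11 (ThD_closed one_pos) hB_fun0.hess_closed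
lemma W2_closed : Closed W2 :=
  Closed.add (ThD_form11 (by norm_num)) (fF_form11.smul (-1)) (ThD_closed (by norm_num))
    (Closed.smul (-1) fF_form11 fF_closed)
lemma W3_closed : Closed W3 :=
  Closed.add (ThD_form11 one_pos) fF_form11 (ThD_closed one_pos) fF_closed

lemma W1_comb {p : V} (hp : p ∈ U) (hN : normSq (p 1) + normSq (p 2) ≠ 0) :
    W1 2 p = comb p ((sig p / (1 + sig p)) ^ 2) ((sig p / (1 + sig p)) ^ 2)
      (2 * sig p ^ 2 / (1 + sig p) ^ 3) := by
  have hs := sig_pos hp hN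
  have hds : 0 < 1 + sig p := by positivity
  rw [W1, Th, ThD_comb one_pos hp hN, hB_comb hp hN, comb_add]
  congr 1
  · field_simp
    ring
  · field_simp
    ring
  · field_simp
    ring

lemma W2_comb {p : V} (hp : p ∈ U) (hN : normSq (p 1) + normSq (p 2) ≠ 0) :
    W2 2 p = comb p (sig p / (1 / 32 + sig p)) (sig p / (1 / 32 + sig p) - 1)
      (sig p * (1 / 32) / (1 / 32 + sig p) ^ 2) := by
  rw [W2, ThD_comb (by norm_num) hp hN, fF_comb p hp, comb_smul, comb_add]
  congr 1 <;> ring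

lemma W3_comb {p : V} (hp : p ∈ U) (hN : normSq (p 1) + normSq (p 2) ≠ 0) :
    W3 2 p = comb p (sig p / (1 + sig p)) (sig p / (1 + sig p) + 1)
      (sig p / (1 + sig p) ^ 2) := by
  rw [W3, Th, ThD_comb one_pos hp hN, fF_comb p hp, comb_add]
  congr 1 <;> ring

lemma cofm_comb (p : V) (a b c a' b' c' : ℝ) :
    cofm (comb p a b c) (comb p a' b' c') = cf (Jm p) *
      Matrix.diagonal ![((b * c' + c * b' : ℝ) : ℂ), ((c * a' + a * c' : ℝ) : ℂ),
        ((a * b' + b * a' : ℝ) : ℂ)] * (cf (Jm p))ᴴ := by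
  rw [comb, comb, cofm_transform, cofm_diag]
  congr 3
  funext i
  fin_cases i <;> simp

/-- the cofactor matrix of the balanced metric -/
noncomputable def Cm : Fin 3 → V → Mat := fun i p =>
  cofm (W1 i p) (W2 i p) + ((1 / 16 : ℝ) : ℂ) • cofm (W3 i p) (W3 i p)

/-- the difference to a small multiple of `(Θ+f)²` -/
noncomputable def Dm : Fin 3 → V → Mat := fun i p =>
  cofm (W1 i p) (W2 i p) + ((1 / 32 : ℝ) : ℂ) • cofm (W3 i p) (W3 i p)

lemma Cm_eq (i : Fin 3) (p : V) : Cm i p = Dm i p + ((1 / 32 : ℝ) : ℂ) • cofm (W3 i p) (W3 i p) := by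
  rw [Cm, Dm, add_assoc, ← add_smul]
  congr 2
  push_cast
  norm_num

lemma Dm_psd2' {p : V} (hp : p ∈ U) (hN : normSq (p 1) + normSq (p 2) ≠ 0) :
    (Dm 2 p).PosSemidef := by
  have hs := sig_pos hp hN
  rw [Dm, W1_comb hp hN, W2_comb hp hN, W3_comb hp hN, cofm_comb, cofm_comb, ← Matrix.smul_mul,
    ← Matrix.mul_smul, ← add_mul, ← mul_add, ← Matrix.diagonal_smul, Matrix.diagonal_add]
  refine Matrix.PosSemidef.mul_mul_conjTranspose_same ?_ _
  rw [Matrix.posSemidef_diagonal_iff]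
  generalize sig p = s at hs
  have h1 : 0 < 1 + s := by positivity
  have h2 : 0 < 1 / 32 + s := by positivity
  intro i
  fin_cases i
  · simp only [Fin.zero_eta, Pi.smul_apply, Matrix.cons_val_zero, smul_eq_mul]
    rw [← ofReal_mul, ← ofReal_add, zero_le_real]
    have e : (s / (1 + s)) ^ 2 * (s * (1 / 32) / (1 / 32 + s) ^ 2) +
        2 * s ^ 2 / (1 + s) ^ 3 * (s / (1 / 32 + s) - 1) +
        1 / 32 * ((s / (1 + s) + 1) * (s / (1 + s) ^ 2) +
          s / (1 + s) ^ 2 * (s / (1 + s) + 1)) =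
      s * (s ^ 2 / 32 * (1 + s) + ((1 + 2 * s) * (1 / 32 + s) - s) * (1 / 32 + s) / 16) /
        ((1 + s) ^ 3 * (1 / 32 + s) ^ 2) := by
      field_simp
      ring
    rw [e]
    have h3 : 0 ≤ (1 + 2 * s) * (1 / 32 + s) - s := by nlinarith
    positivity
  · simp only [Fin.mk_one, Pi.smul_apply, Matrix.cons_val_one, Matrix.cons_val_zero, smul_eq_mul]
    rw [← ofReal_mul, ← ofReal_add, zero_le_real]
    positivity
  · simp only [Fin.reduceFinMk, Pi.smul_apply, Matrix.cons_val, smul_eq_mul]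
    rw [← ofReal_mul, ← ofReal_add, zero_le_real]
    have e : (s / (1 + s)) ^ 2 * (s / (1 / 32 + s) - 1) +
        (s / (1 + s)) ^ 2 * (s / (1 / 32 + s)) +
        1 / 32 * (s / (1 + s) * (s / (1 + s) + 1) + (s / (1 + s) + 1) * (s / (1 + s))) =
      s * ((1 + 2 * s) * (1 / 32 + s) / 16 + s ^ 2 - s / 32) /
        ((1 + s) ^ 2 * (1 / 32 + s)) := by
      field_simp
      ring
    rw [e]
    have h3 : 0 ≤ (1 + 2 * s) * (1 / 32 + s) / 16 + s ^ 2 - s / 32 := by nlinarith
    positivity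

/-! ### smoothness, positivity -/

/-- smooth matrix functions on `U` -/
def SM (A : V → Mat) : Prop := ∀ j k, ContDiffOn ℝ ∞ (fun p => A p j k) U

lemma SM.cof {A B : V → Mat} (hA : SM A) (hB : SM B) : SM (fun p => cofm (A p) (B p)) :=
  fun _ _ => ((((hA _ _).mul (hB _ _)).add ((hA _ _).mul (hB _ _))).sub
    ((hA _ _).mul (hB _ _))).sub ((hA _ _).mul (hB _ _))

lemma SM.add {A B : V → Mat} (hA : SM A) (hB : SM B) : SM (fun p => A p + B p) :=
  fun j k => (hA j k).add (hB j k)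

lemma SM.smul {A : V → Mat} {c : V → ℂ} (hc : ContDiffOn ℝ ∞ c U) (hA : SM A) :
    SM (fun p => c p • A p) :=
  fun j k => hc.mul (hA j k)

lemma SM.adj {A : V → Mat} (hA : SM A) : SM (fun p => (A p).adjugate) := by
  intro j k
  have : (fun p => (A p).adjugate j k) = fun p => (1 / 2 : ℂ) * cofm (A p) (A p) k j := by
    funext p; rw [cofm_self]; ring
  rw [this]
  exact contDiffOn_const.mul (hA.cof hA k j)

lemma SM.det {A : V → Mat} (hA : SM A) : ContDiffOn ℝ ∞ (fun p => (A p).det) U := by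
  simp only [Matrix.det_fin_three]
  exact (((((((hA _ _).mul (hA _ _)).mul (hA _ _)).sub (((hA _ _).mul (hA _ _)).mul (hA _ _))).sub
    (((hA _ _).mul (hA _ _)).mul (hA _ _))).add (((hA _ _).mul (hA _ _)).mul (hA _ _))).add
    (((hA _ _).mul (hA _ _)).mul (hA _ _))).sub (((hA _ _).mul (hA _ _)).mul (hA _ _))

lemma form_sm {W : Fin 3 → V → Mat} (hW : Form11 W) (i : Fin 3) : SM (W i) :=
  fun j k => hW.smooth i j k

lemma Cm_sm (i : Fin 3) : SM (Cm i) :=
  ((form_sm W1_form i).cof (form_sm W2_form i)).add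
    (SM.smul contDiffOn_const ((form_sm W3_form i).cof (form_sm W3_form i)))

lemma Dm_sm (i : Fin 3) : SM (Dm i) :=
  ((form_sm W1_form i).cof (form_sm W2_form i)).add
    (SM.smul contDiffOn_const ((form_sm W3_form i).cof (form_sm W3_form i)))

lemma psd_of_line {D : V → Mat} (hD : SM D) {p : V} (hp : p ∈ U) (l : Fin 3) (hl : l ≠ 0)
    (h : ∀ q ∈ U, q l ≠ 0 → (D q).PosSemidef) : (D p).PosSemidef := by
  by_cases h0 : p l ≠ 0
  · exact h p hp h0
  push Not at h0
  let q : ℝ → V := fun t => Function.update p l (t : ℂ)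
  have hq : Continuous q := continuous_const.update l continuous_ofReal
  have hq0 : q 0 = p := by
    simp only [q, ofReal_zero, ← h0, Function.update_eq_self]
  have hqU : ∀ t, q t ∈ U := fun t => by
    change 0 < (q t 0).im
    simp only [q, Function.update_of_ne hl.symm]
    exact hp
  have hT : ∀ j k, Tendsto (fun t => D (q t) j k) (𝓝[≠] 0) (𝓝 (D p j k)) := by
    intro j k
    have h1 : ContinuousAt (fun p => D p j k) p :=
      (hD j k).continuousOn.continuousAt (isOpen_U.mem_nhds hp)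
    have h2 : Tendsto q (𝓝 0) (𝓝 p) := by
      have := hq.tendsto 0
      rwa [hq0] at this
    exact (h1.tendsto.comp h2).mono_left nhdsWithin_le_nhds
  have hev : ∀ᶠ t in 𝓝[≠] (0 : ℝ), (D (q t)).PosSemidef := by
    filter_upwards [self_mem_nhdsWithin] with t ht
    refine h _ (hqU t) ?_
    simp only [q, Function.update_self]
    exact_mod_cast ht
  have hT' : Tendsto (fun t => D (q t)) (𝓝[≠] 0) (𝓝 (D p)) :=
    tendsto_pi_nhds.2 fun j => tendsto_pi_nhds.2 fun k => hT j k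
  rw [Matrix.posSemidef_iff_dotProduct_mulVec]
  constructor
  · ext j k
    have h1 : Tendsto (fun t => star (D (q t) k j)) (𝓝[≠] 0) (𝓝 (star (D p k j))) :=
      (continuous_star.tendsto _).comp (hT k j)
    have h2 : (fun t => star (D (q t) k j)) =ᶠ[𝓝[≠] 0] fun t => D (q t) j k := by
      filter_upwards [hev] with t ht
      exact ht.1.apply j k
    exact tendsto_nhds_unique h1 ((hT j k).congr' h2.symm)
  · intro x
    have hc : Continuous fun M : Mat => star x ⬝ᵥ (M *ᵥ x) := by fun_prop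
    have h1 := (hc.tendsto (D p)).comp hT'
    refine ge_of_tendsto h1 ?_
    filter_upwards [hev] with t ht
    exact ht.dotProduct_mulVec_nonneg x

lemma Dm_psd2 {p : V} (hp : p ∈ U) : (Dm 2 p).PosSemidef :=
  psd_of_line (Dm_sm 2) hp 1 (by decide) fun q hq h1 => Dm_psd2' hq (by
    have h3 : 0 < normSq (q 1) := normSq_pos.2 h1
    have h4 := normSq_nonneg (q 2)
    positivity)

lemma Dm_transform {T : V → V} {p : V} {i i' : Fin 3} (h : ∀ W, Form11 W → W i p = pull T (W i') p) :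
    Dm i p = cf (Jac T p) * Dm i' (T p) * (cf (Jac T p))ᴴ := by
  simp only [Dm]
  rw [h W1 W1_form, h W2 W2_form, h W3 W3_form, pull_eq, pull_eq, pull_eq, cofm_transform,
    cofm_transform, ← Matrix.smul_mul, ← Matrix.mul_smul, ← add_mul, ← mul_add]

lemma Cm_transform {T : V → V} {p : V} {i i' : Fin 3} (h : ∀ W, Form11 W → W i p = pull T (W i') p) :
    Cm i p = cf (Jac T p) * Cm i' (T p) * (cf (Jac T p))ᴴ := by
  simp only [Cm]
  rw [h W1 W1_form, h W2 W2_form, h W3 W3_form, pull_eq, pull_eq, pull_eq, cofm_transform,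
    cofm_transform, ← Matrix.smul_mul, ← Matrix.mul_smul, ← add_mul, ← mul_add]

lemma Dm_psd (i : Fin 3) {p : V} (hp : p ∈ U) : (Dm i p).PosSemidef := by
  fin_cases i
  · refine psd_of_line (Dm_sm 0) hp 2 (by decide) fun q hq h2 => ?_
    rw [Dm_transform (T := T0) (i' := 2) (fun W hW => hW.pull0 q hq h2)]
    exact (Dm_psd2 (T0_mem.2 hq)).mul_mul_conjTranspose_same _
  · refine psd_of_line (Dm_sm 1) hp 2 (by decide) fun q hq h2 => ?_
    rw [Dm_transform (T := T1) (i' := 2) (fun W hW => hW.pull1 q hq h2)]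
    exact (Dm_psd2 (T1_mem.2 hq)).mul_mul_conjTranspose_same _
  · exact Dm_psd2 hp

lemma Cm_posDef (i : Fin 3) {p : V} (hp : p ∈ U) : (Cm i p).PosDef := by
  rw [Cm_eq]
  have h3 : (W3 i p).PosDef := Th_fF_posDef hp i
  have h4 : (cofm (W3 i p) (W3 i p)).PosDef := by
    have e : cofm (W3 i p) (W3 i p) = (2 * (W3 i p).det) • ((W3 i p)⁻¹)ᵀ := by
      ext j k
      rw [cofm_self, Matrix.smul_apply, Matrix.transpose_apply, Matrix.inv_def,
        Ring.inverse_eq_inv', Matrix.smul_apply, smul_eq_mul, smul_eq_mul]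
      have := h3.det_pos.ne'
      field_simp
    rw [e]
    refine (h3.inv.transpose).smul ?_
    exact mul_pos (by norm_num) h3.det_pos
  refine Matrix.PosDef.posSemidef_add (Dm_psd i hp) (h4.smul ?_)
  rw [zero_lt_real]
  norm_num

/-! ### the metric -/

/-- the metric with cofactor matrix `C` -/
noncomputable def metOf (C : Mat) : Mat := ((Real.sqrt C.det.re : ℝ) : ℂ) • (C⁻¹)ᵀ

lemma metOf_cf {J C : Mat} (hJ : J.det ≠ 0) :
    metOf (cf J * C * (cf J)ᴴ) = J * metOf C * Jᴴ := by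
  have hdc : (cf J).det = J.det ^ 2 := by
    rw [cf, Matrix.det_transpose, Matrix.det_adjugate]
    simp
  have hd : (cf J * C * (cf J)ᴴ).det = (((normSq J.det) ^ 2 : ℝ) : ℂ) * C.det := by
    rw [Matrix.det_mul, Matrix.det_mul, Matrix.det_conjTranspose, hdc]
    push_cast
    rw [← mul_conj, star_def, map_pow]
    ring
  have hinv : ((cf J)⁻¹)ᵀ = J.det⁻¹ • J := by
    rw [Matrix.transpose_nonsing_inv, cf, Matrix.transpose_transpose]
    refine Matrix.inv_eq_right_inv ?_
    rw [Matrix.mul_smul, Matrix.adjugate_mul, smul_smul, inv_mul_cancel₀ hJ, one_smul]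
  have hinv2 : (((cf J)ᴴ)⁻¹)ᵀ = (conj J.det)⁻¹ • Jᴴ := by
    have h1 : (((cf J)ᴴ)⁻¹)ᵀ = (((cf J)⁻¹)ᵀ)ᴴ := by
      rw [← Matrix.conjTranspose_nonsing_inv, Matrix.transpose_conjTranspose,
        Matrix.conjTranspose_transpose]
    rw [h1, hinv, Matrix.conjTranspose_smul, star_inv₀, star_def]
  have hn : normSq J.det ≠ 0 := by simpa using hJ
  have hn0 : 0 ≤ normSq J.det := normSq_nonneg _
  rw [metOf, hd, Matrix.mul_inv_rev, Matrix.mul_inv_rev, Matrix.transpose_mul,
    Matrix.transpose_mul, hinv, hinv2, re_ofReal_mul, Real.sqrt_mul (by positivity),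
    Real.sqrt_sq hn0, metOf]
  rw [Matrix.smul_mul, Matrix.smul_mul, Matrix.mul_smul, smul_smul, smul_smul, Matrix.mul_smul,
    Matrix.smul_mul]
  congr 1
  have h2 : (normSq J.det : ℂ) = J.det * conj J.det := (mul_conj _).symm
  have h3 : conj J.det ≠ 0 := by simpa using hJ
  push_cast
  rw [h2]
  field_simp

/-- the balanced metric -/
noncomputable def Gm : Fin 3 → V → Mat := fun i p => metOf (Cm i p)

lemma Gm_posDef (i : Fin 3) {p : V} (hp : p ∈ U) : (Gm i p).PosDef :=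
  (metric_of_cof (Cm_posDef i hp)).1

lemma Gm_adj (i : Fin 3) {p : V} (hp : p ∈ U) (j k : Fin 3) :
    (Gm i p).adjugate k j = Cm i p j k :=
  (metric_of_cof (Cm_posDef i hp)).2.1 j k

lemma Gm_transform {T : V → V} {p : V} {i i' : Fin 3} (hJ : (Jac T p).det ≠ 0)
    (h : ∀ W, Form11 W → W i p = pull T (W i') p) : Gm i p = pull T (Gm i') p := by
  simp only [pull_eq, Gm]
  rw [Cm_transform h, metOf_cf hJ]

lemma det_ne_T0 {p : V} (h2 : p 2 ≠ 0) : (Jac T0 p).det ≠ 0 := by
  have := det_Jac_T0 h2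
  have h3 : (normSq (p 2) ^ 3)⁻¹ ≠ 0 := by
    have : normSq (p 2) ≠ 0 := by simpa using h2
    positivity
  rw [← this] at h3
  simpa using h3

lemma det_ne_T1 {p : V} (h2 : p 2 ≠ 0) : (Jac T1 p).det ≠ 0 := by
  have := det_Jac_T1 h2
  have h3 : (normSq (p 2) ^ 3)⁻¹ ≠ 0 := by
    have : normSq (p 2) ≠ 0 := by simpa using h2
    positivity
  rw [← this] at h3
  simpa using h3

lemma det_ne_act2 (γ : SL(2, ℝ)) {p : V} (hp : p ∈ U) : (Jac (act2 γ) p).det ≠ 0 := by
  have := det_Jac_act2 γ hp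
  have h3 : (normSq (den γ (p 0)) ^ 4)⁻¹ ≠ 0 := by
    have : normSq (den γ (p 0)) ≠ 0 := by simpa using den_ne hp
    positivity
  rw [← this] at h3
  simpa using h3

lemma Gm_sm (i : Fin 3) : SM (Gm i) := by
  have hd := (Cm_sm i).det
  have hdre : ContDiffOn ℝ ∞ (fun p => (Cm i p).det.re) U := reCLM.contDiff.comp_contDiffOn hd
  have hsq : ContDiffOn ℝ ∞ (fun p => ((Real.sqrt (Cm i p).det.re : ℝ) : ℂ)) U :=
    ofRealCLM.contDiff.comp_contDiffOn (hdre.sqrt fun p hp => by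
      have := (Cm_posDef i hp).det_pos
      rw [Complex.pos_iff] at this
      exact this.1.ne')
  have hinv : ContDiffOn ℝ ∞ (fun p => ((Cm i p).det)⁻¹) U :=
    hd.inv fun p hp => (Cm_posDef i hp).det_pos.ne'
  intro j k
  have e : (fun p => Gm i p j k) = fun p =>
      ((Real.sqrt (Cm i p).det.re : ℝ) : ℂ) * (((Cm i p).det)⁻¹ * (Cm i p).adjugate k j) := by
    funext p
    rw [Gm, metOf, Matrix.smul_apply, Matrix.transpose_apply, Matrix.inv_def,
      Ring.inverse_eq_inv', Matrix.smul_apply, smul_eq_mul, smul_eq_mul]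
  rw [e]
  exact hsq.mul (hinv.mul ((Cm_sm i).adj k j))

lemma Gm_form : Form11 Gm where
  smooth i j k := Gm_sm i j k
  herm i _ hp := (Gm_posDef i hp).isHermitian
  pull0 p hp h2 := Gm_transform (det_ne_T0 h2) fun _ hW => hW.pull0 p hp h2
  pull1 p hp h2 := Gm_transform (det_ne_T1 h2) fun _ hW => hW.pull1 p hp h2
  equiv γ hγ p hp := Gm_transform (det_ne_act2 γ hp) fun _ hW => hW.equiv γ hγ p hp

lemma SM.diff {A : V → Mat} (hA : SM A) {p : V} (hp : p ∈ U) (j k : Fin 3) :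
    DifferentiableAt ℝ (fun w => A w j k) p :=
  ((hA j k).contDiffAt (isOpen_U.mem_nhds hp)).differentiableAt (by simp)

lemma Gm_balanced (i : Fin 3) {p : V} (hp : p ∈ U) (k : Fin 3) :
    ∑ j, dz j (fun p => (Gm i p).adjugate k j) p = 0 := by
  have e : ∀ j, dz j (fun p => (Gm i p).adjugate k j) p =
      dz j (fun w => cofm (W1 i w) (W2 i w) j k) p +
        ((1 / 16 : ℝ) : ℂ) * dz j (fun w => cofm (W3 i w) (W3 i w) j k) p := by
    intro j
    have e1 : (fun p => (Gm i p).adjugate k j) =ᶠ[𝓝 p] fun w =>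
        cofm (W1 i w) (W2 i w) j k + ((1 / 16 : ℝ) : ℂ) * cofm (W3 i w) (W3 i w) j k := by
      filter_upwards [isOpen_U.mem_nhds hp] with w hw
      rw [Gm_adj i hw, Cm, Matrix.add_apply, Matrix.smul_apply, smul_eq_mul]
    have d1 := ((form_sm W1_form i).cof (form_sm W2_form i)).diff hp j k
    have d2 := ((form_sm W3_form i).cof (form_sm W3_form i)).diff hp j k
    rw [dz_congr e1, dz_add d1 (d2.const_mul _), dz_mul (differentiableAt_const _) d2, dz_const]
    ring
  simp only [e]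
  rw [Finset.sum_add_distrib, ← Finset.mul_sum,
    div_cofm (fun j k => (form_sm W1_form i).diff hp j k) (fun j k => (form_sm W2_form i).diff hp j k)
      (W1_closed i p hp) (W2_closed i p hp) k,
    div_cofm (fun j k => (form_sm W3_form i).diff hp j k) (fun j k => (form_sm W3_form i).diff hp j k)
      (W3_closed i p hp) (W3_closed i p hp) k]
  simp

/-! ### the total scalar curvature -/

lemma Gm_det_re_pos (i : Fin 3) {p : V} (hp : p ∈ U) : 0 < (Gm i p).det.re := by
  have := (Gm_posDef i hp).det_pos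
  rw [Complex.pos_iff] at this
  exact this.1

lemma two_le_inf : (2 : WithTop ℕ∞) ≤ ∞ := WithTop.coe_le_coe.2 le_top

/-- `log det G - log v` -/
noncomputable def hL : Fin 3 → V → ℝ := fun i p =>
  Real.log (Gm i p).det.re + Real.log (p 0).im + 3 * Real.log (SS 1 i p)

lemma det_re_transform {T : V → V} {p : V} {i i' : Fin 3}
    (h : Gm i p = pull T (Gm i') p) :
    (Gm i p).det.re = normSq (Jac T p).det * (Gm i' (T p)).det.re := by
  rw [h, det_pull, re_ofReal_mul]

lemma hL_fun0 : Fun0 hL := by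
  refine ⟨fun i => ?_, fun p hp h2 => ?_, fun p hp h2 => ?_, fun γ hγ p hp => ?_⟩
  · have h1 : ContDiffOn ℝ ∞ (fun p => (Gm i p).det.re) U :=
      reCLM.contDiff.comp_contDiffOn (Gm_sm i).det
    have h2 : ContDiffOn ℝ ∞ (fun w : V => (w 0).im) U :=
      (imCLM.contDiff.comp (contDiff_apply ℝ ℂ 0)).contDiffOn
    exact ((h1.log fun p hp => (Gm_det_re_pos i hp).ne').add
      (h2.log fun p hp => ne_of_gt hp)).add (contDiffOn_const.mul
        ((SS_contDiff 1 i).contDiffOn.log fun p hp => (SS_pos one_pos i hp).ne'))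
  · have hn : normSq (p 2) ≠ 0 := by simpa using h2
    have hT := T0_mem.2 hp
    have e : (T0 p) 0 = p 0 := rfl
    have hd := det_re_transform (Gm_form.pull0 p hp h2)
    simp only [hL]
    rw [hd, det_Jac_T0 h2, Real.log_mul (by positivity) (Gm_det_re_pos 2 hT).ne', Real.log_inv,
      Real.log_pow, SS_T0 1 h2, Real.log_div (SS_pos one_pos 0 hp).ne' hn, e]
    push_cast
    ring
  · have hn : normSq (p 2) ≠ 0 := by simpa using h2
    have hT := T1_mem.2 hp
    have e : (T1 p) 0 = p 0 := rfl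
    have hd := det_re_transform (Gm_form.pull1 p hp h2)
    simp only [hL]
    rw [hd, det_Jac_T1 h2, Real.log_mul (by positivity) (Gm_det_re_pos 2 hT).ne', Real.log_inv,
      Real.log_pow, SS_T1 1 h2, Real.log_div (SS_pos one_pos 1 hp).ne' hn, e]
    push_cast
    ring
  · have hn : normSq (den γ (p 0)) ≠ 0 := by simpa using den_ne hp
    have hT := act2_mem γ hp
    have e : (act2 γ p) 0 = mob γ (p 0) := rfl
    have hd := det_re_transform (Gm_form.equiv γ hγ p hp)
    have him : (0 : ℝ) < (p 0).im := hp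
    simp only [hL]
    rw [hd, det_Jac_act2 γ hp, Real.log_mul (by positivity) (Gm_det_re_pos 2 hT).ne', Real.log_inv,
      Real.log_pow, SS_act2 1 hp, Real.log_div (SS_pos one_pos 2 hp).ne' hn, e, im_mob γ him,
      Real.log_div him.ne' hn]
    push_cast
    ring

/-- `3Θ - 4f` -/
noncomputable def X0 : Fin 3 → V → Mat := fun i p =>
  ((3 : ℝ) : ℂ) • Th i p + ((-4 : ℝ) : ℂ) • fF i p

lemma X0_form : Form11 X0 := ((ThD_form11 one_pos).smul 3).add (fF_form11.smul (-4))

lemma hess_logdet {p : V} (hp : p ∈ U) :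
    hess (fun w => Real.log (Gm 2 w).det.re) p = hess (hL 2) p - X0 2 p := by
  have hc : ContDiffAt ℝ 2 (fun w => Real.log (Gm 2 w).det.re) p := by
    have h1 : ContDiffOn ℝ ∞ (fun p => (Gm 2 p).det.re) U :=
      reCLM.contDiff.comp_contDiffOn (Gm_sm 2).det
    exact (((h1.log fun p hp => (Gm_det_re_pos 2 hp).ne').contDiffAt
      (isOpen_U.mem_nhds hp))).of_le two_le_inf
  have hS : ContDiffAt ℝ 2 (fun w => Real.log (SS 1 2 w)) p :=
    (((SS_contDiff 1 2).contDiffAt (x := p)).log (SS_pos one_pos 2 hp).ne').of_le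
      two_le_inf
  have hS3 : ContDiffAt ℝ 2 (fun w => 3 * Real.log (SS 1 2 w)) p := contDiffAt_const.mul hS
  have h1 : hess (hL 2) p = hess (fun w => Real.log (Gm 2 w).det.re) p +
      hess (fun p => Real.log (p 0).im) p + hess (fun w => 3 * Real.log (SS 1 2 w)) p := by
    rw [← hess_add hc (contDiffAt_logim hp), ← hess_add (hc.add (contDiffAt_logim hp)) hS3]
    rfl
  have h2 : Th 2 p = hess (fun w => Real.log (SS 1 2 w)) p + fF 2 p := rfl
  rw [h1, hess_log_im hp 2, hess_smul 3 hS, X0, h2]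
  push_cast
  module

lemma sum_Cm (p : V) (X : Mat) : ∑ j, ∑ k, Cm 2 p j k * X j k =
    D3 X (W1 2 p) (W2 2 p) + ((1 / 16 : ℝ) : ℂ) * D3 X (W3 2 p) (W3 2 p) := by
  simp only [D3, Cm, Finset.mul_sum]
  rw [← Finset.sum_add_distrib]
  refine Finset.sum_congr rfl fun j _ => ?_
  rw [← Finset.sum_add_distrib]
  refine Finset.sum_congr rfl fun k _ => ?_
  rw [Matrix.add_apply, Matrix.smul_apply, smul_eq_mul]
  ring

lemma scal_Gm {p : V} (hp : p ∈ U) : scal (Gm 2) p * (Gm 2 p).det.re =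
    -(D3 (hess (fun w => Real.log (Gm 2 w).det.re) p) (W1 2 p) (W2 2 p)).re
      - 1 / 16 * (D3 (hess (fun w => Real.log (Gm 2 w).det.re) p) (W3 2 p) (W3 2 p)).re := by
  have hdet : (Gm 2 p).det = (((Gm 2 p).det.re : ℝ) : ℂ) := by
    have := (Gm_posDef 2 hp).det_pos
    rw [Complex.pos_iff] at this
    exact Complex.ext rfl (by simpa using this.2.symm)
  have h0 : (Gm 2 p).det ≠ 0 := (Gm_posDef 2 hp).det_pos.ne'
  have e : (-∑ j, ∑ k, (Gm 2 p)⁻¹ k j *
      dz j (dzb k (fun w => (Real.log (Gm 2 w).det.re : ℂ))) p) * (((Gm 2 p).det.re : ℝ) : ℂ) =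
      -∑ j, ∑ k, Cm 2 p j k * hess (fun w => Real.log (Gm 2 w).det.re) p j k := by
    rw [← hdet, neg_mul, Finset.sum_mul]
    congr 1
    refine Finset.sum_congr rfl fun j _ => ?_
    rw [Finset.sum_mul]
    refine Finset.sum_congr rfl fun k _ => ?_
    rw [← Gm_adj 2 hp j k, Matrix.inv_def, Ring.inverse_eq_inv', Matrix.smul_apply, smul_eq_mul,
      hess]
    field_simp
  have e2 : scal (Gm 2) p * (Gm 2 p).det.re =
      ((-∑ j, ∑ k, (Gm 2 p)⁻¹ k j *
        dz j (dzb k (fun w => (Real.log (Gm 2 w).det.re : ℂ))) p) *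
          (((Gm 2 p).det.re : ℝ) : ℂ)).re := by
    rw [re_mul_ofReal]
    rfl
  rw [e2, e, sum_Cm, neg_re, add_re, re_ofReal_mul]
  ring

lemma total_Gm {ψ : ℂ → ℝ} (hψ : IsPsi ψ) :
    total ψ Gm = III ψ X0 W1 W2 + 1 / 16 * III ψ X0 W3 W3 := by
  have hf := hL_fun0.hess_form11
  have z1 := III_hess hψ hL_fun0 W1_form W2_form W1_closed W2_closed
  have z2 := III_hess hψ hL_fun0 W3_form W3_form W3_closed W3_closed
  have i1 := III_integrable hψ hf W1_form W2_form
  have i2 := III_integrable hψ hf W3_form W3_form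
  have i3 := III_integrable hψ X0_form W1_form W2_form
  have i4 := III_integrable hψ X0_form W3_form W3_form
  have key : total ψ Gm = (III ψ X0 W1 W2 + 1 / 16 * III ψ X0 W3 W3) -
      (III ψ (fun i p => hess (hL i) p) W1 W2 +
        1 / 16 * III ψ (fun i p => hess (hL i) p) W3 W3) := by
    have i13 : IntegrableOn (fun p => ψ (p 0) * (D3 (X0 2 p) (W1 2 p) (W2 2 p)).re +
        1 / 16 * (ψ (p 0) * (D3 (X0 2 p) (W3 2 p) (W3 2 p)).re)) U := i3.add (i4.const_mul _)
    have i24 : IntegrableOn (fun p => ψ (p 0) * (D3 (hess (hL 2) p) (W1 2 p) (W2 2 p)).re +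
        1 / 16 * (ψ (p 0) * (D3 (hess (hL 2) p) (W3 2 p) (W3 2 p)).re)) U :=
      i1.add (i2.const_mul _)
    rw [III, III, III, III, ← integral_const_mul, ← integral_const_mul,
      ← integral_add i3 (i4.const_mul _), ← integral_add i1 (i2.const_mul _),
      ← integral_sub i13 i24, total]
    refine setIntegral_congr_fun isOpen_U.measurableSet fun p hp => ?_
    have hD : ∀ A B : Mat, D3 (hess (hL 2) p - X0 2 p) A B =
        D3 (hess (hL 2) p) A B - D3 (X0 2 p) A B := by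
      intro A B
      rw [sub_eq_add_neg, D3_add_left, ← neg_one_smul ℂ, D3_smul_left]
      ring
    rw [scal_Gm hp, hess_logdet hp, hD, hD, sub_re, sub_re]
    ring
  rw [key, z1, z2]
  ring

/-! ### the explicit integral -/

/-- `p = s/(1+s)` -/
noncomputable def fp (s : ℝ) : ℝ := s / (1 + s)
/-- `m₂ = s/(1/32+s)` -/
noncomputable def fm (s : ℝ) : ℝ := s / (1 / 32 + s)

noncomputable def fP (s : ℝ) : ℝ :=
  6 * (fp s ^ 3 * fm s) - 3 * fp s ^ 3 - 4 * (fp s ^ 2 * fm s) +
    1 / 16 * (6 * fp s ^ 3 + 2 * fp s ^ 2)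

noncomputable def fA (s : ℝ) : ℝ := 3 * fp s ^ 2 * (1 / (1 + s) ^ 2) * fm s +
  fp s ^ 3 * ((1 / 32) / (1 / 32 + s) ^ 2)
noncomputable def fBd (s : ℝ) : ℝ := 3 * fp s ^ 2 * (1 / (1 + s) ^ 2)
noncomputable def fC (s : ℝ) : ℝ := 2 * fp s * (1 / (1 + s) ^ 2) * fm s +
  fp s ^ 2 * ((1 / 32) / (1 / 32 + s) ^ 2)
noncomputable def fE (s : ℝ) : ℝ := 2 * fp s * (1 / (1 + s) ^ 2)

noncomputable def fP' (s : ℝ) : ℝ :=
  6 * fA s - 3 * fBd s - 4 * fC s + 1 / 16 * (6 * fBd s + 2 * fE s)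

lemma hasDeriv_fp {s : ℝ} (hs : 0 ≤ s) : HasDerivAt fp (1 / (1 + s) ^ 2) s := by
  have h1 : 1 + s ≠ 0 := by positivity
  have : HasDerivAt fp ((1 * (1 + s) - s * 1) / (1 + s) ^ 2) s :=
    (hasDerivAt_id s).div ((hasDerivAt_id s).const_add 1) h1
  convert this using 1
  ring

lemma hasDeriv_fm {s : ℝ} (hs : 0 ≤ s) : HasDerivAt fm ((1 / 32) / (1 / 32 + s) ^ 2) s := by
  have h1 : 1 / 32 + s ≠ 0 := by positivity
  have : HasDerivAt fm ((1 * (1 / 32 + s) - s * 1) / (1 / 32 + s) ^ 2) s :=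
    (hasDerivAt_id s).div ((hasDerivAt_id s).const_add (1 / 32)) h1
  convert this using 1
  ring

lemma hasDeriv_A {s : ℝ} (hs : 0 ≤ s) : HasDerivAt (fun s => fp s ^ 3 * fm s) (fA s) s := by
  have : HasDerivAt (fun s => fp s ^ 3 * fm s) (((3 : ℕ) : ℝ) * fp s ^ (3 - 1) *
      (1 / (1 + s) ^ 2) * fm s + fp s ^ 3 * ((1 / 32) / (1 / 32 + s) ^ 2)) s :=
    ((hasDeriv_fp hs).pow 3).mul (hasDeriv_fm hs)
  convert this using 1
  simp [fA]

lemma hasDeriv_B {s : ℝ} (hs : 0 ≤ s) : HasDerivAt (fun s => fp s ^ 3) (fBd s) s := by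
  have : HasDerivAt (fun s => fp s ^ 3) (((3 : ℕ) : ℝ) * fp s ^ (3 - 1) *
      (1 / (1 + s) ^ 2)) s := (hasDeriv_fp hs).pow 3
  convert this using 1
  simp [fBd]

lemma hasDeriv_C {s : ℝ} (hs : 0 ≤ s) : HasDerivAt (fun s => fp s ^ 2 * fm s) (fC s) s := by
  have : HasDerivAt (fun s => fp s ^ 2 * fm s) (((2 : ℕ) : ℝ) * fp s ^ (2 - 1) *
      (1 / (1 + s) ^ 2) * fm s + fp s ^ 2 * ((1 / 32) / (1 / 32 + s) ^ 2)) s :=
    ((hasDeriv_fp hs).pow 2).mul (hasDeriv_fm hs)
  convert this using 1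
  simp [fC]

lemma hasDeriv_E {s : ℝ} (hs : 0 ≤ s) : HasDerivAt (fun s => fp s ^ 2) (fE s) s := by
  have : HasDerivAt (fun s => fp s ^ 2) (((2 : ℕ) : ℝ) * fp s ^ (2 - 1) *
      (1 / (1 + s) ^ 2)) s := (hasDeriv_fp hs).pow 2
  convert this using 1
  simp [fE]

lemma hasDeriv_fP {s : ℝ} (hs : 0 ≤ s) : HasDerivAt fP (fP' s) s := by
  have h := ((((hasDeriv_A hs).const_mul 6).sub ((hasDeriv_B hs).const_mul 3)).sub
    ((hasDeriv_C hs).const_mul 4)).add ((((hasDeriv_B hs).const_mul 6).add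
      ((hasDeriv_E hs).const_mul 2)).const_mul (1 / 16))
  exact h

lemma tendsto_frac (c : ℝ) : Tendsto (fun s : ℝ => s / (c + s)) atTop (𝓝 1) := by
  have h1 : Tendsto (fun s : ℝ => c + s) atTop atTop := tendsto_atTop_add_const_left _ _ tendsto_id
  have h2 : Tendsto (fun s : ℝ => 1 - c / (c + s)) atTop (𝓝 (1 - 0)) :=
    tendsto_const_nhds.sub (h1.const_div_atTop c)
  rw [sub_zero] at h2
  refine h2.congr' ?_
  filter_upwards [h1.eventually_gt_atTop 0] with s hs
  field_simp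
  ring

lemma tendsto_fp : Tendsto fp atTop (𝓝 1) := tendsto_frac 1
lemma tendsto_fm : Tendsto fm atTop (𝓝 1) := tendsto_frac _

lemma fp_nonneg {s : ℝ} (hs : 0 ≤ s) : 0 ≤ fp s := by unfold fp; positivity
lemma fm_nonneg {s : ℝ} (hs : 0 ≤ s) : 0 ≤ fm s := by unfold fm; positivity

lemma integrable_deriv {F F' : ℝ → ℝ} {l : ℝ} (h : ∀ s, 0 ≤ s → HasDerivAt F (F' s) s)
    (h0 : ∀ s, 0 ≤ s → 0 ≤ F' s) (hl : Tendsto F atTop (𝓝 l)) : IntegrableOn F' (Set.Ioi 0) :=
  integrableOn_Ioi_deriv_of_nonneg (h 0 le_rfl).continuousAt.continuousWithinAt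
    (fun s hs => h s (le_of_lt hs)) (fun s hs => h0 s (le_of_lt hs)) hl

lemma integrable_fP' : IntegrableOn fP' (Set.Ioi 0) := by
  have iA : IntegrableOn fA (Set.Ioi 0) := integrable_deriv (fun s hs => hasDeriv_A hs)
    (fun s hs => by
      have := fp_nonneg hs; have := fm_nonneg hs; unfold fA; positivity)
    ((tendsto_fp.pow 3).mul tendsto_fm)
  have iB : IntegrableOn fBd (Set.Ioi 0) := integrable_deriv (fun s hs => hasDeriv_B hs)
    (fun s hs => by
      have := fp_nonneg hs; unfold fBd; positivity)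
    (tendsto_fp.pow 3)
  have iC : IntegrableOn fC (Set.Ioi 0) := integrable_deriv (fun s hs => hasDeriv_C hs)
    (fun s hs => by
      have := fp_nonneg hs; have := fm_nonneg hs; unfold fC; positivity)
    ((tendsto_fp.pow 2).mul tendsto_fm)
  have iE : IntegrableOn fE (Set.Ioi 0) := integrable_deriv (fun s hs => hasDeriv_E hs)
    (fun s hs => by
      have := fp_nonneg hs; unfold fE; positivity)
    (tendsto_fp.pow 2)
  exact (((iA.const_mul 6).sub (iB.const_mul 3)).sub (iC.const_mul 4)).add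
    (((iB.const_mul 6).add (iE.const_mul 2)).const_mul (1 / 16))

lemma cont_fP' : ContinuousOn fP' (Set.Ioi 0) := by
  have h1 : ∀ s ∈ Set.Ioi (0 : ℝ), 1 + s ≠ 0 := fun s hs => by
    have : (0 : ℝ) < s := hs
    positivity
  have h2 : ∀ s ∈ Set.Ioi (0 : ℝ), 1 / 32 + s ≠ 0 := fun s hs => by
    have : (0 : ℝ) < s := hs
    positivity
  have c1 : ContinuousOn fp (Set.Ioi 0) := continuousOn_id.div (by fun_prop) h1
  have c2 : ContinuousOn fm (Set.Ioi 0) := continuousOn_id.div (by fun_prop) h2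
  have c3 : ContinuousOn (fun s : ℝ => 1 / (1 + s) ^ 2) (Set.Ioi 0) :=
    continuousOn_const.div (by fun_prop) fun s hs => pow_ne_zero 2 (h1 s hs)
  have c4 : ContinuousOn (fun s : ℝ => (1 / 32) / (1 / 32 + s) ^ 2) (Set.Ioi 0) :=
    continuousOn_const.div (by fun_prop) fun s hs => pow_ne_zero 2 (h2 s hs)
  have cA : ContinuousOn fA (Set.Ioi 0) :=
    (((continuousOn_const.mul (c1.pow 2)).mul c3).mul c2).add ((c1.pow 3).mul c4)
  have cB : ContinuousOn fBd (Set.Ioi 0) := (continuousOn_const.mul (c1.pow 2)).mul c3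
  have cC : ContinuousOn fC (Set.Ioi 0) :=
    (((continuousOn_const.mul c1).mul c3).mul c2).add ((c1.pow 2).mul c4)
  have cE : ContinuousOn fE (Set.Ioi 0) := (continuousOn_const.mul c1).mul c3
  exact (((continuousOn_const.mul cA).sub (continuousOn_const.mul cB)).sub
    (continuousOn_const.mul cC)).add
      (continuousOn_const.mul ((continuousOn_const.mul cB).add (continuousOn_const.mul cE)))

lemma fP_zero : fP 0 = 0 := by simp [fP, fp]

lemma tendsto_fP : Tendsto fP atTop (𝓝 (-1 / 2)) := by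
  have h := ((((tendsto_fp.pow 3).mul tendsto_fm).const_mul 6).sub
    ((tendsto_fp.pow 3).const_mul 3)).sub (((tendsto_fp.pow 2).mul tendsto_fm).const_mul 4)
  have h2 := h.add ((((tendsto_fp.pow 3).const_mul 6).add
    ((tendsto_fp.pow 2).const_mul 2)).const_mul (1 / 16))
  have e : (6 * (1 ^ 3 * 1) - 3 * 1 ^ 3 - 4 * (1 ^ 2 * 1) + 1 / 16 * (6 * 1 ^ 3 + 2 * 1 ^ 2) : ℝ)
    = -1 / 2 := by norm_num
  rw [e] at h2
  exact h2

lemma X0_comb {p : V} (hp : p ∈ U) (hN : normSq (p 1) + normSq (p 2) ≠ 0) :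
    X0 2 p = comb p (3 * (sig p / (1 + sig p))) (3 * (sig p / (1 + sig p)) - 4)
      (3 * (sig p / (1 + sig p) ^ 2)) := by
  rw [X0, Th, ThD_comb one_pos hp hN, fF_comb p hp, comb_smul, comb_smul, comb_add]
  congr 1 <;> ring

lemma integrand_eq {p : V} (hp : p ∈ U) (hN : normSq (p 1) + normSq (p 2) ≠ 0) :
    (D3 (X0 2 p) (W1 2 p) (W2 2 p)).re + 1 / 16 * (D3 (X0 2 p) (W3 2 p) (W3 2 p)).re =
      1 / 4 * (((p 0).im ^ 2)⁻¹ * (sig p * fP' (sig p) / (normSq (p 1) + normSq (p 2)) ^ 2)) := by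
  rw [X0_comb hp hN, W1_comb hp hN, W2_comb hp hN, W3_comb hp hN, D3_comb hp hN, D3_comb hp hN,
    ofReal_re, ofReal_re]
  have hs := sig_pos hp hN
  have hy : (0 : ℝ) < (p 0).im := hp
  generalize normSq (p 1) + normSq (p 2) = N at hN ⊢
  generalize sig p = s at hs ⊢
  generalize (p 0).im = y at hy ⊢
  have h1 : 0 < 1 + s := by positivity
  have h2 : 0 < 1 / 32 + s := by positivity
  simp only [fP', fA, fBd, fC, fE, fp, fm]
  field_simp
  ring

end Bal

open Bal in
theorem exists_balanced {ψ : ℂ → ℝ} (hψ : IsPsi ψ) : ∃ W : Fin 3 → V → Mat, Form11 W ∧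
    (∀ i, ∀ p ∈ U, (W i p).PosDef) ∧
    (∀ i, ∀ p ∈ U, ∀ k, ∑ j, dz j (fun p => (W i p).adjugate k j) p = 0) ∧
    total ψ W < 0 := by
  refine ⟨Gm, Gm_form, fun i p hp => Gm_posDef i hp, fun i p hp k => Gm_balanced i hp k, ?_⟩
  obtain ⟨hi, he⟩ := radial hψ.smooth.continuous hψ.cpt hψ.supp
    (fun s hs => hasDeriv_fP (le_of_lt hs)) (hasDeriv_fP le_rfl).continuousAt.continuousWithinAt
    cont_fP' integrable_fP' tendsto_fP
  have i3 := III_integrable hψ X0_form W1_form W2_form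
  have i4 := III_integrable hψ X0_form W3_form W3_form
  have hae : ∀ᵐ p : V, normSq (p 1) + normSq (p 2) ≠ 0 := by
    have h1 : ∀ᵐ p : V, p 1 ≠ 0 := by
      let S : Submodule ℝ V := LinearMap.ker (LinearMap.proj (R := ℝ) (φ := fun _ : Fin 3 => ℂ) 1)
      have hS : S ≠ ⊤ := by
        intro h
        have h2 : (fun _ => 1 : V) ∈ S := by rw [h]; trivial
        have h3 : (1 : ℂ) = 0 := h2
        exact one_ne_zero h3
      have h2 : (volume : Measure V) S = 0 := Measure.addHaar_submodule _ S hS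
      have h3 : {p : V | ¬ p 1 ≠ 0} = S := by
        ext p
        simp [S]
      rw [ae_iff, h3]
      exact h2
    filter_upwards [h1] with p hp
    have h3 : 0 < normSq (p 1) := normSq_pos.2 hp
    have h4 := normSq_nonneg (p 2)
    positivity
  have key : total ψ Gm = 1 / 4 * ∫ p in U, ψ (p 0) * (((p 0).im ^ 2)⁻¹ *
        (sig p * fP' (sig p) / (normSq (p 1) + normSq (p 2)) ^ 2)) := by
    rw [total_Gm hψ, III, III, ← integral_const_mul, ← integral_const_mul,
      ← integral_add i3 (i4.const_mul _)]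
    refine setIntegral_congr_ae isOpen_U.measurableSet ?_
    filter_upwards [hae] with p hN hp
    have := integrand_eq hp hN
    linear_combination ψ (p 0) * this
  rw [key, he, fP_zero, sub_zero]
  have hpos := psi_area_pos hψ
  have hpi := Real.pi_pos
  have : 0 < Real.pi ^ 2 * (1 / 2) * ∫ z in {z : ℂ | 0 < z.im}, ψ z * (z.im ^ 2)⁻¹ := by
    positivity
  linarith

end Pool.Agent.KG
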