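import Mathlib
import Pool.Agent.KG.Forms

/-! # Module F2: the period `x(W) = ∫_ℂ W_{λλ̄} dλ` is independent of the line through `Z` -/

open scoped ContDiff ComplexConjugate ComplexOrder Matrix Topology MatrixGroups
open Complex MeasureTheory Filter

namespace Pool.Agent.KG.LineAux

/-- a bound at infinity from a second chart -/
lemma two_chart {X E : Type*} [TopologicalSpace X] [NormedAddCommGroup E] {K : Set X}
    (hK : IsCompact K) {F G : X × ℂ → E} {m : ℕ} (hF : ContinuousOn F (K ×ˢ Set.univ))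
    (hG : ContinuousOn G (K ×ˢ Set.univ))
    (h : ∀ x ∈ K, ∀ l : ℂ, l ≠ 0 → ‖F (x, l)‖ ≤ ‖G (x, 1 / l)‖ / ‖l‖ ^ m) :
    ∃ C : ℝ, 0 ≤ C ∧ ∀ x ∈ K, ∀ l : ℂ, ‖F (x, l)‖ ≤ C * (1 + ‖l‖) ^ (-(m : ℝ)) := by
  have hKB : IsCompact (K ×ˢ (Metric.closedBall (0 : ℂ) 1)) :=
    hK.prod (isCompact_closedBall 0 1)
  have hsub : K ×ˢ (Metric.closedBall (0 : ℂ) 1) ⊆ K ×ˢ Set.univ :=
    Set.prod_mono le_rfl (Set.subset_univ _)
  obtain ⟨C1, h1⟩ := hKB.exists_bound_of_continuousOn (hF.mono hsub)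
  obtain ⟨C2, h2⟩ := hKB.exists_bound_of_continuousOn (hG.mono hsub)
  refine ⟨(max C1 0 + max C2 0) * 2 ^ m, by positivity, fun x hx l => ?_⟩
  have hpow : (1 + ‖l‖) ^ (-(m : ℝ)) = 1 / (1 + ‖l‖) ^ m := by
    rw [Real.rpow_neg (by positivity), Real.rpow_natCast, one_div]
  rw [hpow]
  have hpos : 0 < (1 + ‖l‖) ^ m := by positivity
  rw [mul_one_div, le_div_iff₀ hpos]
  have m1 : 0 ≤ max C1 0 := le_max_right _ _
  have m2 : 0 ≤ max C2 0 := le_max_right _ _
  rcases le_total ‖l‖ 1 with hl | hl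
  · have b1 : ‖F (x, l)‖ ≤ max C1 0 :=
      (h1 (x, l) ⟨hx, by simpa using hl⟩).trans (le_max_left _ _)
    have b2 : (1 + ‖l‖) ^ m ≤ 2 ^ m := by
      apply pow_le_pow_left₀ (by positivity); linarith
    calc ‖F (x, l)‖ * (1 + ‖l‖) ^ m ≤ max C1 0 * 2 ^ m := by gcongr
      _ ≤ _ := by gcongr; linarith
  · have hl0 : l ≠ 0 := by
      intro h0; rw [h0, norm_zero] at hl; linarith
    have hlp : 0 < ‖l‖ := by linarith
    have b1 : ‖G (x, 1 / l)‖ ≤ max C2 0 := by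
      refine (h2 (x, 1 / l) ⟨hx, ?_⟩).trans (le_max_left _ _)
      simp only [mem_closedBall_zero_iff, norm_div, norm_one]
      rw [div_le_one hlp]; exact hl
    have b2 : (1 + ‖l‖) ^ m ≤ 2 ^ m * ‖l‖ ^ m := by
      rw [← mul_pow]
      apply pow_le_pow_left₀ (by positivity); linarith
    calc ‖F (x, l)‖ * (1 + ‖l‖) ^ m ≤ (max C2 0 / ‖l‖ ^ m) * (2 ^ m * ‖l‖ ^ m) := by
          gcongr
          exact (h x hx l hl0).trans (by gcongr)
      _ = max C2 0 * 2 ^ m := by field_simp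
      _ ≤ _ := by gcongr; linarith

lemma integrable_aux {r : ℝ} (hr : 2 < r) : Integrable (fun l : ℂ => (1 + ‖l‖) ^ (-r)) := by
  apply integrable_one_add_norm
  simpa using hr

/-- Stokes for a function of order `|l|⁻²` at infinity -/
lemma integral_dz_zero {g : ℂ → ℂ} (hg : ContDiff ℝ 1 g) {C : ℝ}
    (hb : ∀ l, ‖g l‖ ≤ C * (1 + ‖l‖) ^ (-2 : ℝ))
    (hi : Integrable (fun l => fderiv ℝ g l 1 - I * fderiv ℝ g l I)) :
    ∫ l, (fderiv ℝ g l 1 - I * fderiv ℝ g l I) = 0 := by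
  -- the cut-off
  let χ : ContDiffBump (0 : ℂ) := ⟨1, 2, by norm_num, by norm_num⟩
  have hχc : ContDiff ℝ 1 (χ : ℂ → ℝ) := χ.contDiff
  have hχs : HasCompactSupport (χ : ℂ → ℝ) := χ.hasCompactSupport
  have hC : 0 ≤ C := by
    have := hb 0
    simp at this
    exact (norm_nonneg _).trans this
  have hd : Differentiable ℝ g := hg.differentiable one_ne_zero
  have hdχ : Differentiable ℝ (χ : ℂ → ℝ) := hχc.differentiable one_ne_zero
  obtain ⟨D, hD⟩ : ∃ D, ∀ x, ‖fderiv ℝ (χ : ℂ → ℝ) x‖ ≤ D :=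
    (hχc.continuous_fderiv one_ne_zero).bounded_above_of_compact_support
      (hχs.fderiv (𝕜 := ℝ))
  have hD0 : 0 ≤ D := (norm_nonneg _).trans (hD 0)
  let R : ℕ → ℝ := fun n => (n : ℝ) + 1
  have hR : ∀ n, 1 ≤ R n := fun n => by simp [R]
  have hR0 : ∀ n, 0 < R n := fun n => by have := hR n; linarith
  let χn : ℕ → ℂ → ℝ := fun n l => χ ((R n)⁻¹ • l)
  have hχn : ∀ n, ContDiff ℝ 1 (χn n) := fun n =>
    hχc.comp (contDiff_const_smul _)
  have hsupp : ∀ n, HasCompactSupport (χn n) := fun n =>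
    hχs.comp_smul (inv_ne_zero (hR0 n).ne')
  set J : ℝ := ∫ l : ℂ, (1 + ‖l‖) ^ (-(5 / 2 : ℝ)) with hJ
  have hJ0 : 0 ≤ J := integral_nonneg fun l => by positivity
  -- derivative of the cut-off
  have hder : ∀ n l v, fderiv ℝ (χn n) l v = (R n)⁻¹ * fderiv ℝ (χ : ℂ → ℝ) ((R n)⁻¹ • l) v := by
    intro n l v
    have h1 : HasFDerivAt (χn n) ((fderiv ℝ (χ : ℂ → ℝ) ((R n)⁻¹ • l)).comp
        ((R n)⁻¹ • ContinuousLinearMap.id ℝ ℂ)) l :=
      HasFDerivAt.comp l (g := (χ : ℂ → ℝ)) (f := fun l => (R n)⁻¹ • l) (hdχ _).hasFDerivAt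
        ((R n)⁻¹ • ContinuousLinearMap.id ℝ ℂ).hasFDerivAt
    rw [h1.fderiv]
    simp
  have hzero : ∀ n l, 2 * R n < ‖l‖ → fderiv ℝ (χn n) l = 0 := by
    intro n l hl
    have : χn n =ᶠ[𝓝 l] fun _ => 0 := by
      have ho : IsOpen {l : ℂ | 2 * R n < ‖l‖} := isOpen_lt continuous_const continuous_norm
      filter_upwards [ho.mem_nhds hl] with m hm
      apply χ.zero_of_le_dist
      show (2 : ℝ) ≤ _
      rw [dist_zero_right, norm_smul, Real.norm_of_nonneg (inv_nonneg.2 (hR0 n).le)]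
      rw [inv_mul_eq_div, le_div_iff₀ (hR0 n)]
      exact le_of_lt hm
    rw [this.fderiv_eq]
    simp
  have hpt : ∀ n l v, ‖v‖ ≤ 1 → ‖fderiv ℝ (χn n) l v • g l‖ ≤
      (D * C * 2 / √(R n)) * (1 + ‖l‖) ^ (-(5 / 2 : ℝ)) := by
    intro n l v hv
    have hRn := hR0 n
    rcases lt_or_ge (2 * R n) ‖l‖ with h | h
    · rw [hzero n l h]
      simp
      positivity
    · have e1 : ‖fderiv ℝ (χn n) l v‖ ≤ (R n)⁻¹ * D := by
        rw [hder, norm_mul, Real.norm_of_nonneg (inv_nonneg.2 hRn.le)]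
        gcongr
        calc ‖fderiv ℝ (χ : ℂ → ℝ) ((R n)⁻¹ • l) v‖ ≤ ‖fderiv ℝ (χ : ℂ → ℝ) ((R n)⁻¹ • l)‖ * ‖v‖ :=
              ContinuousLinearMap.le_opNorm _ _
          _ ≤ D * 1 := by gcongr; exact hD _
          _ = D := mul_one _
      have e2 : (1 + ‖l‖) ^ (-2 : ℝ) ≤ (2 * √(R n)) * (1 + ‖l‖) ^ (-(5 / 2 : ℝ)) := by
        have : (1 + ‖l‖) ^ (-2 : ℝ) = √(1 + ‖l‖) * (1 + ‖l‖) ^ (-(5 / 2 : ℝ)) := by
          rw [Real.sqrt_eq_rpow, ← Real.rpow_add (by positivity)]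
          norm_num
        rw [this]
        gcongr
        rw [Real.sqrt_le_left (by positivity), mul_pow, Real.sq_sqrt hRn.le]
        have := hR n
        linarith
      have e3 : (R n)⁻¹ * √(R n) = 1 / √(R n) := by
        rw [inv_mul_eq_div, Real.sqrt_div_self']
      rw [norm_smul]
      calc ‖fderiv ℝ (χn n) l v‖ * ‖g l‖ ≤ ((R n)⁻¹ * D) * (C * (1 + ‖l‖) ^ (-2 : ℝ)) := by
            gcongr; exact hb l
        _ ≤ ((R n)⁻¹ * D) * (C * ((2 * √(R n)) * (1 + ‖l‖) ^ (-(5 / 2 : ℝ)))) := by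
            gcongr
        _ = (D * C * 2) * ((R n)⁻¹ * √(R n)) * (1 + ‖l‖) ^ (-(5 / 2 : ℝ)) := by ring
        _ = _ := by rw [e3]; ring
  have hgc : Continuous (fderiv ℝ g) := hg.continuous_fderiv one_ne_zero
  have hcn : ∀ n, Continuous (χn n) := fun n => (hχn n).continuous
  have hint1 : ∀ n v, Integrable (fun l => χn n l • fderiv ℝ g l v) := fun n v =>
    ((hcn n).smul (hgc.clm_apply continuous_const)).integrable_of_hasCompactSupport
      ((hsupp n).smul_right)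
  have hkey : ∀ n v, ‖v‖ ≤ 1 → ‖∫ l, χn n l • fderiv ℝ g l v‖ ≤ (D * C * 2 / √(R n)) * J := by
    intro n v hv
    have hparts := integral_smul_fderiv_eq_neg_fderiv_smul_of_integrable
      (μ := (volume : Measure ℂ)) (f := χn n) (g := g) (v := v)
      ?_ (hint1 n v) ?_ (fun x _ => ((hχn n).differentiable one_ne_zero) x) (fun x _ => hd x)
    · rw [hparts, norm_neg]
      refine (norm_integral_le_integral_norm _).trans ?_
      rw [hJ, ← integral_const_mul]
      refine integral_mono_of_nonneg (Eventually.of_forall fun l => norm_nonneg _)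
        ((integrable_aux (by norm_num)).const_mul _) (Eventually.of_forall fun l => hpt n l v hv)
    · refine Continuous.integrable_of_hasCompactSupport
        ((((hχn n).continuous_fderiv one_ne_zero).clm_apply continuous_const).smul hg.continuous) ?_
      refine HasCompactSupport.smul_right (f := fun l => fderiv ℝ (χn n) l v) ?_
      exact (((hsupp n).fderiv (𝕜 := ℝ))).comp_left (g := fun L : ℂ →L[ℝ] ℝ => L v) (by simp)
    · exact ((hcn n).smul hg.continuous).integrable_of_hasCompactSupport ((hsupp n).smul_right)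
  -- the limit
  have hlim1 : Tendsto (fun n => ∫ l, χn n l • (fderiv ℝ g l 1 - I * fderiv ℝ g l I)) atTop
      (𝓝 (∫ l, (fderiv ℝ g l 1 - I * fderiv ℝ g l I))) := by
    refine tendsto_integral_of_dominated_convergence
      (fun l => ‖fderiv ℝ g l 1 - I * fderiv ℝ g l I‖) ?_ hi.norm ?_ ?_
    · intro n
      exact (hcn n).aestronglyMeasurable.smul hi.aestronglyMeasurable
    · intro n
      refine Eventually.of_forall fun l => ?_
      rw [norm_smul]
      have : ‖χn n l‖ ≤ 1 := by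
        rw [Real.norm_of_nonneg χ.nonneg]
        exact χ.le_one
      calc _ ≤ 1 * ‖fderiv ℝ g l 1 - I * fderiv ℝ g l I‖ := by gcongr
        _ = _ := one_mul _
    · refine Eventually.of_forall fun l => ?_
      refine tendsto_const_nhds.congr' ?_
      obtain ⟨N, hN⟩ := exists_nat_ge ‖l‖
      filter_upwards [eventually_ge_atTop N] with n hn
      have : χn n l = 1 := by
        apply χ.one_of_mem_closedBall
        show _ ∈ Metric.closedBall _ (1 : ℝ)
        rw [mem_closedBall_zero_iff, norm_smul, Real.norm_of_nonneg (inv_nonneg.2 (hR0 n).le)]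
        rw [inv_mul_eq_div, div_le_one (hR0 n)]
        have : (N : ℝ) ≤ n := by exact_mod_cast hn
        simp only [R]
        linarith
      rw [this, one_smul]
  have hlim2 : Tendsto (fun n => ∫ l, χn n l • (fderiv ℝ g l 1 - I * fderiv ℝ g l I)) atTop
      (𝓝 0) := by
    have hb2 : ∀ n, ‖∫ l, χn n l • (fderiv ℝ g l 1 - I * fderiv ℝ g l I)‖ ≤
        2 * (D * C * 2 * J) / √(R n) := by
      intro n
      have e : ∫ l, χn n l • (fderiv ℝ g l 1 - I * fderiv ℝ g l I) =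
          (∫ l, χn n l • fderiv ℝ g l 1) - I * ∫ l, χn n l • fderiv ℝ g l I := by
        rw [← integral_const_mul, ← integral_sub (hint1 n 1) ((hint1 n I).const_mul I)]
        congr 1
        ext l
        rw [smul_sub, mul_smul_comm]
      rw [e]
      refine (norm_sub_le _ _).trans ?_
      rw [norm_mul, Complex.norm_I, one_mul]
      have a1 := hkey n 1 (by simp)
      have a2 := hkey n I (by simp)
      calc _ ≤ (D * C * 2 / √(R n)) * J + (D * C * 2 / √(R n)) * J := add_le_add a1 a2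
        _ = _ := by ring
    refine squeeze_zero_norm hb2 ?_
    refine Tendsto.const_div_atTop ?_ _
    refine Real.tendsto_sqrt_atTop.comp ?_
    exact tendsto_atTop_add_const_right _ _ tendsto_natCast_atTop_atTop
  exact tendsto_nhds_unique hlim1 hlim2

/-- the coordinates `((z, a), l)` -/
noncomputable def io : ((ℂ × ℂ) × ℂ) →L[ℝ] V :=
  ContinuousLinearMap.pi ![(ContinuousLinearMap.fst ℝ ℂ ℂ).comp
      (ContinuousLinearMap.fst ℝ (ℂ × ℂ) ℂ),
    (ContinuousLinearMap.snd ℝ ℂ ℂ).comp (ContinuousLinearMap.fst ℝ (ℂ × ℂ) ℂ),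
    ContinuousLinearMap.snd ℝ (ℂ × ℂ) ℂ]

lemma io_apply (x : (ℂ × ℂ) × ℂ) : io x = ![x.1.1, x.1.2, x.2] := by
  ext i
  fin_cases i <;> rfl

def Dom : Set (ℂ × ℂ) := {x | 0 < x.1.im}

lemma isOpen_Dom : IsOpen Dom := by
  apply isOpen_lt continuous_const
  exact Complex.continuous_im.comp continuous_fst

lemma convex_Dom : Convex ℝ Dom := by
  have : Dom = (Complex.imCLM.comp (ContinuousLinearMap.fst ℝ ℂ ℂ)) ⁻¹' (Set.Ioi (0 : ℝ)) := rfl
  rw [this]
  exact (convex_Ioi 0).linear_preimage (Complex.imCLM.comp (ContinuousLinearMap.fst ℝ ℂ ℂ)).toLinearMap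

lemma io_mem {x : ℂ × ℂ} (hx : x ∈ Dom) (l : ℂ) : io (x, l) ∈ U := by
  rw [io_apply]
  exact hx

/-- derivative in the direction of the parameters -/
noncomputable def fd (a : V → ℂ) (x : (ℂ × ℂ) × ℂ) : (ℂ × ℂ) →L[ℝ] ℂ :=
  (fderiv ℝ a (io x)).comp (io.comp (ContinuousLinearMap.inl ℝ (ℂ × ℂ) ℂ))

lemma hasFDerivAt_fd {a : V → ℂ} (ha : ContDiffOn ℝ ∞ a U) {x : ℂ × ℂ} (hx : x ∈ Dom) (l : ℂ) :
    HasFDerivAt (fun y => a (io (y, l))) (fd a (x, l)) x := by
  have h1 : HasFDerivAt a (fderiv ℝ a (io (x, l))) (io (x, l)) :=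
    ((ha.contDiffAt (isOpen_U.mem_nhds (io_mem hx l))).differentiableAt (by simp)).hasFDerivAt
  have h2 : HasFDerivAt (fun y : ℂ × ℂ => (y, l)) (ContinuousLinearMap.inl ℝ (ℂ × ℂ) ℂ) x :=
    hasFDerivAt_prodMk_left x l
  exact h1.comp x (io.hasFDerivAt.comp x h2)

lemma continuousOn_fd {a : V → ℂ} (ha : ContDiffOn ℝ ∞ a U) :
    ContinuousOn (fd a) (Dom ×ˢ Set.univ) := by
  have h1 : ContinuousOn (fderiv ℝ a) U :=
    ha.continuousOn_fderiv_of_isOpen isOpen_U (by simp)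
  have h2 : ContinuousOn (fun x => fderiv ℝ a (io x)) (Dom ×ˢ Set.univ) :=
    h1.comp io.continuous.continuousOn (fun x hx => io_mem hx.1 x.2)
  exact h2.clm_comp continuousOn_const

lemma fd_bound {a b : V → ℂ} (ha : ContDiffOn ℝ ∞ a U) (hb : ContDiffOn ℝ ∞ b U)
    (h : ∀ p ∈ U, p 2 ≠ 0 → a p = b ![p 0, p 1, 1 / p 2] / normSq (p 2) ^ 2)
    {K : Set (ℂ × ℂ)} (hK : IsCompact K) (hK' : K ⊆ Dom) :
    ∃ C : ℝ, 0 ≤ C ∧ ∀ x ∈ K, ∀ l : ℂ, ‖fd a (x, l)‖ ≤ C * (1 + ‖l‖) ^ (-(4 : ℝ)) := by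
  have := two_chart (m := 4) hK ((continuousOn_fd ha).mono (Set.prod_mono hK' le_rfl))
    ((continuousOn_fd hb).mono (Set.prod_mono hK' le_rfl)) ?_
  · simpa using this
  intro x hx l hl
  have e : fd a (x, l) = ((normSq l : ℂ) ^ 2)⁻¹ • fd b (x, 1 / l) := by
    refine (hasFDerivAt_fd ha (hK' hx) l).unique ?_
    have h3 := (hasFDerivAt_fd hb (hK' hx) (1 / l)).const_smul (((normSq l : ℂ) ^ 2)⁻¹)
    refine h3.congr_of_eventuallyEq ?_
    filter_upwards [isOpen_Dom.mem_nhds (hK' hx)] with y hy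
    have := h (io (y, l)) (io_mem hy l) (by simpa [io_apply] using hl)
    rw [this]
    simp only [io_apply]
    simp [div_eq_inv_mul]
  rw [e, norm_smul, norm_inv, norm_pow]
  simp only [Complex.norm_real, Real.norm_eq_abs]
  rw [Complex.normSq_eq_norm_sq, abs_of_nonneg (by positivity), ← pow_mul, inv_mul_eq_div]

lemma f_bound {a b : V → ℂ} (ha : ContDiffOn ℝ ∞ a U) (hb : ContDiffOn ℝ ∞ b U)
    (h : ∀ p ∈ U, p 2 ≠ 0 → a p = b ![p 0, p 1, 1 / p 2] / normSq (p 2) ^ 2)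
    {K : Set (ℂ × ℂ)} (hK : IsCompact K) (hK' : K ⊆ Dom) :
    ∃ C : ℝ, 0 ≤ C ∧ ∀ x ∈ K, ∀ l : ℂ, ‖a (io (x, l))‖ ≤ C * (1 + ‖l‖) ^ (-(4 : ℝ)) := by
  have hc : ∀ {a : V → ℂ}, ContDiffOn ℝ ∞ a U →
      ContinuousOn (fun x => a (io x)) (K ×ˢ Set.univ) := fun {a} ha =>
    ha.continuousOn.comp io.continuous.continuousOn (fun x hx => io_mem (hK' hx.1) x.2)
  have := two_chart (m := 4) hK (hc ha) (hc hb) ?_
  · simpa using this
  intro x hx l hl
  have := h (io (x, l)) (io_mem (hK' hx) l) (by simpa [io_apply] using hl)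
  show ‖a (io (x, l))‖ ≤ ‖b (io (x, 1 / l))‖ / _
  rw [this]
  simp only [io_apply]
  simp
  rw [Complex.normSq_eq_norm_sq, ← pow_mul]

lemma f_bound2 {a b : V → ℂ} (ha : ContDiffOn ℝ ∞ a U) (hb : ContDiffOn ℝ ∞ b U)
    (h : ∀ p ∈ U, p 2 ≠ 0 → a p = - b ![p 0, p 1, 1 / p 2] / conj (p 2) ^ 2)
    {x : ℂ × ℂ} (hx : x ∈ Dom) :
    ∃ C : ℝ, ∀ l : ℂ, ‖a (io (x, l))‖ ≤ C * (1 + ‖l‖) ^ (-(2 : ℝ)) := by
  have hK : IsCompact ({x} : Set (ℂ × ℂ)) := isCompact_singleton
  have hK' : ({x} : Set (ℂ × ℂ)) ⊆ Dom := by simpa using hx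
  have hc : ∀ {a : V → ℂ}, ContDiffOn ℝ ∞ a U →
      ContinuousOn (fun x => a (io x)) (({x} : Set (ℂ × ℂ)) ×ˢ Set.univ) := fun {a} ha =>
    ha.continuousOn.comp io.continuous.continuousOn (fun x hx => io_mem (hK' hx.1) x.2)
  have := two_chart (m := 2) hK (hc ha) (hc hb) ?_
  · obtain ⟨C, -, hC⟩ := this
    exact ⟨C, fun l => by simpa using hC x rfl l⟩
  intro x hx l hl
  have := h (io (x, l)) (io_mem (hK' hx) l) (by simpa [io_apply] using hl)
  show ‖a (io (x, l))‖ ≤ ‖b (io (x, 1 / l))‖ / _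
  rw [this]
  simp only [io_apply]
  simp


section period
variable {A B : V → Mat}

lemma fd_apply (a : V → ℂ) (x : (ℂ × ℂ) × ℂ) (v : ℂ × ℂ) :
    fd a x v = fderiv ℝ a (io x) (io (v, 0)) := rfl

lemma io_single0 (c : ℂ) : io ((c, 0), 0) = Pi.single 0 c := by
  rw [io_apply]; ext i; fin_cases i <;> simp
lemma io_single1 (c : ℂ) : io ((0, c), 0) = Pi.single 1 c := by
  rw [io_apply]; ext i; fin_cases i <;> simp
lemma io_single2 (c : ℂ) : io ((0, 0), c) = Pi.single 2 c := by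
  rw [io_apply]; ext i; fin_cases i <;> simp

lemma integrable_fd {a b : V → ℂ} (ha : ContDiffOn ℝ ∞ a U) (hb : ContDiffOn ℝ ∞ b U)
    (h : ∀ p ∈ U, p 2 ≠ 0 → a p = b ![p 0, p 1, 1 / p 2] / normSq (p 2) ^ 2)
    {x : ℂ × ℂ} (hx : x ∈ Dom) : Integrable (fun l => fd a (x, l)) := by
  obtain ⟨C, -, hC⟩ := fd_bound ha hb h (isCompact_singleton (x := x)) (by simpa using hx)
  have hm : Continuous (fun l => fd a (x, l)) := by
    have := (continuousOn_fd ha).comp (f := fun l : ℂ => (x, l)) (s := Set.univ)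
      (by fun_prop) (fun l _ => ⟨hx, trivial⟩)
    rwa [continuousOn_univ] at this
  exact Integrable.mono' ((integrable_aux (r := 4) (by norm_num)).const_mul C)
    hm.aestronglyMeasurable (Eventually.of_forall fun l => hC x rfl l)

lemma continuous_slice {a : V → ℂ} (ha : ContDiffOn ℝ ∞ a U) {x : ℂ × ℂ} (hx : x ∈ Dom) :
    Continuous (fun l => a (io (x, l))) := by
  have := ha.continuousOn.comp (f := fun l : ℂ => io (x, l)) (s := Set.univ)
    (by fun_prop) (fun l _ => io_mem hx l)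
  rwa [continuousOn_univ] at this

lemma integrable_slice {a b : V → ℂ} (ha : ContDiffOn ℝ ∞ a U) (hb : ContDiffOn ℝ ∞ b U)
    (h : ∀ p ∈ U, p 2 ≠ 0 → a p = b ![p 0, p 1, 1 / p 2] / normSq (p 2) ^ 2)
    {x : ℂ × ℂ} (hx : x ∈ Dom) : Integrable (fun l => a (io (x, l))) := by
  obtain ⟨C, -, hC⟩ := f_bound ha hb h (isCompact_singleton (x := x)) (by simpa using hx)
  exact Integrable.mono' ((integrable_aux (r := 4) (by norm_num)).const_mul C)
    (continuous_slice ha hx).aestronglyMeasurable (Eventually.of_forall fun l => hC x rfl l)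

/-- the integral of `∂_j A_{22}` over a line vanishes, `j = 0, 1` -/
lemma integral_dz_a22 (hA : ∀ j k, ContDiffOn ℝ ∞ (fun p => A p j k) U)
    (hB : ∀ j k, ContDiffOn ℝ ∞ (fun p => B p j k) U)
    (cA : ∀ p ∈ U, ∀ a j k, dz a (fun p => A p j k) p = dz j (fun p => A p a k) p)
    (h22 : ∀ p ∈ U, p 2 ≠ 0 → A p 2 2 = B ![p 0, p 1, 1 / p 2] 2 2 / normSq (p 2) ^ 2)
    (hj2 : ∀ p ∈ U, p 2 ≠ 0 → ∀ j, j ≠ 2 →
      A p j 2 = - B ![p 0, p 1, 1 / p 2] j 2 / conj (p 2) ^ 2)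
    {x : ℂ × ℂ} (hx : x ∈ Dom) {j : Fin 3} (hj : j ≠ 2) :
    Integrable (fun l => dz j (fun p => A p 2 2) (io (x, l))) ∧
    ∫ l, dz j (fun p => A p 2 2) (io (x, l)) = 0 := by
  have hfd := integrable_fd (hA 2 2) (hB 2 2) h22 hx
  -- the directional derivatives
  have hdir : ∀ c : ℂ, Integrable (fun l => fderiv ℝ (fun p => A p 2 2) (io (x, l))
      (Pi.single j c)) := by
    intro c
    have hj01 : j = 0 ∨ j = 1 := by
      fin_cases j
      · exact Or.inl rfl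
      · exact Or.inr rfl
      · exact absurd rfl hj
    rcases hj01 with rfl | rfl
    · have := hfd.apply_continuousLinearMap (c, 0)
      simpa only [fd_apply, io_single0] using this
    · have := hfd.apply_continuousLinearMap (0, c)
      simpa only [fd_apply, io_single1] using this
  have hint : Integrable (fun l => dz j (fun p => A p 2 2) (io (x, l))) :=
    ((hdir 1).sub ((hdir I).const_mul I)).div_const 2
  refine ⟨hint, ?_⟩
  have hcl : ∀ l, dz j (fun p => A p 2 2) (io (x, l)) =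
      (fderiv ℝ (fun l => A (io (x, l)) j 2) l 1 -
        I * fderiv ℝ (fun l => A (io (x, l)) j 2) l I) / 2 := by
    intro l
    rw [cA _ (io_mem hx l) j 2 2]
    have hd : HasFDerivAt (fun l => A (io (x, l)) j 2)
        ((fderiv ℝ (fun p => A p j 2) (io (x, l))).comp
          (io.comp (ContinuousLinearMap.inr ℝ (ℂ × ℂ) ℂ))) l := by
      have h1 : HasFDerivAt (fun p => A p j 2) (fderiv ℝ (fun p => A p j 2) (io (x, l)))
          (io (x, l)) :=
        (((hA j 2).contDiffAt (isOpen_U.mem_nhds (io_mem hx l))).differentiableAt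
          (by simp)).hasFDerivAt
      have h2 : HasFDerivAt (fun l : ℂ => (x, l)) (ContinuousLinearMap.inr ℝ (ℂ × ℂ) ℂ) l :=
        hasFDerivAt_prodMk_right x l
      exact h1.comp l (io.hasFDerivAt.comp l h2)
    rw [hd.fderiv]
    have e : ∀ c : ℂ, io.comp (ContinuousLinearMap.inr ℝ (ℂ × ℂ) ℂ) c = Pi.single 2 c := by
      intro c
      exact io_single2 c
    simp only [ContinuousLinearMap.comp_apply] at e ⊢
    rw [e, e]
    rfl
  have hg : ContDiff ℝ 1 (fun l => A (io (x, l)) j 2) := by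
    rw [← contDiffOn_univ]
    exact ((hA j 2).of_le (by simp)).comp (f := fun l : ℂ => io (x, l))
      (io.contDiff.comp (contDiff_prodMk_right x)).contDiffOn (fun l _ => io_mem hx l)
  obtain ⟨C, hC⟩ := f_bound2 (hA j 2) (hB j 2) (fun p hp h2 => hj2 p hp h2 j hj) hx
  simp only [hcl] at hint ⊢
  have hint2 := hint.const_mul 2
  rw [integral_div]
  have := integral_dz_zero hg hC (by
    refine hint2.congr (Eventually.of_forall fun l => ?_)
    ring)
  rw [this, zero_div]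

lemma hasFDerivAt_period (hA : ∀ j k, ContDiffOn ℝ ∞ (fun p => A p j k) U)
    (hB : ∀ j k, ContDiffOn ℝ ∞ (fun p => B p j k) U)
    (hH : ∀ p ∈ U, (A p).IsHermitian)
    (cA : ∀ p ∈ U, ∀ a j k, dz a (fun p => A p j k) p = dz j (fun p => A p a k) p)
    (h22 : ∀ p ∈ U, p 2 ≠ 0 → A p 2 2 = B ![p 0, p 1, 1 / p 2] 2 2 / normSq (p 2) ^ 2)
    (hj2 : ∀ p ∈ U, p 2 ≠ 0 → ∀ j, j ≠ 2 →
      A p j 2 = - B ![p 0, p 1, 1 / p 2] j 2 / conj (p 2) ^ 2)
    {x : ℂ × ℂ} (hx : x ∈ Dom) :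
    HasFDerivAt (fun x => ∫ l, A (io (x, l)) 2 2) (0 : (ℂ × ℂ) →L[ℝ] ℂ) x := by
  obtain ⟨ε, hε, hball⟩ := Metric.nhds_basis_closedBall.mem_iff.1 (isOpen_Dom.mem_nhds hx)
  obtain ⟨C, -, hC⟩ := fd_bound (hA 2 2) (hB 2 2) h22 (isCompact_closedBall x ε) hball
  have key := hasFDerivAt_integral_of_dominated_of_fderiv_le (μ := (volume : Measure ℂ))
    (F := fun y l => A (io (y, l)) 2 2) (F' := fun y l => fd (fun p => A p 2 2) (y, l))
    (x₀ := x) (s := Metric.closedBall x ε) (bound := fun l => C * (1 + ‖l‖) ^ (-(4 : ℝ)))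
    (Metric.closedBall_mem_nhds x hε)
    (by
      filter_upwards [isOpen_Dom.mem_nhds hx] with y hy
      exact (continuous_slice (hA 2 2) hy).aestronglyMeasurable)
    (integrable_slice (hA 2 2) (hB 2 2) h22 hx)
    (integrable_fd (hA 2 2) (hB 2 2) h22 hx).aestronglyMeasurable
    (Eventually.of_forall fun l y hy => hC y hy l)
    ((integrable_aux (by norm_num)).const_mul C)
    (Eventually.of_forall fun l y hy => hasFDerivAt_fd (hA 2 2) (hball hy) l)
  have hz : ∫ l, fd (fun p => A p 2 2) (x, l) = 0 := by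
    refine ContinuousLinearMap.ext fun v => ?_
    rw [ContinuousLinearMap.integral_apply (integrable_fd (hA 2 2) (hB 2 2) h22 hx)]
    have e : ∀ l, fd (fun p => A p 2 2) (x, l) v =
        dz 0 (fun p => A p 2 2) (io (x, l)) * v.1 +
          conj (dz 0 (fun p => A p 2 2) (io (x, l))) * conj v.1 +
        (dz 1 (fun p => A p 2 2) (io (x, l)) * v.2 +
          conj (dz 1 (fun p => A p 2 2) (io (x, l))) * conj v.2) := by
      intro l
      rw [fd_apply, fderiv_eq (((hA 2 2).contDiffAt (isOpen_U.mem_nhds (io_mem hx l))).differentiableAt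
          (by simp))]
      have hc : ∀ j, dzb j (fun p => A p 2 2) (io (x, l)) =
          conj (dz j (fun p => A p 2 2) (io (x, l))) := by
        intro j
        rw [← dzb_conj]
        apply dzb_congr
        filter_upwards [isOpen_U.mem_nhds (io_mem hx l)] with p hp
        exact ((hH p hp).apply 2 2).symm
      simp only [Fin.sum_univ_three, hc]
      rw [show io (v, 0) = ![v.1, v.2, 0] from io_apply _]
      simp
    simp only [e]
    obtain ⟨i0, z0⟩ := integral_dz_a22 hA hB cA h22 hj2 hx (j := 0) (by decide)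
    obtain ⟨i1, z1⟩ := integral_dz_a22 hA hB cA h22 hj2 hx (j := 1) (by decide)
    have hs : ∀ (X : ℂ → ℂ) (c : ℂ), Integrable X → ∫ l, X l = 0 →
        Integrable (fun l => X l * c + conj (X l) * conj c) ∧
        ∫ l, (X l * c + conj (X l) * conj c) = 0 := by
      intro X c iX zX
      have cX : Integrable (fun l => conj (X l)) :=
        ContinuousLinearMap.integrable_comp (Complex.conjCLE : ℂ →L[ℝ] ℂ) iX
      refine ⟨(iX.mul_const _).add (cX.mul_const _), ?_⟩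
      rw [integral_add (iX.mul_const _) (cX.mul_const _)]
      simp only [integral_mul_const, integral_conj, zX]
      simp
    obtain ⟨j0, w0⟩ := hs _ v.1 i0 z0
    obtain ⟨j1, w1⟩ := hs _ v.2 i1 z1
    rw [integral_add j0 j1, w0, w1]
    simp
  rw [hz] at key
  exact key

theorem period_const (hA : ∀ j k, ContDiffOn ℝ ∞ (fun p => A p j k) U)
    (hB : ∀ j k, ContDiffOn ℝ ∞ (fun p => B p j k) U)
    (hH : ∀ p ∈ U, (A p).IsHermitian)
    (cA : ∀ p ∈ U, ∀ a j k, dz a (fun p => A p j k) p = dz j (fun p => A p a k) p)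
    (h22 : ∀ p ∈ U, p 2 ≠ 0 → A p 2 2 = B ![p 0, p 1, 1 / p 2] 2 2 / normSq (p 2) ^ 2)
    (hj2 : ∀ p ∈ U, p 2 ≠ 0 → ∀ j, j ≠ 2 →
      A p j 2 = - B ![p 0, p 1, 1 / p 2] j 2 / conj (p 2) ^ 2)
    {z a z' a' : ℂ} (hz : 0 < z.im) (hz' : 0 < z'.im) :
    ∫ l, A ![z, a, l] 2 2 = ∫ l, A ![z', a', l] 2 2 := by
  have hf : ∀ x ∈ Dom, HasFDerivAt (fun x => ∫ l, A (io (x, l)) 2 2) (0 : (ℂ × ℂ) →L[ℝ] ℂ) x :=
    fun x hx => hasFDerivAt_period hA hB hH cA h22 hj2 hx
  have := convex_Dom.is_const_of_fderivWithin_eq_zero (𝕜 := ℝ)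
    (f := fun x => ∫ l, A (io (x, l)) 2 2)
    (fun x hx => (hf x hx).differentiableAt.differentiableWithinAt)
    (fun x hx => by
      rw [fderivWithin_of_isOpen isOpen_Dom hx]
      exact (hf x hx).fderiv)
    (x := (z, a)) (y := (z', a')) hz hz'
  simpa only [io_apply] using this

end period


/-! ### the two pull-backs -/

/-- `(z, a, l) ↦ (z, l, l a)` -/
def Ph (p : V) : V := ![p 0, p 2, p 2 * p 1]
/-- `(z, a, l) ↦ (z, l a, l)` -/
def Ph' (p : V) : V := ![p 0, p 2 * p 1, p 2]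

lemma Ph_mem {p : V} (hp : p ∈ U) : Ph p ∈ U := hp
lemma Ph'_mem {p : V} (hp : p ∈ U) : Ph' p ∈ U := hp

lemma contDiff_Ph : ContDiff ℂ ω Ph := by
  rw [contDiff_pi]
  intro i
  fin_cases i <;> simp [Ph] <;> fun_prop

lemma contDiff_Ph' : ContDiff ℂ ω Ph' := by
  rw [contDiff_pi]
  intro i
  fin_cases i <;> simp [Ph'] <;> fun_prop

lemma dz_mul_coord {p : V} (i j k : Fin 3) : dz i (fun w : V => w j * w k) p =
    (if i = j then 1 else 0) * p k + p j * (if i = k then 1 else 0) := by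
  rw [dz_mul (by fun_prop) (by fun_prop), dz_coord, dz_coord]

lemma Jac_Ph (p : V) : Jac Ph p = !![1, 0, 0; 0, 0, p 2; 0, 1, p 1] := by
  ext i j
  fin_cases i <;> fin_cases j <;>
    simp [Jac, Ph, dz_coord, dz_mul_coord]

lemma Jac_Ph' (p : V) : Jac Ph' p = !![1, 0, 0; 0, p 2, 0; 0, p 1, 1] := by
  ext i j
  fin_cases i <;> fin_cases j <;>
    simp [Jac, Ph', dz_coord, dz_mul_coord]

lemma contDiffOn_pull {T : V → V} (hT : ContDiff ℂ ω T) (hm : ∀ p ∈ U, T p ∈ U)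
    (hJ : ∀ j l, ContDiff ℝ ∞ (fun p => Jac T p j l)) {h : V → Mat}
    (hh : ∀ j k, ContDiffOn ℝ ∞ (fun p => h p j k) U) (j k : Fin 3) :
    ContDiffOn ℝ ∞ (fun p => pull T h p j k) U := by
  have hTr : ContDiff ℝ ∞ T := (hT.restrict_scalars ℝ).of_le (by simp)
  have hc : ∀ l m, ContDiffOn ℝ ∞ (fun p => h (T p) l m) U := fun l m =>
    (hh l m).comp hTr.contDiffOn hm
  have hcj : ContDiff ℝ ∞ (fun c : ℂ => conj c) := Complex.conjCLE.contDiff
  show ContDiffOn ℝ ∞ (fun p => ∑ l, ∑ m, Jac T p j l * conj (Jac T p k m) * h (T p) l m) U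
  refine ContDiffOn.sum fun l _ => ContDiffOn.sum fun m _ => ?_
  exact ((hJ j l).contDiffOn.mul (hcj.comp (hJ k m)).contDiffOn).mul (hc l m)

lemma contDiff_Jac_Ph (j l : Fin 3) : ContDiff ℝ ∞ (fun p => Jac Ph p j l) := by
  simp only [Jac_Ph]
  fin_cases j <;> fin_cases l <;> simp <;> fun_prop

lemma contDiff_Jac_Ph' (j l : Fin 3) : ContDiff ℝ ∞ (fun p => Jac Ph' p j l) := by
  simp only [Jac_Ph']
  fin_cases j <;> fin_cases l <;> simp <;> fun_prop

lemma herm_pull {T : V → V} {h : V → Mat} {p : V} (hh : (h (T p)).IsHermitian) :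
    (pull T h p).IsHermitian := by
  rw [pull_eq]
  exact Matrix.isHermitian_mul_mul_conjTranspose _ hh

section main
variable {W : Fin 3 → V → Mat}

lemma lineW_pull (z a l : ℂ) : lineW W z a l = pull Ph (W 2) ![z, a, l] 2 2 := by
  rw [pull_eq, Jac_Ph]
  simp only [Matrix.mul_apply, Fin.sum_univ_three, Matrix.conjTranspose_apply, lineW, Ph]
  simp
  ring

lemma lineW'_pull (z a l : ℂ) : lineW' W z a l = pull Ph' (W 2) ![z, a, l] 2 2 := by
  rw [pull_eq, Jac_Ph']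
  simp only [Matrix.mul_apply, Fin.sum_univ_three, Matrix.conjTranspose_apply, lineW', Ph']
  simp
  ring

lemma rel0 (hW : Form11 W) {p : V} (hp : p ∈ U) (h2 : p 2 ≠ 0) :
    pull Ph (W 2) p 2 2 = W 0 ![p 0, p 1, 1 / p 2] 2 2 / normSq (p 2) ^ 2 ∧
    ∀ j, j ≠ 2 → pull Ph (W 2) p j 2 = - W 0 ![p 0, p 1, 1 / p 2] j 2 / conj (p 2) ^ 2 := by
  have hq : (![p 0, p 1, 1 / p 2] : V) ∈ U := hp
  have hq2 : (![p 0, p 1, 1 / p 2] : V) 2 ≠ 0 := by simpa using h2
  have e := hW.pull0 _ hq hq2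
  rw [pull_eq, Jac_T0 hq2] at e
  have hT : T0 ![p 0, p 1, 1 / p 2] = Ph p := by
    ext i
    fin_cases i <;> simp [T0, Ph, mul_comm]
  rw [hT] at e
  have hn : (normSq (p 2) : ℂ) ≠ 0 := by simpa using h2
  have hl' : conj (p 2) ≠ 0 := by simpa using h2
  rw [pull_eq, Jac_Ph, e]
  rw [← Complex.mul_conj] at hn ⊢
  constructor
  · simp only [Matrix.mul_apply, Fin.sum_univ_three, Matrix.conjTranspose_apply]
    simp
    field_simp
    ring
  · intro j hj
    fin_cases j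
    · simp only [Matrix.mul_apply, Fin.sum_univ_three, Matrix.conjTranspose_apply]
      simp
      field_simp
      ring
    · simp only [Matrix.mul_apply, Fin.sum_univ_three, Matrix.conjTranspose_apply]
      simp
      field_simp
      ring
    · exact absurd rfl hj

lemma rel1 (hW : Form11 W) {p : V} (hp : p ∈ U) (h2 : p 2 ≠ 0) :
    pull Ph' (W 2) p 2 2 = W 1 ![p 0, p 1, 1 / p 2] 2 2 / normSq (p 2) ^ 2 ∧
    ∀ j, j ≠ 2 → pull Ph' (W 2) p j 2 = - W 1 ![p 0, p 1, 1 / p 2] j 2 / conj (p 2) ^ 2 := by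
  have hq : (![p 0, p 1, 1 / p 2] : V) ∈ U := hp
  have hq2 : (![p 0, p 1, 1 / p 2] : V) 2 ≠ 0 := by simpa using h2
  have e := hW.pull1 _ hq hq2
  rw [pull_eq, Jac_T1 hq2] at e
  have hT : T1 ![p 0, p 1, 1 / p 2] = Ph' p := by
    ext i
    fin_cases i <;> simp [T1, Ph', mul_comm]
  rw [hT] at e
  have hn : (normSq (p 2) : ℂ) ≠ 0 := by simpa using h2
  have hl' : conj (p 2) ≠ 0 := by simpa using h2
  rw [pull_eq, Jac_Ph', e]
  rw [← Complex.mul_conj] at hn ⊢
  constructor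
  · simp only [Matrix.mul_apply, Fin.sum_univ_three, Matrix.conjTranspose_apply]
    simp
    field_simp
    ring
  · intro j hj
    fin_cases j
    · simp only [Matrix.mul_apply, Fin.sum_univ_three, Matrix.conjTranspose_apply]
      simp
      field_simp
      ring
    · simp only [Matrix.mul_apply, Fin.sum_univ_three, Matrix.conjTranspose_apply]
      simp
      field_simp
      ring
    · exact absurd rfl hj

lemma smooth0 (hW : Form11 W) (j k : Fin 3) :
    ContDiffOn ℝ ∞ (fun p => pull Ph (W 2) p j k) U :=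
  contDiffOn_pull contDiff_Ph (fun _ hp => Ph_mem hp) contDiff_Jac_Ph (fun j k => hW.smooth 2 j k) j k

lemma smooth1 (hW : Form11 W) (j k : Fin 3) :
    ContDiffOn ℝ ∞ (fun p => pull Ph' (W 2) p j k) U :=
  contDiffOn_pull contDiff_Ph' (fun _ hp => Ph'_mem hp) contDiff_Jac_Ph'
    (fun j k => hW.smooth 2 j k) j k

lemma lineW_slice (z a l : ℂ) : lineW W z a l = (fun p => pull Ph (W 2) p 2 2) (io ((z, a), l)) := by
  rw [lineW_pull, io_apply]
lemma lineW'_slice (z a l : ℂ) :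
    lineW' W z a l = (fun p => pull Ph' (W 2) p 2 2) (io ((z, a), l)) := by
  rw [lineW'_pull, io_apply]

end main

end Pool.Agent.KG.LineAux

namespace Pool.Agent.KG
open LineAux

/-- `W_{λλ̄} = |q|⁴ W⁰_{qq̄}`, `q = 1/λ` -/
theorem lineW_eq {W : Fin 3 → V → Mat} (hW : Form11 W) {z a l : ℂ} (hz : 0 < z.im) (hl : l ≠ 0) :
    lineW W z a l = W 0 ![z, a, 1 / l] 2 2 / normSq l ^ 2 := by
  have hp : (![z, a, 1 / l] : V) ∈ U := by simpa [U] using hz
  have h2 : (![z, a, 1 / l] : V) 2 ≠ 0 := by simpa using hl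
  have e := hW.pull0 _ hp h2
  rw [pull_eq, Jac_T0 h2] at e
  have hT : T0 ![z, a, 1 / l] = ![z, l, l * a] := by
    ext i
    fin_cases i <;> simp [T0, mul_comm]
  rw [hT] at e
  rw [e]
  have hn : (normSq l : ℂ) ≠ 0 := by simpa using hl
  have hl' : conj l ≠ 0 := by simpa using hl
  simp only [Matrix.mul_apply, Fin.sum_univ_three, Matrix.conjTranspose_apply, lineW]
  simp
  rw [← Complex.mul_conj] at hn ⊢
  field_simp
  ring

theorem lineW'_eq {W : Fin 3 → V → Mat} (hW : Form11 W) {z a l : ℂ} (hz : 0 < z.im)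
    (hl : l ≠ 0) : lineW' W z a l = W 1 ![z, a, 1 / l] 2 2 / normSq l ^ 2 := by
  have hp : (![z, a, 1 / l] : V) ∈ U := by simpa [U] using hz
  have h2 : (![z, a, 1 / l] : V) 2 ≠ 0 := by simpa using hl
  have e := hW.pull1 _ hp h2
  rw [pull_eq, Jac_T1 h2] at e
  have hT : T1 ![z, a, 1 / l] = ![z, l * a, l] := by
    ext i
    fin_cases i <;> simp [T1, mul_comm]
  rw [hT] at e
  rw [e]
  have hn : (normSq l : ℂ) ≠ 0 := by simpa using hl
  have hl' : conj l ≠ 0 := by simpa using hl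
  simp only [Matrix.mul_apply, Fin.sum_univ_three, Matrix.conjTranspose_apply, lineW']
  simp
  rw [← Complex.mul_conj] at hn ⊢
  field_simp
  ring

theorem lineW_bound {W : Fin 3 → V → Mat} (hW : Form11 W) {K : Set ℂ} (hK : IsCompact K)
    (hK' : K ⊆ {z | 0 < z.im}) (r : ℝ) : ∃ C : ℝ, ∀ z ∈ K, ∀ a l : ℂ, ‖a‖ ≤ r →
      ‖lineW W z a l‖ ≤ C * (1 + ‖l‖) ^ (-4 : ℝ) ∧ ‖lineW' W z a l‖ ≤ C * (1 + ‖l‖) ^ (-4 : ℝ) := by
  have hc : IsCompact (K ×ˢ Metric.closedBall (0 : ℂ) r) := hK.prod (isCompact_closedBall 0 r)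
  have hsub : K ×ˢ Metric.closedBall (0 : ℂ) r ⊆ Dom := fun x hx => hK' hx.1
  obtain ⟨C1, h1, b1⟩ := f_bound (smooth0 hW 2 2) (hW.smooth 0 2 2)
    (fun p hp h2 => (rel0 hW hp h2).1) hc hsub
  obtain ⟨C2, h2, b2⟩ := f_bound (smooth1 hW 2 2) (hW.smooth 1 2 2)
    (fun p hp h2 => (rel1 hW hp h2).1) hc hsub
  refine ⟨C1 + C2, fun z hz a l ha => ⟨?_, ?_⟩⟩
  · rw [lineW_slice]
    refine (b1 (z, a) ⟨hz, by simpa using ha⟩ l).trans ?_
    gcongr
    linarith
  · rw [lineW'_slice]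
    refine (b2 (z, a) ⟨hz, by simpa using ha⟩ l).trans ?_
    gcongr
    linarith

theorem lineW_integrable {W : Fin 3 → V → Mat} (hW : Form11 W) {z : ℂ} (hz : 0 < z.im) (a : ℂ) :
    Integrable (lineW W z a) ∧ Integrable (lineW' W z a) := by
  have hx : ((z, a) : ℂ × ℂ) ∈ Dom := hz
  constructor
  · have := integrable_slice (smooth0 hW 2 2) (hW.smooth 0 2 2)
      (fun p hp h2 => (rel0 hW hp h2).1) hx
    refine this.congr (Eventually.of_forall fun l => ?_)
    exact (lineW_slice z a l).symm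
  · have := integrable_slice (smooth1 hW 2 2) (hW.smooth 1 2 2)
      (fun p hp h2 => (rel1 hW hp h2).1) hx
    refine this.congr (Eventually.of_forall fun l => ?_)
    exact (lineW'_slice z a l).symm

theorem exists_period {W : Fin 3 → V → Mat} (hW : Form11 W) (cW : Closed W) :
    ∃ x : ℝ, ∀ z a : ℂ, 0 < z.im →
      ∫ l, lineW W z a l = x ∧ ∫ l, lineW' W z a l = x := by
  have hs1 : ∀ j k, ContDiffOn ℝ 1 (fun w => W 2 w j k) U := fun j k =>
    (hW.smooth 2 j k).of_le (by simp)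
  have c0 : ∀ {z a z' a' : ℂ}, 0 < z.im → 0 < z'.im →
      ∫ l, lineW W z a l = ∫ l, lineW W z' a' l := by
    intro z a z' a' hz hz'
    simp only [lineW_pull]
    exact period_const (A := pull Ph (W 2)) (B := W 0) (smooth0 hW) (hW.smooth 0)
      (fun p hp => herm_pull (hW.herm 2 _ (Ph_mem hp)))
      (closed_pull isOpen_U isOpen_U ((contDiff_Ph.of_le (by simp)).contDiffOn)
        (fun p hp => Ph_mem hp) hs1 (cW 2))
      (fun p hp h2 => (rel0 hW hp h2).1) (fun p hp h2 => (rel0 hW hp h2).2) hz hz'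
  have c1 : ∀ {z a z' a' : ℂ}, 0 < z.im → 0 < z'.im →
      ∫ l, lineW' W z a l = ∫ l, lineW' W z' a' l := by
    intro z a z' a' hz hz'
    simp only [lineW'_pull]
    exact period_const (A := pull Ph' (W 2)) (B := W 1) (smooth1 hW) (hW.smooth 1)
      (fun p hp => herm_pull (hW.herm 2 _ (Ph'_mem hp)))
      (closed_pull isOpen_U isOpen_U ((contDiff_Ph'.of_le (by simp)).contDiffOn)
        (fun p hp => Ph'_mem hp) hs1 (cW 2))
      (fun p hp h2 => (rel1 hW hp h2).1) (fun p hp h2 => (rel1 hW hp h2).2) hz hz'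
  have hI : (0 : ℝ) < I.im := by simp
  have hreal : ∀ l, lineW W I 1 l = (((lineW W I 1 l).re : ℝ) : ℂ) := by
    intro l
    have hH : (pull Ph (W 2) ![I, 1, l]).IsHermitian :=
      herm_pull (hW.herm 2 _ (Ph_mem (by simp [U])))
    rw [lineW_pull]
    exact (Complex.conj_eq_iff_re.1 (hH.apply 2 2)).symm
  have h11 : ∀ l, lineW' W I 1 l = lineW W I 1 l := by
    intro l
    simp [lineW, lineW']
    ring
  refine ⟨∫ l, (lineW W I 1 l).re, fun z a hz => ⟨?_, ?_⟩⟩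
  · rw [c0 hz hI (a' := 1), ← integral_complex_ofReal]
    exact integral_congr_ae (Eventually.of_forall fun l => hreal l)
  · rw [c1 hz hI (a' := 1), ← integral_complex_ofReal]
    refine integral_congr_ae (Eventually.of_forall fun l => ?_)
    exact (h11 l).trans (hreal l)

end Pool.Agent.KG
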