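import Mathlib

/-! # Parametric integrals over `[0,1]` of `C¹` functions -/

open scoped ContDiff Topology
open MeasureTheory Filter Set

namespace Pool.Agent.KG

section
variable {E : Type} [NormedAddCommGroup E] [NormedSpace ℝ E] [FiniteDimensional ℝ E]
  {G : Type} [NormedAddCommGroup G] [NormedSpace ℝ G] [CompleteSpace G]
  {F : E → ℝ → G} {s : Set E}

/-- continuity of parametric integrals on an open set -/
lemma param_continuousOn (hs : IsOpen s)
    (hF : ContinuousOn (fun x : E × ℝ => F x.1 x.2) (s ×ˢ univ)) :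
    ContinuousOn (fun p => ∫ t in (0 : ℝ)..1, F p t) s := by
  intro p hp
  refine ContinuousAt.continuousWithinAt ?_
  obtain ⟨r, hr, hball⟩ := Metric.nhds_basis_closedBall.mem_iff.1 (hs.mem_nhds hp)
  have hK : IsCompact (Metric.closedBall p r ×ˢ Icc (0 : ℝ) 1) :=
    (isCompact_closedBall p r).prod isCompact_Icc
  obtain ⟨C, hC⟩ := hK.exists_bound_of_continuousOn
    (hF.mono (Set.prod_mono hball (subset_univ _)))
  have hcont : ∀ q ∈ s, Continuous (F q) := fun q hq => by
    refine hF.comp_continuous (.prodMk_right _) fun y => ?_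
    simpa using hq
  have hcont' : ∀ t, ContinuousOn (fun q => F q t) s := fun t =>
    hF.comp (f := fun q => (q, t)) (by fun_prop) (fun q hq => by simpa using hq)
  refine intervalIntegral.continuousAt_of_dominated_interval (bound := fun _ => C) ?_ ?_ ?_ ?_
  · filter_upwards [hs.mem_nhds hp] with q hq
    exact (hcont q hq).aestronglyMeasurable
  · filter_upwards [Metric.closedBall_mem_nhds p hr] with q hq
    refine Eventually.of_forall fun t ht => hC (q, t) ⟨hq, ?_⟩
    rw [uIoc_of_le zero_le_one] at ht
    exact ⟨ht.1.le, ht.2⟩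
  · exact intervalIntegrable_const
  · refine Eventually.of_forall fun t _ => (hcont' t).continuousAt (hs.mem_nhds hp)

variable (hs : IsOpen s) (hF : ContDiffOn ℝ 1 (fun x : E × ℝ => F x.1 x.2) (s ×ˢ univ))

include hs hF

lemma param_fderiv_continuousOn :
    ContinuousOn (fun x : E × ℝ => fderiv ℝ (fun q => F q x.2) x.1) (s ×ˢ univ) := by
  have hopen : IsOpen (s ×ˢ (univ : Set ℝ)) := hs.prod isOpen_univ
  have h1 : ContinuousOn (fderiv ℝ (fun x : E × ℝ => F x.1 x.2)) (s ×ˢ univ) :=
    hF.continuousOn_fderiv_of_isOpen hopen le_rfl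
  have h2 : ContinuousOn (fun x : E × ℝ =>
      (fderiv ℝ (fun x : E × ℝ => F x.1 x.2) x).comp (ContinuousLinearMap.inl ℝ E ℝ))
      (s ×ˢ univ) := h1.clm_comp continuousOn_const
  refine h2.congr fun x hx => ?_
  have hd : DifferentiableAt ℝ (fun x : E × ℝ => F x.1 x.2) x :=
    (hF.differentiableOn one_ne_zero).differentiableAt (hopen.mem_nhds hx)
  have := hd.hasFDerivAt.comp x.1 (f := fun q => (q, x.2))
    (hasFDerivAt_prodMk_left (𝕜 := ℝ) x.1 x.2)
  exact this.fderiv

lemma param_hasFDerivAt_point {p : E} (hp : p ∈ s) (t : ℝ) :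
    HasFDerivAt (fun q => F q t) (fderiv ℝ (fun q => F q t) p) p := by
  have hopen : IsOpen (s ×ˢ (univ : Set ℝ)) := hs.prod isOpen_univ
  have hd : DifferentiableAt ℝ (fun x : E × ℝ => F x.1 x.2) (p, t) :=
    (hF.differentiableOn one_ne_zero).differentiableAt (hopen.mem_nhds ⟨hp, mem_univ _⟩)
  have := hd.hasFDerivAt.comp p (f := fun q => (q, t))
    (hasFDerivAt_prodMk_left (𝕜 := ℝ) p t)
  exact this.differentiableAt.hasFDerivAt

lemma param_integrable {p : E} (hp : p ∈ s) :
    IntervalIntegrable (fun t => fderiv ℝ (fun q => F q t) p) volume 0 1 := by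
  have h := param_fderiv_continuousOn hs hF
  have : Continuous (fun t : ℝ => fderiv ℝ (fun q => F q t) p) :=
    h.comp_continuous (f := fun t => (p, t)) (by fun_prop) fun y => by simpa using hp
  exact this.intervalIntegrable _ _

lemma param_hasFDerivAt {p : E} (hp : p ∈ s) :
    HasFDerivAt (fun p => ∫ t in (0 : ℝ)..1, F p t)
      (∫ t in (0 : ℝ)..1, fderiv ℝ (fun q => F q t) p) p := by
  obtain ⟨r, hr, hball⟩ := Metric.nhds_basis_closedBall.mem_iff.1 (hs.mem_nhds hp)
  have hK : IsCompact (Metric.closedBall p r ×ˢ Icc (0 : ℝ) 1) :=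
    (isCompact_closedBall p r).prod isCompact_Icc
  obtain ⟨C, hC⟩ := hK.exists_bound_of_continuousOn
    ((param_fderiv_continuousOn hs hF).mono (Set.prod_mono hball (subset_univ _)))
  have hcont : ∀ q ∈ s, Continuous (F q) := fun q hq => by
    refine hF.continuousOn.comp_continuous (.prodMk_right _) fun y => ?_
    simpa using hq
  refine intervalIntegral.hasFDerivAt_integral_of_dominated_of_fderiv_le
    (s := Metric.closedBall p r) (bound := fun _ => C)
    (F' := fun q t => fderiv ℝ (fun q => F q t) q)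
    (Metric.closedBall_mem_nhds p hr) ?_ ?_ ?_ ?_ ?_ ?_
  · filter_upwards [hs.mem_nhds hp] with q hq
    exact (hcont q hq).aestronglyMeasurable
  · exact (hcont p hp).intervalIntegrable _ _
  · have := (param_integrable hs hF hp)
    rw [intervalIntegrable_iff] at this
    exact this.aestronglyMeasurable
  · refine Eventually.of_forall fun t ht q hq => hC (q, t) ⟨hq, ?_⟩
    rw [uIoc_of_le zero_le_one] at ht
    exact ⟨ht.1.le, ht.2⟩
  · exact intervalIntegrable_const
  · exact Eventually.of_forall fun t _ q hq => param_hasFDerivAt_point hs hF (hball hq) t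

lemma param_contDiffOn : ContDiffOn ℝ 1 (fun p => ∫ t in (0 : ℝ)..1, F p t) s := by
  have h : ContDiffOn ℝ (0 + 1) (fun p => ∫ t in (0 : ℝ)..1, F p t) s := by
    rw [contDiffOn_succ_iff_fderiv_of_isOpen hs]
    refine ⟨fun p hp => (param_hasFDerivAt hs hF hp).differentiableAt.differentiableWithinAt,
      by simp, ?_⟩
    rw [contDiffOn_zero]
    refine (param_continuousOn (F := fun p t => fderiv ℝ (fun q => F q t) p) hs
      (param_fderiv_continuousOn hs hF)).congr fun p hp => ?_
    exact (param_hasFDerivAt hs hF hp).fderiv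
  simpa using h

lemma param_fderiv_apply {p : E} (hp : p ∈ s) (v : E) :
    fderiv ℝ (fun p => ∫ t in (0 : ℝ)..1, F p t) p v =
      ∫ t in (0 : ℝ)..1, fderiv ℝ (fun q => F q t) p v := by
  rw [(param_hasFDerivAt hs hF hp).fderiv]
  exact ContinuousLinearMap.intervalIntegral_apply (param_integrable hs hF hp) v

lemma param_apply_integrable {p : E} (hp : p ∈ s) (v : E) :
    IntervalIntegrable (fun t => fderiv ℝ (fun q => F q t) p v) volume 0 1 := by
  have h := param_fderiv_continuousOn hs hF
  have : Continuous (fun t : ℝ => fderiv ℝ (fun q => F q t) p) :=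
    h.comp_continuous (f := fun t => (p, t)) (by fun_prop) fun y => by simpa using hp
  exact (this.clm_apply continuous_const).intervalIntegrable _ _

end

end Pool.Agent.KG
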