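import Mathlib
import Pool.Agent.KG.Forms
import Pool.Agent.KG.PrimAux

/-! # Module F1: the primitive `α = prim W`, `W - π^*(W|_Z) = ∂α + conj`  (chart 2) -/

open scoped ContDiff ComplexConjugate ComplexOrder Matrix Topology MatrixGroups
open Complex MeasureTheory Filter

namespace Pool.Agent.KG

namespace PrimM

/-- `(z, u) ↦ (z, s u)` -/
noncomputable def scl (s : ℝ) (p : V) : V := ![p 0, s * p 1, s * p 2]

/-- the weights `1, s, s` -/
noncomputable def wt (k : Fin 3) (s : ℝ) : ℂ := if k = 0 then 1 else (s : ℂ)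

/-- the integrand of `prim` -/
noncomputable def GG (W : Fin 3 → V → Mat) (k : Fin 3) (p : V) (s : ℝ) : ℂ :=
  (p 1 * W 2 (scl s p) 1 k + p 2 * W 2 (scl s p) 2 k) * wt k s

lemma prim_eq (W : Fin 3 → V → Mat) (k : Fin 3) :
    prim W k = fun p => ∫ s in (0 : ℝ)..1, GG W k p s := rfl

lemma scl_mem {s : ℝ} {p : V} (hp : p ∈ U) : scl s p ∈ U := hp

lemma scl_contDiff : ContDiff ℝ ∞ (fun x : V × ℝ => scl x.2 x.1) := by
  rw [contDiff_pi]
  intro i
  have h0 : ∀ i : Fin 3, ContDiff ℝ ∞ (fun x : V × ℝ => x.1 i) := fun i =>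
    (contDiff_apply ℝ ℂ i).comp contDiff_fst
  have hs : ContDiff ℝ ∞ (fun x : V × ℝ => (x.2 : ℂ)) :=
    Complex.ofRealCLM.contDiff.comp contDiff_snd
  fin_cases i
  · exact h0 0
  · exact hs.mul (h0 1)
  · exact hs.mul (h0 2)

lemma comp_contDiffOn {W : Fin 3 → V → Mat} (hW : Form11 W) (a b : Fin 3) :
    ContDiffOn ℝ ∞ (fun x : V × ℝ => W 2 (scl x.2 x.1) a b) (U ×ˢ Set.univ) :=
  (hW.smooth 2 a b).comp scl_contDiff.contDiffOn fun _ hx => scl_mem hx.1

lemma wt_contDiff (k : Fin 3) : ContDiff ℝ ∞ (wt k) := by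
  unfold wt
  split_ifs
  · exact contDiff_const
  · exact Complex.ofRealCLM.contDiff

lemma GG_contDiffOn {W : Fin 3 → V → Mat} (hW : Form11 W) (k : Fin 3) :
    ContDiffOn ℝ ∞ (fun x : V × ℝ => GG W k x.1 x.2) (U ×ˢ Set.univ) := by
  have h0 : ∀ i : Fin 3, ContDiff ℝ ∞ (fun x : V × ℝ => x.1 i) := fun i =>
    (contDiff_apply ℝ ℂ i).comp contDiff_fst
  exact (((h0 1).contDiffOn.mul (comp_contDiffOn hW 1 k)).add
    ((h0 2).contDiffOn.mul (comp_contDiffOn hW 2 k))).mul
    ((wt_contDiff k).comp contDiff_snd).contDiffOn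

lemma GG_contDiffOn1 {W : Fin 3 → V → Mat} (hW : Form11 W) (k : Fin 3) :
    ContDiffOn ℝ 1 (fun x : V × ℝ => GG W k x.1 x.2) (U ×ˢ Set.univ) :=
  (GG_contDiffOn hW k).of_le (by exact_mod_cast le_top)

lemma scl_holo (s : ℝ) (p : V) : DifferentiableAt ℂ (scl s) p := by
  rw [differentiableAt_pi]
  intro i
  fin_cases i
  · exact differentiableAt_apply 0 p
  · exact (differentiableAt_apply 1 p).const_mul _
  · exact (differentiableAt_apply 2 p).const_mul _

lemma diff_coord (l : Fin 3) (p : V) : DifferentiableAt ℝ (fun w : V => w l) p :=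
  differentiableAt_apply l p

lemma dz_smul_coord (j l : Fin 3) (s : ℂ) (p : V) :
    dz j (fun w : V => s * w l) p = if j = l then s else 0 := by
  rw [dz_mul (differentiableAt_const _) (diff_coord l p), dz_const, dz_coord]
  split_ifs <;> simp

lemma Jac_scl (s : ℝ) (p : V) (j l : Fin 3) :
    Jac (scl s) p j l = if j = l then wt j s else 0 := by
  unfold Jac
  fin_cases l
  · show dz j (fun w : V => w 0) p = _
    rw [dz_coord]
    by_cases h : j = 0
    · subst h; simp [wt]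
    · simp [h]
  · show dz j (fun w : V => (s : ℂ) * w 1) p = _
    rw [dz_smul_coord]
    by_cases h : j = 1
    · subst h; simp [wt]
    · simp [h]
  · show dz j (fun w : V => (s : ℂ) * w 2) p = _
    rw [dz_smul_coord]
    by_cases h : j = 2
    · subst h; simp [wt]
    · simp [h]

section
variable {W : Fin 3 → V → Mat} (hW : Form11 W)
include hW

lemma W_diff (a b : Fin 3) {p : V} (hp : p ∈ U) : DifferentiableAt ℝ (fun w => W 2 w a b) p :=
  ((hW.smooth 2 a b).differentiableOn (by simp)).differentiableAt (isOpen_U.mem_nhds hp)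

lemma Wscl_diff (a b : Fin 3) (s : ℝ) {p : V} (hp : p ∈ U) :
    DifferentiableAt ℝ (fun w => W 2 (scl s w) a b) p :=
  (W_diff hW a b (scl_mem (s := s) hp)).comp p ((scl_holo s p).restrictScalars ℝ)

lemma dz_Wscl (a b j : Fin 3) (s : ℝ) {p : V} (hp : p ∈ U) :
    dz j (fun w => W 2 (scl s w) a b) p = wt j s * dz j (fun w => W 2 w a b) (scl s p) := by
  rw [dz_comp (f := fun w => W 2 w a b) (T := scl s) (scl_holo s p)
    (W_diff hW a b (scl_mem hp))]
  simp [Jac_scl]

lemma dz_GG (j k : Fin 3) (s : ℝ) {p : V} (hp : p ∈ U) :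
    dz j (fun w => GG W k w s) p =
      ((if j = 1 then W 2 (scl s p) 1 k else 0) + (if j = 2 then W 2 (scl s p) 2 k else 0) +
        wt j s * (p 1 * dz j (fun w => W 2 w 1 k) (scl s p) +
          p 2 * dz j (fun w => W 2 w 2 k) (scl s p))) * wt k s := by
  have d1 := Wscl_diff hW 1 k s hp
  have d2 := Wscl_diff hW 2 k s hp
  have e1 : DifferentiableAt ℝ (fun w => w 1 * W 2 (scl s w) 1 k) p := (diff_coord 1 p).mul d1
  have e2 : DifferentiableAt ℝ (fun w => w 2 * W 2 (scl s w) 2 k) p := (diff_coord 2 p).mul d2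
  have e12 : DifferentiableAt ℝ
      (fun w => w 1 * W 2 (scl s w) 1 k + w 2 * W 2 (scl s w) 2 k) p := e1.add e2
  unfold GG
  rw [dz_mul e12 (differentiableAt_const _), dz_const, dz_add e1 e2,
    dz_mul (diff_coord 1 p) d1, dz_mul (diff_coord 2 p) d2, dz_coord, dz_coord,
    dz_Wscl hW 1 k j s hp, dz_Wscl hW 2 k j s hp]
  split_ifs <;> ring

end

/-- derivative of the weight -/
noncomputable def wt' (k : Fin 3) : ℂ := if k = 0 then 0 else 1

lemma wt_hasDerivAt (k : Fin 3) (s : ℝ) : HasDerivAt (wt k) (wt' k) s := by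
  unfold wt wt'
  split_ifs
  · exact hasDerivAt_const _ _
  · exact Complex.ofRealCLM.hasDerivAt

/-- the path `s ↦ (z, s u)` -/
lemma path_hasDerivAt (p : V) (s : ℝ) :
    HasDerivAt (fun s : ℝ => scl s p) (![0, p 1, p 2] : V) s := by
  rw [hasDerivAt_pi]
  intro i
  have h : HasDerivAt (fun s : ℝ => (s : ℂ)) 1 s := Complex.ofRealCLM.hasDerivAt
  fin_cases i
  · exact hasDerivAt_const _ _
  · have := h.mul_const (p 1)
    rw [one_mul] at this
    exact this
  · have := h.mul_const (p 2)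
    rw [one_mul] at this
    exact this

lemma W_path_hasDerivAt {W : Fin 3 → V → Mat} (hW : Form11 W) (a b : Fin 3) (s : ℝ) {p : V}
    (hp : p ∈ U) : HasDerivAt (fun s : ℝ => W 2 (scl s p) a b)
      (p 1 * dz 1 (fun w => W 2 w a b) (scl s p) + p 2 * dz 2 (fun w => W 2 w a b) (scl s p) +
        (conj (p 1) * dzb 1 (fun w => W 2 w a b) (scl s p) +
          conj (p 2) * dzb 2 (fun w => W 2 w a b) (scl s p))) s := by
  have hd := W_diff hW a b (scl_mem (s := s) hp)
  have h := hd.hasFDerivAt.comp_hasDerivAt s (path_hasDerivAt p s)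
  rw [fderiv_eq hd] at h
  refine h.congr_deriv ?_
  have e0 : (![0, p 1, p 2] : V) 0 = 0 := rfl
  have e1 : (![0, p 1, p 2] : V) 1 = p 1 := rfl
  have e2 : (![0, p 1, p 2] : V) 2 = p 2 := rfl
  rw [Fin.sum_univ_three, e0, e1, e2, map_zero]
  ring

/-- the pointwise identity under the integral -/
lemma pointwise {W : Fin 3 → V → Mat} (hW : Form11 W) (cW : Closed W) {p : V} (hp : p ∈ U)
    (j k : Fin 3) (s : ℝ) :
    HasDerivAt (fun s : ℝ => wt j s * wt k s * W 2 (scl s p) j k)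
      (dz j (fun w => GG W k w s) p + conj (dz k (fun w => GG W j w s) p)) s := by
  have hs : scl s p ∈ U := scl_mem hp
  have h := ((wt_hasDerivAt j s).mul (wt_hasDerivAt k s)).mul (W_path_hasDerivAt hW j k s hp)
  refine h.congr_deriv ?_
  rw [dz_GG hW j k s hp, dz_GG hW k j s hp]
  have herm : ∀ a b, conj (W 2 (scl s p) a b) = W 2 (scl s p) b a := fun a b => by
    have := (hW.herm 2 _ hs).apply b a
    simpa using this
  -- `∂_j W_{lk} = ∂_l W_{jk}`
  have c1 : ∀ l, dz j (fun w => W 2 w l k) (scl s p) = dz l (fun w => W 2 w j k) (scl s p) :=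
    fun l => cW 2 _ hs j l k
  have hermf : ∀ a b, (fun w => W 2 w a b) =ᶠ[𝓝 (scl s p)] fun w => conj (W 2 w b a) :=
    fun a b => by
      filter_upwards [isOpen_U.mem_nhds hs] with w hw
      have := (hW.herm 2 _ hw).apply a b
      simpa using this.symm
  -- `conj (∂_k W_{lj}) = ∂̄_l W_{jk}`
  have c2 : ∀ l, conj (dz k (fun w => W 2 w l j) (scl s p)) =
      dzb l (fun w => W 2 w j k) (scl s p) := fun l => by
    rw [cW 2 _ hs k l j, dzb_congr (hermf j k), dzb_conj]
  have hwt : ∀ k, conj (wt k s) = wt k s := fun k => by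
    unfold wt; split_ifs <;> simp
  simp only [map_mul, map_add, herm, c1, c2, hwt, apply_ite conj, map_zero]
  have w0 : wt 0 s = 1 := by simp [wt]
  have w1 : wt 1 s = s := by simp [wt]
  have w2 : wt 2 s = s := by simp [wt]
  have w0' : wt' 0 = 0 := by simp [wt']
  have w1' : wt' 1 = 1 := by simp [wt']
  have w2' : wt' 2 = 1 := by simp [wt']
  fin_cases j <;> fin_cases k <;> simp [w0, w1, w2, w0', w1', w2'] <;> ring

end PrimM

open PrimM

namespace PrimM

/-- `scl` commutes with the action -/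
lemma scl_act2 (γ : SL(2, ℝ)) (s : ℝ) (p : V) : act2 γ (scl s p) = scl s (act2 γ p) := by
  ext i
  fin_cases i
  · rfl
  · show (s : ℂ) * p 1 / den γ (p 0) = (s : ℂ) * (p 1 / den γ (p 0))
    ring
  · show (s : ℂ) * p 2 / den γ (p 0) = (s : ℂ) * (p 2 / den γ (p 0))
    ring

lemma Jac00 (γ : SL(2, ℝ)) {p : V} (hp : p ∈ U) :
    Jac (act2 γ) p 0 0 = 1 / den γ (p 0) ^ 2 := by rw [Jac_act2 γ hp]; rfl
lemma Jac01 (γ : SL(2, ℝ)) {p : V} (hp : p ∈ U) :
    Jac (act2 γ) p 0 1 = - (γ 1 0 : ℝ) * p 1 / den γ (p 0) ^ 2 := by rw [Jac_act2 γ hp]; rfl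
lemma Jac02 (γ : SL(2, ℝ)) {p : V} (hp : p ∈ U) :
    Jac (act2 γ) p 0 2 = - (γ 1 0 : ℝ) * p 2 / den γ (p 0) ^ 2 := by rw [Jac_act2 γ hp]; rfl
lemma Jac10 (γ : SL(2, ℝ)) {p : V} (hp : p ∈ U) : Jac (act2 γ) p 1 0 = 0 := by
  rw [Jac_act2 γ hp]; rfl
lemma Jac11 (γ : SL(2, ℝ)) {p : V} (hp : p ∈ U) : Jac (act2 γ) p 1 1 = 1 / den γ (p 0) := by
  rw [Jac_act2 γ hp]; rfl
lemma Jac12 (γ : SL(2, ℝ)) {p : V} (hp : p ∈ U) : Jac (act2 γ) p 1 2 = 0 := by
  rw [Jac_act2 γ hp]; rfl
lemma Jac20 (γ : SL(2, ℝ)) {p : V} (hp : p ∈ U) : Jac (act2 γ) p 2 0 = 0 := by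
  rw [Jac_act2 γ hp]; rfl
lemma Jac21 (γ : SL(2, ℝ)) {p : V} (hp : p ∈ U) : Jac (act2 γ) p 2 1 = 0 := by
  rw [Jac_act2 γ hp]; rfl
lemma Jac22 (γ : SL(2, ℝ)) {p : V} (hp : p ∈ U) : Jac (act2 γ) p 2 2 = 1 / den γ (p 0) := by
  rw [Jac_act2 γ hp]; rfl

lemma GG_equiv {W : Fin 3 → V → Mat} (hW : Form11 W) {γ : SL(2, ℝ)} (hγ : γ ∈ Gp) {p : V}
    (hp : p ∈ U) (k : Fin 3) (s : ℝ) :
    GG W k p s = ∑ m, conj (Jac (act2 γ) p k m) * GG W m (act2 γ p) s := by
  have hs : scl s p ∈ U := scl_mem hp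
  have hd : den γ (p 0) ≠ 0 := den_ne hp
  have hdc : conj (den γ (p 0)) ≠ 0 := by simpa using hd
  have e0 : (scl s p) 0 = p 0 := rfl
  have e1 : (scl s p) 1 = s * p 1 := rfl
  have e2 : (scl s p) 2 = s * p 2 := rfl
  have f1 : (act2 γ p) 1 = p 1 / den γ (p 0) := rfl
  have f2 : (act2 γ p) 2 = p 2 / den γ (p 0) := rfl
  have hpull : ∀ a b, W 2 (scl s p) a b = ∑ l, ∑ m, Jac (act2 γ) (scl s p) a l *
      conj (Jac (act2 γ) (scl s p) b m) * W 2 (scl s (act2 γ p)) l m := by
    intro a b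
    have := congrFun (congrFun (hW.equiv γ hγ _ hs) a) b
    rw [this, ← scl_act2]
    rfl
  unfold GG
  rw [hpull 1 k, hpull 2 k]
  simp only [Fin.sum_univ_three, f1, f2, Jac10 γ hs, Jac11 γ hs, Jac12 γ hs, Jac20 γ hs,
    Jac21 γ hs, Jac22 γ hs, e0]
  have w0 : wt 0 s = 1 := by simp [wt]
  have w1 : wt 1 s = s := by simp [wt]
  have w2 : wt 2 s = s := by simp [wt]
  fin_cases k
  · simp only [Fin.zero_eta, Jac00 γ hs, Jac01 γ hs, Jac02 γ hs, Jac00 γ hp, Jac01 γ hp,
      Jac02 γ hp, e0, e1, e2, w0, w1, w2, map_mul, map_div₀, map_one, map_neg, map_pow,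
      Complex.conj_ofReal]
    field_simp
    ring
  · simp only [Fin.mk_one, Jac10 γ hs, Jac11 γ hs, Jac12 γ hs, Jac10 γ hp, Jac11 γ hp,
      Jac12 γ hp, e0, w0, w1, w2, map_div₀, map_one, map_zero]
    field_simp
    ring
  · simp only [Fin.reduceFinMk, Jac20 γ hs, Jac21 γ hs, Jac22 γ hs, Jac20 γ hp, Jac21 γ hp,
      Jac22 γ hp, e0, w0, w1, w2, map_div₀, map_one, map_zero]
    field_simp
    ring

lemma GG_integrable {W : Fin 3 → V → Mat} (hW : Form11 W) {p : V} (hp : p ∈ U) (k : Fin 3) :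
    IntervalIntegrable (fun s => GG W k p s) volume 0 1 := by
  have : Continuous (fun s => GG W k p s) :=
    (GG_contDiffOn hW k).continuousOn.comp_continuous (f := fun s => (p, s)) (by fun_prop)
      fun y => ⟨hp, Set.mem_univ _⟩
  exact this.intervalIntegrable _ _

end PrimM

theorem prim_form01 {W : Fin 3 → V → Mat} (hW : Form11 W) : Form01 (prim W) where
  smooth k := by
    rw [prim_eq]
    exact param_contDiffOn isOpen_U (GG_contDiffOn1 hW k)
  equiv γ hγ p hp k := by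
    have hp' : act2 γ p ∈ U := act2_mem γ hp
    show prim W k p = ∑ m, conj (Jac (act2 γ) p k m) * prim W m (act2 γ p)
    simp only [prim_eq]
    simp_rw [← intervalIntegral.integral_const_mul]
    rw [← intervalIntegral.integral_finsetSum]
    · refine intervalIntegral.integral_congr fun s _ => ?_
      exact GG_equiv hW hγ hp k s
    · intro m _
      exact (GG_integrable hW hp' m).const_mul _

theorem prim_identity {W : Fin 3 → V → Mat} (hW : Form11 W) (cW : Closed W) {p : V} (hp : p ∈ U)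
    (j k : Fin 3) : dz j (prim W k) p + conj (dz k (prim W j) p) =
      W 2 p j k - zpart W 2 p j k := by
  have key : ∀ a b : Fin 3, dz a (prim W b) p =
      ∫ s in (0 : ℝ)..1, dz a (fun w => GG W b w s) p := by
    intro a b
    unfold dz
    rw [prim_eq, param_fderiv_apply isOpen_U (GG_contDiffOn1 hW b) hp,
      param_fderiv_apply isOpen_U (GG_contDiffOn1 hW b) hp, ← intervalIntegral.integral_const_mul,
      ← intervalIntegral.integral_sub (param_apply_integrable isOpen_U (GG_contDiffOn1 hW b) hp _)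
        ((param_apply_integrable isOpen_U (GG_contDiffOn1 hW b) hp _).const_mul _),
      ← intervalIntegral.integral_div]
  have hint : ∀ a b : Fin 3, IntervalIntegrable (fun s => dz a (fun w => GG W b w s) p)
      volume 0 1 := by
    intro a b
    unfold dz
    exact ((param_apply_integrable isOpen_U (GG_contDiffOn1 hW b) hp _).sub
      ((param_apply_integrable isOpen_U (GG_contDiffOn1 hW b) hp _).const_mul _)).div_const _
  have hconj : conj (∫ s in (0 : ℝ)..1, dz k (fun w => GG W j w s) p) =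
      ∫ s in (0 : ℝ)..1, conj (dz k (fun w => GG W j w s) p) := by
    rw [intervalIntegral.integral_of_le zero_le_one, intervalIntegral.integral_of_le zero_le_one,
      integral_conj]
  have hint' : IntervalIntegrable (fun s => conj (dz k (fun w => GG W j w s) p)) volume 0 1 := by
    have := hint k j
    rw [intervalIntegrable_iff] at this ⊢
    exact Complex.conjCLE.toContinuousLinearMap.integrable_comp this
  rw [key, key, hconj, ← intervalIntegral.integral_add (hint j k) hint',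
    intervalIntegral.integral_eq_sub_of_hasDerivAt
      (f := fun s : ℝ => wt j s * wt k s * W 2 (scl s p) j k)
      (fun s _ => pointwise hW cW hp j k s) ((hint j k).add hint')]
  have h1 : scl 1 p = p := by
    ext i; fin_cases i <;> simp [scl]
  have h0 : scl 0 p = ![p 0, 0, 0] := by
    ext i; fin_cases i <;> simp [scl]
  simp only [h1, h0, zpart]
  fin_cases j <;> fin_cases k <;> simp [wt, Matrix.single]

end Pool.Agent.KG
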