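import Mathlib
import Pool.Agent.KG.Prim
import Pool.Agent.KG.Line

/-! # Module F3: `prim W` is tame when the period of `W` vanishes -/

open scoped ContDiff ComplexConjugate ComplexOrder Matrix Topology MatrixGroups
open Complex MeasureTheory Filter

namespace Pool.Agent.KG

namespace TameP

/-! ### polar coordinates -/

lemma exp_neg_eq (θ : ℝ) : Complex.exp (-(θ : ℂ) * I) = Complex.exp (((-θ : ℝ) : ℂ) * I) := by
  push_cast; ring_nf

/-- integral over a ball in polar coordinates -/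
lemma ball_polar {f : ℂ → ℂ} (hf : Continuous f) {R : ℝ} (hR : 0 < R) :
    ∫ l in Metric.ball (0 : ℂ) R, f l = ∫ θ in (0 : ℝ)..2 * Real.pi, ∫ r in (0 : ℝ)..R,
      (r : ℂ) * f (r * Complex.exp (-θ * I)) := by
  have hpi := Real.pi_pos
  have hF : Continuous (fun p : ℝ × ℝ => (p.1 : ℂ) * f (p.1 * Complex.exp (p.2 * I))) := by
    fun_prop
  have e1 : ∫ l in Metric.ball (0 : ℂ) R, f l =
      ∫ p in Set.Ioo 0 R ×ˢ Set.Ioo (-Real.pi) Real.pi,
        (p.1 : ℂ) * f (p.1 * Complex.exp (p.2 * I)) := by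
    rw [← integral_indicator measurableSet_ball, ← Complex.integral_comp_polarCoord_symm,
      ← integral_indicator (measurableSet_Ioo.prod measurableSet_Ioo), polarCoord_target,
      ← integral_indicator (measurableSet_Ioi.prod measurableSet_Ioo)]
    refine integral_congr_ae (Eventually.of_forall fun p => ?_)
    rcases p with ⟨r, θ⟩
    simp only [Set.indicator_apply, Set.mem_prod, Set.mem_Ioi, Set.mem_Ioo,
      Complex.polarCoord_symm_apply]
    have h1 : (r : ℂ) * ((Real.cos θ : ℂ) + (Real.sin θ : ℂ) * I) =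
        r * Complex.exp (θ * I) := by
      rw [Complex.exp_mul_I]; push_cast; ring
    rw [h1]
    have h2 : ‖(r : ℂ) * Complex.exp (θ * I)‖ = |r| := by
      rw [norm_mul, Complex.norm_exp_ofReal_mul_I, Complex.norm_real, Real.norm_eq_abs, mul_one]
    by_cases hr : 0 < r
    · rw [abs_of_pos hr] at h2
      by_cases hθ : -Real.pi < θ ∧ θ < Real.pi
      · by_cases hr' : r < R
        · rw [Set.indicator_of_mem (by rw [Metric.mem_ball, dist_zero_right, h2]; exact hr')]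
          simp [hr, hr', hθ]
        · rw [Set.indicator_of_notMem (by rw [Metric.mem_ball, dist_zero_right, h2]; exact hr')]
          simp [hr, hr', hθ]
      · simp [hθ]
    · simp [hr]
  have e2 : ∫ p in Set.Ioo 0 R ×ˢ Set.Ioo (-Real.pi) Real.pi,
        (p.1 : ℂ) * f (p.1 * Complex.exp (p.2 * I)) =
      ∫ θ in (-Real.pi)..Real.pi, ∫ r in (0 : ℝ)..R, (r : ℂ) * f (r * Complex.exp (θ * I)) := by
    have hint : IntegrableOn (fun p : ℝ × ℝ => (p.1 : ℂ) * f (p.1 * Complex.exp (p.2 * I)))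
        (Set.Ioo 0 R ×ˢ Set.Ioo (-Real.pi) Real.pi) (volume.prod volume) := by
      have : IntegrableOn (fun p : ℝ × ℝ => (p.1 : ℂ) * f (p.1 * Complex.exp (p.2 * I)))
        (Set.Icc 0 R ×ˢ Set.Icc (-Real.pi) Real.pi) (volume.prod volume) :=
        hF.continuousOn.integrableOn_compact (isCompact_Icc.prod isCompact_Icc)
      exact this.mono_set (Set.prod_mono Set.Ioo_subset_Icc_self Set.Ioo_subset_Icc_self)
    rw [Measure.volume_eq_prod, setIntegral_prod _ hint]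
    rw [intervalIntegral.integral_of_le (by linarith)]
    have hint' : Integrable (Function.uncurry fun (r θ : ℝ) =>
        (r : ℂ) * f (r * Complex.exp (θ * I))) ((volume.restrict (Set.Ioo 0 R)).prod
          (volume.restrict (Set.Ioo (-Real.pi) Real.pi))) := by
      rw [Measure.prod_restrict]
      exact hint
    rw [integral_integral_swap hint', integral_Ioc_eq_integral_Ioo]
    refine integral_congr_ae (Eventually.of_forall fun θ => ?_)
    simp only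
    rw [intervalIntegral.integral_of_le hR.le, integral_Ioc_eq_integral_Ioo]
  rw [e1, e2]
  set G : ℝ → ℂ := fun θ => ∫ r in (0 : ℝ)..R, (r : ℂ) * f (r * Complex.exp (θ * I)) with hG
  have hper : Function.Periodic G (2 * Real.pi) := by
    intro θ
    simp only [hG]
    congr 1
    ext r
    have : Complex.exp (((θ + 2 * Real.pi : ℝ) : ℂ) * I) = Complex.exp (θ * I) := by
      push_cast
      rw [add_mul, Complex.exp_add, Complex.exp_two_pi_mul_I, mul_one]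
    rw [this]
  have e3 : ∫ θ in (0 : ℝ)..2 * Real.pi, ∫ r in (0 : ℝ)..R,
      (r : ℂ) * f (r * Complex.exp (-θ * I)) = ∫ θ in (0 : ℝ)..2 * Real.pi, G (-θ) := by
    congr 1
    ext θ
    simp only [hG]
    rw [exp_neg_eq]
  rw [e3, intervalIntegral.integral_comp_neg]
  have := hper.intervalIntegral_add_eq (-Real.pi) (-(2 * Real.pi))
  rw [show -Real.pi + 2 * Real.pi = Real.pi by ring,
    show -(2 * Real.pi) + 2 * Real.pi = -0 by ring] at this
  exact this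

lemma polar_tendsto {f : ℂ → ℂ} (hf : Continuous f) (hi : Integrable f) :
    Tendsto (fun R : ℝ => ∫ θ in (0 : ℝ)..2 * Real.pi, ∫ r in (0 : ℝ)..R,
      (r : ℂ) * f (r * Complex.exp (-θ * I))) atTop (𝓝 (∫ l, f l)) := by
  have h1 := (aecover_ball (μ := (volume : Measure ℂ)) (x := 0)
    (tendsto_id : Tendsto (fun R : ℝ => R) atTop atTop)).integral_tendsto_of_countably_generated hi
  refine h1.congr' ?_
  filter_upwards [eventually_gt_atTop 0] with R hR
  exact ball_polar hf hR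

lemma integral_inv_sq {R : ℝ} (hR : 0 ≤ R) (C : ℝ) :
    ∫ s in (0 : ℝ)..1, C / (1 + s * R) ^ 2 = C / (1 + R) := by
  have hd : ∀ s ∈ Set.uIcc (0 : ℝ) 1, HasDerivAt (fun s => C * (s / (1 + s * R)))
      (C / (1 + s * R) ^ 2) s := by
    intro s hs
    rw [Set.uIcc_of_le zero_le_one] at hs
    have h1 : 0 < 1 + s * R := by have := mul_nonneg hs.1 hR; linarith
    have h2 : HasDerivAt (fun s : ℝ => 1 + s * R) R s := by
      simpa using ((hasDerivAt_id s).mul_const R).const_add 1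
    have h3 := ((hasDerivAt_id s).div h2 h1.ne').const_mul C
    have h4 : C * ((1 * (1 + s * R) - id s * R) / (1 + s * R) ^ 2) = C / (1 + s * R) ^ 2 := by
      simp only [id, one_mul, add_sub_cancel_right]
      ring
    rw [h4] at h3
    exact h3
  rw [intervalIntegral.integral_eq_sub_of_hasDerivAt hd]
  · simp [div_eq_mul_inv]
  · apply ContinuousOn.intervalIntegrable
    refine continuousOn_const.div (by fun_prop) fun s hs => ?_
    rw [Set.uIcc_of_le zero_le_one] at hs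
    have h1 : 0 < 1 + s * R := by have := mul_nonneg hs.1 hR; linarith
    positivity

lemma int_bound {g : ℝ → ℂ} {C R : ℝ} (hR : 0 ≤ R)
    (hg : ∀ s ∈ Set.Ioc (0 : ℝ) 1, ‖g s‖ * (1 + s * R) ^ 2 ≤ C) :
    R * ‖∫ s in (0 : ℝ)..1, g s‖ ≤ C := by
  have hC : 0 ≤ C := (mul_nonneg (norm_nonneg _) (by positivity)).trans (hg 1 (by simp))
  have h1 : ‖∫ s in (0 : ℝ)..1, g s‖ ≤ ∫ s in (0 : ℝ)..1, C / (1 + s * R) ^ 2 := by
    refine intervalIntegral.norm_integral_le_of_norm_le zero_le_one ?_ ?_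
    · refine Eventually.of_forall fun s hs => ?_
      have h1 : 0 < 1 + s * R := by have := mul_nonneg hs.1.le hR; linarith
      rw [le_div_iff₀ (by positivity)]
      exact hg s hs
    · apply ContinuousOn.intervalIntegrable
      refine continuousOn_const.div (by fun_prop) fun s hs => ?_
      rw [Set.uIcc_of_le zero_le_one] at hs
      have h1 : 0 < 1 + s * R := by have := mul_nonneg hs.1 hR; linarith
      positivity
  rw [integral_inv_sq hR] at h1
  calc R * ‖∫ s in (0 : ℝ)..1, g s‖ ≤ R * (C / (1 + R)) := by gcongr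
    _ = C * (R / (1 + R)) := by ring
    _ ≤ C * 1 := by
        gcongr
        rw [div_le_one (by positivity)]
        linarith
    _ = C := mul_one C

/-- compactness -/
lemma cpt_bound {F : V → ℂ} (hF : ContinuousOn F U) {K : Set ℂ} (hK : IsCompact K)
    (hK' : K ⊆ {z | 0 < z.im}) : ∃ C : ℝ, 0 ≤ C ∧ ∀ p : V, p 0 ∈ K → ‖p 1‖ ≤ 1 → ‖p 2‖ ≤ 1 →
      ‖F p‖ ≤ C := by
  have hc : IsCompact (Set.pi Set.univ (fun i : Fin 3 => if i = 0 then K
      else Metric.closedBall (0 : ℂ) 1)) := by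
    refine isCompact_univ_pi fun i => ?_
    split_ifs
    · exact hK
    · exact isCompact_closedBall _ _
  obtain ⟨C, hC⟩ := hc.exists_bound_of_continuousOn (hF.mono (fun p hp => by
    have := hp 0 (Set.mem_univ _)
    simp only [if_true] at this
    exact hK' this))
  refine ⟨max C 0, le_max_right _ _, fun p h0 h1 h2 => (hC p ?_).trans (le_max_left _ _)⟩
  intro i _
  fin_cases i
  · simpa using h0
  · simpa using h1
  · simpa using h2

/-- `W_{1k} + a W_{2k}` along the line -/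
noncomputable def rowW (W : Fin 3 → V → Mat) (z a l : ℂ) (k : Fin 3) : ℂ :=
  W 2 ![z, l, l * a] 1 k + a * W 2 ![z, l, l * a] 2 k

lemma lineW_row (W : Fin 3 → V → Mat) (z a l : ℂ) :
    lineW W z a l = rowW W z a l 1 + conj a * rowW W z a l 2 := by
  unfold lineW rowW
  ring

lemma contLine {W : Fin 3 → V → Mat} (hW : Form11 W) {z a : ℂ} (hz : 0 < z.im) (j k : Fin 3) :
    Continuous (fun l : ℂ => W 2 ![z, l, l * a] j k) := by
  have h1 : ContinuousOn (fun p => W 2 p j k) U := (hW.smooth 2 j k).continuousOn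
  have h2 : Continuous (fun l : ℂ => (![z, l, l * a] : V)) := by
    refine continuous_pi fun i => ?_
    fin_cases i
    · exact continuous_const
    · exact continuous_id
    · exact continuous_id.mul continuous_const
  have h3 : ∀ l : ℂ, (![z, l, l * a] : V) ∈ U := fun l => by simpa [U] using hz
  exact h1.comp_continuous h2 h3

lemma contRow {W : Fin 3 → V → Mat} (hW : Form11 W) {z a : ℂ} (hz : 0 < z.im) (k : Fin 3) :
    Continuous (fun l : ℂ => rowW W z a l k) := by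
  unfold rowW
  exact (contLine hW hz 1 k).add (continuous_const.mul (contLine hW hz 2 k))

lemma W0_20 {W : Fin 3 → V → Mat} (hW : Form11 W) {z a l : ℂ} (hz : 0 < z.im) (hl : l ≠ 0) :
    W 0 ![z, a, 1 / l] 2 0 = - l ^ 2 * rowW W z a l 0 := by
  have hp : (![z, a, 1 / l] : V) ∈ U := by simpa [U] using hz
  have h2 : (![z, a, 1 / l] : V) 2 ≠ 0 := by simpa using hl
  have hT : T0 ![z, a, 1 / l] = ![z, l, l * a] := by
    unfold T0
    ext i
    fin_cases i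
    · simp
    · simp
    · simp [mul_comm]
  rw [hW.pull0 _ hp h2, pull_eq, Jac_T0 h2, hT, rowW]
  simp [Matrix.mul_apply, Fin.sum_univ_three, Matrix.conjTranspose_apply, Matrix.vecMul,
    dotProduct]
  ring

lemma W0_21 {W : Fin 3 → V → Mat} (hW : Form11 W) {z a l : ℂ} (hz : 0 < z.im) (hl : l ≠ 0) :
    W 0 ![z, a, 1 / l] 2 1 = - l ^ 2 * conj l * rowW W z a l 2 := by
  have hp : (![z, a, 1 / l] : V) ∈ U := by simpa [U] using hz
  have h2 : (![z, a, 1 / l] : V) 2 ≠ 0 := by simpa using hl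
  have hT : T0 ![z, a, 1 / l] = ![z, l, l * a] := by
    unfold T0
    ext i
    fin_cases i
    · simp
    · simp
    · simp [mul_comm]
  rw [hW.pull0 _ hp h2, pull_eq, Jac_T0 h2, hT, rowW]
  simp [Matrix.mul_apply, Fin.sum_univ_three, Matrix.conjTranspose_apply, Matrix.vecMul,
    dotProduct]
  ring

lemma row_bound {W : Fin 3 → V → Mat} (hW : Form11 W) {K : Set ℂ} (hK : IsCompact K)
    (hK' : K ⊆ {z | 0 < z.im}) : ∃ C : ℝ, ∀ z ∈ K, ∀ a l : ℂ, ‖a‖ ≤ 1 →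
      ‖rowW W z a l 0‖ * (1 + ‖l‖) ^ 2 ≤ C ∧ ‖rowW W z a l 2‖ * (1 + ‖l‖) ^ 3 ≤ C := by
  obtain ⟨C1, hC1, h1⟩ := cpt_bound (hW.smooth 2 1 0).continuousOn hK hK'
  obtain ⟨C2, hC2, h2⟩ := cpt_bound (hW.smooth 2 2 0).continuousOn hK hK'
  obtain ⟨C3, hC3, h3⟩ := cpt_bound (hW.smooth 2 1 2).continuousOn hK hK'
  obtain ⟨C4, hC4, h4⟩ := cpt_bound (hW.smooth 2 2 2).continuousOn hK hK'
  obtain ⟨C5, hC5, h5⟩ := cpt_bound (hW.smooth 0 2 0).continuousOn hK hK'
  obtain ⟨C6, hC6, h6⟩ := cpt_bound (hW.smooth 0 2 1).continuousOn hK hK'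
  refine ⟨8 * (C1 + C2 + C3 + C4 + C5 + C6), fun z hz a l ha => ?_⟩
  have hz' : 0 < z.im := hK' hz
  by_cases hl : ‖l‖ ≤ 1
  · have hla : ‖l * a‖ ≤ 1 := by
      rw [norm_mul]
      exact mul_le_one₀ hl (norm_nonneg _) ha
    have g1 := h1 ![z, l, l * a] hz hl hla
    have g2 := h2 ![z, l, l * a] hz hl hla
    have g3 := h3 ![z, l, l * a] hz hl hla
    have g4 := h4 ![z, l, l * a] hz hl hla
    have k0 : ‖rowW W z a l 0‖ ≤ C1 + C2 := by
      unfold rowW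
      refine (norm_add_le _ _).trans (add_le_add g1 ?_)
      rw [norm_mul]
      calc ‖a‖ * _ ≤ 1 * C2 := mul_le_mul ha g2 (norm_nonneg _) zero_le_one
        _ = C2 := one_mul _
    have k2 : ‖rowW W z a l 2‖ ≤ C3 + C4 := by
      unfold rowW
      refine (norm_add_le _ _).trans (add_le_add g3 ?_)
      rw [norm_mul]
      calc ‖a‖ * _ ≤ 1 * C4 := mul_le_mul ha g4 (norm_nonneg _) zero_le_one
        _ = C4 := one_mul _
    have hn := norm_nonneg l
    have e2 : (1 + ‖l‖) ^ 2 ≤ 4 := by nlinarith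
    have e3 : (1 + ‖l‖) ^ 3 ≤ 8 := by
      have : (1 + ‖l‖) ^ 3 ≤ (2 : ℝ) ^ 3 := by gcongr; linarith
      linarith
    constructor
    · calc ‖rowW W z a l 0‖ * (1 + ‖l‖) ^ 2 ≤ (C1 + C2) * 4 := by gcongr
        _ ≤ _ := by linarith
    · calc ‖rowW W z a l 2‖ * (1 + ‖l‖) ^ 3 ≤ (C3 + C4) * 8 := by gcongr
        _ ≤ _ := by linarith
  · push Not at hl
    have hl0 : l ≠ 0 := by
      intro h
      rw [h, norm_zero] at hl
      linarith
    have hn : 0 < ‖l‖ := by linarith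
    have hil : ‖1 / l‖ ≤ 1 := by
      rw [norm_div, norm_one, div_le_one hn]
      exact hl.le
    have g5 := h5 ![z, a, 1 / l] hz ha hil
    have g6 := h6 ![z, a, 1 / l] hz ha hil
    rw [W0_20 hW hz' hl0, norm_mul, norm_neg, norm_pow] at g5
    rw [W0_21 hW hz' hl0, norm_mul, norm_mul, norm_neg, norm_pow, RCLike.norm_conj] at g6
    constructor
    · calc ‖rowW W z a l 0‖ * (1 + ‖l‖) ^ 2 ≤ ‖rowW W z a l 0‖ * (2 * ‖l‖) ^ 2 := by
            gcongr; linarith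
        _ = 4 * (‖l‖ ^ 2 * ‖rowW W z a l 0‖) := by ring
        _ ≤ 4 * C5 := by gcongr
        _ ≤ _ := by linarith
    · calc ‖rowW W z a l 2‖ * (1 + ‖l‖) ^ 3 ≤ ‖rowW W z a l 2‖ * (2 * ‖l‖) ^ 3 := by
            gcongr; linarith
        _ = 8 * (‖l‖ ^ 2 * ‖l‖ * ‖rowW W z a l 2‖) := by ring
        _ ≤ 8 * C6 := by gcongr
        _ ≤ _ := by linarith

/-- `prim W` in chart 0 -/
lemma prim_T0 (W : Fin 3 → V → Mat) (k : Fin 3) (p : V) :
    prim W k (T0 p) = 1 / p 2 * ∫ s in (0 : ℝ)..1, rowW W (p 0) (p 1) (s * (1 / p 2)) k *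
      (if k = 0 then 1 else (s : ℂ)) := by
  unfold prim rowW
  rw [← intervalIntegral.integral_const_mul]
  congr 1
  ext s
  have e0 : T0 p 0 = p 0 := rfl
  have e1 : T0 p 1 = 1 / p 2 := rfl
  have e2 : T0 p 2 = p 1 / p 2 := rfl
  rw [e0, e1, e2, show (s : ℂ) * (p 1 / p 2) = s * (1 / p 2) * p 1 by ring]
  ring

lemma pull01_T0 (α : Fin 3 → V → ℂ) {p : V} (h2 : p 2 ≠ 0) :
    pull01 T0 α 0 p = α 0 (T0 p) ∧ pull01 T0 α 1 p = conj (1 / p 2) * α 2 (T0 p) ∧
    pull01 T0 α 2 p = - conj (1 / p 2) ^ 2 * (α 1 (T0 p) + conj (p 1) * α 2 (T0 p)) := by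
  have hJ : ∀ k m, dz k (fun p' => T0 p' m) p = Jac T0 p k m := fun k m => rfl
  unfold pull01
  simp only [hJ, Jac_T0 h2, Fin.sum_univ_three]
  refine ⟨?_, ?_, ?_⟩
  · simp
  · simp
  · simp
    ring

/-- the formulas for `prim W` in chart 0 -/
lemma prim_chart0 {W : Fin 3 → V → Mat} (hW : Form11 W) {p : V} (hp : p ∈ U) (h2 : p 2 ≠ 0) :
    pull01 T0 (prim W) 0 p = 1 / p 2 * ∫ s in (0 : ℝ)..1, rowW W (p 0) (p 1) (s * (1 / p 2)) 0 ∧
    pull01 T0 (prim W) 1 p = conj (1 / p 2) * (1 / p 2) *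
      ∫ s in (0 : ℝ)..1, rowW W (p 0) (p 1) (s * (1 / p 2)) 2 * (s : ℂ) ∧
    pull01 T0 (prim W) 2 p = - (conj (1 / p 2) ^ 2 * (1 / p 2)) *
      ∫ s in (0 : ℝ)..1, lineW W (p 0) (p 1) (s * (1 / p 2)) * (s : ℂ) := by
  obtain ⟨e0, e1, e2⟩ := pull01_T0 (prim W) h2
  rw [e0, e1, e2, prim_T0, prim_T0, prim_T0]
  refine ⟨?_, ?_, ?_⟩
  · simp
  · simp only [show (2 : Fin 3) ≠ 0 by decide, if_false]
    ring
  · simp only [show (2 : Fin 3) ≠ 0 by decide, show (1 : Fin 3) ≠ 0 by decide, if_false]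
    have hz : 0 < (p 0).im := hp
    have c1 : Continuous (fun s : ℝ => rowW W (p 0) (p 1) (s * (1 / p 2)) 1 * (s : ℂ)) :=
      ((contRow hW hz 1).comp (by fun_prop)).mul Complex.continuous_ofReal
    have c2 : Continuous (fun s : ℝ => rowW W (p 0) (p 1) (s * (1 / p 2)) 2 * (s : ℂ)) :=
      ((contRow hW hz 2).comp (by fun_prop)).mul Complex.continuous_ofReal
    have e : ∫ s in (0 : ℝ)..1, lineW W (p 0) (p 1) (s * (1 / p 2)) * (s : ℂ) =
        (∫ s in (0 : ℝ)..1, rowW W (p 0) (p 1) (s * (1 / p 2)) 1 * (s : ℂ)) +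
        conj (p 1) * ∫ s in (0 : ℝ)..1, rowW W (p 0) (p 1) (s * (1 / p 2)) 2 * (s : ℂ) := by
      have c3 : Continuous (fun s : ℝ => conj (p 1) *
          (rowW W (p 0) (p 1) (s * (1 / p 2)) 2 * (s : ℂ))) := continuous_const.mul c2
      rw [← intervalIntegral.integral_const_mul, ← intervalIntegral.integral_add
        (c1.intervalIntegrable _ _) (c3.intervalIntegrable _ _)]
      congr 1
      ext s
      rw [lineW_row]
      ring
    rw [e]
    ring

lemma rpow_four {x : ℝ} (hx : 0 ≤ x) : (1 + x) ^ (-4 : ℝ) * (1 + x) ^ 3 ≤ 1 := by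
  have h : (0 : ℝ) < 1 + x := by linarith
  rw [Real.rpow_neg h.le, show (4 : ℝ) = ((4 : ℕ) : ℝ) by norm_num, Real.rpow_natCast,
    inv_mul_le_one₀ (by positivity)]
  exact pow_le_pow_right₀ (by linarith) (by norm_num)

lemma tame_bdd {W : Fin 3 → V → Mat} (hW : Form11 W) {K : Set ℂ} (hK : IsCompact K)
    (hK' : K ⊆ {z | 0 < z.im}) : ∃ C : ℝ, ∀ p : V, p 0 ∈ K → ‖p 1‖ ≤ 1 → p 2 ≠ 0 →
      ‖p 2‖ ≤ 1 → ‖pull01 T0 (prim W) 0 p‖ ≤ C ∧ ‖pull01 T0 (prim W) 1 p‖ ≤ C ∧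
        ‖p 2‖ * ‖pull01 T0 (prim W) 2 p‖ ≤ C := by
  obtain ⟨C1, h1⟩ := row_bound hW hK hK'
  obtain ⟨C2, h2⟩ := lineW_bound hW hK hK' 1
  refine ⟨max C1 C2, fun p h0 ha hq _ => ?_⟩
  have hz : 0 < (p 0).im := hK' h0
  obtain ⟨e0, e1, e2⟩ := prim_chart0 hW (p := p) hz hq
  set l : ℂ := 1 / p 2 with hl
  have hsl : ∀ s : ℝ, s ∈ Set.Ioc (0 : ℝ) 1 → ‖(s : ℂ) * l‖ = s * ‖l‖ := by
    intro s hs
    rw [norm_mul, Complex.norm_real, Real.norm_eq_abs, abs_of_pos hs.1]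
  refine ⟨?_, ?_, ?_⟩
  · rw [e0, norm_mul]
    refine (int_bound (norm_nonneg l) fun s hs => ?_).trans (le_max_left C1 C2)
    have := (h1 (p 0) h0 (p 1) (s * l) ha).1
    rwa [hsl s hs] at this
  · rw [e1, norm_mul, norm_mul, RCLike.norm_conj]
    have e3 : ‖l‖ * ‖l‖ * ‖∫ s in (0 : ℝ)..1, rowW W (p 0) (p 1) (s * l) 2 * (s : ℂ)‖ =
        ‖l‖ * ‖∫ s in (0 : ℝ)..1, (l * (rowW W (p 0) (p 1) (s * l) 2 * (s : ℂ)))‖ := by
      rw [intervalIntegral.integral_const_mul, norm_mul]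
      ring
    rw [e3]
    refine (int_bound (norm_nonneg l) fun s hs => ?_).trans (le_max_left C1 C2)
    have h3 := (h1 (p 0) h0 (p 1) (s * l) ha).2
    rw [hsl s hs] at h3
    rw [norm_mul, norm_mul, Complex.norm_real, Real.norm_eq_abs, abs_of_pos hs.1]
    have h4 : 0 ≤ s * ‖l‖ := mul_nonneg hs.1.le (norm_nonneg _)
    calc ‖l‖ * (‖rowW W (p 0) (p 1) (↑s * l) 2‖ * s) * (1 + s * ‖l‖) ^ 2 =
        ‖rowW W (p 0) (p 1) (↑s * l) 2‖ * ((s * ‖l‖) * (1 + s * ‖l‖) ^ 2) := by ring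
      _ ≤ ‖rowW W (p 0) (p 1) (↑s * l) 2‖ * ((1 + s * ‖l‖) * (1 + s * ‖l‖) ^ 2) := by
          gcongr
          linarith
      _ = ‖rowW W (p 0) (p 1) (↑s * l) 2‖ * (1 + s * ‖l‖) ^ 3 := by ring
      _ ≤ C1 := h3
  · rw [e2, norm_mul, norm_neg, norm_mul, norm_pow, RCLike.norm_conj]
    have e3 : ‖p 2‖ * (‖l‖ ^ 2 * ‖l‖ *
        ‖∫ s in (0 : ℝ)..1, lineW W (p 0) (p 1) (s * l) * (s : ℂ)‖) =
        ‖l‖ * ‖∫ s in (0 : ℝ)..1, (l * (lineW W (p 0) (p 1) (s * l) * (s : ℂ)))‖ := by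
      rw [intervalIntegral.integral_const_mul, norm_mul]
      have : ‖p 2‖ * ‖l‖ = 1 := by
        rw [hl, norm_div, norm_one, mul_one_div, div_self (norm_ne_zero_iff.2 hq)]
      calc _ = (‖p 2‖ * ‖l‖) * (‖l‖ * (‖l‖ *
            ‖∫ s in (0 : ℝ)..1, lineW W (p 0) (p 1) (s * l) * (s : ℂ)‖)) := by ring
        _ = _ := by rw [this, one_mul]
    rw [e3]
    refine (int_bound (norm_nonneg l) fun s hs => ?_).trans (le_max_right C1 C2)
    have h3 := (h2 (p 0) h0 (p 1) (s * l) ha).1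
    rw [hsl s hs] at h3
    rw [norm_mul, norm_mul, Complex.norm_real, Real.norm_eq_abs, abs_of_pos hs.1]
    have h4 : 0 ≤ s * ‖l‖ := mul_nonneg hs.1.le (norm_nonneg _)
    have hC2 : 0 ≤ C2 := by
      by_contra hcon
      push Not at hcon
      have h5 := (norm_nonneg _).trans h3
      have h6 : 0 < (1 + s * ‖l‖) ^ (-4 : ℝ) := Real.rpow_pos_of_pos (by linarith) _
      nlinarith
    calc ‖l‖ * (‖lineW W (p 0) (p 1) (↑s * l)‖ * s) * (1 + s * ‖l‖) ^ 2 =
        ‖lineW W (p 0) (p 1) (↑s * l)‖ * ((s * ‖l‖) * (1 + s * ‖l‖) ^ 2) := by ring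
      _ ≤ ‖lineW W (p 0) (p 1) (↑s * l)‖ * ((1 + s * ‖l‖) * (1 + s * ‖l‖) ^ 2) := by
          gcongr
          linarith
      _ = ‖lineW W (p 0) (p 1) (↑s * l)‖ * (1 + s * ‖l‖) ^ 3 := by ring
      _ ≤ (C2 * (1 + s * ‖l‖) ^ (-4 : ℝ)) * (1 + s * ‖l‖) ^ 3 := by gcongr
      _ = C2 * ((1 + s * ‖l‖) ^ (-4 : ℝ) * (1 + s * ‖l‖) ^ 3) := by ring
      _ ≤ C2 * 1 := by
          gcongr
          exact rpow_four h4
      _ = C2 := mul_one _

lemma line_cont {W : Fin 3 → V → Mat} (hW : Form11 W) {z a : ℂ} (hz : 0 < z.im) :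
    Continuous (lineW W z a) := by
  have : lineW W z a = fun l => rowW W z a l 1 + conj a * rowW W z a l 2 := by
    ext l
    exact lineW_row W z a l
  rw [this]
  exact (contRow hW hz 1).add (continuous_const.mul (contRow hW hz 2))

lemma tame_mean {W : Fin 3 → V → Mat} (hW : Form11 W)
    (hx : ∀ z a : ℂ, 0 < z.im → ∫ l, lineW W z a l = 0) (z a : ℂ) (hz : 0 < z.im) :
    Tendsto (fun ρ : ℝ => ∫ θ in (0 : ℝ)..2 * Real.pi,
        conj (ρ * Complex.exp (θ * I)) * pull01 T0 (prim W) 2 ![z, a, ρ * Complex.exp (θ * I)])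
      (nhdsWithin 0 (Set.Ioi 0)) (nhds 0) := by
  have h1 := polar_tendsto (line_cont hW (a := a) hz) (lineW_integrable hW hz a).1
  rw [hx z a hz] at h1
  have h2 := (h1.comp tendsto_inv_nhdsGT_zero).neg
  rw [neg_zero] at h2
  refine h2.congr' ?_
  filter_upwards [self_mem_nhdsWithin] with ρ hρ
  have hρ0 : 0 < ρ := hρ
  simp only [Function.comp]
  rw [← intervalIntegral.integral_neg]
  congr 1
  ext θ
  have hq : (ρ : ℂ) * Complex.exp (θ * I) ≠ 0 :=
    mul_ne_zero (by exact_mod_cast hρ0.ne') (Complex.exp_ne_zero _)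
  have hp : (![z, a, ρ * Complex.exp (θ * I)] : V) ∈ U := by simpa [U] using hz
  obtain ⟨-, -, e2⟩ := prim_chart0 hW hp (by simpa using hq)
  rw [e2]
  have v0 : (![z, a, ρ * Complex.exp (θ * I)] : V) 0 = z := rfl
  have v1 : (![z, a, ρ * Complex.exp (θ * I)] : V) 1 = a := rfl
  have v2 : (![z, a, ρ * Complex.exp (θ * I)] : V) 2 = ρ * Complex.exp (θ * I) := rfl
  rw [v0, v1, v2]
  have hl : 1 / ((ρ : ℂ) * Complex.exp (θ * I)) = (ρ⁻¹ : ℝ) * Complex.exp (-θ * I) := by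
    rw [neg_mul, Complex.exp_neg]
    push_cast
    rw [one_div, mul_inv]
  rw [hl]
  have hsub : ∫ r in (0 : ℝ)..ρ⁻¹, (r : ℂ) * lineW W z a (r * Complex.exp (-θ * I)) =
      ((ρ⁻¹ : ℝ) : ℂ) * ∫ s in (0 : ℝ)..1, ((s * ρ⁻¹ : ℝ) : ℂ) *
        lineW W z a (((s * ρ⁻¹ : ℝ) : ℂ) * Complex.exp (-θ * I)) := by
    have := intervalIntegral.integral_comp_mul_right (a := 0) (b := 1)
      (fun r : ℝ => (r : ℂ) * lineW W z a (r * Complex.exp (-θ * I))) (inv_pos.2 hρ0).ne'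
    rw [this, zero_mul, one_mul, Complex.real_smul, ← mul_assoc, ← Complex.ofReal_mul,
      mul_inv_cancel₀ (inv_pos.2 hρ0).ne']
    simp
  rw [hsub]
  have hsum : ∫ s in (0 : ℝ)..1, ((s * ρ⁻¹ : ℝ) : ℂ) *
        lineW W z a (((s * ρ⁻¹ : ℝ) : ℂ) * Complex.exp (-θ * I)) =
      ((ρ⁻¹ : ℝ) : ℂ) * ∫ s in (0 : ℝ)..1,
        lineW W z a (s * (((ρ⁻¹ : ℝ) : ℂ) * Complex.exp (-θ * I))) * (s : ℂ) := by
    rw [← intervalIntegral.integral_const_mul]
    congr 1
    ext s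
    rw [Complex.ofReal_mul, mul_assoc (s : ℂ)]
    ring_nf
  rw [hsum]
  set J := ∫ s in (0 : ℝ)..1,
        lineW W z a (s * (((ρ⁻¹ : ℝ) : ℂ) * Complex.exp (-θ * I))) * (s : ℂ)
  set E := Complex.exp (-θ * I) with hE
  have hE1 : conj E * E = 1 := by
    rw [← Complex.normSq_eq_conj_mul_self, Complex.normSq_eq_norm_sq, hE, exp_neg_eq,
      Complex.norm_exp_ofReal_mul_I]
    simp
  have hE2 : conj (Complex.exp (θ * I)) = E := by
    rw [hE, ← Complex.exp_conj]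
    simp
  have hρ' : ((ρ⁻¹ : ℝ) : ℂ) * (ρ : ℂ) = 1 := by
    rw [← Complex.ofReal_mul, inv_mul_cancel₀ hρ0.ne', Complex.ofReal_one]
  rw [map_mul, map_mul, hE2, Complex.conj_ofReal, Complex.conj_ofReal]
  have : (ρ : ℂ) * E * (-((((ρ⁻¹ : ℝ) : ℂ) * conj E) ^ 2 * (((ρ⁻¹ : ℝ) : ℂ) * E)) * J) =
    - ((((ρ⁻¹ : ℝ) : ℂ) * (ρ : ℂ)) * ((ρ⁻¹ : ℝ) : ℂ) * ((ρ⁻¹ : ℝ) : ℂ) *
      (conj E * E) ^ 2 * J) := by ring
  rw [this, hE1, hρ']
  ring

lemma tameAt0 {W : Fin 3 → V → Mat} (hW : Form11 W)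
    (hx : ∀ z a : ℂ, 0 < z.im → ∫ l, lineW W z a l = 0) : TameAt T0 (prim W) :=
  ⟨fun _ hK hK' => tame_bdd hW hK hK', fun z a hz _ => tame_mean hW hx z a hz⟩

/-- the form with the fibre coordinates swapped -/
noncomputable def sw (W : Fin 3 → V → Mat) : Fin 3 → V → Mat := fun i p =>
    if i = 2 then ((W 2 ![p 0, p 2, p 1]).submatrix (Equiv.swap 1 2) (Equiv.swap 1 2))
    else W (if i = 0 then 1 else 0) p

lemma sw_form {W : Fin 3 → V → Mat} (hW : Form11 W) : Form11 (sw W) := hW.swap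

lemma sw_2 (W : Fin 3 → V → Mat) (p : V) (j k : Fin 3) : sw W 2 p j k =
    W 2 ![p 0, p 2, p 1] (Equiv.swap 1 2 j) (Equiv.swap 1 2 k) := rfl

lemma s1 : (Equiv.swap 1 2 : Equiv.Perm (Fin 3)) 1 = 2 := Equiv.swap_apply_left 1 2
lemma s2 : (Equiv.swap 1 2 : Equiv.Perm (Fin 3)) 2 = 1 := Equiv.swap_apply_right 1 2

lemma lineW_sw (W : Fin 3 → V → Mat) (z a l : ℂ) : lineW (sw W) z a l = lineW' W z a l := by
  unfold lineW lineW'
  simp only [sw_2, s1, s2]
  rfl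

lemma prim_sw (W : Fin 3 → V → Mat) (k : Fin 3) (p : V) :
    prim (sw W) k p = prim W (Equiv.swap 1 2 k) ![p 0, p 2, p 1] := by
  unfold prim
  congr 1
  ext s
  have hk : (k = 0) ↔ (Equiv.swap 1 2 k = 0) := by
    fin_cases k <;> decide
  simp only [sw_2, s1, s2, hk]
  have e0 : (![p 0, p 2, p 1] : V) 0 = p 0 := rfl
  have e1 : (![p 0, p 2, p 1] : V) 1 = p 2 := rfl
  have e2 : (![p 0, p 2, p 1] : V) 2 = p 1 := rfl
  have e3 : (![p 0, s * p 1, s * p 2] : V) 0 = p 0 := rfl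
  have e4 : (![p 0, s * p 1, s * p 2] : V) 1 = s * p 1 := rfl
  have e5 : (![p 0, s * p 1, s * p 2] : V) 2 = s * p 2 := rfl
  rw [e0, e1, e2, e3, e4, e5]
  ring

lemma pull01_sw (W : Fin 3 → V → Mat) {p : V} (h2 : p 2 ≠ 0) (k : Fin 3) :
    pull01 T0 (prim (sw W)) k p = pull01 T1 (prim W) k p := by
  have hJ0 : ∀ k m, dz k (fun p' => T0 p' m) p = Jac T0 p k m := fun k m => rfl
  have hJ1 : ∀ k m, dz k (fun p' => T1 p' m) p = Jac T1 p k m := fun k m => rfl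
  have hT : (![T0 p 0, T0 p 2, T0 p 1] : V) = T1 p := by
    unfold T0 T1
    simp
  have s0 : (Equiv.swap 1 2 : Equiv.Perm (Fin 3)) 0 = 0 := by decide
  unfold pull01
  simp only [hJ0, hJ1, Jac_T0 h2, Jac_T1 h2, Fin.sum_univ_three, prim_sw, hT, s0, s1, s2]
  fin_cases k <;> simp [add_comm]

lemma tameAt1 {W : Fin 3 → V → Mat} (hW : Form11 W)
    (hx : ∀ z a : ℂ, 0 < z.im → ∫ l, lineW' W z a l = 0) : TameAt T1 (prim W) := by
  have h0 : TameAt T0 (prim (sw W)) := tameAt0 (sw_form hW) (fun z a hz => by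
    simp only [lineW_sw]
    exact hx z a hz)
  constructor
  · intro K hK hK'
    obtain ⟨C, hC⟩ := h0.bdd K hK hK'
    refine ⟨C, fun p hp h1 h2 h3 => ?_⟩
    have := hC p hp h1 h2 h3
    simpa only [pull01_sw W h2] using this
  · intro z a hz ha
    refine (h0.mean z a hz ha).congr' ?_
    filter_upwards [self_mem_nhdsWithin] with ρ hρ
    have hρ0 : 0 < ρ := hρ
    congr 1
    ext θ
    rw [pull01_sw]
    have hq : (ρ : ℂ) * Complex.exp (θ * I) ≠ 0 :=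
      mul_ne_zero (by exact_mod_cast hρ0.ne') (Complex.exp_ne_zero _)
    simpa using hq

end TameP

theorem prim_tame {W : Fin 3 → V → Mat} (hW : Form11 W) (cW : Closed W)
    (hx : ∀ z a : ℂ, 0 < z.im → ∫ l, lineW W z a l = 0 ∧ ∫ l, lineW' W z a l = 0) :
    Tame (prim W) :=
  ⟨TameP.tameAt0 hW fun z a hz => (hx z a hz).1, TameP.tameAt1 hW fun z a hz => (hx z a hz).2⟩

end Pool.Agent.KG
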