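import Mathlib
import Pool.Agent.KG.StokesM
import Pool.Agent.KG.TameP
import Pool.Agent.KG.Theta
import Pool.Agent.KG.Radial

/-! # Modules F4, G3: the key lemma and the positivity of the total scalar curvature -/

open scoped ContDiff ComplexConjugate ComplexOrder Matrix Topology MatrixGroups
open Complex MeasureTheory Filter

namespace Pool.Agent.KG

/-! ### linearity of the period -/

lemma lineW_lin (c : ℝ) (W W' : Fin 3 → V → Mat) (z a l : ℂ) :
    lineW (fun i p => W i p + (c : ℂ) • W' i p) z a l = lineW W z a l + c * lineW W' z a l := by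
  simp only [lineW, Matrix.add_apply, Matrix.smul_apply, smul_eq_mul]; ring

lemma lineW'_lin (c : ℝ) (W W' : Fin 3 → V → Mat) (z a l : ℂ) :
    lineW' (fun i p => W i p + (c : ℂ) • W' i p) z a l =
      lineW' W z a l + c * lineW' W' z a l := by
  simp only [lineW', Matrix.add_apply, Matrix.smul_apply, smul_eq_mul]; ring

lemma Th_form : Form11 Th := ThD_form11 one_pos
lemma Th_closed : Closed Th := ThD_closed one_pos

lemma period_Th (z a : ℂ) (hz : 0 < z.im) :
    ∫ l, lineW Th z a l = Real.pi ∧ ∫ l, lineW' Th z a l = Real.pi := by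
  obtain ⟨x, hx⟩ := exists_period Th_form Th_closed
  have h1 := lineW_Th hz a
  have h2 := hx z a hz
  have h3 : (x : ℂ) = (Real.pi : ℂ) := h2.1.symm.trans h1
  exact ⟨h1, h2.2.trans h3⟩

lemma period_sub {W₁ : Fin 3 → V → Mat} (h1 : Form11 W₁) {x : ℝ}
    (hx : ∀ z a : ℂ, 0 < z.im → ∫ l, lineW W₁ z a l = x ∧ ∫ l, lineW' W₁ z a l = x) (z a : ℂ)
    (hz : 0 < z.im) :
    ∫ l, lineW (fun i p => W₁ i p + ((-(x / Real.pi) : ℝ) : ℂ) • Th i p) z a l = 0 ∧
      ∫ l, lineW' (fun i p => W₁ i p + ((-(x / Real.pi) : ℝ) : ℂ) • Th i p) z a l = 0 := by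
  have hpi : (Real.pi : ℂ) ≠ 0 := by exact_mod_cast Real.pi_ne_zero
  obtain ⟨i1, i1'⟩ := lineW_integrable h1 hz a
  obtain ⟨i2, i2'⟩ := lineW_integrable Th_form hz a
  obtain ⟨e1, e1'⟩ := hx z a hz
  obtain ⟨e2, e2'⟩ := period_Th z a hz
  constructor
  · simp only [lineW_lin]
    rw [integral_add i1 (i2.const_mul _), integral_const_mul, e1, e2]
    push_cast
    field_simp
    ring
  · simp only [lineW'_lin]
    rw [integral_add i1' (i2'.const_mul _), integral_const_mul, e1', e2']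
    push_cast
    field_simp
    ring

/-! ### integrability of compactly supported integrands -/

lemma continuousOn_sig : ContinuousOn sig U := by
  unfold sig
  refine ContinuousOn.div (Continuous.continuousOn ?_) (Continuous.continuousOn ?_) ?_
  · exact (continuous_normSq.comp (continuous_apply 1)).add
      (continuous_normSq.comp (continuous_apply 2))
  · exact continuous_im.comp (continuous_apply 0)
  · intro p hp
    exact (ne_of_gt hp)

lemma cut_integrable {ψ : ℂ → ℝ} (hψ : IsPsi ψ) {η : ℝ → ℝ} (hη : IsCut η) {ρ : V → ℂ}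
    (hρ : ContinuousOn ρ U) {R : ℝ} (hR : 0 < R) :
    IntegrableOn (fun p => ((ψ (p 0) * η (sig p / R) : ℝ) : ℂ) * ρ p) U := by
  -- a bound for the imaginary part on the support of `ψ`
  obtain ⟨b, hb⟩ : ∃ b : ℝ, ∀ z ∈ tsupport ψ, z.im ≤ b := by
    obtain ⟨b, hb⟩ := (hψ.cpt.isCompact.image continuous_im).bddAbove
    exact ⟨b, fun z hz => hb ⟨z, hz, rfl⟩⟩
  let r : ℝ := Real.sqrt (2 * R * b)
  let K : Set V := Set.univ.pi ![tsupport ψ, Metric.closedBall 0 r, Metric.closedBall 0 r]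
  have hK : IsCompact K := by
    apply isCompact_univ_pi
    intro i
    fin_cases i
    · exact hψ.cpt.isCompact
    · exact isCompact_closedBall _ _
    · exact isCompact_closedBall _ _
  have hmem : ∀ p : V, p ∈ K ↔ p 0 ∈ tsupport ψ ∧ ‖p 1‖ ≤ r ∧ ‖p 2‖ ≤ r := by
    intro p
    simp only [K, Set.mem_univ_pi, Fin.forall_fin_succ, IsEmpty.forall_iff, and_true]
    simp
  have hKU : K ⊆ U := fun p hp => hψ.supp ((hmem p).1 hp).1
  have hcont : ContinuousOn (fun p : V => ((ψ (p 0) * η (sig p / R) : ℝ) : ℂ) * ρ p) U := by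
    refine ContinuousOn.mul (continuous_ofReal.comp_continuousOn (ContinuousOn.mul ?_ ?_)) hρ
    · exact (hψ.smooth.continuous.comp (continuous_apply 0)).continuousOn
    · exact hη.smooth.continuous.comp_continuousOn (continuousOn_sig.div_const R)
  refine IntegrableOn.of_forall_sdiff_eq_zero ((hcont.mono hKU).integrableOn_compact hK)
    isOpen_U.measurableSet ?_
  intro p hp
  by_cases h0 : p 0 ∈ tsupport ψ
  · have hbig : 2 ≤ sig p / R := by
      by_contra hlt
      push Not at hlt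
      apply hp.2
      rw [hmem]
      have hy : 0 < (p 0).im := hp.1
      have h1 : normSq (p 1) + normSq (p 2) < 2 * R * (p 0).im := by
        rw [div_lt_iff₀ hR, sig, div_lt_iff₀ hy] at hlt
        exact hlt
      have h2 : 2 * R * (p 0).im ≤ 2 * R * b := by
        have := hb _ h0
        gcongr
      have e1 := normSq_nonneg (p 1)
      have e2 := normSq_nonneg (p 2)
      refine ⟨h0, ?_, ?_⟩
      · apply Real.le_sqrt_of_sq_le
        rw [← normSq_eq_norm_sq]
        linarith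
      · apply Real.le_sqrt_of_sq_le
        rw [← normSq_eq_norm_sq]
        linarith
    rw [hη.zero _ hbig]
    simp
  · have : ψ (p 0) = 0 := image_eq_zero_of_notMem_tsupport h0
    rw [this]
    simp

/-! ### the key lemma -/

lemma D3_sub_zpart {W W₂ W₃ : Fin 3 → V → Mat} (hW : Form11 W) (cW : Closed W)
    (h2 : Form11 W₂) (h3 : Form11 W₃) {p : V} (hp : p ∈ U) :
    D3 (W 2 p) (W₂ 2 p) (W₃ 2 p) - D3 (zpart W 2 p) (W₂ 2 p) (W₃ 2 p) =
      (∑ j, ∑ k, cofm (W₂ 2 p) (W₃ 2 p) j k * dz j (prim W k) p) +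
        conj (∑ j, ∑ k, cofm (W₂ 2 p) (W₃ 2 p) j k * dz j (prim W k) p) := by
  have hC := cofm_herm (h2.herm 2 p hp) (h3.herm 2 p hp)
  have hC' : ∀ j k, conj (cofm (W₂ 2 p) (W₃ 2 p) j k) = cofm (W₂ 2 p) (W₃ 2 p) k j :=
    fun j k => hC.apply k j
  have e1 : conj (∑ j, ∑ k, cofm (W₂ 2 p) (W₃ 2 p) j k * dz j (prim W k) p) =
      ∑ j, ∑ k, cofm (W₂ 2 p) (W₃ 2 p) j k * conj (dz k (prim W j) p) := by
    simp only [map_sum, map_mul, hC']
    exact Finset.sum_comm
  rw [e1, D3, D3, ← Finset.sum_sub_distrib, ← Finset.sum_add_distrib]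
  refine Finset.sum_congr rfl fun j _ => ?_
  rw [← Finset.sum_sub_distrib, ← Finset.sum_add_distrib]
  refine Finset.sum_congr rfl fun k _ => ?_
  rw [← sub_mul, ← prim_identity hW cW hp j k]
  ring


lemma continuousOn_rho {W W₂ W₃ : Fin 3 → V → Mat} (hW : Form11 W)
    (h2 : Form11 W₂) (h3 : Form11 W₃) :
    ContinuousOn (fun p => ∑ j, ∑ k, cofm (W₂ 2 p) (W₃ 2 p) j k * dz j (prim W k) p) U := by
  have hc : ∀ j k, ContinuousOn (fun p => cofm (W₂ 2 p) (W₃ 2 p) j k) U := by
    intro j k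
    have g2 : ∀ a b, ContinuousOn (fun p => W₂ 2 p a b) U := fun a b => (h2.smooth 2 a b).continuousOn
    have g3 : ∀ a b, ContinuousOn (fun p => W₃ 2 p a b) U := fun a b => (h3.smooth 2 a b).continuousOn
    unfold cofm
    exact ((((g2 _ _).mul (g3 _ _)).add ((g2 _ _).mul (g3 _ _))).sub
      ((g2 _ _).mul (g3 _ _))).sub ((g2 _ _).mul (g3 _ _))
  refine continuousOn_finsetSum _ fun j _ => continuousOn_finsetSum _ fun k _ =>
    (hc j k).mul ?_
  exact (contDiffOn_dz (a := 0) (b := 1) isOpen_U (by norm_num)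
    ((prim_form01 hW).smooth k)).continuousOn

theorem III_eq_zpart {ψ : ℂ → ℝ} (hψ : IsPsi ψ) {W W₂ W₃ : Fin 3 → V → Mat} (hW : Form11 W)
    (h2 : Form11 W₂) (h3 : Form11 W₃) (cW : Closed W) (c2 : Closed W₂) (c3 : Closed W₃)
    (hx : ∀ z a : ℂ, 0 < z.im → ∫ l, lineW W z a l = 0 ∧ ∫ l, lineW' W z a l = 0) :
    III ψ W W₂ W₃ = III ψ (zpart W) W₂ W₃ := by
  obtain ⟨η, hη⟩ := exists_cut
  have hz := zpart_form11 hW
  have d1 := D3_dens hW h2 h3
  have d2 := D3_dens hz h2 h3
  have t1 := d1.tendsto_cut hψ hη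
  have t2 := d2.tendsto_cut hψ hη
  have t3 := stokesM hψ h2 h3 c2 c3 (prim_form01 hW) (prim_tame hW cW hx) hη
  have hρ := continuousOn_rho hW h2 h3
  have cont1 : ContinuousOn (fun p => D3 (W 2 p) (W₂ 2 p) (W₃ 2 p)) U := d1.cont 2
  have cont2 : ContinuousOn (fun p => D3 (zpart W 2 p) (W₂ 2 p) (W₃ 2 p)) U := d2.cont 2
  have key : ∀ᶠ R : ℝ in atTop,
      (∫ p in U, ((ψ (p 0) * η (sig p / R) : ℝ) : ℂ) * D3 (W 2 p) (W₂ 2 p) (W₃ 2 p)) -
        (∫ p in U, ((ψ (p 0) * η (sig p / R) : ℝ) : ℂ) * D3 (zpart W 2 p) (W₂ 2 p) (W₃ 2 p)) =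
      (∫ p in U, ((ψ (p 0) * η (sig p / R) : ℝ) : ℂ) *
        ∑ j, ∑ k, cofm (W₂ 2 p) (W₃ 2 p) j k * dz j (prim W k) p) +
      conj (∫ p in U, ((ψ (p 0) * η (sig p / R) : ℝ) : ℂ) *
        ∑ j, ∑ k, cofm (W₂ 2 p) (W₃ 2 p) j k * dz j (prim W k) p) := by
    filter_upwards [eventually_gt_atTop 0] with R hR
    have i1 := cut_integrable hψ hη cont1 hR
    have i2 := cut_integrable hψ hη cont2 hR
    have i3 := cut_integrable hψ hη hρ hR
    have i4 := cut_integrable hψ hη (continuous_conj.comp_continuousOn hρ) hR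
    rw [← integral_sub i1 i2, ← integral_conj]
    rw [← integral_add i3]
    · refine setIntegral_congr_fun isOpen_U.measurableSet fun p hp => ?_
      have := D3_sub_zpart hW cW h2 h3 hp
      simp only [← mul_sub, this, map_mul, conj_ofReal, mul_add]
    · refine i4.congr (Eventually.of_forall fun p => ?_)
      simp only [Function.comp_apply, map_mul, conj_ofReal]
  have l1 := (t1.sub t2)
  have l2 := (t3.add ((continuous_conj.tendsto 0).comp t3))
  have l3 := l1.congr' key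
  have l4 := tendsto_nhds_unique l3 l2
  rw [map_zero, add_zero, sub_eq_zero] at l4
  have r1 : III ψ W W₂ W₃ = (∫ p in U, (ψ (p 0) : ℂ) * D3 (W 2 p) (W₂ 2 p) (W₃ 2 p)).re := by
    have := integral_re (d1.integrable hψ)
    simp only [RCLike.re_eq_complex_re] at this
    rw [← this, III]
    refine setIntegral_congr_fun isOpen_U.measurableSet fun p _ => ?_
    simp
  have r2 : III ψ (zpart W) W₂ W₃ =
      (∫ p in U, (ψ (p 0) : ℂ) * D3 (zpart W 2 p) (W₂ 2 p) (W₃ 2 p)).re := by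
    have := integral_re (d2.integrable hψ)
    simp only [RCLike.re_eq_complex_re] at this
    rw [← this, III]
    refine setIntegral_congr_fun isOpen_U.measurableSet fun p _ => ?_
    simp
  rw [r1, r2, l4]

lemma III_congr1 {ψ : ℂ → ℝ} {W W' W₂ W₃ : Fin 3 → V → Mat} (h : ∀ p ∈ U, W 2 p = W' 2 p) :
    III ψ W W₂ W₃ = III ψ W' W₂ W₃ := by
  refine setIntegral_congr_fun isOpen_U.measurableSet fun p hp => ?_
  simp only [h p hp]

theorem keyLemma {ψ : ℂ → ℝ} (hψ : IsPsi ψ) {W₁ W₂ W₃ : Fin 3 → V → Mat} (h1 : Form11 W₁)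
    (h2 : Form11 W₂) (h3 : Form11 W₃) (c1 : Closed W₁) (c2 : Closed W₂) (c3 : Closed W₃)
    {x : ℝ} (hx : ∀ z a : ℂ, 0 < z.im → ∫ l, lineW W₁ z a l = x ∧ ∫ l, lineW' W₁ z a l = x) :
    III ψ W₁ W₂ W₃ = III ψ (zpart W₁) W₂ W₃ + x / Real.pi * III ψ Th W₂ W₃ := by
  set c : ℝ := -(x / Real.pi) with hc
  have hs : Form11 (fun i p => (c : ℂ) • Th i p) := Th_form.smul c
  have hW : Form11 (fun i p => W₁ i p + (c : ℂ) • Th i p) := h1.add hs
  have cW : Closed (fun i p => W₁ i p + (c : ℂ) • Th i p) :=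
    Closed.add h1 hs c1 (Closed.smul c Th_form Th_closed)
  have e1 := III_eq_zpart hψ hW h2 h3 cW c2 c3 (period_sub h1 hx)
  have e2 := III_add hψ h1 hs h2 h3
  have e3 := III_smul (ψ := ψ) c Th W₂ W₃
  have e4 : III ψ (zpart (fun i p => W₁ i p + (c : ℂ) • Th i p)) W₂ W₃ =
      III ψ (zpart W₁) W₂ W₃ := by
    apply III_congr1
    intro p hp
    have h0 := zpart_Th hp 2
    have h00 : Th 2 ![p 0, 0, 0] 0 0 = 0 := by
      have := congrFun (congrFun h0 0) 0
      simpa [zpart] using this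
    simp only [zpart, Matrix.add_apply, Matrix.smul_apply, h00, smul_zero, add_zero]
  rw [e2, e3, e4] at e1
  have e5 : x / Real.pi = -c := by rw [hc, neg_neg]
  rw [e5]
  linarith

/-! ### the explicit integrals -/

lemma ae_u_ne : ∀ᵐ p : V, p 1 ≠ 0 := by
  have h : volume ((LinearMap.ker (LinearMap.proj 1 : V →ₗ[ℝ] ℂ) : Submodule ℝ V) : Set V) = 0 := by
    apply Measure.addHaar_submodule
    intro h
    have h1 : (Pi.single 1 1 : V) ∈ LinearMap.ker (LinearMap.proj 1 : V →ₗ[ℝ] ℂ) := by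
      rw [h]; trivial
    simp at h1
  rw [ae_iff]
  convert h using 2
  ext p
  simp

lemma tendsto_frac : Tendsto (fun s : ℝ => s / (1 + s)) atTop (𝓝 1) := by
  have h1 : Tendsto (fun s : ℝ => 1 - (1 + s)⁻¹) atTop (𝓝 (1 - 0)) := by
    refine tendsto_const_nhds.sub (tendsto_inv_atTop_zero.comp ?_)
    exact tendsto_atTop_add_const_left _ _ tendsto_id
  rw [sub_zero] at h1
  refine h1.congr' ?_
  filter_upwards [eventually_gt_atTop 0] with s hs
  have : (1 + s) ≠ 0 := by positivity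
  field_simp
  ring

lemma hasDerivAt_frac {s : ℝ} (hs : 0 < s) :
    HasDerivAt (fun s : ℝ => s / (1 + s)) (1 / (1 + s) ^ 2) s := by
  have h := (hasDerivAt_id s).div ((hasDerivAt_const s (1 : ℝ)).add (hasDerivAt_id s))
    (by simp only [Pi.add_apply, id]; positivity)
  refine h.congr_deriv ?_
  simp only [Pi.add_apply, id]
  field_simp
  ring

theorem III_Th {ψ : ℂ → ℝ} (hψ : IsPsi ψ) :
    III ψ Th Th Th = 2 * III ψ fF Th Th ∧ 0 < III ψ fF Th Th := by
  have hpos := psi_area_pos hψ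
  -- first integral
  have a1 : III ψ Th Th Th =
      Real.pi ^ 2 * (1 / 2 - 0) * ∫ z in {z : ℂ | 0 < z.im}, ψ z * (z.im ^ 2)⁻¹ := by
    let P : ℝ → ℝ := fun s => 1 / 2 * (s / (1 + s)) ^ 3
    let P' : ℝ → ℝ := fun s => 3 / 2 * s ^ 2 / (1 + s) ^ 4
    have hP : ∀ s > 0, HasDerivAt P (P' s) s := by
      intro s hs
      refine (((hasDerivAt_frac hs).pow 3).const_mul (1 / 2)).congr_deriv ?_
      have : (1 + s) ≠ 0 := by positivity
      simp only [P', Nat.add_one_sub_one, div_pow]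
      push_cast
      field_simp
    have hP0 : ContinuousWithinAt P (Set.Ici 0) 0 := by
      apply ContinuousAt.continuousWithinAt
      apply ContinuousAt.mul continuousAt_const
      apply ContinuousAt.pow
      exact ContinuousAt.div continuousAt_id (by fun_prop) (by norm_num)
    have hP'c : ContinuousOn P' (Set.Ioi 0) := by
      apply ContinuousOn.div (by fun_prop) (by fun_prop)
      intro s hs
      have : (0 : ℝ) < s := hs
      positivity
    have hl : Tendsto P atTop (𝓝 (1 / 2)) := by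
      have := (tendsto_frac.pow 3).const_mul (1 / 2 : ℝ)
      simpa [P] using this
    have hP' : IntegrableOn P' (Set.Ioi 0) := by
      refine integrableOn_Ioi_deriv_of_nonneg hP0 (fun x hx => hP x hx) ?_ hl
      intro x hx
      have : (0 : ℝ) < x := hx
      positivity
    have hr := (radial hψ.smooth.continuous hψ.cpt hψ.supp hP hP0 hP'c hP' hl).2
    have h0 : P 0 = 0 := by simp [P]
    rw [h0] at hr
    rw [← hr, III]
    refine setIntegral_congr_ae isOpen_U.measurableSet ?_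
    filter_upwards [ae_u_ne] with p hp1 hp
    rw [D3_Th_Th_Th hp, ofReal_re]
    have hy : 0 < (p 0).im := hp
    have hu : 0 < normSq (p 1) + normSq (p 2) :=
      add_pos_of_pos_of_nonneg (normSq_pos.2 hp1) (normSq_nonneg _)
    have hS : SS 1 2 p = (p 0).im + (normSq (p 1) + normSq (p 2)) := by
      simp [SS]; ring
    congr 1
    simp only [P', sig, hS]
    generalize normSq (p 1) + normSq (p 2) = r at *
    generalize (p 0).im = y at *
    have h1 : y + r ≠ 0 := by positivity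
    have h2 : (1 + r / y) = (y + r) / y := by field_simp
    rw [h2]
    field_simp
  have a2 : III ψ fF Th Th =
      Real.pi ^ 2 * (1 / 4 - 0) * ∫ z in {z : ℂ | 0 < z.im}, ψ z * (z.im ^ 2)⁻¹ := by
    let P : ℝ → ℝ := fun s => 1 / 4 * (s / (1 + s)) ^ 2
    let P' : ℝ → ℝ := fun s => 1 / 2 * s / (1 + s) ^ 3
    have hP : ∀ s > 0, HasDerivAt P (P' s) s := by
      intro s hs
      refine (((hasDerivAt_frac hs).pow 2).const_mul (1 / 4)).congr_deriv ?_
      have : (1 + s) ≠ 0 := by positivity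
      simp only [P', Nat.add_one_sub_one, pow_one]
      push_cast
      field_simp
      ring
    have hP0 : ContinuousWithinAt P (Set.Ici 0) 0 := by
      apply ContinuousAt.continuousWithinAt
      apply ContinuousAt.mul continuousAt_const
      apply ContinuousAt.pow
      exact ContinuousAt.div continuousAt_id (by fun_prop) (by norm_num)
    have hP'c : ContinuousOn P' (Set.Ioi 0) := by
      apply ContinuousOn.div (by fun_prop) (by fun_prop)
      intro s hs
      have : (0 : ℝ) < s := hs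
      positivity
    have hl : Tendsto P atTop (𝓝 (1 / 4)) := by
      have := (tendsto_frac.pow 2).const_mul (1 / 4 : ℝ)
      simpa [P] using this
    have hP' : IntegrableOn P' (Set.Ioi 0) := by
      refine integrableOn_Ioi_deriv_of_nonneg hP0 (fun x hx => hP x hx) ?_ hl
      intro x hx
      have : (0 : ℝ) < x := hx
      positivity
    have hr := (radial hψ.smooth.continuous hψ.cpt hψ.supp hP hP0 hP'c hP' hl).2
    have h0 : P 0 = 0 := by simp [P]
    rw [h0] at hr
    rw [← hr, III]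
    refine setIntegral_congr_ae isOpen_U.measurableSet ?_
    filter_upwards [ae_u_ne] with p hp1 hp
    rw [D3_fF_Th_Th hp, ofReal_re]
    have hy : 0 < (p 0).im := hp
    have hu : 0 < normSq (p 1) + normSq (p 2) :=
      add_pos_of_pos_of_nonneg (normSq_pos.2 hp1) (normSq_nonneg _)
    have hS : SS 1 2 p = (p 0).im + (normSq (p 1) + normSq (p 2)) := by
      simp [SS]; ring
    congr 1
    simp only [P', sig, hS]
    generalize normSq (p 1) + normSq (p 2) = r at *
    generalize (p 0).im = y at *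
    have h1 : y + r ≠ 0 := by positivity
    have h2 : (1 + r / y) = (y + r) / y := by field_simp
    rw [h2]
    field_simp
  rw [a1, a2]
  constructor
  · ring
  · have : 0 < Real.pi := Real.pi_pos
    have h14 : (0 : ℝ) < 1 / 4 - 0 := by norm_num
    positivity

/-! ### the total scalar curvature -/

lemma fF_eq (i j : Fin 3) (p : V) : fF i p = fF j p := rfl

/-- the global function `log (det W / v)` with the reference volume `v = y⁻¹ S⁻³` -/
noncomputable def hW (W : Fin 3 → V → Mat) (i : Fin 3) (p : V) : ℝ :=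
  Real.log (W i p).det.re + Real.log (p 0).im + 3 * Real.log (SS 1 i p)

lemma det_pos {A : Mat} (hA : A.PosDef) : 0 < A.det.re ∧ A.det.im = 0 := by
  have := hA.det_pos
  rw [Complex.lt_def] at this
  exact ⟨this.1, this.2.symm⟩

lemma contDiffOn_det {W : V → Mat} (h : ∀ j k, ContDiffOn ℝ ∞ (fun p => W p j k) U) :
    ContDiffOn ℝ ∞ (fun p => (W p).det.re) U := by
  have h1 : ContDiffOn ℝ ∞ (fun p => (W p).det) U := by
    simp only [Matrix.det_fin_three]
    have h' := h
    exact (((((((h' _ _).mul (h' _ _)).mul (h' _ _)).sub (((h' _ _).mul (h' _ _)).mul (h' _ _))).sub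
      (((h' _ _).mul (h' _ _)).mul (h' _ _))).add (((h' _ _).mul (h' _ _)).mul (h' _ _))).add
      (((h' _ _).mul (h' _ _)).mul (h' _ _))).sub (((h' _ _).mul (h' _ _)).mul (h' _ _))
  exact (reCLM.contDiff.of_le le_top).comp_contDiffOn h1

lemma contDiffOn_logdet {W : V → Mat} (h : ∀ j k, ContDiffOn ℝ ∞ (fun p => W p j k) U)
    (hp : ∀ p ∈ U, (W p).PosDef) : ContDiffOn ℝ ∞ (fun p => Real.log (W p).det.re) U :=
  (contDiffOn_det h).log fun p hpU => (det_pos (hp p hpU)).1.ne'

lemma contDiffOn_logim : ContDiffOn ℝ ∞ (fun p : V => Real.log (p 0).im) U := by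
  have h1 : ContDiff ℝ ∞ (fun p : V => (p 0).im) :=
    (imCLM.contDiff.of_le le_top).comp (contDiff_apply ℝ ℂ 0)
  exact h1.contDiffOn.log fun p hp => (ne_of_gt hp)

lemma contDiffOn_logSS (i : Fin 3) : ContDiffOn ℝ ∞ (fun p : V => Real.log (SS 1 i p)) U :=
  (SS_contDiff 1 i).contDiffOn.log fun _ hp => (SS_pos one_pos i hp).ne'

lemma hW_fun0 {W : Fin 3 → V → Mat} (hF : Form11 W) (pW : ∀ i, ∀ p ∈ U, (W i p).PosDef) :
    Fun0 (hW W) := by
  have key : ∀ (T : V → V) (i : Fin 3) (p : V), p ∈ U → T p ∈ U → p 2 ≠ 0 →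
      W i p = pull T (W 2) p → normSq (Jac T p).det = (normSq (p 2) ^ 3)⁻¹ → T p 0 = p 0 →
      SS 1 2 (T p) = SS 1 i p / normSq (p 2) → hW W i p = hW W 2 (T p) := by
    intro T i p hp hTp hq h1 h2 h3 h4
    have hq' : normSq (p 2) ≠ 0 := (normSq_pos.2 hq).ne'
    have hd : (W i p).det.re = (normSq (p 2) ^ 3)⁻¹ * (W 2 (T p)).det.re := by
      rw [h1, det_pull, h2, re_ofReal_mul]
    have hd' := (det_pos (pW 2 _ hTp)).1.ne'
    have hS := (SS_pos one_pos i hp).ne'
    rw [hW, hW, hd, h3, h4, Real.log_mul (by positivity) hd', Real.log_inv, Real.log_pow,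
      Real.log_div hS hq']
    push_cast
    ring
  refine ⟨?_, ?_, ?_, ?_⟩
  · intro i
    exact ((contDiffOn_logdet (hF.smooth i) (pW i)).add contDiffOn_logim).add
      (contDiffOn_const.mul (contDiffOn_logSS i))
  · intro p hp hq
    exact key T0 0 p hp (T0_mem.2 hp) hq (hF.pull0 p hp hq) (det_Jac_T0 hq) rfl (SS_T0 1 hq)
  · intro p hp hq
    exact key T1 1 p hp (T1_mem.2 hp) hq (hF.pull1 p hp hq) (det_Jac_T1 hq) rfl (SS_T1 1 hq)
  · intro γ hγ p hp
    have hTp := act2_mem γ hp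
    have hden : normSq (den γ (p 0)) ≠ 0 := (normSq_pos.2 (den_ne hp)).ne'
    have hd : (W 2 p).det.re = (normSq (den γ (p 0)) ^ 4)⁻¹ * (W 2 (act2 γ p)).det.re := by
      rw [hF.equiv γ hγ p hp, det_pull, det_Jac_act2 γ hp, re_ofReal_mul]
    have hd' := (det_pos (pW 2 _ hTp)).1.ne'
    have hS := (SS_pos one_pos 2 hp).ne'
    have hy : (p 0).im ≠ 0 := (ne_of_gt hp)
    have e0 : (act2 γ p 0).im = (p 0).im / normSq (den γ (p 0)) := im_mob γ hp
    rw [hW, hW, hd, e0, SS_act2 1 hp, Real.log_mul (by positivity) hd', Real.log_inv,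
      Real.log_pow, Real.log_div hS hden, Real.log_div hy hden]
    push_cast
    ring

/-- `∂∂̄ log det W = ∂∂̄ h + 4 f - 3 Θ` in chart 2 -/
lemma hess_logdet {W : Fin 3 → V → Mat} (hF : Form11 W) (pW : ∀ i, ∀ p ∈ U, (W i p).PosDef)
    {p : V} (hp : p ∈ U) :
    hess (fun w => Real.log (W 2 w).det.re) p =
      hess (hW W 2) p + (((4 : ℝ) : ℂ) • fF 2 p + ((-3 : ℝ) : ℂ) • Th 2 p) := by
  have hn : U ∈ 𝓝 p := isOpen_U.mem_nhds hp
  have s1 : ContDiffAt ℝ 2 (fun w => Real.log (W 2 w).det.re) p :=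
    ((contDiffOn_logdet (hF.smooth 2) (pW 2)).contDiffAt hn).of_le (by norm_cast)
  have s2 : ContDiffAt ℝ 2 (fun w : V => Real.log (w 0).im) p :=
    (contDiffOn_logim.contDiffAt hn).of_le (by norm_cast)
  have s3 : ContDiffAt ℝ 2 (fun w : V => Real.log (SS 1 2 w)) p :=
    ((contDiffOn_logSS 2).contDiffAt hn).of_le (by norm_cast)
  have e1 : hess (hW W 2) p = hess (fun w => Real.log (W 2 w).det.re) p +
      hess (fun w : V => Real.log (w 0).im) p +
      ((3 : ℝ) : ℂ) • hess (fun w : V => Real.log (SS 1 2 w)) p := by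
    rw [← hess_add s1 s2, ← hess_smul 3 s3, ← hess_add (s1.add s2) (contDiffAt_const.mul s3)]
    rfl
  have e2 : Th 2 p = hess (fun w : V => Real.log (SS 1 2 w)) p + fF 2 p := rfl
  rw [e1, hess_log_im hp 2, e2]
  ext j k
  simp only [Matrix.add_apply, Matrix.smul_apply, Matrix.neg_apply, smul_eq_mul]
  push_cast
  ring

lemma scal_mul_det {W : V → Mat} {p : V} (hp : (W p).PosDef) :
    scal W p * (W p).det.re =
      -(1 / 2) * (D3 (hess (fun w => Real.log (W w).det.re) p) (W p) (W p)).re := by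
  obtain ⟨h1, h2⟩ := det_pos hp
  have hne : (W p).det ≠ 0 := by
    intro h; rw [h] at h1; simp at h1
  have hreal : (W p).det = ((W p).det.re : ℂ) := by
    apply Complex.ext <;> simp [h2]
  have hinv : ∀ k j, (W p)⁻¹ k j = (W p).det⁻¹ * (W p).adjugate k j := by
    intro k j
    rw [Matrix.inv_def, Matrix.smul_apply, Ring.inverse_eq_inv', smul_eq_mul]
  have e1 : scal W p * (W p).det.re =
      ((-∑ j, ∑ k, (W p)⁻¹ k j * dz j (dzb k (fun w => (Real.log (W w).det.re : ℂ))) p) *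
        (W p).det).re := by
    rw [mul_re, h2, mul_zero, sub_zero]
    rfl
  rw [e1]
  have e2 : (-∑ j, ∑ k, (W p)⁻¹ k j * dz j (dzb k (fun w => (Real.log (W w).det.re : ℂ))) p) *
        (W p).det = ((-(1 / 2) : ℝ) : ℂ) *
        D3 (hess (fun w => Real.log (W w).det.re) p) (W p) (W p) := by
    rw [D3, neg_mul, Finset.sum_mul, Finset.mul_sum, ← Finset.sum_neg_distrib]
    refine Finset.sum_congr rfl fun j _ => ?_
    rw [Finset.sum_mul, Finset.mul_sum, ← Finset.sum_neg_distrib]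
    refine Finset.sum_congr rfl fun k _ => ?_
    rw [cofm_self, hinv]
    have : hess (fun w => Real.log (W w).det.re) p j k =
      dz j (dzb k (fun w => (Real.log (W w).det.re : ℂ))) p := rfl
    rw [this]
    push_cast
    field_simp
  rw [e2, re_ofReal_mul]

/-- total scalar curvature for a form with closed cofactor matrix; here Kähler -/
theorem total_eq_kahler {ψ : ℂ → ℝ} (hψ : IsPsi ψ) {W : Fin 3 → V → Mat} (hW : Form11 W)
    (cW : Closed W) (pW : ∀ i, ∀ p ∈ U, (W i p).PosDef) :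
    total ψ W = (3 * III ψ Th W W - 4 * III ψ fF W W) / 2 := by
  have h0 := hW_fun0 hW pW
  have i0 := III_hess hψ h0 hW hW cW cW
  have f4 : Form11 (fun i p => ((4 : ℝ) : ℂ) • fF i p) := fF_form11.smul 4
  have t3 : Form11 (fun i p => ((-3 : ℝ) : ℂ) • Th i p) := Th_form.smul (-3)
  have i1 := III_add hψ h0.hess_form11 (f4.add t3) hW hW
  have i2 := III_add hψ f4 t3 hW hW
  have i3 := III_smul (ψ := ψ) 4 fF W W
  have i4 := III_smul (ψ := ψ) (-3) Th W W
  have e : total ψ W = -(1 / 2) * III ψ (fun i p => hess (Pool.Agent.KG.hW W i) p +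
      (((4 : ℝ) : ℂ) • fF i p + ((-3 : ℝ) : ℂ) • Th i p)) W W := by
    rw [total, III, ← integral_const_mul]
    refine setIntegral_congr_fun isOpen_U.measurableSet fun p hp => ?_
    rw [scal_mul_det (pW 2 p hp), hess_logdet hW pW hp]
    ring
  rw [e, i1, i0, i2, i3, i4]
  ring

/-! ### positivity of the period -/

lemma lineW_zero_pos {W : Fin 3 → V → Mat} (pW : ∀ i, ∀ p ∈ U, (W i p).PosDef) {z : ℂ}
    (hz : 0 < z.im) (l : ℂ) : 0 < (lineW W z 0 l).re := by
  have h : (W 2 ![z, l, l * 0]).PosDef := pW 2 _ (by simpa [U] using hz)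
  have h1 := h.diag_pos (i := 1)
  have e : lineW W z 0 l = W 2 ![z, l, l * 0] 1 1 := by
    simp [lineW]
  rw [e]
  rw [Complex.lt_def] at h1
  exact h1.1

lemma period_pos {W : Fin 3 → V → Mat} (hF : Form11 W) (pW : ∀ i, ∀ p ∈ U, (W i p).PosDef)
    {x : ℝ} (hx : ∀ z a : ℂ, 0 < z.im → ∫ l, lineW W z a l = x ∧ ∫ l, lineW' W z a l = x) :
    0 < x := by
  have hI : 0 < (I : ℂ).im := by simp
  have h1 := (hx I 0 hI).1
  have hi := (lineW_integrable hF hI 0).1
  have h2 : ∫ l, (lineW W I 0 l).re = x := by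
    have := integral_re hi
    simp only [RCLike.re_eq_complex_re] at this
    rw [this, h1, ofReal_re]
  rw [← h2]
  rw [integral_pos_iff_support_of_nonneg (fun l => (lineW_zero_pos pW hI l).le) hi.re]
  have : Function.support (fun l => (lineW W I 0 l).re) = Set.univ := by
    ext l
    simpa using (lineW_zero_pos pW hI l).ne'
  rw [this]
  simp

lemma zpart_psd {W : Fin 3 → V → Mat} (pW : ∀ i, ∀ p ∈ U, (W i p).PosDef) {p : V} (hp : p ∈ U) :
    (zpart W 2 p).PosSemidef := by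
  have h : (W 2 ![p 0, 0, 0]).PosDef := pW 2 _ (by simpa [U] using hp)
  have h1 := (h.diag_pos (i := 0)).le
  have e : zpart W 2 p = Matrix.diagonal ![W 2 ![p 0, 0, 0] 0 0, 0, 0] := by
    ext j k
    fin_cases j <;> fin_cases k <;> simp [zpart, Matrix.single, Matrix.diagonal]
  rw [e]
  apply Matrix.PosSemidef.diagonal
  intro i
  fin_cases i
  · exact h1
  · exact le_rfl
  · exact le_rfl

lemma III_nonneg {ψ : ℂ → ℝ} (hψ : IsPsi ψ) {W₁ W₂ W₃ : Fin 3 → V → Mat}
    (h1 : ∀ p ∈ U, (W₁ 2 p).PosSemidef) (h2 : ∀ p ∈ U, (W₂ 2 p).PosSemidef)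
    (h3 : ∀ p ∈ U, (W₃ 2 p).PosSemidef) : 0 ≤ III ψ W₁ W₂ W₃ :=
  setIntegral_nonneg isOpen_U.measurableSet fun p hp =>
    mul_nonneg (hψ.nonneg _) (D3_nonneg (h1 p hp) (h2 p hp) (h3 p hp))

/-- the term with `π^*(W|_Z)` and `f` vanishes -/
lemma III_zpart_fF {ψ : ℂ → ℝ} (W W₃ : Fin 3 → V → Mat) : III ψ (zpart W) fF W₃ = 0 := by
  have : ∀ p, D3 (zpart W 2 p) (fF 2 p) (W₃ 2 p) = 0 := fun p => D3_single_single _ _ _
  simp [III, this]

theorem kahler_total_pos {ψ : ℂ → ℝ} (hψ : IsPsi ψ) {W : Fin 3 → V → Mat} (hW : Form11 W)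
    (cW : Closed W) (pW : ∀ i, ∀ p ∈ U, (W i p).PosDef) : 0 < total ψ W := by
  obtain ⟨x, hx⟩ := exists_period hW cW
  have hxpos := period_pos hW pW hx
  set c : ℝ := x / Real.pi with hc
  have hcpos : 0 < c := div_pos hxpos Real.pi_pos
  -- the four instances of the key lemma
  have k1 := keyLemma hψ hW fF_form11 hW cW fF_closed cW hx
  have k2 := keyLemma hψ hW fF_form11 Th_form cW fF_closed Th_closed hx
  have k3 := keyLemma hψ hW Th_form hW cW Th_closed cW hx
  have k4 := keyLemma hψ hW Th_form Th_form cW Th_closed Th_closed hx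
  rw [III_zpart_fF, zero_add] at k1 k2
  have n3 : 0 ≤ III ψ (zpart W) Th W :=
    III_nonneg hψ (fun p hp => zpart_psd pW hp) (fun p hp => Th_psd hp)
      (fun p hp => (pW 2 p hp).posSemidef)
  have n4 : 0 ≤ III ψ (zpart W) Th Th :=
    III_nonneg hψ (fun p hp => zpart_psd pW hp) (fun p hp => Th_psd hp) (fun p hp => Th_psd hp)
  obtain ⟨e1, e2⟩ := III_Th hψ
  -- rearrangements
  have r1 : III ψ W fF W = III ψ fF W W := III_comm12 _ _ _
  have r2 : III ψ Th fF W = III ψ W fF Th := by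
    rw [III_comm23, III_comm12, III_comm23]
  have r3 : III ψ Th fF Th = III ψ fF Th Th := III_comm12 _ _ _
  have r4 : III ψ W Th W = III ψ Th W W := III_comm12 _ _ _
  have r5 : III ψ Th Th W = III ψ W Th Th := by
    rw [III_comm23, III_comm12]
  rw [r1, r2, k2, r3] at k1
  rw [r4, r5] at k3
  rw [total_eq_kahler hψ hW cW pW, k1]
  have l1 : c * III ψ Th Th Th ≤ III ψ W Th Th := by linarith
  have l2 : c * (c * III ψ Th Th Th) ≤ III ψ Th W W := by
    have := mul_le_mul_of_nonneg_left l1 hcpos.le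
    linarith
  rw [e1] at l2
  have l3 : 0 < c * (c * III ψ fF Th Th) := by positivity
  nlinarith [l2, l3]

end Pool.Agent.KG
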