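import Mathlib
import Pool.Agent.KG.Forms
import Pool.Agent.KG.Atlas

/-! # Module D1: Hermitian metrics on `M` and positive forms on `U` -/

open scoped ContDiff ComplexConjugate ComplexOrder Matrix Topology MatrixGroups Manifold
open Complex MeasureTheory Filter

namespace Pool.Agent.KG

namespace MetricAux

lemma one_mem_Gp : (1 : SL(2, ℝ)) ∈ Gp := Gp.one_mem

lemma pull_val {n : ℕ} (T : (Fin n → ℂ) → Fin n → ℂ) {h h' : (Fin n → ℂ) → Matrix (Fin n) (Fin n) ℂ}
    {p : Fin n → ℂ} (hh : h (T p) = h' (T p)) : pull T h p = pull T h' p := by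
  rw [pull_eq, pull_eq, hh]

lemma tr_zero (i j : Fin 3) (γ : SL(2, ℝ)) (p : V) : tr i j γ p 0 = mob γ (p 0) := by
  unfold tr
  split_ifs <;> simp

lemma hom_cont (i j : Fin 3) : Continuous fun p : V => hom i p j := by
  unfold hom
  fin_cases i <;> fin_cases j <;> simp <;> fun_prop

lemma isOpen_hom (i j : Fin 3) : IsOpen {p : V | p ∈ U ∧ hom i p j ≠ 0} :=
  IsOpen.inter isOpen_U (isOpen_ne_fun (hom_cont i j) continuous_const)

lemma hom_self (i : Fin 3) (p : V) : hom i p i = 1 := by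
  unfold hom
  fin_cases i <;> simp

lemma tr_diff (i j : Fin 3) (γ : SL(2, ℝ)) {p : V} (hp : p ∈ U) (h : hom i p j ≠ 0) :
    DifferentiableAt ℂ (tr i j γ) p :=
  ((tr_holo i j γ).differentiableOn (by simp)).differentiableAt
    ((isOpen_hom i j).mem_nhds ⟨hp, h⟩)

lemma hom_tr (i j k : Fin 3) (γ : SL(2, ℝ)) {p : V} (hp : p ∈ U) (hj : hom i p j ≠ 0)
    (hk : hom i p k ≠ 0) : hom j (tr i j γ p) k ≠ 0 := by
  have hd : den γ (p 0) ≠ 0 := den_ne hp
  unfold tr
  fin_cases j <;> fin_cases k <;> simp_all [hom]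

lemma U_of_N {N : Set ℂ} (hN : Small N) {p : V} (hp : p 0 ∈ N) : p ∈ U := hN.2.1 hp

/-- composition of compatibilities -/
lemma comp_aux {W : Fin 3 → V → Mat} (i j k : Fin 3) (γ γ' : SL(2, ℝ)) {p : V} (hp : p ∈ U)
    (hj : hom i p j ≠ 0) (hk : hom i p k ≠ 0)
    (h2 : W j (tr i j γ p) = pull (tr j k γ') (W k) (tr i j γ p)) :
    pull (tr i j γ) (W j) p = pull (tr i k (γ' * γ)) (W k) p := by
  have h3 : pull (tr i k (γ' * γ)) (W k) p = pull (fun w => tr j k γ' (tr i j γ w)) (W k) p := by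
    apply pull_congr
    have : ∀ᶠ w in 𝓝 p, (w ∈ U ∧ hom i w j ≠ 0) ∧ (w ∈ U ∧ hom i w k ≠ 0) :=
      ((isOpen_hom i j).mem_nhds ⟨hp, hj⟩ |> fun h => Filter.inter_mem h
        ((isOpen_hom i k).mem_nhds ⟨hp, hk⟩))
    filter_upwards [this] with w hw
    exact (tr_tr i j k γ γ' hw.1.1 hw.1.2 hw.2.2).symm
  rw [h3, pull_comp (tr_diff i j γ hp hj) (tr_diff j k γ' (tr_mem i j γ hp) (hom_tr i j k γ hp hj hk))]
  exact pull_val _ h2

/-- continuity of a pull-back -/
lemma continuousOn_pull {T : V → V} {S : Set V} (hS : IsOpen S) (hT : ContDiffOn ℂ ω T S)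
    (hTS : Set.MapsTo T S U) {h : V → Mat} (hh : ∀ j k, ContinuousOn (fun p => h p j k) U)
    (j k : Fin 3) : ContinuousOn (fun p => pull T h p j k) S := by
  have hT' : ContinuousOn T S := hT.continuousOn
  have h1 : ∀ l m : Fin 3, ContinuousOn (fun p => dz l (fun z' => T z' m) p) S := by
    intro l m
    have h2 : ContDiffOn ℝ (1 : ℕ∞) (fun z' => T z' m) S := by
      have h3 : ContDiffOn ℂ ω (fun z' => T z' m) S := by
        rw [contDiffOn_pi] at hT
        exact hT m
      exact (h3.restrict_scalars ℝ).of_le (by simp)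
    exact (contDiffOn_dz hS (a := 0) (b := 1) (by simp) h2).continuousOn
  have h4 : ∀ l m : Fin 3, ContinuousOn (fun p => h (T p) l m) S := fun l m =>
    (hh l m).comp hT' hTS
  unfold pull
  refine continuousOn_finsetSum _ fun l _ => continuousOn_finsetSum _ fun m _ => ?_
  exact ((h1 j l).mul (Complex.continuous_conj.comp_continuousOn (h1 k m))).mul (h4 l m)

end MetricAux

open MetricAux

/-- compatibility with all changes of charts -/
lemma Form11.pull_tr {W : Fin 3 → V → Mat} (hW : Form11 W) (i j : Fin 3) {γ : SL(2, ℝ)}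
    (hγ : γ ∈ Gp) {p : V} (hp : p ∈ U) (h : hom i p j ≠ 0) :
    W i p = pull (tr i j γ) (W j) p := by
  -- the case `i = j`
  have hself : ∀ (i : Fin 3) {γ : SL(2, ℝ)} (_ : γ ∈ Gp) {p : V} (_ : p ∈ U),
      W i p = pull (tr i i γ) (W i) p := by
    intro i γ hγ p hp
    rw [pull_congr (T' := act i γ)]
    · exact hW.equiv_act i hγ hp
    · filter_upwards [isOpen_U.mem_nhds hp] with w hw
      exact tr_self i γ hw
  -- the case `j = 2`
  have hB : ∀ (i : Fin 3) {γ : SL(2, ℝ)} (_ : γ ∈ Gp) {p : V} (_ : p ∈ U) (_ : hom i p 2 ≠ 0),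
      W i p = pull (tr i 2 γ) (W 2) p := by
    intro i γ hγ p hp h
    by_cases hi : i = 2
    · subst hi; exact hself 2 hγ hp
    have h2 : p 2 ≠ 0 := by
      fin_cases i <;> simp_all [hom]
    have hop : ∀ᶠ w in 𝓝 p, w ∈ U ∧ w 2 ≠ 0 := by
      filter_upwards [isOpen_U.mem_nhds hp,
        (isOpen_ne_fun (continuous_apply 2) continuous_const).mem_nhds h2] with w hw hw'
      exact ⟨hw, hw'⟩
    have hi' : i = 0 ∨ i = 1 := by fin_cases i <;> simp_all
    rcases hi' with rfl | rfl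
    · have h1 : pull (tr 0 2 γ) (W 2) p = pull (fun w => act2 γ (T0 w)) (W 2) p := by
        apply pull_congr
        filter_upwards [hop] with w hw
        exact tr02 γ hw.1 hw.2
      rw [h1, hW.pull0 p hp h2, pull_comp (T0_holo h2) (act2_holo γ (T0_mem.2 hp))]
      exact pull_val _ (hW.equiv γ hγ (T0 p) (T0_mem.2 hp))
    · have h1 : pull (tr 1 2 γ) (W 2) p = pull (fun w => act2 γ (T1 w)) (W 2) p := by
        apply pull_congr
        filter_upwards [hop] with w hw
        exact tr12 γ hw.1 hw.2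
      rw [h1, hW.pull1 p hp h2, pull_comp (T1_holo h2) (act2_holo γ (T1_mem.2 hp))]
      exact pull_val _ (hW.equiv γ hγ (T1 p) (T1_mem.2 hp))
  -- the case `i = 2`
  have hC : ∀ (j : Fin 3) {γ : SL(2, ℝ)} (_ : γ ∈ Gp) {p : V} (_ : p ∈ U) (_ : hom 2 p j ≠ 0),
      W 2 p = pull (tr 2 j γ) (W j) p := by
    intro j γ hγ p hp h
    have h2 : hom 2 p 2 ≠ 0 := by rw [hom_self]; exact one_ne_zero
    rw [comp_aux 2 j 2 γ 1 hp h h2 (hB j one_mem_Gp (tr_mem 2 j γ hp) (hom_tr 2 j 2 γ hp h h2)),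
      one_mul]
    exact hself 2 hγ hp
  -- the case `hom i p 2 ≠ 0`
  have hD : ∀ {p : V} (_ : p ∈ U) (_ : hom i p j ≠ 0) (_ : hom i p 2 ≠ 0),
      W i p = pull (tr i j γ) (W j) p := by
    intro p hp h h2
    have h3 := comp_aux i 2 j 1 γ hp h2 h (hC j hγ (tr_mem i 2 1 hp) (hom_tr i 2 j 1 hp h2 h))
    rw [mul_one] at h3
    rw [← h3]
    exact hB i one_mem_Gp hp h2
  by_cases h2 : hom i p 2 ≠ 0
  · exact hD hp h h2
  -- density
  have hi2 : i ≠ 2 := by
    rintro rfl
    exact h2 (by rw [hom_self]; exact one_ne_zero)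
  have hh2 : ∀ w : V, hom i w 2 = w 2 := by
    intro w
    fin_cases i <;> simp_all [hom]
  set D : Set V := {w | w 2 ≠ 0} with hDdef
  have hdense : Dense D :=
    (dense_compl_singleton (0 : ℂ)).preimage (isOpenMap_eval (2 : Fin 3))
  have hne : (𝓝[D] p).NeBot := mem_closure_iff_nhdsWithin_neBot.1 (hdense p)
  ext a b
  have hS := isOpen_hom i j
  have hc1 : ContinuousAt (fun w => W i w a b) p :=
    ((hW.smooth i a b).continuousOn).continuousAt (isOpen_U.mem_nhds hp)
  have hc2 : ContinuousAt (fun w => pull (tr i j γ) (W j) w a b) p :=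
    (continuousOn_pull hS (tr_holo i j γ) (fun w hw => tr_mem i j γ hw.1)
      (fun c d => (hW.smooth j c d).continuousOn) a b).continuousAt (hS.mem_nhds ⟨hp, h⟩)
  have hc1' := hc1.tendsto.mono_left (nhdsWithin_le_nhds (s := D))
  have hc2' := hc2.tendsto.mono_left (nhdsWithin_le_nhds (s := D))
  refine tendsto_nhds_unique hc1' (hc2'.congr' ?_)
  have hev : ∀ᶠ w in 𝓝[D] p, w ∈ U ∧ hom i w j ≠ 0 :=
    nhdsWithin_le_nhds (hS.mem_nhds ⟨hp, h⟩)
  filter_upwards [hev, self_mem_nhdsWithin] with w hw hw2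
  rw [hD hw.1 hw.2 (by rw [hh2]; exact hw2)]

/-- `G` is given by `W` -/
def Rep (G : HermitianMetric 3 M) (W : Fin 3 → V → Mat) : Prop :=
  ∀ i N, Small N → ∀ p : V, p 0 ∈ N → G.g (chart i N) p = W i p

namespace MetricAux

lemma isOpen_N {N : Set ℂ} (hN : Small N) : IsOpen {p : V | p 0 ∈ N} :=
  hN.1.preimage (continuous_apply 0)

lemma ev_N {N : Set ℂ} (hN : Small N) {p : V} (hp : p 0 ∈ N) : ∀ᶠ w in 𝓝 p, w 0 ∈ N :=
  (isOpen_N hN).mem_nhds hp

/-- if `tr i j γ p` lies in the target of `chart j N'` then the change of charts is `tr i j γ` -/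
lemma chart_eq_tr (i j : Fin 3) {γ : SL(2, ℝ)} (hγ : γ ∈ Gp) {N' : Set ℂ} (hN' : Small N') {p : V}
    (hp : p ∈ U) (h : hom i p j ≠ 0) (hp' : tr i j γ p 0 ∈ N') :
    pr i p ∈ (chart j N').source ∧ chart j N' (pr i p) = tr i j γ p := by
  have h1 : pr i p = pr j (tr i j γ p) := (pr_eq_iff i j hp (tr_mem i j γ hp)).2 ⟨h, γ, hγ, rfl⟩
  have h2 : tr i j γ p ∈ (chart j N').target := by rw [chart_target j hN']; exact hp'
  rw [h1, ← chart_symm j hN']
  exact ⟨(chart j N').map_target h2, (chart j N').right_inv h2⟩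

lemma chart_ev_tr (i j : Fin 3) {γ : SL(2, ℝ)} (hγ : γ ∈ Gp) {N' : Set ℂ} (hN' : Small N') {p : V}
    (hp : p ∈ U) (h : hom i p j ≠ 0) (hp' : tr i j γ p 0 ∈ N') :
    ∀ᶠ w in 𝓝 p, chart j N' (pr i w) = tr i j γ w := by
  have hc : ContinuousAt (tr i j γ) p := (tr_diff i j γ hp h).continuousAt
  filter_upwards [(isOpen_hom i j).mem_nhds ⟨hp, h⟩, hc.eventually (ev_N hN' hp')] with w hw hw'
  exact (chart_eq_tr i j hγ hN' hw.1 hw.2 hw').2

/-- the compatibility condition of a metric in terms of `tr` -/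
lemma compat_tr (G : HermitianMetric 3 M) (i j : Fin 3) {γ : SL(2, ℝ)} (hγ : γ ∈ Gp)
    {N N' : Set ℂ} (hN : Small N) (hN' : Small N') {p : V} (hp : p 0 ∈ N) (h : hom i p j ≠ 0)
    (hp' : tr i j γ p 0 ∈ N') :
    G.g (chart i N) p = pull (tr i j γ) (G.g (chart j N')) p := by
  have hpU := U_of_N hN hp
  rw [G.compat (chart i N) ⟨i, N, hN, rfl⟩ (chart j N') ⟨j, N', hN', rfl⟩ p
    (by rw [chart_target i hN]; exact hp)
    (by rw [chart_symm i hN]; exact (chart_eq_tr i j hγ hN' hpU h hp').1)]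
  apply pull_congr
  filter_upwards [chart_ev_tr i j hγ hN' hpU h hp'] with w hw
  rw [chart_symm i hN, hw]

lemma tr_self_one (i : Fin 3) {p : V} (hp : p ∈ U) : tr i i 1 p = p := by
  rw [tr_self i 1 hp]
  unfold act
  split_ifs
  · exact act2_one p
  · exact act0_one p

lemma compat_self (G : HermitianMetric 3 M) (i : Fin 3) {N N' : Set ℂ} (hN : Small N)
    (hN' : Small N') {p : V} (hp : p 0 ∈ N) (hp' : p 0 ∈ N') :
    G.g (chart i N) p = G.g (chart i N') p := by
  have hpU := U_of_N hN hp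
  rw [compat_tr G i i one_mem_Gp hN hN' hp (by rw [hom_self]; exact one_ne_zero)
    (by rw [tr_self_one i hpU]; exact hp')]
  rw [pull_congr (T' := fun w => w), pull_id]
  filter_upwards [isOpen_U.mem_nhds hpU] with w hw
  exact tr_self_one i hw

open Classical in
/-- the matrices in chart `i` of a metric -/
noncomputable def WG (G : HermitianMetric 3 M) (i : Fin 3) (p : V) : Mat :=
  if h : 0 < (p 0).im then G.g (chart i (exists_small_nhd h).choose) p else 0

lemma WG_eq (G : HermitianMetric 3 M) (i : Fin 3) {N : Set ℂ} (hN : Small N) {p : V}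
    (hp : p 0 ∈ N) : G.g (chart i N) p = WG G i p := by
  have hpU : 0 < (p 0).im := U_of_N hN hp
  unfold WG
  rw [dif_pos hpU]
  exact compat_self G i hN (exists_small_nhd hpU).choose_spec.1 hp
    (exists_small_nhd hpU).choose_spec.2

lemma WG_tr (G : HermitianMetric 3 M) (i j : Fin 3) {γ : SL(2, ℝ)} (hγ : γ ∈ Gp) {p : V}
    (hp : p ∈ U) (h : hom i p j ≠ 0) : WG G i p = pull (tr i j γ) (WG G j) p := by
  obtain ⟨N, hN, hpN⟩ := exists_small_nhd hp
  obtain ⟨N', hN', hpN'⟩ := exists_small_nhd (tr_mem i j γ hp)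
  rw [← WG_eq G i hN hpN, compat_tr G i j hγ hN hN' hpN h hpN']
  exact pull_val _ (WG_eq G j hN' hpN')

lemma WG_form11 (G : HermitianMetric 3 M) : Form11 (WG G) where
  smooth i a b := by
    intro p hp
    obtain ⟨N, hN, hpN⟩ := exists_small_nhd hp
    have h1 := G.smooth (chart i N) ⟨i, N, hN, rfl⟩ a b
    rw [chart_target i hN] at h1
    have h2 : ContDiffAt ℝ ∞ (fun z => G.g (chart i N) z a b) p :=
      (h1 p hpN).contDiffAt ((isOpen_N hN).mem_nhds hpN)
    refine (h2.congr_of_eventuallyEq ?_).contDiffWithinAt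
    filter_upwards [ev_N hN hpN] with w hw
    rw [WG_eq G i hN hw]
  herm i p hp := by
    obtain ⟨N, hN, hpN⟩ := exists_small_nhd hp
    rw [← WG_eq G i hN hpN]
    exact (G.posDef (chart i N) ⟨i, N, hN, rfl⟩ p
      (by rw [chart_target i hN]; exact hpN)).isHermitian
  pull0 p hp h2 := by
    rw [WG_tr G 0 2 one_mem_Gp hp (by simpa [hom] using h2)]
    apply pull_congr
    filter_upwards [isOpen_U.mem_nhds hp,
      (isOpen_ne_fun (continuous_apply 2) continuous_const).mem_nhds h2] with w hw hw'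
    rw [tr02 1 hw hw', act2_one]
  pull1 p hp h2 := by
    rw [WG_tr G 1 2 one_mem_Gp hp (by simpa [hom] using h2)]
    apply pull_congr
    filter_upwards [isOpen_U.mem_nhds hp,
      (isOpen_ne_fun (continuous_apply 2) continuous_const).mem_nhds h2] with w hw hw'
    rw [tr12 1 hw hw', act2_one]
  equiv γ hγ p hp := by
    rw [WG_tr G 2 2 hγ hp (by rw [hom_self]; exact one_ne_zero)]
    apply pull_congr
    filter_upwards [isOpen_U.mem_nhds hp] with w hw
    rw [tr_self 2 γ hw]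
    simp [act]

end MetricAux

theorem form_of_metric (G : HermitianMetric 3 M) : ∃ W, Form11 W ∧
    (∀ i, ∀ p ∈ U, (W i p).PosDef) ∧ Rep G W := by
  refine ⟨WG G, WG_form11 G, ?_, ?_⟩
  · intro i p hp
    obtain ⟨N, hN, hpN⟩ := exists_small_nhd hp
    rw [← WG_eq G i hN hpN]
    exact G.posDef (chart i N) ⟨i, N, hN, rfl⟩ p (by rw [chart_target i hN]; exact hpN)
  · intro i N hN p hp
    exact WG_eq G i hN hp

namespace MetricAux

/-- a nonempty chart determines its index -/
lemma chart_index {i j : Fin 3} {N N' : Set ℂ} (hN : Small N) (hN' : Small N')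
    (hne : N.Nonempty) (h : chart i N = chart j N') : i = j := by
  obtain ⟨z, hz⟩ := hne
  set p : V := ![z, 0, 0] with hp
  have hpN : p 0 ∈ N := by simpa [hp] using hz
  have hpU : p ∈ U := U_of_N hN hpN
  have h1 : pr i p = pr j p := by
    rw [← chart_symm i hN, ← chart_symm j hN', h]
  have h2 := ((pr_eq_iff i j hpU hpU).1 h1).1
  fin_cases i <;> fin_cases j <;> simp_all [hom]

open Classical in
/-- the metric given by a form -/
noncomputable def gOf (W : Fin 3 → V → Mat) (φ : OpenPartialHomeomorph M V) : V → Mat :=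
  if h : ∃ iN : Fin 3 × Set ℂ, Small iN.2 ∧ φ = chart iN.1 iN.2 then W h.choose.1 else 0

lemma gOf_eq (W : Fin 3 → V → Mat) (i : Fin 3) {N : Set ℂ} (hN : Small N) (hne : N.Nonempty) :
    gOf W (chart i N) = W i := by
  have h : ∃ iN : Fin 3 × Set ℂ, Small iN.2 ∧ chart i N = chart iN.1 iN.2 := ⟨(i, N), hN, rfl⟩
  unfold gOf
  rw [dif_pos h]
  exact congrArg W (chart_index hN h.choose_spec.1 hne h.choose_spec.2).symm

end MetricAux

theorem metric_of_form {W : Fin 3 → V → Mat} (hW : Form11 W)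
    (pW : ∀ i, ∀ p ∈ U, (W i p).PosDef) : ∃ G : HermitianMetric 3 M, Rep G W := by
  refine ⟨{ g := gOf W, smooth := ?_, posDef := ?_, compat := ?_ }, ?_⟩
  · rintro φ ⟨i, N, hN, rfl⟩ a b
    rw [chart_target i hN]
    intro p hp
    have hpN : p 0 ∈ N := hp
    rw [gOf_eq W i hN ⟨_, hpN⟩]
    exact (hW.smooth i a b).mono (fun q hq => U_of_N hN hq) p hp
  · rintro φ ⟨i, N, hN, rfl⟩ p hp
    rw [chart_target i hN] at hp
    have hpN : p 0 ∈ N := hp
    rw [gOf_eq W i hN ⟨_, hpN⟩]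
    exact pW i p (U_of_N hN hpN)
  · rintro φ ⟨i, N, hN, rfl⟩ ψ ⟨j, N', hN', rfl⟩ p hp hp'
    rw [chart_target i hN] at hp
    have hpN : p 0 ∈ N := hp
    rw [chart_symm i hN] at hp'
    obtain ⟨γ, hγ, h, htr, hev⟩ := chart_transition i j hN hN' hpN hp'
    rw [gOf_eq W i hN ⟨_, hpN⟩, gOf_eq W j hN' ⟨_, htr⟩,
      hW.pull_tr i j hγ (U_of_N hN hpN) h]
    apply pull_congr
    filter_upwards [hev] with w hw
    rw [chart_symm i hN, hw]
  · intro i N hN p hp
    exact congrFun (gOf_eq W i hN ⟨_, hp⟩) p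

theorem Rep.closed_iff {G : HermitianMetric 3 M} {W : Fin 3 → V → Mat} (h : Rep G W) :
    G.IsKahler ↔ Closed W := by
  constructor
  · intro hK i p hp a j k
    obtain ⟨N, hN, hpN⟩ := exists_small_nhd hp
    have h1 := hK (chart i N) ⟨i, N, hN, rfl⟩ p (by rw [chart_target i hN]; exact hpN) a j k
    have h2 : ∀ c d : Fin 3, (fun w => W i w c d) =ᶠ[𝓝 p] fun w => G.g (chart i N) w c d := by
      intro c d
      filter_upwards [ev_N hN hpN] with w hw
      rw [h i N hN w hw]
    rw [dz_congr (h2 j k), dz_congr (h2 a k)]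
    exact h1
  · rintro hC φ ⟨i, N, hN, rfl⟩ p hp a j k
    rw [chart_target i hN] at hp
    have hpN : p 0 ∈ N := hp
    have h2 : ∀ c d : Fin 3, (fun w => G.g (chart i N) w c d) =ᶠ[𝓝 p] fun w => W i w c d := by
      intro c d
      filter_upwards [ev_N hN hpN] with w hw
      rw [h i N hN w hw]
    rw [dz_congr (h2 j k), dz_congr (h2 a k)]
    exact hC i p (U_of_N hN hpN) a j k

namespace MetricAux

lemma contDiffOn_prod_entries {s : Set V} {A : V → Mat}
    (hA : ∀ j k, ContDiffOn ℝ ∞ (fun p => A p j k) s) (j k : Fin 3) :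
    ContDiffOn ℝ ∞ (fun p => (A p).adjugate j k) s := by
  have h : ∀ p, (A p).adjugate j k = ((A p).updateRow k (Pi.single j 1)).det := fun p => by
    rw [Matrix.adjugate_apply]
  simp only [h]
  simp only [Matrix.det_apply']
  refine ContDiffOn.sum fun σ _ => ?_
  refine contDiffOn_const.mul ?_
  refine contDiffOn_prod fun l _ => ?_
  by_cases hl : σ l = k
  · rw [hl]
    simp only [Matrix.updateRow_self]
    exact contDiffOn_const
  · simp only [Matrix.updateRow_ne hl]
    exact hA _ _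

end MetricAux

theorem Rep.gauduchon {G : HermitianMetric 3 M} {W : Fin 3 → V → Mat} (h : Rep G W)
    (hW : Form11 W)
    (hb : ∀ i, ∀ p ∈ U, ∀ k, ∑ j, dz j (fun p => (W i p).adjugate k j) p = 0) :
    G.IsGauduchon := by
  rintro φ ⟨i, N, hN, rfl⟩ p hp
  rw [chart_target i hN] at hp
  have hpN : p 0 ∈ N := hp
  have hpU := U_of_N hN hpN
  have hsm : ∀ j k, ContDiffOn ℝ ∞ (fun p => (W i p).adjugate j k) U :=
    contDiffOn_prod_entries (hW.smooth i)
  have hsm2 : ∀ j k, ContDiffAt ℝ 2 (fun p => (W i p).adjugate j k) p := fun j k =>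
    ((hsm j k).contDiffAt (isOpen_U.mem_nhds hpU)).of_le (by norm_cast)
  rw [Finset.sum_comm]
  refine Finset.sum_eq_zero fun k _ => ?_
  have h1 : ∀ j, dz j (dzb k (fun w => (G.g (chart i N) w).adjugate k j)) p =
      dzb k (dz j (fun w => (W i w).adjugate k j)) p := by
    intro j
    rw [← dz_dzb_comm (hsm2 k j)]
    apply dz_congr
    filter_upwards [(isOpen_N hN).mem_nhds hpN] with w hw
    apply dzb_congr
    filter_upwards [ev_N hN (show w 0 ∈ N from hw)] with w' hw'
    rw [h i N hN w' hw']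
  simp only [h1]
  have hd : ∀ j ∈ (Finset.univ : Finset (Fin 3)),
      DifferentiableAt ℝ (fun w => dz j (fun w => (W i w).adjugate k j) w) p := by
    intro j _
    have h2 := contDiffOn_dz (j := j) isOpen_U (a := 1) (b := ⊤) (by simp) (hsm k j)
    exact (h2.contDiffAt (isOpen_U.mem_nhds hpU)).differentiableAt (by simp)
  rw [← dzb_sum hd]
  rw [dzb_congr (g := fun _ => (0 : ℂ)), dzb_const]
  filter_upwards [isOpen_U.mem_nhds hpU] with w hw
  exact hb i w hw k

/-- the Chern scalar curvature upstairs -/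
theorem Rep.chernScalar {G : HermitianMetric 3 M} {W : Fin 3 → V → Mat} (h : Rep G W)
    (hW : Form11 W) (pW : ∀ i, ∀ p ∈ U, (W i p).PosDef) (i : Fin 3) {p : V} (hp : p ∈ U) :
    G.chernScalar (pr i p) = scal (W i) p := by
  obtain ⟨N, hN, hpN⟩ := exists_small_nhd hp
  obtain ⟨j, N', hN', hφ⟩ := mem_atlas_iff.1 (chart_mem_atlas V (pr i p))
  have hsrc : pr i p ∈ (chart j N').source := by
    rw [← hφ]; exact mem_chart_source V (pr i p)
  obtain ⟨γ, hγ, hom0, htr, hev⟩ := chart_transition i j hN hN' hpN hsrc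
  have hval : chart j N' (pr i p) = tr i j γ p := hev.self_of_nhds
  unfold HermitianMetric.chernScalar
  rw [hφ, hval]
  have hq : tr i j γ p ∈ U := tr_mem i j γ hp
  have h1 : scal (G.g (chart j N')) (tr i j γ p) = scal (W j) (tr i j γ p) := by
    apply scal_congr
    filter_upwards [ev_N hN' htr] with w hw
    exact h j N' hN' w hw
  have h2 : scal (W i) p = scal (fun w => pull (tr i j γ) (W j) w) p := by
    apply scal_congr
    filter_upwards [(isOpen_hom i j).mem_nhds ⟨hp, hom0⟩] with w hw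
    exact hW.pull_tr i j hγ hw.1 hw.2
  rw [h1, h2]
  symm
  apply scal_pull
  · exact (tr_holo i j γ).contDiffAt ((isOpen_hom i j).mem_nhds ⟨hp, hom0⟩)
  · intro h0
    have h3 : (W i p).det = normSq (Jac (tr i j γ) p).det * (W j (tr i j γ p)).det := by
      rw [← det_pull, ← hW.pull_tr i j hγ hp hom0]
    rw [h0] at h3
    have h4 := (pW i p hp).det_pos
    rw [h3] at h4
    simp at h4
  · filter_upwards [isOpen_U.mem_nhds hq] with w hw
    exact pW j w hw
  · intro a b
    exact ((hW.smooth j a b).contDiffAt (isOpen_U.mem_nhds hq)).of_le (by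
      exact WithTop.coe_le_coe.2 (le_top : (2 : ℕ∞) ≤ ⊤))

end Pool.Agent.KG
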