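import Mathlib
import Pool.Agent.KG.Metric

/-! # Module D2: the volume measure -/

open scoped ContDiff ComplexConjugate ComplexOrder Matrix Topology MatrixGroups Manifold
open Complex MeasureTheory Filter

namespace Pool.Agent.KG

instance : MeasurableSpace M := borel M
instance : BorelSpace M := ⟨rfl⟩

namespace VolAux

open SpaceAux

lemma im_pos_open : IsOpen {z : ℂ | 0 < z.im} := isOpen_lt continuous_const continuous_im

/-- the group is countable -/
lemma countable_Gp : Countable Gp := by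
  let K : ℕ → Set ℂ := fun n => Metric.closedBall 0 n ∩ {z | 1 / ((n : ℝ) + 1) ≤ z.im}
  have hK : ∀ n, IsCompact (K n) := fun n =>
    (isCompact_closedBall _ _).inter_right (isClosed_le continuous_const continuous_im)
  have hK' : ∀ n, K n ⊆ {z | 0 < z.im} := fun n z hz =>
    lt_of_lt_of_le (by positivity : (0 : ℝ) < 1 / ((n : ℝ) + 1)) hz.2
  have hmem : ∀ z : ℂ, 0 < z.im → ∃ n₀, ∀ n ≥ n₀, z ∈ K n := by
    intro z hz
    obtain ⟨n₁, h1⟩ := exists_nat_ge ‖z‖
    obtain ⟨n₂, h2⟩ := exists_nat_ge (1 / z.im)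
    refine ⟨max n₁ n₂, fun n hn => ⟨?_, ?_⟩⟩
    · rw [mem_closedBall_zero_iff]
      exact h1.trans (by exact_mod_cast (le_max_left _ _).trans hn)
    · show 1 / ((n : ℝ) + 1) ≤ z.im
      have h3 : 1 / z.im ≤ (n : ℝ) + 1 :=
        h2.trans ((by exact_mod_cast (le_max_right _ _).trans hn : (n₂ : ℝ) ≤ n).trans (by linarith))
      rw [div_le_iff₀ (by positivity)]
      rw [div_le_iff₀ hz] at h3
      linarith
  have hc : (Gp : Set SL(2, ℝ)).Countable := by
    have h1 : (Gp : Set SL(2, ℝ)) ⊆ ⋃ n, {γ : SL(2, ℝ) | γ ∈ Gp ∧ ∃ z ∈ K n, mob γ z ∈ K n} := by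
      intro γ hγ
      obtain ⟨n₁, h1⟩ := hmem I (by simp)
      obtain ⟨n₂, h2⟩ := hmem (mob γ I) (mob_im (by simp))
      exact Set.mem_iUnion.2 ⟨max n₁ n₂, hγ, I, h1 _ (le_max_left _ _), h2 _ (le_max_right _ _)⟩
    exact (Set.countable_iUnion fun n => (mob_proper (hK n) (hK' n)).countable).mono h1
  exact hc.to_subtype

lemma tr_inv (i : Fin 3) (γ : SL(2, ℝ)) {p : V} (hp : p ∈ U) (h : hom i p 2 ≠ 0) :
    tr 2 i γ⁻¹ (tr i 2 γ p) = p := by
  rw [tr_tr i 2 i γ γ⁻¹ hp h (by rw [hom_self]; exact one_ne_zero), inv_mul_cancel, tr_eq, mob_one,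
    lin_one, crd_hom]

lemma isOpen_dom (i : Fin 3) : IsOpen {p : V | p ∈ U ∧ hom i p 2 ≠ 0} :=
  isOpen_U.inter (isOpen_ne_fun ((continuous_apply 2).comp (continuous_hom i)) continuous_const)

lemma tr_diff (i : Fin 3) (γ : SL(2, ℝ)) {p : V} (hp : p ∈ U) (h : hom i p 2 ≠ 0) :
    DifferentiableAt ℂ (tr i 2 γ) p :=
  ((tr_holo i 2 γ).differentiableOn (by simp)).differentiableAt ((isOpen_dom i).mem_nhds ⟨hp, h⟩)

/-- the density of the measure in chart `i` -/
noncomputable def dens (W : Fin 3 → V → Mat) (i : Fin 3) (p : V) : ℝ := 8 * (W i p).det.re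

lemma dens_nonneg {W : Fin 3 → V → Mat} (pW : ∀ i, ∀ p ∈ U, (W i p).PosDef) (i : Fin 3) {p : V}
    (hp : p ∈ U) : 0 ≤ dens W i p := by
  have h := (pW i p hp).det_pos
  have h' : 0 < (W i p).det.re := (Complex.lt_def.1 h).1
  unfold dens
  positivity

lemma dens_tr {W : Fin 3 → V → Mat} (hW : Form11 W) (i : Fin 3) {γ : SL(2, ℝ)} (hγ : γ ∈ Gp)
    {p : V} (hp : p ∈ U) (h : hom i p 2 ≠ 0) :
    |(fderiv ℝ (tr i 2 γ) p).det| * dens W 2 (tr i 2 γ p) = dens W i p := by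
  unfold dens
  rw [abs_det_fderiv (tr_diff i γ hp h), hW.pull_tr i 2 hγ hp h, det_pull, ← ofReal_re (normSq _),
    re_ofReal_mul, ofReal_re]
  ring

/-- the preimage of a small set in chart 2 -/
lemma preimage_eq (i : Fin 3) {N : Set ℂ} (hN : Small N) {A : Set M}
    (hA : A ⊆ pr i '' {p | p 0 ∈ N}) :
    pr 2 ⁻¹' A ∩ U = ⋃ γ : Gp, tr i 2 γ '' {p | p 0 ∈ N ∧ pr i p ∈ A ∧ hom i p 2 ≠ 0} := by
  ext q
  rw [Set.mem_iUnion]
  constructor
  · rintro ⟨h1, h2⟩
    obtain ⟨p, hp, hpq⟩ := hA h1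
    obtain ⟨h3, γ, hγ, h4⟩ := (pr_eq_iff i 2 (hN.2.1 hp) h2).1 hpq
    exact ⟨⟨γ, hγ⟩, p, ⟨hp, hpq ▸ h1, h3⟩, h4.symm⟩
  · rintro ⟨γ, p, ⟨hp, h1, h2⟩, rfl⟩
    have h3 : tr i 2 γ p ∈ U := tr_mem i 2 γ (hN.2.1 hp)
    refine ⟨?_, h3⟩
    rw [Set.mem_preimage, ← (pr_eq_iff i 2 (hN.2.1 hp) h3).2 ⟨h2, γ, γ.2, rfl⟩]
    exact h1

lemma disj (i : Fin 3) {N : Set ℂ} (hN : Small N) (A : Set M) :
    Pairwise (Function.onFun Disjoint fun γ : Gp =>
      tr i 2 γ '' {p | p 0 ∈ N ∧ pr i p ∈ A ∧ hom i p 2 ≠ 0}) := by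
  intro γ γ' hne
  rw [Function.onFun, Set.disjoint_left]
  rintro q ⟨p, ⟨hp, -, h1⟩, rfl⟩ ⟨p', ⟨hp', -, h1'⟩, h2⟩
  have h3 : tr i 2 γ p ∈ U := tr_mem i 2 γ (hN.2.1 hp)
  have h4 : pr i p = pr 2 (tr i 2 γ p) := (pr_eq_iff i 2 (hN.2.1 hp) h3).2 ⟨h1, γ, γ.2, rfl⟩
  have h5 : pr i p' = pr 2 (tr i 2 γ p) :=
    (pr_eq_iff i 2 (hN.2.1 hp') h3).2 ⟨h1', γ', γ'.2, h2.symm⟩
  have h6 : p' = p := pr_injOn i hN hp' hp (h5.trans h4.symm)
  subst h6
  have h7 : mob γ' (p' 0) = mob γ (p' 0) := by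
    have := congrFun h2 0
    rwa [tr_eq, tr_eq, crd_zero, crd_zero] at this
  have h8 : mob ((γ : SL(2, ℝ))⁻¹ * γ') (p' 0) = p' 0 := by
    rw [mob_mul _ _ (hN.2.1 hp), h7, ← mob_mul _ _ (hN.2.1 hp), inv_mul_cancel, mob_one]
  have h9 := mob_free (mul_mem (inv_mem γ.2) γ'.2) (hN.2.1 hp) h8
  exact hne (Subtype.ext (inv_mul_eq_one.1 h9))

lemma measurableSet_pr (i : Fin 3) {A : Set M} (hA : MeasurableSet A) :
    MeasurableSet (pr i ⁻¹' A ∩ U) := by
  have h1 : Continuous (U.domRestrict (pr i)) :=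
    continuousOn_iff_continuous_domRestrict.1 (pr_continuousOn i)
  have h2 : pr i ⁻¹' A ∩ U = Subtype.val '' (U.domRestrict (pr i) ⁻¹' A) := by
    ext p
    simp only [Set.mem_inter_iff, Set.mem_preimage, Set.mem_image, Subtype.exists, exists_and_right,
      exists_eq_right]
    constructor
    · rintro ⟨h1, h2⟩
      exact ⟨h2, h1⟩
    · rintro ⟨h1, h2⟩
      exact ⟨h2, h1⟩
  rw [h2]
  exact MeasurableSet.subtype_image isOpen_U.measurableSet (h1.measurable hA)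

lemma measurableSet_dom (i : Fin 3) {N : Set ℂ} (hN : Small N) {A : Set M} (hA : MeasurableSet A) :
    MeasurableSet {p : V | p 0 ∈ N ∧ pr i p ∈ A} := by
  have h : {p : V | p 0 ∈ N ∧ pr i p ∈ A} = {p | p 0 ∈ N} ∩ (pr i ⁻¹' A ∩ U) := by
    ext p
    exact ⟨fun h => ⟨h.1, h.2, hN.2.1 h.1⟩, fun h => ⟨h.1, h.2.1⟩⟩
  rw [h]
  exact (hN.1.preimage (continuous_apply 0)).measurableSet.inter (measurableSet_pr i hA)

lemma measurableSet_dom' (i : Fin 3) {N : Set ℂ} (hN : Small N) {A : Set M}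
    (hA : MeasurableSet A) : MeasurableSet {p : V | p 0 ∈ N ∧ pr i p ∈ A ∧ hom i p 2 ≠ 0} := by
  have h : {p : V | p 0 ∈ N ∧ pr i p ∈ A ∧ hom i p 2 ≠ 0} =
      {p : V | p 0 ∈ N ∧ pr i p ∈ A} ∩ {p : V | hom i p 2 ≠ 0} := by
    ext p
    exact ⟨fun h => ⟨⟨h.1, h.2.1⟩, h.2.2⟩, fun h => ⟨h.1.1, h.1.2, h.2⟩⟩
  rw [h]
  exact (measurableSet_dom i hN hA).inter
    (isOpen_ne_fun ((continuous_apply 2).comp (continuous_hom i)) continuous_const).measurableSet

lemma null_hom (i : Fin 3) : volume {p : V | hom i p 2 = 0} = 0 := by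
  have h : {p : V | hom i p 2 = 0} ⊆ {p : V | p 2 = 0} := by
    intro p hp
    fin_cases i <;> simp_all [hom]
  refine measure_mono_null h ?_
  rw [volume_pi]
  exact Measure.pi_hyperplane _ 2 0

lemma sum_psi {ψ : ℂ → ℝ} (hψ : IsPsi ψ) {z : ℂ} (hz : 0 < z.im) {c : ℝ} (hc : 0 ≤ c) :
    ∑' γ : Gp, ENNReal.ofReal (ψ (mob γ z) * c) = ENNReal.ofReal c := by
  have hfin : (Function.support fun γ : Gp => ψ (mob γ z)).Finite := by
    have h1 := (hψ.fin {z} isCompact_singleton (by simpa using hz)).preimage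
      (f := fun γ : Gp => (γ : SL(2, ℝ))) Subtype.val_injective.injOn
    refine h1.subset fun γ hγ => ⟨γ.2, z, rfl, hγ⟩
  have hsum : Summable fun γ : Gp => ψ (mob γ z) := summable_of_hasFiniteSupport hfin
  have h1 : ∑' γ : Gp, ψ (mob γ z) = 1 := by
    rw [tsum_eq_finsum hfin]
    exact hψ.sum z hz
  rw [← ENNReal.ofReal_tsum_of_nonneg (fun γ => mul_nonneg (hψ.nonneg _) hc) (hsum.mul_right c),
    tsum_mul_right, h1, one_mul]

lemma continuousOn_dens {W : Fin 3 → V → Mat} (hW : Form11 W) (i : Fin 3) :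
    ContinuousOn (dens W i) U := by
  have h1 : ∀ j k, ContinuousOn (fun p => W i p j k) U := fun j k => (hW.smooth i j k).continuousOn
  unfold dens
  refine continuousOn_const.mul (continuous_re.comp_continuousOn ?_)
  simp only [Matrix.det_fin_three]
  fun_prop

lemma aemeasurable_dens {ψ : ℂ → ℝ} (hψ : IsPsi ψ) {W : Fin 3 → V → Mat} (hW : Form11 W)
    (i : Fin 3) (γ : SL(2, ℝ)) : AEMeasurable
      (fun p => ENNReal.ofReal (ψ (mob γ (p 0)) * dens W i p)) (volume.restrict U) := by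
  refine AEMeasurable.ennreal_ofReal ?_
  refine ContinuousOn.aemeasurable ?_ isOpen_U.measurableSet
  refine ContinuousOn.mul ?_ (continuousOn_dens hW i)
  exact hψ.smooth.continuous.comp_continuousOn ((continuousOn_mob γ).comp
    (continuous_apply 0).continuousOn fun p hp => hp)

/-- the measure -/
noncomputable def μ₀ (ψ : ℂ → ℝ) (W : Fin 3 → V → Mat) : Measure M :=
  Measure.map (pr 2) ((volume.restrict U).withDensity
      (fun p => ENNReal.ofReal (ψ (p 0) * (8 * (W 2 p).det.re))))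

lemma aemeasurable_pr (f : V → ENNReal) :
    AEMeasurable (pr 2) ((volume.restrict U).withDensity f) :=
  ((pr_continuousOn 2).aemeasurable isOpen_U.measurableSet).mono_ac
    (withDensity_absolutelyContinuous _ _)

theorem μ₀_apply {ψ : ℂ → ℝ} (hψ : IsPsi ψ) {W : Fin 3 → V → Mat} (hW : Form11 W)
    (pW : ∀ i, ∀ p ∈ U, (W i p).PosDef) (i : Fin 3) {N : Set ℂ} (hN : Small N) {A : Set M}
    (hA : MeasurableSet A) (hA' : A ⊆ pr i '' {p | p 0 ∈ N}) :
    μ₀ ψ W A = ∫⁻ p in {p : V | p 0 ∈ N ∧ pr i p ∈ A}, ENNReal.ofReal (dens W i p) := by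
  have hc := countable_Gp
  set S' : Set V := {p | p 0 ∈ N ∧ pr i p ∈ A ∧ hom i p 2 ≠ 0} with hS'
  have hmS' : MeasurableSet S' := measurableSet_dom' i hN hA
  have hS'U : S' ⊆ U := fun p hp => hN.2.1 hp.1
  have hinj : ∀ γ : SL(2, ℝ), Set.InjOn (tr i 2 γ) S' := by
    intro γ p hp q hq h
    rw [← tr_inv i γ (hS'U hp) hp.2.2, h, tr_inv i γ (hS'U hq) hq.2.2]
  have hder : ∀ γ : SL(2, ℝ), ∀ p ∈ S',
      HasFDerivWithinAt (tr i 2 γ) (fderiv ℝ (tr i 2 γ) p) S' p := fun γ p hp =>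
    ((tr_diff i γ (hS'U hp) hp.2.2).restrictScalars ℝ).hasFDerivAt.hasFDerivWithinAt
  have hmi : ∀ γ : SL(2, ℝ), MeasurableSet (tr i 2 γ '' S') := fun γ =>
    measurable_image_of_fderivWithin hmS' (hder γ) (hinj γ)
  have hac : volume.restrict S' ≤ volume.restrict U := Measure.restrict_mono hS'U le_rfl
  rw [μ₀, Measure.map_apply_of_aemeasurable (aemeasurable_pr _) hA, withDensity_apply',
    Measure.restrict_restrict' isOpen_U.measurableSet, preimage_eq i hN hA',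
    lintegral_iUnion (fun γ : Gp => hmi γ) (disj i hN A)]
  have h1 : ∀ γ : Gp, ∫⁻ p in tr i 2 γ '' S', ENNReal.ofReal (ψ (p 0) * (8 * (W 2 p).det.re)) =
      ∫⁻ p in S', ENNReal.ofReal (ψ (mob γ (p 0)) * dens W i p) := by
    intro γ
    rw [lintegral_image_eq_lintegral_abs_det_fderiv_mul volume hmS' (hder γ) (hinj γ)]
    refine setLIntegral_congr_fun hmS' fun p hp => ?_
    rw [← ENNReal.ofReal_mul (abs_nonneg _)]
    congr 1
    have h2 := dens_tr hW i γ.2 (hS'U hp) hp.2.2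
    have h3 : tr i 2 γ p 0 = mob γ (p 0) := by rw [tr_eq, crd_zero]
    rw [← h2, h3]
    unfold dens
    ring
  simp only [h1]
  rw [← lintegral_tsum fun γ : Gp => (aemeasurable_dens hψ hW i γ).mono_measure hac]
  have h2 : ∫⁻ p in S', ∑' γ : Gp, ENNReal.ofReal (ψ (mob γ (p 0)) * dens W i p) =
      ∫⁻ p in S', ENNReal.ofReal (dens W i p) :=
    setLIntegral_congr_fun hmS' fun p hp => sum_psi hψ (hS'U hp) (dens_nonneg pW i (hS'U hp))
  rw [h2]
  refine setLIntegral_congr ?_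
  refine Filter.eventuallyLE_antisymm_iff.2 ⟨?_, ?_⟩ |>.symm.symm
  · exact Filter.Eventually.of_forall fun p hp => ⟨hp.1, hp.2.1⟩
  · have h3 : ∀ᵐ p : V, hom i p 2 ≠ 0 := by
      rw [ae_iff]
      simpa using null_hom i
    filter_upwards [h3] with p hp h4
    exact ⟨h4.1, h4.2, hp⟩

lemma chart_image (i : Fin 3) {N : Set ℂ} (hN : Small N) {A : Set M}
    (hA : A ⊆ (chart i N).source) : chart i N '' A = {p : V | p 0 ∈ N ∧ pr i p ∈ A} := by
  ext p
  constructor
  · rintro ⟨x, hx, rfl⟩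
    have h1 := (chart i N).map_source (hA hx)
    rw [chart_target i hN] at h1
    refine ⟨h1, ?_⟩
    rw [← chart_symm i hN, (chart i N).left_inv (hA hx)]
    exact hx
  · rintro ⟨h1, h2⟩
    refine ⟨pr i p, h2, ?_⟩
    rw [← chart_symm i hN, (chart i N).right_inv (by rw [chart_target i hN]; exact h1)]

lemma lint_eq {G : HermitianMetric 3 M} {W : Fin 3 → V → Mat}
    (h : Rep G W) (i : Fin 3) {N : Set ℂ} (hN : Small N) {A : Set M} (hA : MeasurableSet A)
    (hA' : A ⊆ (chart i N).source) :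
    ∫⁻ z in chart i N '' A, ENNReal.ofReal (2 ^ 3 * (G.g (chart i N) z).det.re) =
      ∫⁻ p in {p : V | p 0 ∈ N ∧ pr i p ∈ A}, ENNReal.ofReal (dens W i p) := by
  rw [chart_image i hN hA']
  refine setLIntegral_congr_fun (measurableSet_dom i hN hA) fun p hp => ?_
  rw [h i N hN p hp.1]
  unfold dens
  norm_num

end VolAux

open VolAux

theorem exists_volume {ψ : ℂ → ℝ} (hψ : IsPsi ψ) {G : HermitianMetric 3 M} {W : Fin 3 → V → Mat}
    (h : Rep G W) (hW : Form11 W) (pW : ∀ i, ∀ p ∈ U, (W i p).PosDef) :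
    G.IsVolume (Measure.map (pr 2) ((volume.restrict U).withDensity
      (fun p => ENNReal.ofReal (ψ (p 0) * (8 * (W 2 p).det.re))))) := by
  rintro φ ⟨i, N, hN, rfl⟩ A hA hmA
  rw [lint_eq h i hN hmA hA]
  exact μ₀_apply hψ hW pW i hN hmA (by rw [← chart_source i hN]; exact hA)

/-- the measure on `M` is the image under chart 2 of `ψ · 8 det W · Lebesgue` -/
theorem volume_eq {ψ : ℂ → ℝ} (hψ : IsPsi ψ) {G : HermitianMetric 3 M} {W : Fin 3 → V → Mat}
    (h : Rep G W) (hW : Form11 W) (pW : ∀ i, ∀ p ∈ U, (W i p).PosDef) {μ : Measure M}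
    (hμ : G.IsVolume μ) :
    μ = Measure.map (pr 2) ((volume.restrict U).withDensity
      (fun p => ENNReal.ofReal (ψ (p 0) * (8 * (W 2 p).det.re)))) := by
  have hμ₀ := exists_volume hψ h hW pW
  have hM := M_compact
  obtain ⟨t, ht⟩ := CompactSpace.elim_nhds_subcover (fun x : M => (chartAt V x).source)
    fun x => chart_source_mem_nhds V x
  refine Measure.ext_of_iUnion_eq_univ (ι := t) (s := fun x => (chartAt V (x : M)).source) ?_
    fun x => ?_
  · rw [← Set.top_eq_univ, ← ht, Set.iUnion_subtype]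
  · refine Measure.ext fun A hA => ?_
    have ho : MeasurableSet (chartAt V (x : M)).source := (chartAt V (x : M)).open_source.measurableSet
    rw [Measure.restrict_apply hA, Measure.restrict_apply hA,
      hμ _ (chart_mem_atlas V (x : M)) _ Set.inter_subset_right (hA.inter ho),
      hμ₀ _ (chart_mem_atlas V (x : M)) _ Set.inter_subset_right (hA.inter ho)]

namespace VolAux

lemma continuousOn_scal {W : Fin 3 → V → Mat} (hW : Form11 W)
    (pW : ∀ i, ∀ p ∈ U, (W i p).PosDef) (i : Fin 3) : ContinuousOn (scal (W i)) U := by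
  have hs : ∀ j k, ContDiffOn ℝ ∞ (fun p => W i p j k) U := hW.smooth i
  have hdet : ContDiffOn ℝ ∞ (fun p => (W i p).det) U := by
    simp only [Matrix.det_fin_three]
    have := fun j k => hs j k
    exact (((((((hs 0 0).mul (hs 1 1)).mul (hs 2 2)).sub (((hs 0 0).mul (hs 1 2)).mul (hs 2 1))).sub
      (((hs 0 1).mul (hs 1 0)).mul (hs 2 2))).add (((hs 0 1).mul (hs 1 2)).mul (hs 2 0))).add
      (((hs 0 2).mul (hs 1 0)).mul (hs 2 1))).sub (((hs 0 2).mul (hs 1 1)).mul (hs 2 0))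
  have hpos : ∀ p ∈ U, 0 < (W i p).det.re := fun p hp =>
    (Complex.lt_def.1 (pW i p hp).det_pos).1
  have hlog : ContDiffOn ℝ ∞ (fun w => (Real.log (W i w).det.re : ℂ)) U :=
    Complex.ofRealCLM.contDiff.comp_contDiffOn
      ((Complex.reCLM.contDiff.comp_contDiffOn hdet).log fun p hp => (hpos p hp).ne')
  have hd : ∀ j k, ContinuousOn
      (fun p => dz j (dzb k (fun w => (Real.log (W i w).det.re : ℂ))) p) U := by
    intro j k
    have h1 := contDiffOn_dzb (j := k) isOpen_U (a := ⊤) (b := ⊤) (by simp) hlog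
    have h2 := contDiffOn_dz (j := j) isOpen_U (a := ⊤) (b := ⊤) (by simp) h1
    exact h2.continuousOn
  have hinv : ∀ j k, ContinuousOn (fun p => (W i p)⁻¹ k j) U := by
    intro j k
    have h1 : ∀ p ∈ U, (W i p)⁻¹ k j = ((W i p).det)⁻¹ * (W i p).adjugate k j := by
      intro p _
      rw [Matrix.inv_def, Ring.inverse_eq_inv', Matrix.smul_apply, smul_eq_mul]
    refine ContinuousOn.congr ?_ h1
    refine (hdet.continuousOn.inv₀ fun p hp h0 => ?_).mul ?_
    · have := hpos p hp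
      rw [h0] at this
      simp at this
    · have h2 : Continuous (U.domRestrict (W i)) := by
        refine continuous_matrix fun a b => ?_
        exact continuousOn_iff_continuous_domRestrict.1 (hs a b).continuousOn
      have h3 := h2.matrix_adjugate.matrix_elem k j
      exact continuousOn_iff_continuous_domRestrict.2 h3
  unfold scal
  refine continuous_re.comp_continuousOn (ContinuousOn.neg ?_)
  refine continuousOn_finsetSum _ fun j _ => continuousOn_finsetSum _ fun k _ => ?_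
  exact (hinv j k).mul (hd j k)

lemma continuous_chernScalar {G : HermitianMetric 3 M} {W : Fin 3 → V → Mat} (h : Rep G W)
    (hW : Form11 W) (pW : ∀ i, ∀ p ∈ U, (W i p).PosDef) : Continuous G.chernScalar := by
  rw [continuous_iff_continuousAt]
  intro x
  obtain ⟨i, p, hp, rfl⟩ := pr_surj x
  intro s hs
  rw [h.chernScalar hW pW i hp] at hs
  have h1 : scal (W i) ⁻¹' s ∈ 𝓝 p :=
    ((continuousOn_scal hW pW i).continuousAt (isOpen_U.mem_nhds hp)) hs
  obtain ⟨O, hO1, hO2, hO3⟩ := mem_nhds_iff.1 (Filter.inter_mem h1 (isOpen_U.mem_nhds hp))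
  rw [Filter.mem_map]
  refine mem_nhds_iff.2 ⟨pr i '' O, ?_, pr_open i hO2 fun q hq => (hO1 hq).2, p, hO3, rfl⟩
  rintro _ ⟨q, hq, rfl⟩
  rw [Set.mem_preimage, h.chernScalar hW pW i (hO1 hq).2]
  exact (hO1 hq).1

end VolAux

theorem integral_chernScalar {ψ : ℂ → ℝ} (hψ : IsPsi ψ) {G : HermitianMetric 3 M}
    {W : Fin 3 → V → Mat} (h : Rep G W) (hW : Form11 W) (pW : ∀ i, ∀ p ∈ U, (W i p).PosDef)
    {μ : Measure M} (hμ : G.IsVolume μ) :
    ∫ x, G.chernScalar x ∂μ = 8 * total ψ W := by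
  have hcont := continuous_chernScalar h hW pW
  rw [volume_eq hψ h hW pW hμ, integral_map (aemeasurable_pr _)
    hcont.measurable.aestronglyMeasurable]
  have hm : AEMeasurable (fun p => ENNReal.ofReal (ψ (p 0) * (8 * (W 2 p).det.re)))
      (volume.restrict U) := by
    have h1 := aemeasurable_dens hψ hW 2 1
    simp only [mob_one] at h1
    exact h1
  rw [integral_withDensity_eq_integral_toReal_smul₀ hm
    (Filter.Eventually.of_forall fun p => ENNReal.ofReal_lt_top), total, ← integral_const_mul]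
  refine setIntegral_congr_fun isOpen_U.measurableSet fun p hp => ?_
  have h0 : 0 ≤ ψ (p 0) * (8 * (W 2 p).det.re) :=
    mul_nonneg (hψ.nonneg _) (dens_nonneg pW 2 hp)
  rw [h.chernScalar hW pW 2 hp, ENNReal.toReal_ofReal h0, smul_eq_mul]
  ring

end Pool.Agent.KG
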