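import Mathlib
import Pool.Agent.KG.Volume
import Pool.Agent.KG.Key
import Pool.Agent.KG.Balanced

/-! # Final assembly -/

open scoped ContDiff ComplexConjugate ComplexOrder Matrix Topology MatrixGroups Manifold
open Complex MeasureTheory Filter

namespace Pool.Agent.KG

theorem final : ∃ (M : Type) (_ : TopologicalSpace M) (_ : ChartedSpace (Fin 3 → ℂ) M)
    (_ : MeasurableSpace M) (_ : BorelSpace M), IsCompactComplexManifold 3 M ∧
    (∃ G : HermitianMetric 3 M, G.IsKahler) ∧
    (∃ (G : HermitianMetric 3 M) (μ : Measure M), G.IsGauduchon ∧ G.IsVolume μ ∧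
      ∫ x, G.chernScalar x ∂μ < 0) ∧
    (∀ (G : HermitianMetric 3 M) (μ : Measure M), G.IsKahler → G.IsVolume μ →
      0 < ∫ x, G.chernScalar x ∂μ) := by
  obtain ⟨ψ, hψ⟩ := exists_psi
  refine ⟨M, inferInstance, inferInstance, inferInstance, inferInstance,
    M_isCompactComplexManifold, ?_, ?_, ?_⟩
  · have h1 : Form11 (fun i p => Th i p + fF i p) := (ThD_form11 one_pos).add fF_form11
    have h2 : Closed (fun i p => Th i p + fF i p) :=
      Closed.add (ThD_form11 one_pos) fF_form11 (ThD_closed one_pos) fF_closed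
    obtain ⟨G, hG⟩ := metric_of_form h1 (fun i p hp => Th_fF_posDef hp i)
    exact ⟨G, hG.closed_iff.2 h2⟩
  · obtain ⟨W, hW, pW, hb, ht⟩ := exists_balanced hψ
    obtain ⟨G, hG⟩ := metric_of_form hW pW
    refine ⟨G, _, hG.gauduchon hW hb, exists_volume hψ hG hW pW, ?_⟩
    rw [integral_chernScalar hψ hG hW pW (exists_volume hψ hG hW pW)]
    linarith
  · intro G μ hK hμ
    obtain ⟨W, hW, pW, hG⟩ := form_of_metric G
    rw [integral_chernScalar hψ hG hW pW hμ]
    have := kahler_total_pos hψ hW (hG.closed_iff.1 hK) pW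
    linarith

end Pool.Agent.KG
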