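import Mathlib
import Pool.Agent.KG.Final

/-!
# MP_38461c_gt, case (b) of Q1: disproved

`M = Γ \ (ℍ × P²)` for a cocompact torsion free Fuchsian group `Γ`, where `γ` acts by
`γ (z, [w₀ : w₁ : w₂]) = (γ z, [w₀ : w₁ : (cz+d) w₂])`.
-/

open MeasureTheory

namespace Pool.Agent.Results.MP_38461c_gt.NegativeCase

open Pool.Agent.KG

/-- There is a compact connected complex threefold `M` with a Kähler metric and with a Gauduchon
metric of negative total Chern scalar curvature, such that every Kähler metric on `M` has positive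
total Chern scalar curvature. -/
theorem result : ∃ (M : Type) (_ : TopologicalSpace M) (_ : ChartedSpace (Fin 3 → ℂ) M)
    (_ : MeasurableSpace M) (_ : BorelSpace M), IsCompactComplexManifold 3 M ∧
    (∃ G : HermitianMetric 3 M, G.IsKahler) ∧
    (∃ (G : HermitianMetric 3 M) (μ : Measure M), G.IsGauduchon ∧ G.IsVolume μ ∧
      ∫ x, G.chernScalar x ∂μ < 0) ∧
    (∀ (G : HermitianMetric 3 M) (μ : Measure M), G.IsKahler → G.IsVolume μ →
      0 < ∫ x, G.chernScalar x ∂μ) := final

end Pool.Agent.Results.MP_38461c_gt.NegativeCase
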